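import Pool.Agent.PfA.Defs

/-! MP_f2c8f8_an, project PfA, row PF-10 -/

set_option autoImplicit false

open Filter MeasureTheory ValueDistribution Metric
open scoped ComplexConjugate Topology

noncomputable section

namespace Pool.Agent.PfA

theorem pf10_piece {F : ℝ → ℝ} {f : ℝ → ℝ} {a : ℝ} (ha : 0 < a)
    (hF : ∀ t, 0 < t → HasDerivAt F (f t) t) (t : ℝ) :
    HasDerivWithinAt (fun s => F (max s a) - F a) (if a ≤ t then f t else 0) (Set.Ici t) t := by
  by_cases h : a ≤ t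
  · rw [if_pos h]
    have h1 : HasDerivWithinAt (fun s => F s - F a) (f t) (Set.Ici t) t :=
      ((hF t (ha.trans_le h)).hasDerivWithinAt).sub_const _
    refine h1.congr (fun s hs => ?_) ?_
    · rw [max_eq_left (h.trans hs)]
    · rw [max_eq_left h]
  · rw [if_neg h]
    have h2 : (fun s => F (max s a) - F a) =ᶠ[𝓝 t] fun _ => (0 : ℝ) := by
      filter_upwards [Iio_mem_nhds (not_le.1 h)] with s hs
      rw [max_eq_right (le_of_lt hs), sub_self]
    exact ((hasDerivAt_const t (0 : ℝ)).congr_of_eventuallyEq h2).hasDerivWithinAt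

theorem pf10_main {ι : Type*} (S : Finset ι) (x w : ι → ℝ) {r R : ℝ} (hr : 0 < r)
    (hrR : r < R) (hx : ∀ i ∈ S, r < x i ∧ x i < R) (F f : ι → ℝ → ℝ) (K k : ℝ → ℝ)
    (hF : ∀ i ∈ S, ∀ t, 0 < t → HasDerivAt (F i) (f i t) t)
    (hK : ∀ t, 0 < t → HasDerivAt K (k t) t)
    (hb : ∀ t, r ≤ t → t < R → ∑ i ∈ S, w i * (if x i ≤ t then f i t else 0) ≤ k t) :
    ∑ i ∈ S, w i * (F i R - F i (x i)) ≤ K R - K r := by
  have hp : ∀ i ∈ S, 0 < x i := fun i hi => hr.trans (hx i hi).1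
  have key := image_le_of_deriv_right_le_deriv_boundary
    (f := fun t => ∑ i ∈ S, w i * (F i (max t (x i)) - F i (x i)))
    (f' := fun t => ∑ i ∈ S, w i * (if x i ≤ t then f i t else 0))
    (B := fun t => K t - K r) (B' := k) (a := r) (b := R) ?_ ?_ ?_ ?_ ?_ ?_
    (Set.right_mem_Icc.2 hrR.le)
  · refine le_trans (le_of_eq ?_) key
    refine Finset.sum_congr rfl fun i hi => ?_
    rw [max_eq_left (hx i hi).2.le]
  · refine continuousOn_finset_sum _ fun i hi => ?_
    refine ContinuousOn.mul continuousOn_const (ContinuousOn.sub ?_ continuousOn_const)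
    have h1 : ContinuousOn (F i) (Set.Ioi 0) := fun t ht =>
      (hF i hi t ht).continuousAt.continuousWithinAt
    refine h1.comp (by fun_prop) fun t ht => ?_
    exact lt_of_lt_of_le (hp i hi) (le_max_right _ _)
  · intro t _
    refine HasDerivWithinAt.fun_sum fun i hi => ?_
    exact (pf10_piece (hp i hi) (hF i hi) t).const_mul (w i)
  · refine le_of_eq ?_
    rw [sub_self]
    refine Finset.sum_eq_zero fun i hi => ?_
    rw [max_eq_right (hx i hi).1.le, sub_self, mul_zero]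
  · intro t ht
    exact ((hK t (hr.trans_le ht.1)).continuousAt.continuousWithinAt).sub
      continuousWithinAt_const
  · intro t ht
    exact ((hK t (hr.trans_le ht.1)).hasDerivWithinAt).sub_const _
  · intro t ht
    exact hb t ht.1 ht.2

theorem pf10_d1 (R : ℝ) (n : ℕ) {t : ℝ} (ht : 0 < t) :
    HasDerivAt (fun t => (R / t) ^ n) (-(n : ℝ) * (R / t) ^ n / t) t := by
  have h : HasDerivAt (fun t => (R / t) ^ n)
      ((n : ℝ) * (R / t) ^ (n - 1) * ((0 * t - R * 1) / t ^ 2)) t :=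
    ((hasDerivAt_const t R).div (hasDerivAt_id t) ht.ne').pow n
  refine h.congr_deriv ?_
  rcases n with _ | m
  · simp
  · simp only [Nat.add_sub_cancel, Nat.cast_add, Nat.cast_one]
    rw [pow_succ (R / t) m]
    generalize (R / t) ^ m = z
    field_simp
    ring

theorem pf10_d2 {R : ℝ} (n : ℕ) {t : ℝ} (ht : 0 < t) :
    HasDerivAt (fun t => (t / R) ^ n) ((n : ℝ) * (t / R) ^ n / t) t := by
  have h : HasDerivAt (fun t => (t / R) ^ n)
      ((n : ℝ) * (t / R) ^ (n - 1) * (1 / R)) t := ((hasDerivAt_id t).div_const R).pow n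
  refine h.congr_deriv ?_
  rcases n with _ | m
  · simp
  · simp only [Nat.add_sub_cancel, Nat.cast_add, Nat.cast_one]
    rw [pow_succ]
    field_simp

theorem pf10_d3 {x : ℝ} (hx : 0 < x) {t : ℝ} (ht : 0 < t) :
    HasDerivAt (fun t => Real.log (t / x)) (1 / t) t := by
  have h : HasDerivAt (fun t => Real.log (t / x)) (1 / x / (t / x)) t :=
    ((hasDerivAt_id t).div_const x).log (by simp only [id_eq]; positivity)
  refine h.congr_deriv ?_
  field_simp

theorem pf10_d4 {R : ℝ} (hR : 0 < R) (s : ℝ) {t : ℝ} (ht : 0 < t) :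
    HasDerivAt (fun t => (t / R) ^ s) (s * (t / R) ^ s / t) t := by
  have h : HasDerivAt (fun t => (t / R) ^ s) (1 / R * s * (t / R) ^ (s - 1)) t :=
    ((hasDerivAt_id t).div_const R).rpow_const (p := s)
      (Or.inl (by simp only [id_eq]; positivity))
  refine h.congr_deriv ?_
  rw [Real.rpow_sub_one (by positivity)]
  field_simp

theorem pf10_if (a t : ℝ) (ha : 0 < a) (ht : 0 < t) :
    (if a ≤ t then Real.log (t / a) else 0) = max 0 (Real.log (t / a)) := by
  split_ifs with h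
  · rw [max_eq_right (Real.log_nonneg ((one_le_div ha).2 h))]
  · rw [max_eq_left (Real.log_nonpos (by positivity) ((div_le_one ha).2 (not_le.1 h).le))]

theorem abel_low {ι : Type*} (S : Finset ι) (x w : ι → ℝ) {r R σ B : ℝ} {n : ℕ} (hr : 0 < r)
    (hrR : r < R) (hx : ∀ i ∈ S, r < x i ∧ x i < R) (hw : ∀ i ∈ S, 0 ≤ w i) (hn : 1 ≤ n)
    (hσ : (n : ℝ) < σ)
    (h : ∀ t, r ≤ t → t ≤ R → ∑ i ∈ S, w i * max 0 (Real.log (t / x i)) ≤ B * (t / R) ^ σ) :
    ∑ i ∈ S, w i * (((R / x i) ^ n - (x i / R) ^ n) / (2 * n)) ≤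
      B * (σ ^ 2 / (σ ^ 2 - (n : ℝ) ^ 2)) := by
  have hR : 0 < R := hr.trans hrR
  have hp : ∀ i ∈ S, 0 < x i := fun i hi => hr.trans (hx i hi).1
  have hn0 : (0 : ℝ) < n := by exact_mod_cast hn
  have hσ0 : 0 < σ := hn0.trans hσ
  have hlog : ∀ i ∈ S, 0 ≤ Real.log (R / x i) := fun i hi =>
    Real.log_nonneg ((one_le_div (hp i hi)).2 (hx i hi).2.le)
  have hBR : ∑ i ∈ S, w i * Real.log (R / x i) ≤ B := by
    have h1 := h R hrR.le le_rfl
    rw [div_self hR.ne', Real.one_rpow, mul_one] at h1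
    refine le_trans (le_of_eq ?_) h1
    exact Finset.sum_congr rfl fun i hi => by rw [max_eq_right (hlog i hi)]
  have hB : 0 ≤ B := le_trans (Finset.sum_nonneg fun i hi => mul_nonneg (hw i hi) (hlog i hi)) hBR
  have key := pf10_main S x w hr hrR hx
    (fun i t => (n : ℝ) / 2 * (-(1 / (n : ℝ)) * ((R / t) ^ n + (t / R) ^ n) * Real.log (t / x i) -
      1 / (n : ℝ) ^ 2 * ((R / t) ^ n - (t / R) ^ n)))
    (fun i t => (n : ℝ) / 2 * (((R / t) ^ n - (t / R) ^ n) / t) * Real.log (t / x i))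
    (fun t => B * ((n : ℝ) / 2) * ((t / R) ^ (σ - n) / (σ - n) - (t / R) ^ (σ + n) / (σ + n)))
    (fun t => B * ((n : ℝ) / 2) * (((t / R) ^ (σ - n) - (t / R) ^ (σ + n)) / t))
    ?_ ?_ ?_
  · have h2 : ∀ i ∈ S, w i * (((R / x i) ^ n - (x i / R) ^ n) / (2 * n)) =
        w i * Real.log (R / x i) + w i * ((n : ℝ) / 2 * (-(1 / (n : ℝ)) *
          ((R / R) ^ n + (R / R) ^ n) * Real.log (R / x i) -
          1 / (n : ℝ) ^ 2 * ((R / R) ^ n - (R / R) ^ n)) -
          (n : ℝ) / 2 * (-(1 / (n : ℝ)) * ((R / x i) ^ n + (x i / R) ^ n) *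
          Real.log (x i / x i) - 1 / (n : ℝ) ^ 2 * ((R / x i) ^ n - (x i / R) ^ n))) := by
      intro i hi
      rw [div_self hR.ne', div_self (hp i hi).ne', Real.log_one, one_pow]
      field_simp
      ring
    rw [Finset.sum_congr rfl h2, Finset.sum_add_distrib]
    have h3 : (r / R) ^ (σ + n) / (σ + n) ≤ (r / R) ^ (σ - n) / (σ - n) := by
      have h4 : (r / R) ^ (σ + n) ≤ (r / R) ^ (σ - n) :=
        Real.rpow_le_rpow_of_exponent_ge (by positivity) ((div_le_one hR).2 hrR.le) (by linarith)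
      have h5 : 0 ≤ (r / R) ^ (σ + n) := by positivity
      exact div_le_div₀ (by positivity) h4 (by linarith) (by linarith)
    have h6 : 0 ≤ B * ((n : ℝ) / 2) := by positivity
    have h7 := mul_le_mul_of_nonneg_left h3 h6
    simp only [div_self hR.ne', Real.one_rpow] at key
    have h8 : B * (σ ^ 2 / (σ ^ 2 - (n : ℝ) ^ 2)) =
        B + B * ((n : ℝ) / 2) * (1 / (σ - n) - 1 / (σ + n)) := by
      have e1 : σ - n ≠ 0 := by linarith
      have e2 : σ + n ≠ 0 := by linarith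
      have e3 : σ ^ 2 - (n : ℝ) ^ 2 ≠ 0 := by
        have : σ ^ 2 - (n : ℝ) ^ 2 = (σ - n) * (σ + n) := by ring
        rw [this]; exact mul_ne_zero e1 e2
      field_simp
      ring
    rw [h8]
    simp only [div_self hR.ne']
    nlinarith [hBR, key, h7]
  · intro i hi t ht
    have d1 := pf10_d1 R n ht
    have d2 := pf10_d2 (R := R) n ht
    have d3 := pf10_d3 (hp i hi) ht
    have := ((((d1.add d2).const_mul (-(1 / (n : ℝ)))).mul d3).sub
      ((d1.sub d2).const_mul (1 / (n : ℝ) ^ 2))).const_mul ((n : ℝ) / 2)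
    refine HasDerivAt.congr_deriv this ?_
    simp only [Pi.add_apply]
    field_simp
    ring
  · intro t ht
    have d1 := pf10_d4 hR (σ - n) ht
    have d2 := pf10_d4 hR (σ + n) ht
    have := ((d1.div_const (σ - n)).sub (d2.div_const (σ + n))).const_mul (B * ((n : ℝ) / 2))
    refine HasDerivAt.congr_deriv this ?_
    have e1 : σ - n ≠ 0 := by linarith
    have e2 : σ + n ≠ 0 := by linarith
    field_simp
  · intro t ht1 ht2
    have ht : 0 < t := hr.trans_le ht1
    have h1 := h t ht1 ht2.le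
    have hg : 0 ≤ (n : ℝ) / 2 * (((R / t) ^ n - (t / R) ^ n) / t) := by
      have h2 : (t / R) ^ n ≤ 1 := pow_le_one₀ (by positivity) ((div_le_one hR).2 ht2.le)
      have h3 : 1 ≤ (R / t) ^ n := one_le_pow₀ ((one_le_div ht).2 ht2.le)
      have h4 : 0 ≤ (R / t) ^ n - (t / R) ^ n := by linarith
      positivity
    calc ∑ i ∈ S, w i * (if x i ≤ t then
          (n : ℝ) / 2 * (((R / t) ^ n - (t / R) ^ n) / t) * Real.log (t / x i) else 0)
        = (n : ℝ) / 2 * (((R / t) ^ n - (t / R) ^ n) / t) *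
          ∑ i ∈ S, w i * max 0 (Real.log (t / x i)) := by
          rw [Finset.mul_sum]
          refine Finset.sum_congr rfl fun i hi => ?_
          rw [← pf10_if (x i) t (hp i hi) ht]
          split_ifs <;> ring
      _ ≤ (n : ℝ) / 2 * (((R / t) ^ n - (t / R) ^ n) / t) * (B * (t / R) ^ σ) :=
          mul_le_mul_of_nonneg_left h1 hg
      _ = B * ((n : ℝ) / 2) * (((t / R) ^ (σ - n) - (t / R) ^ (σ + n)) / t) := by
          have hu : 0 < t / R := by positivity
          have e1 : (R / t) ^ n = ((t / R) ^ n)⁻¹ := by rw [← inv_pow, inv_div]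
          rw [Real.rpow_sub hu, Real.rpow_add hu, Real.rpow_natCast, e1]
          ring

theorem abel_high {ι : Type*} (S : Finset ι) (x w : ι → ℝ) {r R σ B B' : ℝ} {n : ℕ} (hr : 0 < r)
    (hrR : r < R) (hx : ∀ i ∈ S, r < x i ∧ x i < R) (hw : ∀ i ∈ S, 0 ≤ w i) (h0 : 0 < σ)
    (hσ : σ < (n : ℝ))
    (h : ∀ t, r ≤ t → t ≤ R → ∑ i ∈ S, w i * max 0 (Real.log (t / x i)) ≤ B * (t / r) ^ σ)
    (hc : ∑ i ∈ S, w i ≤ B' * (R / r) ^ σ) :
    ∑ i ∈ S, w i * ((r / x i) ^ n / (2 * n)) ≤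
      B * ((n : ℝ) / (2 * ((n : ℝ) - σ))) + (r / R) ^ ((n : ℝ) - σ) * (B / 2 + B' / (2 * n)) := by
  have hR : 0 < R := hr.trans hrR
  have hp : ∀ i ∈ S, 0 < x i := fun i hi => hr.trans (hx i hi).1
  have hn0 : (0 : ℝ) < n := h0.trans hσ
  have hlog : ∀ i ∈ S, 0 ≤ Real.log (R / x i) := fun i hi =>
    Real.log_nonneg ((one_le_div (hp i hi)).2 (hx i hi).2.le)
  have hBR : ∑ i ∈ S, w i * Real.log (R / x i) ≤ B * (R / r) ^ σ := by
    have h1 := h R hrR.le le_rfl
    refine le_trans (le_of_eq ?_) h1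
    exact Finset.sum_congr rfl fun i hi => by rw [max_eq_right (hlog i hi)]
  have hB : 0 ≤ B := by
    have h1 := h r le_rfl hrR.le
    rw [div_self hr.ne', Real.one_rpow, mul_one] at h1
    exact le_trans (Finset.sum_nonneg fun i hi => mul_nonneg (hw i hi) (le_max_left _ _)) h1
  have key := pf10_main S x w hr hrR hx
    (fun i t => (n : ℝ) / 2 * (-(1 / (n : ℝ)) * (r / t) ^ n * Real.log (t / x i) -
      1 / (n : ℝ) ^ 2 * (r / t) ^ n))
    (fun i t => (n : ℝ) / 2 * ((r / t) ^ n / t) * Real.log (t / x i))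
    (fun t => B * ((n : ℝ) / 2) * ((t / r) ^ (σ - n) / (σ - n)))
    (fun t => B * ((n : ℝ) / 2) * ((t / r) ^ (σ - n) / t))
    ?_ ?_ ?_
  · have h2 : ∀ i ∈ S, w i * ((r / x i) ^ n / (2 * n)) =
        w i * ((n : ℝ) / 2 * (-(1 / (n : ℝ)) * (r / R) ^ n * Real.log (R / x i) -
          1 / (n : ℝ) ^ 2 * (r / R) ^ n) -
          (n : ℝ) / 2 * (-(1 / (n : ℝ)) * (r / x i) ^ n * Real.log (x i / x i) -
          1 / (n : ℝ) ^ 2 * (r / x i) ^ n)) +
        ((r / R) ^ n / 2 * (w i * Real.log (R / x i)) + (r / R) ^ n / (2 * n) * w i) := by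
      intro i hi
      rw [div_self (hp i hi).ne', Real.log_one]
      field_simp
      ring
    rw [Finset.sum_congr rfl h2, Finset.sum_add_distrib, Finset.sum_add_distrib,
      ← Finset.mul_sum, ← Finset.mul_sum]
    have hq : (0 : ℝ) ≤ (r / R) ^ n := by positivity
    have h3 : (r / R) ^ n / 2 * ∑ i ∈ S, w i * Real.log (R / x i) ≤
        (r / R) ^ n / 2 * (B * (R / r) ^ σ) :=
      mul_le_mul_of_nonneg_left hBR (by positivity)
    have h4 : (r / R) ^ n / (2 * n) * ∑ i ∈ S, w i ≤ (r / R) ^ n / (2 * n) * (B' * (R / r) ^ σ) :=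
      mul_le_mul_of_nonneg_left hc (by positivity)
    have h5 : (r / R) ^ n * (R / r) ^ σ = (r / R) ^ ((n : ℝ) - σ) := by
      have hu : 0 < r / R := by positivity
      have e1 : (R / r) ^ σ = ((r / R) ^ σ)⁻¹ := by
        rw [← Real.inv_rpow hu.le, inv_div]
      rw [Real.rpow_sub hu, Real.rpow_natCast, e1]
      rfl
    have h6 : B * ((n : ℝ) / 2) * ((R / r) ^ (σ - n) / (σ - n)) -
        B * ((n : ℝ) / 2) * ((r / r) ^ (σ - n) / (σ - n)) ≤
        B * ((n : ℝ) / (2 * ((n : ℝ) - σ))) := by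
      rw [div_self hr.ne', Real.one_rpow]
      have e1 : σ - n ≠ 0 := by linarith
      have e2 : (n : ℝ) - σ ≠ 0 := by linarith
      have e3 : B * ((n : ℝ) / 2) * ((R / r) ^ (σ - n) / (σ - n)) -
          B * ((n : ℝ) / 2) * (1 / (σ - n)) = B * ((n : ℝ) / (2 * ((n : ℝ) - σ))) -
          B * ((n : ℝ) / 2) * ((R / r) ^ (σ - n) / (n - σ)) := by
        have e4 : σ - (n : ℝ) = -((n : ℝ) - σ) := by ring
        have e5 : ∀ y : ℝ, y / (σ - n) = -(y / ((n : ℝ) - σ)) := fun y => by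
          rw [e4, div_neg]
        rw [e5, e5]
        field_simp
        ring
      rw [e3]
      have e6 : 0 ≤ B * ((n : ℝ) / 2) * ((R / r) ^ (σ - n) / (n - σ)) := by
        have : 0 < (n : ℝ) - σ := by linarith
        positivity
      linarith
    have h7 : (r / R) ^ n / 2 * (B * (R / r) ^ σ) + (r / R) ^ n / (2 * n) * (B' * (R / r) ^ σ) =
        (r / R) ^ ((n : ℝ) - σ) * (B / 2 + B' / (2 * n)) := by
      rw [← h5]; ring
    linarith
  · intro i hi t ht
    have d1 := pf10_d1 r n ht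
    have d3 := pf10_d3 (hp i hi) ht
    have := (((d1.const_mul (-(1 / (n : ℝ)))).mul d3).sub
      (d1.const_mul (1 / (n : ℝ) ^ 2))).const_mul ((n : ℝ) / 2)
    refine HasDerivAt.congr_deriv this ?_
    field_simp
    ring
  · intro t ht
    have d1 := pf10_d4 hr (σ - n) ht
    have := (d1.div_const (σ - n)).const_mul (B * ((n : ℝ) / 2))
    refine HasDerivAt.congr_deriv this ?_
    have e1 : σ - n ≠ 0 := by linarith
    field_simp
  · intro t ht1 ht2
    have ht : 0 < t := hr.trans_le ht1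
    have h1 := h t ht1 ht2.le
    calc ∑ i ∈ S, w i * (if x i ≤ t then
          (n : ℝ) / 2 * ((r / t) ^ n / t) * Real.log (t / x i) else 0)
        = (n : ℝ) / 2 * ((r / t) ^ n / t) *
          ∑ i ∈ S, w i * max 0 (Real.log (t / x i)) := by
          rw [Finset.mul_sum]
          refine Finset.sum_congr rfl fun i hi => ?_
          rw [← pf10_if (x i) t (hp i hi) ht]
          split_ifs <;> ring
      _ ≤ (n : ℝ) / 2 * ((r / t) ^ n / t) * (B * (t / r) ^ σ) :=
          mul_le_mul_of_nonneg_left h1 (by positivity)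
      _ = B * ((n : ℝ) / 2) * ((t / r) ^ (σ - n) / t) := by
          have hu : 0 < t / r := by positivity
          have e1 : (r / t) ^ n = ((t / r) ^ n)⁻¹ := by rw [← inv_pow, inv_div]
          rw [Real.rpow_sub hu, Real.rpow_natCast, e1]
          ring

theorem abel_cnt {ι : Type*} (S : Finset ι) (x w : ι → ℝ) {r R σ B : ℝ} {n : ℕ} (hr : 0 < r)
    (hrR : r < R) (hx : ∀ i ∈ S, r < x i ∧ x i < R) (hw : ∀ i ∈ S, 0 ≤ w i) (h0 : 0 < σ)
    (hσ : σ < (n : ℝ))
    (h : ∀ t, r ≤ t → t ≤ R → ∑ i ∈ S with x i ≤ t, w i ≤ B * (t / r) ^ σ) :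
    ∑ i ∈ S, w i * ((r / x i) ^ n / (2 * n)) ≤
      B / (2 * ((n : ℝ) - σ)) + (r / R) ^ ((n : ℝ) - σ) * (B / (2 * n)) := by
  have hR : 0 < R := hr.trans hrR
  have hp : ∀ i ∈ S, 0 < x i := fun i hi => hr.trans (hx i hi).1
  have hn0 : (0 : ℝ) < n := h0.trans hσ
  have hBR : ∑ i ∈ S, w i ≤ B * (R / r) ^ σ := by
    have h1 := h R hrR.le le_rfl
    rwa [Finset.filter_true_of_mem fun i hi => (hx i hi).2.le] at h1
  have hB : 0 ≤ B := by
    have h1 := h r le_rfl hrR.le
    rw [div_self hr.ne', Real.one_rpow, mul_one] at h1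
    exact le_trans (Finset.sum_nonneg fun i hi => hw i (Finset.mem_filter.1 hi).1) h1
  have key := pf10_main S x w hr hrR hx
    (fun _ t => -(1 / (2 * (n : ℝ))) * (r / t) ^ n)
    (fun _ t => 1 / 2 * ((r / t) ^ n / t))
    (fun t => B / 2 * ((t / r) ^ (σ - n) / (σ - n)))
    (fun t => B / 2 * ((t / r) ^ (σ - n) / t))
    ?_ ?_ ?_
  · have h2 : ∀ i ∈ S, w i * ((r / x i) ^ n / (2 * n)) =
        w i * (-(1 / (2 * (n : ℝ))) * (r / R) ^ n - -(1 / (2 * (n : ℝ))) * (r / x i) ^ n) +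
        (r / R) ^ n / (2 * n) * w i := by
      intro i hi
      field_simp
      ring
    rw [Finset.sum_congr rfl h2, Finset.sum_add_distrib, ← Finset.mul_sum]
    have h4 : (r / R) ^ n / (2 * n) * ∑ i ∈ S, w i ≤ (r / R) ^ n / (2 * n) * (B * (R / r) ^ σ) :=
      mul_le_mul_of_nonneg_left hBR (by positivity)
    have h5 : (r / R) ^ n * (R / r) ^ σ = (r / R) ^ ((n : ℝ) - σ) := by
      have hu : 0 < r / R := by positivity
      have e1 : (R / r) ^ σ = ((r / R) ^ σ)⁻¹ := by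
        rw [← Real.inv_rpow hu.le, inv_div]
      rw [Real.rpow_sub hu, Real.rpow_natCast, e1]
      rfl
    have h6 : B / 2 * ((R / r) ^ (σ - n) / (σ - n)) -
        B / 2 * ((r / r) ^ (σ - n) / (σ - n)) ≤ B / (2 * ((n : ℝ) - σ)) := by
      rw [div_self hr.ne', Real.one_rpow]
      have e1 : σ - n ≠ 0 := by linarith
      have e2 : (n : ℝ) - σ ≠ 0 := by linarith
      have e3 : B / 2 * ((R / r) ^ (σ - n) / (σ - n)) -
          B / 2 * (1 / (σ - n)) = B / (2 * ((n : ℝ) - σ)) -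
          B / 2 * ((R / r) ^ (σ - n) / (n - σ)) := by
        have e4 : σ - (n : ℝ) = -((n : ℝ) - σ) := by ring
        have e5 : ∀ y : ℝ, y / (σ - n) = -(y / ((n : ℝ) - σ)) := fun y => by
          rw [e4, div_neg]
        rw [e5, e5]
        field_simp
        ring
      rw [e3]
      have e6 : 0 ≤ B / 2 * ((R / r) ^ (σ - n) / (n - σ)) := by
        have : 0 < (n : ℝ) - σ := by linarith
        positivity
      linarith
    have h7 : (r / R) ^ n / (2 * n) * (B * (R / r) ^ σ) =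
        (r / R) ^ ((n : ℝ) - σ) * (B / (2 * n)) := by
      rw [← h5]; ring
    linarith
  · intro i hi t ht
    have d1 := pf10_d1 r n ht
    have := d1.const_mul (-(1 / (2 * (n : ℝ))))
    refine HasDerivAt.congr_deriv this ?_
    field_simp
  · intro t ht
    have d1 := pf10_d4 hr (σ - n) ht
    have := (d1.div_const (σ - n)).const_mul (B / 2)
    refine HasDerivAt.congr_deriv this ?_
    have e1 : σ - n ≠ 0 := by linarith
    field_simp
  · intro t ht1 ht2
    have ht : 0 < t := hr.trans_le ht1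
    have h1 := h t ht1 ht2.le
    rw [Finset.sum_filter] at h1
    calc ∑ i ∈ S, w i * (if x i ≤ t then 1 / 2 * ((r / t) ^ n / t) else 0)
        = 1 / 2 * ((r / t) ^ n / t) * ∑ i ∈ S, (if x i ≤ t then w i else 0) := by
          rw [Finset.mul_sum]
          refine Finset.sum_congr rfl fun i hi => ?_
          split_ifs <;> ring
      _ ≤ 1 / 2 * ((r / t) ^ n / t) * (B * (t / r) ^ σ) :=
          mul_le_mul_of_nonneg_left h1 (by positivity)
      _ = B / 2 * ((t / r) ^ (σ - n) / t) := by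
          have hu : 0 < t / r := by positivity
          have e1 : (r / t) ^ n = ((t / r) ^ n)⁻¹ := by rw [← inv_pow, inv_div]
          rw [Real.rpow_sub hu, Real.rpow_natCast, e1]
          ring

end Pool.Agent.PfA
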