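import Pool.Agent.PfA.Lin

/-! MP_f2c8f8_an, project PfA, row PF-11 -/

set_option autoImplicit false

open Filter MeasureTheory ValueDistribution Metric
open scoped ComplexConjugate Topology

noncomputable section

namespace Pool.Agent.PfA

theorem norm_fc_le {u : ℂ → ℝ} {r : ℝ} (hr : 0 < r) (hu : CircleIntegrable u 0 r) (n : ℕ) :
    ‖fc u r n‖ ≤ UU u r := by
  unfold fc UU Real.circleAverage
  rw [norm_smul, smul_eq_mul, Real.norm_of_nonneg (by positivity)]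
  apply mul_le_mul_of_nonneg_left _ (by positivity)
  refine (intervalIntegral.norm_integral_le_integral_norm (by positivity)).trans (le_of_eq ?_)
  congr 1
  ext θ
  rw [norm_mul, norm_pow, norm_div, RCLike.norm_conj, Complex.norm_real, Complex.norm_real,
    norm_circleMap_zero, abs_of_pos hr, Real.norm_of_nonneg hr.le, div_self hr.ne', one_pow,
    mul_one, Real.norm_eq_abs]

/-- every interval contains a regular radius -/
theorem exists_reg {E : Set ℝ} (hE : E.Countable) {x y : ℝ} (hxy : x < y) :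
    ∃ r, x < r ∧ r < y ∧ r ∉ E := by
  obtain ⟨r, hr, h1, h2⟩ := (hE.dense_compl ℝ).exists_between hxy
  exact ⟨r, h1, h2, hr⟩

theorem pf11_log_nonneg {t x : ℝ} (hx : 0 ≤ x) (hxt : x ≤ t) : 0 ≤ Real.log (t * x⁻¹) := by
  rcases hx.eq_or_lt with rfl | hx
  · simp
  · apply Real.log_nonneg
    rw [← div_eq_mul_inv, le_div_iff₀ hx]
    linarith

theorem NI_nonneg {w : ℂ → ℝ} (hw : LF w) {t : ℝ} (ht : 1 ≤ t) : 0 ≤ NI w t := by
  unfold NI
  refine add_nonneg (Finset.sum_nonneg fun a ha => ?_)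
    (mul_nonneg (abs_nonneg _) (Real.log_nonneg ht))
  exact mul_nonneg (abs_nonneg _) (pf11_log_nonneg (norm_nonneg _) ((mem_zs hw).1 ha).1)

/-- the sum of truncated logarithms is at most the integrated counting function -/
theorem sum_log_le {w : ℂ → ℝ} (hw : LF w) {R t : ℝ} (ht : 1 ≤ t) (htR : t ≤ R) {r : ℝ}
    (hr : 0 < r) :
    ∑ a ∈ zs w R with r < ‖a‖, |w a| * max 0 (Real.log (t / ‖a‖)) ≤ NI w t := by
  have h0 : 0 ≤ |w 0| * Real.log t := mul_nonneg (abs_nonneg _) (Real.log_nonneg ht)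
  have h1 : ∑ a ∈ zs w R with r < ‖a‖, |w a| * max 0 (Real.log (t / ‖a‖)) ≤
      ∑ a ∈ zs w t, |w a| * Real.log (t * ‖a‖⁻¹) := by
    calc ∑ a ∈ zs w R with r < ‖a‖, |w a| * max 0 (Real.log (t / ‖a‖))
        = ∑ a ∈ (zs w R).filter (fun a => r < ‖a‖) with ‖a‖ ≤ t,
            |w a| * max 0 (Real.log (t / ‖a‖)) := by
          symm
          apply Finset.sum_subset (Finset.filter_subset _ _)
          intro a ha hn
          rw [Finset.mem_filter, not_and] at hn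
          have h2 := hn ha
          rw [not_le] at h2
          have h3 : 0 < ‖a‖ := by linarith
          have h4 : Real.log (t / ‖a‖) ≤ 0 := by
            apply Real.log_nonpos (by positivity)
            rw [div_le_one h3]
            exact h2.le
          rw [max_eq_left h4, mul_zero]
      _ = ∑ a ∈ (zs w R).filter (fun a => r < ‖a‖) with ‖a‖ ≤ t,
            |w a| * Real.log (t * ‖a‖⁻¹) := by
          apply Finset.sum_congr rfl
          intro a ha
          rw [Finset.mem_filter] at ha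
          rw [← div_eq_mul_inv, max_eq_right]
          rw [div_eq_mul_inv]
          exact pf11_log_nonneg (norm_nonneg _) ha.2
      _ ≤ ∑ a ∈ zs w t, |w a| * Real.log (t * ‖a‖⁻¹) := by
          apply Finset.sum_le_sum_of_subset_of_nonneg
          · intro a ha
            rw [Finset.mem_filter, Finset.mem_filter, mem_zs hw] at ha
            rw [mem_zs hw]
            exact ⟨ha.2, ha.1.1.2⟩
          · intro a ha _
            exact mul_nonneg (abs_nonneg _) (pf11_log_nonneg (norm_nonneg _) ((mem_zs hw).1 ha).1)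
  unfold NI
  linarith

/-- the counting function is controlled by the integrated one -/
theorem cnt_le {w : ℂ → ℝ} (hw : LF w) {t l : ℝ} (ht : 1 ≤ t) (hl : 0 < l) :
    l * cnt w t ≤ NI w (Real.exp l * t) := by
  have he : 1 < Real.exp l := Real.one_lt_exp_iff.2 hl
  have hte : t ≤ Real.exp l * t := by nlinarith
  have hlog : Real.log (Real.exp l * t) = l + Real.log t := by
    rw [Real.log_mul (Real.exp_pos l).ne' (by linarith), Real.log_exp]
  have hsub : zs w t ⊆ zs w (Real.exp l * t) := by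
    intro a ha
    rw [mem_zs hw] at ha ⊢
    exact ⟨ha.1.trans hte, ha.2⟩
  have h1 : ∑ a ∈ zs w t, |w a| * Real.log (Real.exp l * t * ‖a‖⁻¹) ≤
      ∑ a ∈ zs w (Real.exp l * t), |w a| * Real.log (Real.exp l * t * ‖a‖⁻¹) := by
    apply Finset.sum_le_sum_of_subset_of_nonneg hsub
    intro a ha _
    exact mul_nonneg (abs_nonneg _) (pf11_log_nonneg (norm_nonneg _) ((mem_zs hw).1 ha).1)
  have h2 : l * cnt w t ≤ ∑ a ∈ zs w t, |w a| * Real.log (Real.exp l * t * ‖a‖⁻¹) +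
      |w 0| * l := by
    unfold cnt
    rw [Finset.mul_sum]
    have h3 : ∑ a ∈ zs w t, (if a = 0 then |w a| * l else 0) ≤ |w 0| * l := by
      rw [Finset.sum_ite_eq']
      split_ifs
      · exact le_rfl
      · positivity
    refine le_trans ?_ (add_le_add_right h3 _)
    rw [← Finset.sum_add_distrib]
    apply Finset.sum_le_sum
    intro a ha
    by_cases h0 : a = 0
    · rw [if_pos h0, h0]
      simp
      linarith [mul_comm l |w 0|]
    · rw [if_neg h0, add_zero, mul_comm l]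
      apply mul_le_mul_of_nonneg_left _ (abs_nonneg _)
      have h4 : 0 < ‖a‖ := norm_pos_iff.2 h0
      have h5 := ((mem_zs hw).1 ha).1
      rw [Real.le_log_iff_exp_le (by positivity), mul_assoc]
      have h6 : 1 ≤ t * ‖a‖⁻¹ := by
        rw [← div_eq_mul_inv, le_div_iff₀ h4]
        linarith
      nlinarith [Real.exp_pos l]
  have h5 : |w 0| * l ≤ |w 0| * Real.log (Real.exp l * t) := by
    apply mul_le_mul_of_nonneg_left _ (abs_nonneg _)
    rw [hlog]
    linarith [Real.log_nonneg ht]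
  unfold NI
  linarith

/-- the kernel at a point of the small disc -/
theorem pf11_ker1 {r R : ℝ} (hr : 0 < r) (hrR : r < R) {a : ℂ} (ha : ‖a‖ < r) (n : ℕ) :
    ‖(conj a / (r : ℂ)) ^ n - ((r : ℂ) * conj a / (R : ℂ) ^ 2) ^ n‖ ≤ 1 := by
  have hR : 0 < R := hr.trans hrR
  have e1 : (conj a / (r : ℂ)) ^ n - ((r : ℂ) * conj a / (R : ℂ) ^ 2) ^ n =
      ((((1 / r) ^ n - (r / R ^ 2) ^ n : ℝ)) : ℂ) * (conj a) ^ n := by
    push_cast
    rw [div_pow, div_pow, mul_pow, div_pow, div_pow, one_pow]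
    ring
  have h1 : r / R ^ 2 ≤ 1 / r := by
    rw [div_le_div_iff₀ (by positivity) hr]
    nlinarith
  have h2 : (r / R ^ 2) ^ n ≤ (1 / r) ^ n := pow_le_pow_left₀ (by positivity) h1 n
  rw [e1, norm_mul, norm_pow, RCLike.norm_conj, Complex.norm_real, Real.norm_of_nonneg
    (by linarith)]
  have h3 : (1 / r) ^ n - (r / R ^ 2) ^ n ≤ (1 / r) ^ n := by
    have : 0 ≤ (r / R ^ 2) ^ n := by positivity
    linarith
  calc ((1 / r) ^ n - (r / R ^ 2) ^ n) * ‖a‖ ^ n ≤ (1 / r) ^ n * ‖a‖ ^ n :=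
        mul_le_mul_of_nonneg_right h3 (by positivity)
    _ = (‖a‖ / r) ^ n := by rw [← mul_pow]; congr 1; ring
    _ ≤ 1 := pow_le_one₀ (by positivity) (by rw [div_le_one hr]; exact ha.le)

/-- the kernel at a point of the annulus -/
theorem pf11_ker2 {r R : ℝ} (hr : 0 < r) {a : ℂ} (ha : r < ‖a‖) (haR : ‖a‖ ≤ R)
    (n : ℕ) :
    ‖((r : ℂ) / a) ^ n - ((r : ℂ) * conj a / (R : ℂ) ^ 2) ^ n‖ =
      (r / ‖a‖) ^ n - (r * ‖a‖ / R ^ 2) ^ n := by
  have h0 : 0 < ‖a‖ := hr.trans ha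
  have hR : 0 < R := h0.trans_le haR
  have ha0 : a ≠ 0 := norm_pos_iff.1 h0
  have e0 : (r : ℂ) / a = (r : ℂ) * conj a / ((‖a‖ : ℝ) : ℂ) ^ 2 := by
    have : a * conj a = ((‖a‖ : ℝ) : ℂ) ^ 2 := Complex.mul_conj' a
    rw [← this]
    have hc : conj a ≠ 0 := by simpa using ha0
    field_simp
  have e1 : ((r : ℂ) / a) ^ n - ((r : ℂ) * conj a / (R : ℂ) ^ 2) ^ n =
      (((r / ‖a‖ ^ 2) ^ n - (r / R ^ 2) ^ n : ℝ) : ℂ) * (conj a) ^ n := by
    rw [e0]
    push_cast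
    rw [div_pow, div_pow, mul_pow, div_pow, div_pow]
    ring
  have h1 : r / R ^ 2 ≤ r / ‖a‖ ^ 2 := by
    apply div_le_div_of_nonneg_left hr.le (by positivity)
    exact pow_le_pow_left₀ h0.le haR 2
  have h2 : (r / R ^ 2) ^ n ≤ (r / ‖a‖ ^ 2) ^ n := pow_le_pow_left₀ (by positivity) h1 n
  rw [e1, norm_mul, norm_pow, RCLike.norm_conj, Complex.norm_real, Real.norm_of_nonneg
    (by linarith), sub_mul, ← mul_pow, ← mul_pow]
  congr 2
  · field_simp
  · ring

theorem pf11_split {w : ℂ → ℝ} {E : Set ℝ} (hw : LF w) (hE : ∀ a : ℂ, w a ≠ 0 → ‖a‖ ∈ E)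
    {r R : ℝ} (hrR : r < R) (h1 : r ∉ E) (F : ℂ → ℝ) :
    ∑ a ∈ zs w R, F a = ∑ a ∈ zs w r, F a + ∑ a ∈ zs w R with r < ‖a‖, F a := by
  rw [← Finset.sum_filter_not_add_sum_filter (zs w R) (fun a => r < ‖a‖)]
  congr 1
  apply Finset.sum_congr _ (fun _ _ => rfl)
  ext a
  rw [Finset.mem_filter, mem_zs hw, mem_zs hw, not_lt]
  constructor
  · rintro ⟨⟨_, h⟩, h'⟩
    exact ⟨h', h⟩
  · rintro ⟨h, h'⟩
    exact ⟨⟨by linarith, h'⟩, h⟩

/-- the norm of the sum in the two radii formula -/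
theorem pf11_sum {u w : ℂ → ℝ} {E : Set ℝ} (h : Dat u w E) {r R : ℝ} (hr : 0 < r) (hrR : r < R)
    (h1 : r ∉ E) {n : ℕ} :
    ‖∑ a ∈ zs w R, (w a : ℂ) * ((if ‖a‖ < r then conj a / (r : ℂ) else (r : ℂ) / a) ^ n -
        ((r : ℂ) * conj a / (R : ℂ) ^ 2) ^ n)‖ ≤
      cnt w r + ∑ a ∈ zs w R with r < ‖a‖, |w a| * ((r / ‖a‖) ^ n - (r * ‖a‖ / R ^ 2) ^ n) := by
  refine (norm_sum_le _ _).trans ?_
  rw [pf11_split h.lf h.wE hrR h1]
  unfold cnt
  apply add_le_add
  · apply Finset.sum_le_sum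
    intro a ha
    rw [mem_zs h.lf] at ha
    have h3 : ‖a‖ < r := by
      rcases ha.1.lt_or_eq with h4 | h4
      · exact h4
      · exact absurd (h4 ▸ h.wE a ha.2) h1
    rw [if_pos h3, norm_mul, Complex.norm_real, Real.norm_eq_abs]
    calc |w a| * _ ≤ |w a| * 1 :=
          mul_le_mul_of_nonneg_left (pf11_ker1 hr hrR h3 n) (abs_nonneg _)
      _ = |w a| := mul_one _
  · apply Finset.sum_le_sum
    intro a ha
    rw [Finset.mem_filter, mem_zs h.lf] at ha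
    rw [if_neg (by linarith [ha.2]), norm_mul, Complex.norm_real, Real.norm_eq_abs,
      pf11_ker2 hr ha.2 ha.1.1 n]

/-- the Fourier coefficient on the smaller circle -/
theorem fc_inner {u w : ℂ → ℝ} {E : Set ℝ} (h : Dat u w E) {r R : ℝ} (hr : 0 < r) (hrR : r < R)
    (h1 : r ∉ E) (h2 : R ∉ E) {n : ℕ} (hn : 1 ≤ n) :
    ‖fc u r n‖ ≤ (r / R) ^ n * UU u R + cnt w r / (2 * n) +
      ∑ a ∈ zs w R with r < ‖a‖, |w a| * ((r / ‖a‖) ^ n / (2 * n)) := by
  have hR : 0 < R := hr.trans hrR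
  have hn0 : (0 : ℝ) < n := by exact_mod_cast hn
  have ht := h.two r R hr hrR h1 h2 n hn
  set S := ∑ a ∈ zs w R, (w a : ℂ) * ((if ‖a‖ < r then conj a / (r : ℂ) else (r : ℂ) / a) ^ n -
        ((r : ℂ) * conj a / (R : ℂ) ^ 2) ^ n) with hS
  have e1 : fc u r n = ((r / R : ℝ) : ℂ) ^ n * fc u R n + -(1 / (2 * (n : ℂ))) * S := by
    rw [← ht]; ring
  have hs := pf11_sum h hr hrR h1 (n := n)
  rw [← hS] at hs
  have hk : ‖-(1 / (2 * (n : ℂ)))‖ = 1 / (2 * (n : ℝ)) := by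
    rw [norm_neg, norm_div, norm_mul]
    simp
  have h3 : ‖fc u r n‖ ≤ (r / R) ^ n * UU u R + 1 / (2 * (n : ℝ)) * ‖S‖ := by
    rw [e1]
    refine (norm_add_le _ _).trans ?_
    rw [norm_mul, norm_mul, hk, norm_pow, Complex.norm_real, Real.norm_of_nonneg (by positivity)]
    have := norm_fc_le hR (h.int R) n
    gcongr
  have h4 : ∑ a ∈ zs w R with r < ‖a‖, |w a| * ((r / ‖a‖) ^ n - (r * ‖a‖ / R ^ 2) ^ n) ≤
      ∑ a ∈ zs w R with r < ‖a‖, |w a| * (r / ‖a‖) ^ n := by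
    apply Finset.sum_le_sum
    intro a ha
    apply mul_le_mul_of_nonneg_left _ (abs_nonneg _)
    have : 0 ≤ (r * ‖a‖ / R ^ 2) ^ n := by positivity
    linarith
  have h5 : 1 / (2 * (n : ℝ)) * ‖S‖ ≤ 1 / (2 * (n : ℝ)) * (cnt w r +
      ∑ a ∈ zs w R with r < ‖a‖, |w a| * (r / ‖a‖) ^ n) :=
    mul_le_mul_of_nonneg_left (hs.trans (by linarith)) (by positivity)
  have h6 : 1 / (2 * (n : ℝ)) * (cnt w r + ∑ a ∈ zs w R with r < ‖a‖, |w a| * (r / ‖a‖) ^ n) =
      cnt w r / (2 * n) + ∑ a ∈ zs w R with r < ‖a‖, |w a| * ((r / ‖a‖) ^ n / (2 * n)) := by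
    rw [mul_add, Finset.mul_sum]
    congr 1
    · ring
    · apply Finset.sum_congr rfl
      intro a _
      ring
  linarith

/-- the Fourier coefficient on the larger circle -/
theorem fc_outer {u w : ℂ → ℝ} {E : Set ℝ} (h : Dat u w E) {r R : ℝ} (hr : 0 < r) (hrR : r < R)
    (h1 : r ∉ E) (h2 : R ∉ E) {n : ℕ} (hn : 1 ≤ n) :
    ‖fc u R n‖ ≤ (R / r) ^ n * (UU u r + cnt w r / (2 * n)) +
      ∑ a ∈ zs w R with r < ‖a‖, |w a| * (((R / ‖a‖) ^ n - (‖a‖ / R) ^ n) / (2 * n)) := by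
  have hR : 0 < R := hr.trans hrR
  have hn0 : (0 : ℝ) < n := by exact_mod_cast hn
  have ht := h.two r R hr hrR h1 h2 n hn
  set S := ∑ a ∈ zs w R, (w a : ℂ) * ((if ‖a‖ < r then conj a / (r : ℂ) else (r : ℂ) / a) ^ n -
        ((r : ℂ) * conj a / (R : ℂ) ^ 2) ^ n) with hS
  have e1 : ((r / R : ℝ) : ℂ) ^ n * fc u R n = fc u r n + (1 / (2 * (n : ℂ))) * S := by
    linear_combination -ht
  have hs := pf11_sum h hr hrR h1 (n := n)
  rw [← hS] at hs
  have hk : ‖(1 / (2 * (n : ℂ)))‖ = 1 / (2 * (n : ℝ)) := by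
    rw [norm_div, norm_mul]
    simp
  have h3 : (r / R) ^ n * ‖fc u R n‖ ≤ UU u r + 1 / (2 * (n : ℝ)) * ‖S‖ := by
    have e2 : (r / R) ^ n * ‖fc u R n‖ = ‖((r / R : ℝ) : ℂ) ^ n * fc u R n‖ := by
      rw [norm_mul, norm_pow, Complex.norm_real, Real.norm_of_nonneg (by positivity)]
    rw [e2, e1]
    refine (norm_add_le _ _).trans ?_
    rw [norm_mul, hk]
    have := norm_fc_le hr (h.int r) n
    linarith
  have h5 : 1 / (2 * (n : ℝ)) * ‖S‖ ≤ 1 / (2 * (n : ℝ)) * (cnt w r +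
      ∑ a ∈ zs w R with r < ‖a‖, |w a| * ((r / ‖a‖) ^ n - (r * ‖a‖ / R ^ 2) ^ n)) :=
    mul_le_mul_of_nonneg_left hs (by positivity)
  have h6 : (R / r) ^ n * (r / R) ^ n = 1 := by
    rw [← mul_pow, div_mul_div_comm, mul_comm R r, div_self (by positivity), one_pow]
  have h7 : ‖fc u R n‖ ≤ (R / r) ^ n * (UU u r + 1 / (2 * (n : ℝ)) * (cnt w r +
      ∑ a ∈ zs w R with r < ‖a‖, |w a| * ((r / ‖a‖) ^ n - (r * ‖a‖ / R ^ 2) ^ n))) := by
    calc ‖fc u R n‖ = (R / r) ^ n * ((r / R) ^ n * ‖fc u R n‖) := by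
          rw [← mul_assoc, h6, one_mul]
      _ ≤ _ := mul_le_mul_of_nonneg_left (by linarith) (by positivity)
  refine h7.trans (le_of_eq ?_)
  rw [mul_add, mul_add (1 / (2 * (n : ℝ))), mul_add ((R / r) ^ n), mul_add ((R / r) ^ n), add_assoc]
  congr 1
  congr 1
  · ring
  · rw [Finset.mul_sum, Finset.mul_sum]
    apply Finset.sum_congr rfl
    intro a ha
    rw [Finset.mem_filter] at ha
    have h0 : 0 < ‖a‖ := hr.trans ha.2
    have e3 : (R / r) ^ n * (r / ‖a‖) ^ n = (R / ‖a‖) ^ n := by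
      rw [← mul_pow]; congr 1; field_simp
    have e4 : (R / r) ^ n * (r * ‖a‖ / R ^ 2) ^ n = (‖a‖ / R) ^ n := by
      rw [← mul_pow]; congr 1; field_simp
    rw [← e3, ← e4]
    ring

end Pool.Agent.PfA
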