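import Pool.Agent.PfA.Coef0
import Pool.Agent.PfA.Abel

/-! MP_f2c8f8_an, project PfA, row PF-13 -/

set_option autoImplicit false

open Filter MeasureTheory ValueDistribution Metric
open scoped ComplexConjugate Topology

noncomputable section

namespace Pool.Agent.PfA

theorem pf13_mem_zs {w : ℂ → ℝ} (hw : LF w) (R : ℝ) (a : ℂ) :
    a ∈ zs w R ↔ ‖a‖ ≤ R ∧ w a ≠ 0 := by
  unfold zs
  rw [dif_pos (hw R)]
  simp

theorem pf13_sum_le_cnt {w : ℂ → ℝ} (hw : LF w) {t : ℝ} (S : Finset ℂ)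
    (hS : ∀ a ∈ S, ‖a‖ ≤ t ∧ w a ≠ 0) : ∑ a ∈ S, |w a| ≤ cnt w t := by
  unfold cnt
  apply Finset.sum_le_sum_of_subset_of_nonneg
  · intro a ha
    rw [pf13_mem_zs hw]
    exact hS a ha
  · intro a _ _
    exact abs_nonneg _

/-- the counting function between `r` and `R` -/
theorem pf13_cnt {u w : ℂ → ℝ} {E : Set ℝ} {N T : ℝ → ℝ} {C : ℝ} (h : Core u w E N T C)
    {κ η r0 s2 : ℝ} (hκ : 0 < κ) (hr0 : 1 ≤ r0) (hN : ∀ r, r0 ≤ r → N r ≤ κ * T r) (h1 : 1 ≤ s2)
    {r A : ℝ} (hA : 1 ≤ A) (hr : r0 ≤ r)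
    (hT : ∀ t, r ≤ t → t ≤ Real.exp 3 * A * r → T t ≤ (1 + η) * T r * (t / r) ^ s2)
    {t : ℝ} (ht : r ≤ t) (ht2 : t ≤ Real.exp 1 * A * r) :
    cnt w t ≤ Real.exp 1 * s2 * (κ * (1 + η) * T r) * (t / r) ^ s2 := by
  have hs2 : 0 < s2 := by linarith
  have hrpos : 0 < r := by linarith
  have htpos : 0 < t := by linarith
  have hl : 0 < 1 / s2 := by positivity
  have hc := cnt_le h.dat.lf (t := t) (l := 1 / s2) (by linarith) hl
  have hl1 : 1 / s2 ≤ 1 := by rw [div_le_one hs2]; exact h1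
  have he1 : 1 ≤ Real.exp (1 / s2) := Real.one_le_exp hl.le
  have he2 : Real.exp (1 / s2) ≤ Real.exp 1 := Real.exp_le_exp.2 hl1
  set t' := Real.exp (1 / s2) * t with ht'
  have htt' : t ≤ t' := by rw [ht']; nlinarith
  have ht'2 : t' ≤ Real.exp 3 * A * r := by
    have h3 : Real.exp 3 = Real.exp 1 * Real.exp 1 * Real.exp 1 := by
      rw [← Real.exp_add, ← Real.exp_add]; norm_num
    have h4 : 1 ≤ Real.exp 1 := Real.one_le_exp (by norm_num)
    have h5 : t' ≤ Real.exp 1 * (Real.exp 1 * A * r) := by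
      rw [ht']
      exact mul_le_mul he2 ht2 htpos.le (by positivity)
    have h6 : 0 < Real.exp 1 * (Real.exp 1 * A * r) := by positivity
    rw [h3]
    nlinarith
  have h7 : N t' ≤ κ * T t' := hN t' (by linarith)
  have h8 := hT t' (by linarith) ht'2
  have h9 : NI w t' ≤ κ * ((1 + η) * T r * (t' / r) ^ s2) := by
    rw [← h.hN t' (by linarith)]
    exact h7.trans (mul_le_mul_of_nonneg_left h8 hκ.le)
  have h10 : (t' / r) ^ s2 = Real.exp 1 * (t / r) ^ s2 := by
    rw [ht', mul_div_assoc, Real.mul_rpow (Real.exp_pos _).le (by positivity), ← Real.exp_mul]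
    congr 2
    field_simp
  rw [h10] at h9
  have h11 : cnt w t = s2 * (1 / s2 * cnt w t) := by field_simp
  rw [h11]
  calc s2 * (1 / s2 * cnt w t) ≤ s2 * (κ * ((1 + η) * T r * (Real.exp 1 * (t / r) ^ s2))) :=
        mul_le_mul_of_nonneg_left (hc.trans h9) hs2.le
    _ = _ := by ring

theorem coef_high {u w : ℂ → ℝ} {E : Set ℝ} {N T : ℝ → ℝ} {C : ℝ} (h : Core u w E N T C) {κ η r0 s1 s2 : ℝ}
    {q : ℕ} (hκ : 0 < κ) (hη : 0 < η) (hr0 : 1 ≤ r0) (hN : ∀ r, r0 ≤ r → N r ≤ κ * T r)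
    (h1 : 1 ≤ s2) (hq : s2 < (q : ℝ) + 1) :
    ∃ C1 : ℝ, 0 ≤ C1 ∧ ∀ r A : ℝ, 1 ≤ A → r0 ≤ r → r ∉ E → 0 < T r →
      (∀ t, r ≤ t → t ≤ Real.exp 3 * A * r → T t ≤ (1 + η) * T r * (t / r) ^ s2) →
      ∀ n : ℕ, q < n →
      ‖fc u r n‖ ≤ κ * (1 + η) * T r * BB s1 s2 q n + C1 * (T r + 1) * A ^ (-((n : ℝ) - s2)) := by
  have hC := h.hC
  have hs2 : 0 < s2 := by linarith
  refine ⟨4 * (1 + η) + C + κ * (1 + η) * (1 + Real.exp 1 * s2), by positivity, ?_⟩
  intro r A hA hr hrE hTr hT n hn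
  have hrpos : 0 < r := by linarith
  have hn1 : 1 ≤ n := by omega
  have hnq : (q : ℝ) + 1 ≤ (n : ℝ) := by exact_mod_cast hn
  have hns : s2 < (n : ℝ) := by linarith
  have hnpos : (0 : ℝ) < n := by linarith
  have hAr : 0 < A * r := by positivity
  have he1 : 1 < Real.exp 1 := Real.one_lt_exp_iff.2 (by norm_num)
  obtain ⟨R, hR1, hR2, hRE⟩ := exists_reg h.dat.cE (x := A * r) (y := Real.exp 1 * A * r)
    (by nlinarith)
  have hrR : r < R := by nlinarith
  have hRpos : 0 < R := by linarith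
  have hin := fc_inner h.dat hrpos hrR hrE hRE hn1
  set B : ℝ := κ * (1 + η) * T r with hB
  have hBpos : 0 < B := by positivity
  set B' : ℝ := Real.exp 1 * s2 * B with hB'
  have hB'pos : 0 < B' := by positivity
  -- the power of r / R
  set P : ℝ := (r / R) ^ ((n : ℝ) - s2) with hP
  have hPpos : 0 < P := by positivity
  have hPA : P ≤ A ^ (-((n : ℝ) - s2)) := by
    rw [Real.rpow_neg (by linarith), ← Real.inv_rpow (by linarith)]
    apply Real.rpow_le_rpow (by positivity) _ (by linarith)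
    rw [div_le_iff₀ hRpos, inv_mul_eq_div, le_div_iff₀ (by linarith)]
    linarith
  have hQ : (r / R) ^ n * (R / r) ^ s2 = P := by
    have h2 : (R / r) ^ s2 = ((r / R) ^ s2)⁻¹ := by
      rw [← Real.inv_rpow (by positivity), inv_div]
    rw [hP, ← Real.rpow_natCast, Real.rpow_sub (by positivity), h2]
    exact (div_eq_mul_inv _ _).symm
  have hQ2 : (r / R) ^ n ≤ P := by
    rw [← hQ]
    have h2 : 1 ≤ (R / r) ^ s2 := by
      apply Real.one_le_rpow _ hs2.le
      rw [le_div_iff₀ hrpos]; linarith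
    have h3 : 0 < (r / R) ^ n := by positivity
    nlinarith
  have he3 : Real.exp 1 * A * r ≤ Real.exp 3 * A * r := by
    have : Real.exp 1 ≤ Real.exp 3 := Real.exp_le_exp.2 (by norm_num)
    have h2 : Real.exp 1 * (A * r) ≤ Real.exp 3 * (A * r) := mul_le_mul_of_nonneg_right this hAr.le
    linarith
  -- the first term
  have hT1 : (r / R) ^ n * UU u R ≤ (4 * (1 + η) * T r + C) * P := by
    have h2 := h.hU R (by linarith)
    have h3 := hT R hrR.le (by linarith)
    have h4 : UU u R ≤ 4 * ((1 + η) * T r * (R / r) ^ s2) + C := by linarith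
    have h5 : (0 : ℝ) ≤ (r / R) ^ n := by positivity
    calc (r / R) ^ n * UU u R ≤ (r / R) ^ n * (4 * ((1 + η) * T r * (R / r) ^ s2) + C) :=
          mul_le_mul_of_nonneg_left h4 h5
      _ = 4 * (1 + η) * T r * ((r / R) ^ n * (R / r) ^ s2) + C * (r / R) ^ n := by ring
      _ ≤ 4 * (1 + η) * T r * P + C * P := by
          rw [hQ]
          have := mul_le_mul_of_nonneg_left hQ2 hC
          linarith
      _ = _ := by ring
  have hcnt : ∀ t, r ≤ t → t ≤ R → cnt w t ≤ B' * (t / r) ^ s2 := by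
    intro t ht htR
    exact pf13_cnt h hκ hr0 hN h1 hA hr hT ht (by linarith)
  have hT2 : cnt w r / (2 * n) ≤ B' / (2 * n) := by
    have h2 := hcnt r le_rfl hrR.le
    rw [div_self hrpos.ne', Real.one_rpow, mul_one] at h2
    gcongr
  -- the sum
  set S := (zs w R).filter (fun a => r < ‖a‖) with hS
  have hmem : ∀ a ∈ S, r < ‖a‖ ∧ ‖a‖ < R ∧ w a ≠ 0 := by
    intro a ha
    rw [hS, Finset.mem_filter, pf13_mem_zs h.dat.lf] at ha
    refine ⟨ha.2, lt_of_le_of_ne ha.1.1 ?_, ha.1.2⟩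
    intro h2
    exact hRE (h2 ▸ h.dat.wE a ha.1.2)
  have hA1 := abel_high S (fun a => ‖a‖) (fun a => |w a|) (r := r) (R := R) (σ := s2) (B := B)
    (B' := B') (n := n) hrpos hrR (fun a ha => ⟨(hmem a ha).1, (hmem a ha).2.1⟩)
    (fun a _ => abs_nonneg _) hs2 hns
    (by
      intro t ht htR
      have h2 := sum_log_le h.dat.lf (R := R) (t := t) (by linarith) htR hrpos
      have h3 := hN t (by linarith)
      have h4 := hT t ht (by linarith)
      rw [h.hN t (by linarith)] at h3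
      calc _ ≤ NI w t := h2
        _ ≤ κ * T t := h3
        _ ≤ κ * ((1 + η) * T r * (t / r) ^ s2) := mul_le_mul_of_nonneg_left h4 hκ.le
        _ = B * (t / r) ^ s2 := by rw [hB]; ring)
    (by
      refine le_trans ?_ (hcnt R hrR.le le_rfl)
      exact pf13_sum_le_cnt h.dat.lf S fun a ha => ⟨(hmem a ha).2.1.le, (hmem a ha).2.2⟩)
  have hA2 := abel_cnt S (fun a => ‖a‖) (fun a => |w a|) (r := r) (R := R) (σ := s2) (B := B')
    (n := n) hrpos hrR (fun a ha => ⟨(hmem a ha).1, (hmem a ha).2.1⟩)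
    (fun a _ => abs_nonneg _) hs2 hns
    (by
      intro t ht htR
      refine le_trans ?_ (hcnt t ht htR)
      apply pf13_sum_le_cnt h.dat.lf
      intro a ha
      rw [Finset.mem_filter] at ha
      exact ⟨ha.2, (hmem a ha.1).2.2⟩)
  have hsum : ∑ a ∈ S, |w a| * ((r / ‖a‖) ^ n / (2 * n)) ≤
      B * (min (n : ℝ) (Real.exp 1 * s2) / (2 * ((n : ℝ) - s2))) + P * (B / 2 + B' / (2 * n)) := by
    have hd : 0 < 2 * ((n : ℝ) - s2) := by linarith
    rcases le_total (n : ℝ) (Real.exp 1 * s2) with hle | hle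
    · rw [min_eq_left hle]
      exact hA1
    · rw [min_eq_right hle]
      refine hA2.trans ?_
      have h2 : B' / (2 * ((n : ℝ) - s2)) = B * (Real.exp 1 * s2 / (2 * ((n : ℝ) - s2))) := by
        rw [hB']; ring
      rw [h2]
      have h3 : 0 ≤ P * (B / 2) := by positivity
      linarith
  have hBB : BB s1 s2 q n = min (n : ℝ) (Real.exp 1 * s2) / (2 * ((n : ℝ) - s2)) +
      Real.exp 1 * s2 / (2 * (n : ℝ)) := by
    unfold BB
    rw [if_neg (by omega), if_neg (by omega)]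
  have hfin1 : ‖fc u r n‖ ≤ B * BB s1 s2 q n +
      (4 * (1 + η) * T r + C + (B / 2 + B' / (2 * n))) * P := by
    have h2 : B' / (2 * n) = B * (Real.exp 1 * s2 / (2 * (n : ℝ))) := by rw [hB']; ring
    have h3 := hin.trans (add_le_add (add_le_add hT1 hT2) hsum)
    rw [hBB]
    clear_value B B' P
    generalize min (n : ℝ) (Real.exp 1 * s2) / (2 * ((n : ℝ) - s2)) = m1 at h3 ⊢
    rw [h2] at h3 ⊢
    generalize Real.exp 1 * s2 / (2 * (n : ℝ)) = m2 at h3 ⊢
    generalize ‖fc u r n‖ = m3 at h3 ⊢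
    clear hin hT1 hT2 hsum hBB
    linarith only [h3]
  have hconst : 4 * (1 + η) * T r + C + (B / 2 + B' / (2 * n)) ≤
      (4 * (1 + η) + C + κ * (1 + η) * (1 + Real.exp 1 * s2)) * (T r + 1) := by
    have h2 : B' / (2 * n) ≤ B' := by
      rw [div_le_iff₀ (by positivity)]
      have : (1 : ℝ) ≤ n := by exact_mod_cast hn1
      nlinarith
    have h3 : B / 2 + B' / (2 * n) ≤ κ * (1 + η) * (1 + Real.exp 1 * s2) * T r := by
      calc B / 2 + B' / (2 * n) ≤ B + B' := by linarith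
        _ = κ * (1 + η) * (1 + Real.exp 1 * s2) * T r := by rw [hB', hB]; ring
    have h4 : 0 ≤ C * T r := by positivity
    have h5 : 0 ≤ κ * (1 + η) * (1 + Real.exp 1 * s2) := by positivity
    nlinarith
  refine hfin1.trans ?_
  have h6 : 0 ≤ (4 * (1 + η) + C + κ * (1 + η) * (1 + Real.exp 1 * s2)) * (T r + 1) := by positivity
  have h7 := mul_le_mul hconst hPA hPpos.le h6
  linarith

end Pool.Agent.PfA
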