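import Pool.Agent.PfA.Coef0
import Pool.Agent.PfA.Abel

/-! MP_f2c8f8_an, project PfA, row PF-12: the low Fourier coefficients -/

set_option autoImplicit false

open Filter MeasureTheory ValueDistribution Metric
open scoped ComplexConjugate Topology

noncomputable section

namespace Pool.Agent.PfA

theorem pf12_pow {R rb : ℝ} (hrb : 1 ≤ rb) (hR : rb < R) {n q : ℕ} (hnq : n ≤ q) :
    (R / rb) ^ n ≤ R ^ q := by
  have h0 : 0 < rb := by linarith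
  have h1 : R / rb ≤ R := by
    rw [div_le_iff₀ h0]
    nlinarith
  have h2 : 0 ≤ R / rb := by
    apply div_nonneg <;> linarith
  calc (R / rb) ^ n ≤ R ^ n := pow_le_pow_left₀ h2 h1 n
    _ ≤ R ^ q := pow_le_pow_right₀ (by linarith) hnq

theorem pf12_first {R rb U V : ℝ} (hrb : 1 ≤ rb) (hR : rb < R) {n q : ℕ} (hn : 1 ≤ n)
    (hnq : n ≤ q) : (R / rb) ^ n * (U + V / (2 * n)) ≤ (|U| + |V|) * R ^ q := by
  have h0 : 0 < rb := by linarith
  have h2 : 0 ≤ R / rb := by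
    apply div_nonneg <;> linarith
  have hn' : (1 : ℝ) ≤ (n : ℝ) := by exact_mod_cast hn
  have h3 : V / (2 * n) ≤ |V| := by
    rw [div_le_iff₀ (by linarith)]
    have h4 := le_abs_self V
    have h5 := abs_nonneg V
    nlinarith
  have h6 : U + V / (2 * n) ≤ |U| + |V| := add_le_add (le_abs_self U) h3
  have h7 : 0 ≤ |U| + |V| := add_nonneg (abs_nonneg U) (abs_nonneg V)
  calc (R / rb) ^ n * (U + V / (2 * n)) ≤ (R / rb) ^ n * (|U| + |V|) :=
        mul_le_mul_of_nonneg_left h6 (pow_nonneg h2 n)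
    _ ≤ R ^ q * (|U| + |V|) := mul_le_mul_of_nonneg_right (pf12_pow hrb hR hnq) h7
    _ = (|U| + |V|) * R ^ q := mul_comm _ _

theorem coef_low {u w : ℂ → ℝ} {E : Set ℝ} {N T : ℝ → ℝ} {C : ℝ} (h : Core u w E N T C) {κ η r0 s1 s2 : ℝ}
    {q : ℕ} (hκ : 0 < κ) (hη : 0 < η) (hr0 : 1 ≤ r0) (hN : ∀ r, r0 ≤ r → N r ≤ κ * T r)
    (hq : (q : ℝ) < s1) :
    ∃ C1 r1 : ℝ, 0 ≤ C1 ∧ ∀ R, r1 ≤ R → R ∉ E → 0 < T R →
      (∀ t, 1 ≤ t → t ≤ R → T t ≤ (1 + η) * T R * (t / R) ^ s1) → ∀ n : ℕ, 1 ≤ n → n ≤ q →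
      ‖fc u R n‖ ≤ κ * (1 + η) * T R * BB s1 s2 q n + C1 * R ^ q := by
  obtain ⟨rb, hb1, hb2, hb3⟩ := exists_reg h.dat.cE (show r0 < r0 + 1 by linarith)
  refine ⟨|UU u rb| + |cnt w rb|, rb + 1, add_nonneg (abs_nonneg _) (abs_nonneg _), ?_⟩
  intro R hR hRE hTR hT n hn hnq
  have hrb1 : 1 ≤ rb := by linarith
  have hrb0 : 0 < rb := by linarith
  have hrbR : rb < R := by linarith
  have h1 := fc_outer h.dat hrb0 hrbR hb3 hRE hn
  have h2 : (R / rb) ^ n * (UU u rb + cnt w rb / (2 * n)) ≤ (|UU u rb| + |cnt w rb|) * R ^ q :=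
    pf12_first hrb1 hrbR hn hnq
  have hnq' : (n : ℝ) ≤ (q : ℝ) := by exact_mod_cast hnq
  have h3 := abel_low ((zs w R).filter fun a => rb < ‖a‖) (fun a : ℂ => ‖a‖) (fun a => |w a|)
    (r := rb) (R := R) (σ := s1) (B := κ * (1 + η) * T R) (n := n) hrb0 hrbR
    (by
      intro a ha
      rw [Finset.mem_filter, mem_zs h.dat.lf] at ha
      refine ⟨ha.2, lt_of_le_of_ne ha.1.1 ?_⟩
      intro hEq
      exact hRE (hEq ▸ h.dat.wE a ha.1.2))
    (fun a _ => abs_nonneg _) hn (lt_of_le_of_lt hnq' hq)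
    (by
      intro t ht1 ht2
      have ht : 1 ≤ t := le_trans hrb1 ht1
      calc ∑ a ∈ (zs w R).filter (fun a => rb < ‖a‖), |w a| * max 0 (Real.log (t / ‖a‖))
          ≤ NI w t := sum_log_le h.dat.lf ht ht2 hrb0
        _ = N t := (h.hN t ht).symm
        _ ≤ κ * T t := hN t (by linarith)
        _ ≤ κ * ((1 + η) * T R * (t / R) ^ s1) := mul_le_mul_of_nonneg_left (hT t ht ht2) hκ.le
        _ = κ * (1 + η) * T R * (t / R) ^ s1 := by ring)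
  have h4 : BB s1 s2 q n = s1 ^ 2 / (s1 ^ 2 - (n : ℝ) ^ 2) := by
    unfold BB
    rw [if_neg (by omega), if_pos hnq]
  rw [h4]
  calc ‖fc u R n‖ ≤ _ := h1
    _ ≤ (|UU u rb| + |cnt w rb|) * R ^ q +
        κ * (1 + η) * T R * (s1 ^ 2 / (s1 ^ 2 - (n : ℝ) ^ 2)) := add_le_add h2 h3
    _ = _ := add_comm _ _

end Pool.Agent.PfA
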