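import Pool.Agent.PfA.Sum0

/-! MP_f2c8f8_an, project PfA, row PF-20 -/

set_option autoImplicit false

open Filter MeasureTheory ValueDistribution Metric
open scoped ComplexConjugate Topology

noncomputable section

namespace Pool.Agent.PfA

theorem pf20_floor {t : ℝ} (ht : 1 ≤ t) (hn : NonInt t) :
    (⌊t⌋₊ : ℝ) < t ∧ t < (⌊t⌋₊ : ℝ) + 1 := by
  refine ⟨lt_of_le_of_ne (Nat.floor_le (by linarith)) ?_, Nat.lt_floor_add_one t⟩
  intro h
  exact hn (⌊t⌋₊ : ℤ) (by simpa using h)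

theorem pf20_s1 {t q η : ℝ} (h0 : 0 ≤ q) (hq : q < t) (hη : 0 < η) :
    ∃ s : ℝ, q < s ∧ s < t ∧ t ^ 2 - s ^ 2 ≤ η * (s ^ 2 - q ^ 2) := by
  have h1 : ∀ᶠ s in 𝓝[<] t, q < s := by
    have : ∀ᶠ s in 𝓝 t, q < s := lt_mem_nhds hq
    exact this.filter_mono nhdsWithin_le_nhds
  have h2 : ∀ᶠ s in 𝓝[<] t, s < t := self_mem_nhdsWithin
  have h3 : ∀ᶠ s in 𝓝[<] t, t ^ 2 - s ^ 2 < η * (s ^ 2 - q ^ 2) := by
    have hc : ContinuousAt (fun s : ℝ => η * (s ^ 2 - q ^ 2) - (t ^ 2 - s ^ 2)) t := by fun_prop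
    have hpos : 0 < η * (t ^ 2 - q ^ 2) - (t ^ 2 - t ^ 2) := by
      have : 0 < t ^ 2 - q ^ 2 := by nlinarith
      have := mul_pos hη this
      linarith
    have := (hc.eventually (lt_mem_nhds hpos)).filter_mono (nhdsWithin_le_nhds (s := Set.Iio t))
    filter_upwards [this] with s hs
    linarith
  obtain ⟨s, hs1, hs2, hs3⟩ := (h1.and (h2.and h3)).exists
  exact ⟨s, hs1, hs2, hs3.le⟩

theorem pf20_s2 {t p η : ℝ} (h0 : 0 < t) (hp : t < p) (hη : 0 < η) :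
    ∃ s : ℝ, t < s ∧ s < p ∧ s / t * (1 + (s - t) / (p - s)) ≤ 1 + η := by
  have h1 : ∀ᶠ s in 𝓝[>] t, s < p := by
    have : ∀ᶠ s in 𝓝 t, s < p := gt_mem_nhds hp
    exact this.filter_mono nhdsWithin_le_nhds
  have h2 : ∀ᶠ s in 𝓝[>] t, t < s := self_mem_nhdsWithin
  have h3 : ∀ᶠ s in 𝓝[>] t, s / t * (1 + (s - t) / (p - s)) < 1 + η := by
    have hpt : p - t ≠ 0 := by linarith [sub_pos.2 hp]
    have hc : ContinuousAt (fun s : ℝ => s / t * (1 + (s - t) / (p - s))) t := by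
      refine ContinuousAt.mul (by fun_prop) ?_
      refine ContinuousAt.add continuousAt_const ?_
      refine ContinuousAt.div (by fun_prop) (by fun_prop) hpt
    have hpos : t / t * (1 + (t - t) / (p - t)) < 1 + η := by
      rw [div_self h0.ne', sub_self, zero_div]
      linarith
    exact (hc.eventually (gt_mem_nhds hpos)).filter_mono (nhdsWithin_le_nhds (s := Set.Ioi t))
  obtain ⟨s, hs1, hs2, hs3⟩ := (h1.and (h2.and h3)).exists
  exact ⟨s, hs2, hs1, hs3.le⟩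

theorem BB_cont {t : ℝ} (ht : 1 ≤ t) (hn : NonInt t) {η : ℝ} (hη : 0 < η) :
    ∃ s1 s2 : ℝ, (⌊t⌋₊ : ℝ) < s1 ∧ s1 < t ∧ t < s2 ∧ s2 < (⌊t⌋₊ : ℝ) + 1 ∧
      ∀ n : ℕ, BB s1 s2 ⌊t⌋₊ n ≤ (1 + η) * BB t t ⌊t⌋₊ n := by
  obtain ⟨hq1, hq2⟩ := pf20_floor ht hn
  have hq0 : (0 : ℝ) ≤ (⌊t⌋₊ : ℝ) := Nat.cast_nonneg _
  have ht0 : 0 < t := by linarith
  obtain ⟨s1, h1, h2, h3⟩ := pf20_s1 hq0 hq1 hη
  obtain ⟨s2, h4, h5, h6⟩ := pf20_s2 ht0 hq2 hη
  refine ⟨s1, s2, h1, h2, h4, h5, ?_⟩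
  intro n
  unfold BB
  by_cases hn0 : n = 0
  · simp [hn0, hη.le]
  rw [if_neg hn0, if_neg hn0]
  by_cases hnq : n ≤ ⌊t⌋₊
  · rw [if_pos hnq, if_pos hnq]
    have hnq' : (n : ℝ) ≤ (⌊t⌋₊ : ℝ) := by exact_mod_cast hnq
    have hn1 : (0 : ℝ) ≤ (n : ℝ) := Nat.cast_nonneg _
    have hA : 0 < s1 ^ 2 - (n : ℝ) ^ 2 := by nlinarith
    have hB : 0 < t ^ 2 - (n : ℝ) ^ 2 := by nlinarith
    rw [← mul_div_assoc, div_le_div_iff₀ hA hB]
    have h7 : t ^ 2 - (n : ℝ) ^ 2 ≤ (1 + η) * (s1 ^ 2 - (n : ℝ) ^ 2) := by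
      have h8 : s1 ^ 2 - (⌊t⌋₊ : ℝ) ^ 2 ≤ s1 ^ 2 - (n : ℝ) ^ 2 := by nlinarith
      have h9 := mul_le_mul_of_nonneg_left h8 hη.le
      nlinarith
    have h10 : s1 ^ 2 ≤ t ^ 2 := by nlinarith
    calc s1 ^ 2 * (t ^ 2 - (n : ℝ) ^ 2) ≤ t ^ 2 * (t ^ 2 - (n : ℝ) ^ 2) :=
          mul_le_mul_of_nonneg_right h10 hB.le
      _ ≤ t ^ 2 * ((1 + η) * (s1 ^ 2 - (n : ℝ) ^ 2)) :=
          mul_le_mul_of_nonneg_left h7 (by positivity)
      _ = (1 + η) * t ^ 2 * (s1 ^ 2 - (n : ℝ) ^ 2) := by ring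
  · rw [if_neg hnq, if_neg hnq]
    have hnq' : (⌊t⌋₊ : ℝ) + 1 ≤ (n : ℝ) := by
      have : ⌊t⌋₊ + 1 ≤ n := by omega
      exact_mod_cast this
    have hnpos : (0 : ℝ) < n := by linarith
    have hA : 0 < (n : ℝ) - s2 := by linarith
    have hB : 0 < (n : ℝ) - t := by linarith
    have hE : 0 < Real.exp 1 := Real.exp_pos 1
    have hr : 1 ≤ s2 / t := by rw [le_div_iff₀ ht0]; linarith
    have hd : 0 ≤ (s2 - t) / ((⌊t⌋₊ : ℝ) + 1 - s2) :=
      div_nonneg (by linarith) (by linarith)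
    set δ : ℝ := (s2 - t) / ((⌊t⌋₊ : ℝ) + 1 - s2) with hδ
    have hδ2 : δ * ((⌊t⌋₊ : ℝ) + 1 - s2) = s2 - t := by
      rw [hδ]
      exact div_mul_cancel₀ _ (by linarith [sub_pos.2 h5])
    have hmin : min (n : ℝ) (Real.exp 1 * s2) ≤ s2 / t * min (n : ℝ) (Real.exp 1 * t) := by
      rw [mul_min_of_nonneg _ _ (by linarith)]
      refine min_le_min ?_ ?_
      · nlinarith
      · have : s2 / t * (Real.exp 1 * t) = Real.exp 1 * s2 := by field_simp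
        rw [this]
    have hm0 : 0 ≤ min (n : ℝ) (Real.exp 1 * t) := le_min hnpos.le (by positivity)
    have hm2 : 0 ≤ min (n : ℝ) (Real.exp 1 * s2) := le_min hnpos.le (by
      have : 0 < s2 := by linarith
      positivity)
    have hinv : 1 / (2 * ((n : ℝ) - s2)) ≤ (1 + δ) / (2 * ((n : ℝ) - t)) := by
      rw [div_le_div_iff₀ (by linarith) (by linarith)]
      have := mul_le_mul_of_nonneg_left (sub_le_sub_right hnq' s2) hd
      nlinarith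
    have hfirst : min (n : ℝ) (Real.exp 1 * s2) / (2 * ((n : ℝ) - s2)) ≤
        (1 + η) * (min (n : ℝ) (Real.exp 1 * t) / (2 * ((n : ℝ) - t))) := by
      calc min (n : ℝ) (Real.exp 1 * s2) / (2 * ((n : ℝ) - s2))
          = min (n : ℝ) (Real.exp 1 * s2) * (1 / (2 * ((n : ℝ) - s2))) := by ring
        _ ≤ (s2 / t * min (n : ℝ) (Real.exp 1 * t)) * ((1 + δ) / (2 * ((n : ℝ) - t))) := by
            refine mul_le_mul hmin hinv (by positivity) (by positivity)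
        _ = (s2 / t * (1 + δ)) * (min (n : ℝ) (Real.exp 1 * t) / (2 * ((n : ℝ) - t))) := by ring
        _ ≤ (1 + η) * (min (n : ℝ) (Real.exp 1 * t) / (2 * ((n : ℝ) - t))) := by
            refine mul_le_mul_of_nonneg_right h6 ?_
            positivity
    have hsr : s2 / t ≤ 1 + η := by
      refine le_trans ?_ h6
      nlinarith
    have hsecond : Real.exp 1 * s2 / (2 * (n : ℝ)) ≤
        (1 + η) * (Real.exp 1 * t / (2 * (n : ℝ))) := by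
      have : Real.exp 1 * s2 / (2 * (n : ℝ)) = s2 / t * (Real.exp 1 * t / (2 * (n : ℝ))) := by
        field_simp
      rw [this]
      refine mul_le_mul_of_nonneg_right hsr (by positivity)
    rw [mul_add]
    exact add_le_add hfirst hsecond

end Pool.Agent.PfA
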