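import Pool.Agent.PfA.Defs

/-! MP_f2c8f8_an, project PfA, row PF-4 -/

set_option autoImplicit false

open Filter MeasureTheory ValueDistribution Metric
open scoped ComplexConjugate Topology

noncomputable section

namespace Pool.Agent.PfA

theorem mem_zs {w : ℂ → ℝ} (hw : LF w) {R : ℝ} {a : ℂ} : a ∈ zs w R ↔ ‖a‖ ≤ R ∧ w a ≠ 0 := by
  classical
  have h := hw R
  simp only [zs, h, dif_pos, Set.Finite.mem_toFinset, Set.mem_ofPred_eq]

theorem LF.sub {w x : ℂ → ℝ} (hw : LF w) (hx : LF x) : LF (fun a => w a - x a) := by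
  intro R
  refine ((hw R).union (hx R)).subset ?_
  rintro a ⟨h1, h2⟩
  by_cases h3 : w a = 0
  · right
    refine ⟨h1, fun h4 => h2 ?_⟩
    simp only [h3, h4, sub_zero]
  · left
    exact ⟨h1, h3⟩

theorem pf4_int {u : ℂ → ℝ} {r : ℝ} (hu : CircleIntegrable u 0 r) (n : ℕ) :
    CircleIntegrable (fun z => (u z : ℂ) * (conj z / (r : ℂ)) ^ n) 0 r := by
  have h1 : IntervalIntegrable (fun θ : ℝ => (u (circleMap 0 r θ) : ℂ)) volume 0 (2 * Real.pi) := by
    exact ⟨hu.1.ofReal, hu.2.ofReal⟩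
  have h2 : Continuous fun θ : ℝ => (conj (circleMap 0 r θ) / (r : ℂ)) ^ n := by
    have h3 : Continuous fun θ : ℝ => circleMap 0 r θ := continuous_circleMap 0 r
    exact ((Complex.continuous_conj.comp h3).div_const _).pow n
  exact h1.mul_continuousOn h2.continuousOn

theorem fc_sub {u v : ℂ → ℝ} {r : ℝ} (hu : CircleIntegrable u 0 r) (hv : CircleIntegrable v 0 r)
    (n : ℕ) : fc (fun z => u z - v z) r n = fc u r n - fc v r n := by
  unfold fc
  rw [← Real.circleAverage_sub (pf4_int hu n) (pf4_int hv n)]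
  congr 1
  ext z
  simp only [Pi.sub_apply, Complex.ofReal_sub, sub_mul]

/-- the two radii formula with the sum over a larger set -/
theorem TwoR.of_superset {u w : ℂ → ℝ} {E : Set ℝ} (hw : LF w) (h : TwoR u w E) {r R : ℝ}
    (hr : 0 < r) (hrR : r < R) (h1 : r ∉ E) (h2 : R ∉ E) {n : ℕ} (hn : 1 ≤ n) {S : Finset ℂ}
    (hS : zs w R ⊆ S) (hS2 : ∀ a ∈ S, ‖a‖ ≤ R) :
    fc u r n - ((r / R : ℝ) : ℂ) ^ n * fc u R n =
      -(1 / (2 * (n : ℂ))) * ∑ a ∈ S, (w a : ℂ) *
        ((if ‖a‖ < r then conj a / (r : ℂ) else (r : ℂ) / a) ^ n -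
          ((r : ℂ) * conj a / (R : ℂ) ^ 2) ^ n) := by
  rw [h r R hr hrR h1 h2 n hn]
  congr 1
  refine Finset.sum_subset hS ?_
  intro a ha hna
  have : w a = 0 := by
    by_contra h3
    exact hna ((mem_zs hw).2 ⟨hS2 a ha, h3⟩)
  simp only [this, Complex.ofReal_zero, zero_mul]

theorem pf4_fc_zero (r : ℝ) (n : ℕ) : fc (fun _ => 0) r n = 0 := by
  unfold fc
  have : (fun z : ℂ => (((0 : ℝ) : ℂ)) * (conj z / (r : ℂ)) ^ n) = fun _ => 0 := by
    ext z
    simp only [Complex.ofReal_zero, zero_mul]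
  rw [this]
  exact Real.circleAverage_const 0 0 r

theorem Dat.zero : Dat (fun _ => 0) (fun _ => 0) ∅ where
  lf := by
    intro R
    refine Set.Finite.subset Set.finite_empty ?_
    rintro a ⟨_, h⟩
    exact absurd rfl h
  int := fun r => circleIntegrable_const 0 0 r
  two := by
    intro r R hr hrR _ _ n hn
    rw [pf4_fc_zero, pf4_fc_zero]
    simp only [mul_zero, sub_zero, Complex.ofReal_zero, zero_mul, Finset.sum_const_zero]
  cE := Set.countable_empty
  wE := fun a h => absurd rfl h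

theorem Dat.sub {u v w x : ℂ → ℝ} {E F : Set ℝ} (h : Dat u w E) (h' : Dat v x F) :
    Dat (fun z => u z - v z) (fun a => w a - x a) (E ∪ F) where
  lf := h.lf.sub h'.lf
  int := fun r => (h.int r).sub (h'.int r)
  two := by
    intro r R hr hrR hrE hRE n hn
    classical
    have hr1 : r ∉ E := fun hh => hrE (Or.inl hh)
    have hr2 : r ∉ F := fun hh => hrE (Or.inr hh)
    have hR1 : R ∉ E := fun hh => hRE (Or.inl hh)
    have hR2 : R ∉ F := fun hh => hRE (Or.inr hh)
    set S : Finset ℂ := zs w R ∪ zs x R with hS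
    have hSR : ∀ a ∈ S, ‖a‖ ≤ R := by
      intro a ha
      rcases Finset.mem_union.1 ha with ha | ha
      · exact ((mem_zs h.lf).1 ha).1
      · exact ((mem_zs h'.lf).1 ha).1
    have e1 := TwoR.of_superset h.lf h.two hr hrR hr1 hR1 hn (S := S)
      Finset.subset_union_left hSR
    have e2 := TwoR.of_superset h'.lf h'.two hr hrR hr2 hR2 hn (S := S)
      Finset.subset_union_right hSR
    have e3 : ∑ a ∈ zs (fun a => w a - x a) R, ((w a - x a : ℝ) : ℂ) *
        ((if ‖a‖ < r then conj a / (r : ℂ) else (r : ℂ) / a) ^ n -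
          ((r : ℂ) * conj a / (R : ℂ) ^ 2) ^ n) =
        ∑ a ∈ S, ((w a - x a : ℝ) : ℂ) *
        ((if ‖a‖ < r then conj a / (r : ℂ) else (r : ℂ) / a) ^ n -
          ((r : ℂ) * conj a / (R : ℂ) ^ 2) ^ n) := by
      refine Finset.sum_subset ?_ ?_
      · intro a ha
        obtain ⟨ha1, ha2⟩ := (mem_zs (h.lf.sub h'.lf)).1 ha
        by_cases h3 : w a = 0
        · refine Finset.mem_union_right _ ((mem_zs h'.lf).2 ⟨ha1, fun h4 => ha2 ?_⟩)
          simp only [h3, h4, sub_zero]
        · exact Finset.mem_union_left _ ((mem_zs h.lf).2 ⟨ha1, h3⟩)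
      · intro a ha hna
        have h5 : w a - x a = 0 := by
          by_contra h3
          exact hna ((mem_zs (h.lf.sub h'.lf)).2 ⟨hSR a ha, h3⟩)
        simp only [h5, Complex.ofReal_zero, zero_mul]
    rw [fc_sub (h.int r) (h'.int r), fc_sub (h.int R) (h'.int R), e3]
    have e4 : fc u r n - fc v r n - ((r / R : ℝ) : ℂ) ^ n * (fc u R n - fc v R n) =
        (fc u r n - ((r / R : ℝ) : ℂ) ^ n * fc u R n) -
        (fc v r n - ((r / R : ℝ) : ℂ) ^ n * fc v R n) := by ring
    rw [e4, e1, e2, ← mul_sub, ← Finset.sum_sub_distrib]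
    congr 1
    refine Finset.sum_congr rfl fun a _ => ?_
    rw [Complex.ofReal_sub]
    ring
  cE := h.cE.union h'.cE
  wE := by
    intro a ha
    by_cases h3 : w a = 0
    · right
      refine h'.wE a fun h4 => ha ?_
      simp only [h3, h4, sub_zero]
    · left
      exact h.wE a h3

end Pool.Agent.PfA
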