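import Pool.Agent.PfA.Two
import Pool.Agent.PfA.Lin

/-! MP_f2c8f8_an, project PfA, row PF-5 -/

set_option autoImplicit false

open Filter MeasureTheory ValueDistribution Metric
open scoped ComplexConjugate Topology

noncomputable section

namespace Pool.Agent.PfA

/-- `log |f - a|`, and `0` for the value infinity -/
def ll (f : ℂ → ℂ) (a : WithTop ℂ) (z : ℂ) : ℝ :=
  WithTop.recTopCoe 0 (fun c : ℂ => Real.log ‖f z - c‖) a

/-- the zero divisor minus the pole divisor of `f - a`, and `0` for the value infinity -/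
def dd (f : ℂ → ℂ) (a : WithTop ℂ) (z : ℂ) : ℝ :=
  WithTop.recTopCoe 0 (fun c : ℂ => dv (fun z => f z - c) z) a

theorem pf5_one {f : ℂ → ℂ} (hf : Meromorphic f)
    (hne : ∀ c z : ℂ, meromorphicOrderAt (fun z => f z - c) z ≠ ⊤) (a : WithTop ℂ) :
    ∃ E : Set ℝ, Dat (fun z => ll f a z) (fun z => dd f a z) E := by
  induction a with
  | top => exact ⟨∅, Dat.zero⟩
  | coe c =>
    have hg : Meromorphic (fun z => f z - c) := fun z => (hf z).sub (MeromorphicAt.const c z)
    exact ⟨_, dat_log hg (hne c)⟩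

theorem dat_ll {f : ℂ → ℂ} (hf : Meromorphic f) (hne : ∀ c z : ℂ, meromorphicOrderAt (fun z => f z - c) z ≠ ⊤)
    (a b : WithTop ℂ) :
    ∃ E : Set ℝ, Dat (fun z => ll f a z - ll f b z) (fun z => dd f a z - dd f b z) E := by
  obtain ⟨E, hE⟩ := pf5_one hf hne a
  obtain ⟨F, hF⟩ := pf5_one hf hne b
  exact ⟨E ∪ F, hE.sub hF⟩

end Pool.Agent.PfA
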