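import Pool.Agent.PfA.Core1

/-! MP_f2c8f8_an, project PfA, row PF-6 -/

set_option autoImplicit false

open Filter MeasureTheory ValueDistribution Metric
open scoped ComplexConjugate Topology

noncomputable section

namespace Pool.Agent.PfA

/-- the counting function of a divisor, computed with real weights of the same modulus -/
theorem pf6_log_eq_NI (D : Function.locallyFinsupp ℂ ℤ) (w : ℂ → ℝ)
    (h : ∀ z, |w z| = (D z : ℝ)) {r : ℝ} (hr : 0 ≤ r) :
    Function.locallyFinsuppWithin.logCounting D r = NI w r := by
  classical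
  have hw0 : ∀ z, w z = 0 ↔ D z = 0 := by
    intro z
    rw [← abs_eq_zero, h z, Int.cast_eq_zero]
  have hbr : closedBall (0 : ℂ) |r| = closedBall (0 : ℂ) r := by rw [abs_of_nonneg hr]
  have hsup : {a : ℂ | ‖a‖ ≤ r ∧ w a ≠ 0} =
      (Function.locallyFinsuppWithin.toClosedBall r D).support := by
    ext a
    simp only [Set.mem_ofPred_eq, Function.mem_support]
    constructor
    · rintro ⟨h1, h2⟩
      rw [Function.locallyFinsuppWithin.toClosedBall_eval_within]
      · rwa [ne_eq, hw0] at h2
      · rw [hbr]
        simpa using h1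
    · intro h1
      have h2 : a ∈ closedBall (0 : ℂ) |r| :=
        Function.locallyFinsuppWithin.toClosedBall_support_subset_closedBall D h1
      rw [Function.locallyFinsuppWithin.toClosedBall_eval_within _ h2] at h1
      refine ⟨?_, ?_⟩
      · rw [hbr] at h2
        simpa using h2
      · rwa [ne_eq, hw0]
  have hfin : {a : ℂ | ‖a‖ ≤ r ∧ w a ≠ 0}.Finite := by
    rw [hsup]
    exact (Function.locallyFinsuppWithin.toClosedBall r D).finiteSupport
      (isCompact_closedBall 0 |r|)
  have hzs : (zs w r : Set ℂ) = {a : ℂ | ‖a‖ ≤ r ∧ w a ≠ 0} := by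
    unfold zs
    rw [dif_pos hfin]
    exact hfin.coe_toFinset
  unfold NI
  simp only [Function.locallyFinsuppWithin.logCounting, AddMonoidHom.coe_mk, ZeroHom.coe_mk]
  congr 1
  · rw [finsum_eq_sum_of_support_subset (s := zs w r)]
    · refine Finset.sum_congr rfl fun a ha => ?_
      have ha' : a ∈ (zs w r : Set ℂ) := ha
      rw [hzs] at ha'
      rw [h a, Function.locallyFinsuppWithin.toClosedBall_eval_within]
      rw [hbr]
      simpa using ha'.1
    · intro a ha
      rw [hzs, hsup]
      simp only [Function.mem_support] at ha ⊢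
      intro h0
      apply ha
      rw [h0]
      simp
  · rw [h 0]

/-- the orders of `f - a` and `f - b` at a point -/
theorem pf6_ord {f : ℂ → ℂ} (hf : Meromorphic f)
    (hne : ∀ c z : ℂ, meromorphicOrderAt (fun z => f z - c) z ≠ ⊤) {a b : ℂ} (hab : a ≠ b) (z : ℂ)
    (m n : ℤ) (hm : m = MeromorphicOn.divisor (fun z => f z - a) Set.univ z)
    (hn : n = MeromorphicOn.divisor (fun z => f z - b) Set.univ z) :
    (m < 0 → n = m) ∧ (0 < m → n = 0) ∧ (m = 0 → 0 ≤ n) := by
  have hfa : Meromorphic (fun z => f z - a) := fun x => (hf x).sub (MeromorphicAt.const a x)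
  have hfb : Meromorphic (fun z => f z - b) := fun x => (hf x).sub (MeromorphicAt.const b x)
  have hc : MeromorphicAt (fun _ : ℂ => a - b) z := MeromorphicAt.const _ z
  have hcord : meromorphicOrderAt (fun _ : ℂ => a - b) z = 0 := by
    rw [meromorphicOrderAt_const, if_neg (sub_ne_zero.2 hab)]
  have hsum : (fun z => f z - a) + (fun _ : ℂ => a - b) = fun z => f z - b := by
    funext x
    simp
  have hm' : meromorphicOrderAt (fun z => f z - a) z = (m : WithTop ℤ) := by
    rw [hm, MeromorphicOn.divisor_apply hfa.meromorphicOn (Set.mem_univ z)]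
    exact (WithTop.coe_untop₀_of_ne_top (hne a z)).symm
  have hn' : meromorphicOrderAt (fun z => f z - b) z = (n : WithTop ℤ) := by
    rw [hn, MeromorphicOn.divisor_apply hfb.meromorphicOn (Set.mem_univ z)]
    exact (WithTop.coe_untop₀_of_ne_top (hne b z)).symm
  refine ⟨?_, ?_, ?_⟩
  · intro h
    have h1 : meromorphicOrderAt (fun z => f z - a) z <
        meromorphicOrderAt (fun _ : ℂ => a - b) z := by
      rw [hm', hcord]
      exact_mod_cast h
    have h2 := meromorphicOrderAt_add_eq_left_of_lt hc h1
    rw [hsum, hm', hn'] at h2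
    exact_mod_cast h2
  · intro h
    have h1 : meromorphicOrderAt (fun _ : ℂ => a - b) z <
        meromorphicOrderAt (fun z => f z - a) z := by
      rw [hm', hcord]
      exact_mod_cast h
    have h2 := meromorphicOrderAt_add_eq_right_of_lt (hfa z) h1
    rw [hsum, hcord, hn'] at h2
    exact_mod_cast h2
  · intro h
    have h2 := meromorphicOrderAt_add (hfa z) hc
    rw [hsum, hcord, hn', hm', h] at h2
    simpa using h2

/-- two finite values -/
theorem pf6_fin {f : ℂ → ℂ} (hf : Meromorphic f)
    (hne : ∀ c z : ℂ, meromorphicOrderAt (fun z => f z - c) z ≠ ⊤) {a b : ℂ} (hab : a ≠ b)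
    {r : ℝ} (hr : 1 ≤ r) :
    logCounting f (a : WithTop ℂ) r + logCounting f (b : WithTop ℂ) r =
      NI (fun z => dd f a z - dd f b z) r := by
  rw [logCounting_coe, logCounting_coe, ← Pi.add_apply, ← map_add]
  apply pf6_log_eq_NI _ _ _ (by linarith)
  intro z
  obtain ⟨h1, h2, h3⟩ := pf6_ord hf hne hab z _ _ rfl rfl
  show |dv (fun z => f z - a) z - dv (fun z => f z - b) z| = _
  unfold dv
  rw [Function.locallyFinsuppWithin.coe_add, Pi.add_apply,
    Function.locallyFinsuppWithin.posPart_apply, Function.locallyFinsuppWithin.posPart_apply]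
  generalize MeromorphicOn.divisor (fun z => f z - a) Set.univ z = m at *
  generalize MeromorphicOn.divisor (fun z => f z - b) Set.univ z = n at *
  rw [← Int.cast_sub, ← Int.cast_abs, Int.cast_inj, posPart_def, posPart_def]
  rcases lt_trichotomy m 0 with h | h | h
  · rw [h1 h, sub_self, abs_zero, sup_of_le_right h.le, add_zero]
  · subst h
    rw [zero_sub, abs_neg, abs_of_nonneg (h3 rfl), sup_idem, zero_add, sup_of_le_left (h3 rfl)]
  · rw [h2 h, sub_zero, abs_of_pos h, sup_idem, add_zero, sup_of_le_left h.le]

/-- one finite value and infinity -/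
theorem pf6_top {f : ℂ → ℂ} (hf : Meromorphic f)
    (hne : ∀ c z : ℂ, meromorphicOrderAt (fun z => f z - c) z ≠ ⊤) (a : ℂ)
    {r : ℝ} (hr : 1 ≤ r) (w : ℂ → ℝ) (hw : ∀ z, |w z| = |dv (fun z => f z - a) z|) :
    logCounting f (a : WithTop ℂ) r + logCounting f ⊤ r = NI w r := by
  rw [logCounting_coe, logCounting_top, ← Pi.add_apply, ← map_add]
  apply pf6_log_eq_NI _ _ _ (by linarith)
  intro z
  rw [hw z]
  unfold dv
  rw [Function.locallyFinsuppWithin.coe_add, Pi.add_apply,
    Function.locallyFinsuppWithin.posPart_apply, Function.locallyFinsuppWithin.negPart_apply]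
  have key : (MeromorphicOn.divisor (fun z => f z - a) Set.univ z)⁻ =
      (MeromorphicOn.divisor f Set.univ z)⁻ := by
    by_cases ha : a = 0
    · subst ha
      simp
    · obtain ⟨h1, h2, h3⟩ := pf6_ord hf hne ha z _ _ rfl rfl
      have he : (fun z => f z - 0) = f := by funext x; simp
      rw [he] at h1 h2 h3
      generalize MeromorphicOn.divisor (fun z => f z - a) Set.univ z = m at *
      generalize MeromorphicOn.divisor f Set.univ z = n at *
      rw [negPart_def, negPart_def]
      rcases lt_trichotomy m 0 with h | h | h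
      · rw [h1 h]
      · subst h
        rw [neg_zero, sup_idem, sup_of_le_right (by have := h3 rfl; omega)]
      · rw [h2 h, neg_zero, sup_idem, sup_of_le_right (by omega)]
  rw [← key]
  generalize MeromorphicOn.divisor (fun z => f z - a) Set.univ z = m at *
  rw [← Int.cast_abs, Int.cast_inj, posPart_add_negPart]

theorem NI_eq {f : ℂ → ℂ} (hf : Meromorphic f) (hne : ∀ c z : ℂ, meromorphicOrderAt (fun z => f z - c) z ≠ ⊤)
    {a b : WithTop ℂ} (hab : a ≠ b) {r : ℝ} (hr : 1 ≤ r) :
    logCounting f a r + logCounting f b r = NI (fun z => dd f a z - dd f b z) r := by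
  induction a using WithTop.recTopCoe with
  | top =>
    induction b using WithTop.recTopCoe with
    | top => exact absurd rfl hab
    | coe b =>
      rw [add_comm]
      apply pf6_top hf hne b hr
      intro z
      show |(0 : ℝ) - dv (fun z => f z - b) z| = _
      rw [zero_sub, abs_neg]
  | coe a =>
    induction b using WithTop.recTopCoe with
    | top =>
      apply pf6_top hf hne a hr
      intro z
      show |dv (fun z => f z - a) z - (0 : ℝ)| = _
      rw [sub_zero]
    | coe b =>
      exact pf6_fin hf hne (fun h => hab (by rw [h])) hr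

end Pool.Agent.PfA
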