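import Pool.Agent.PfA.Core1

/-! MP_f2c8f8_an, project PfA, row PF-7

The characteristic function, the mean of `|log |f - a| - log |f - b||` and the mean of
`log |f - a| - log |f - b|` on circles, up to bounded terms. -/

set_option autoImplicit false

open Filter MeasureTheory ValueDistribution Metric
open scoped ComplexConjugate Topology

noncomputable section

namespace Pool.Agent.PfA

theorem pf7_ll_top (f : ℂ → ℂ) (z : ℂ) : ll f (⊤ : WithTop ℂ) z = 0 := rfl

theorem pf7_ll_coe (f : ℂ → ℂ) (c z : ℂ) :
    ll f (c : WithTop ℂ) z = Real.log ‖f z - c‖ := rfl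

theorem pf7_mer {f : ℂ → ℂ} (hf : Meromorphic f) (c : ℂ) : Meromorphic (fun z => f z - c) :=
  fun z => (hf z).sub (MeromorphicAt.const c z)

theorem pf7_int {f : ℂ → ℂ} (hf : Meromorphic f) (a : WithTop ℂ) (r : ℝ) :
    CircleIntegrable (fun z => ll f a z) 0 r := by
  induction a with
  | top => exact circleIntegrable_const 0 0 r
  | coe c => exact (pf7_mer hf c).meromorphicOn.circleIntegrable_log_norm

/-- Jensen's formula -/
theorem pf7_mean {f : ℂ → ℂ} (hf : Meromorphic f) (a : WithTop ℂ) :
    ∃ κ : ℝ, ∀ r : ℝ, 1 ≤ r → Real.circleAverage (fun z => ll f a z) 0 r =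
      logCounting f a r - logCounting f ⊤ r + κ := by
  induction a with
  | top =>
    refine ⟨0, fun r _ => ?_⟩
    have h : Real.circleAverage (fun _ : ℂ => (0 : ℝ)) 0 r = 0 :=
      Real.circleAverage_const (0 : ℝ) 0 r
    simpa [pf7_ll_top] using h
  | coe c =>
    refine ⟨Real.log ‖meromorphicTrailingCoeffAt (f - fun _ => c) 0‖, fun r hr => ?_⟩
    have h1 := ValueDistribution.logCounting_zero_sub_logCounting_top_eq_circleAverage_sub_const
      (R := r) (f := f - fun _ => c) (pf7_mer hf c) (by positivity)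
    rw [Pi.sub_apply, ← logCounting_coe_eq_logCounting_sub_const_zero,
      logCounting_sub_const hf] at h1
    have h2 : Real.circleAverage (fun z => ll f (c : WithTop ℂ) z) 0 r =
      Real.circleAverage (fun z => Real.log ‖(f - fun _ => c : ℂ → ℂ) z‖) 0 r := rfl
    rw [h2]
    linarith

/-- the pointwise inequality for two different values -/
theorem pf7_point {a b : WithTop ℂ} (hab : a ≠ b) : ∃ K : ℝ, 0 ≤ K ∧ ∀ (f : ℂ → ℂ) (z : ℂ),
    Real.posLog ‖f z‖ ≤ (ll f a z + ll f b z + |ll f a z - ll f b z|) / 2 + K := by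
  have hmax : ∀ x y : ℝ, (x + y + |x - y|) / 2 = max x y := by
    intro x y
    rcases le_total x y with h | h
    · rw [max_eq_right h, abs_of_nonpos (by linarith)]; ring
    · rw [max_eq_left h, abs_of_nonneg (by linarith)]; ring
  simp only [hmax]
  have hone : ∀ c : ℂ, ∀ (f : ℂ → ℂ) (z : ℂ),
      Real.posLog ‖f z‖ ≤ max (Real.log ‖f z - c‖) 0 + (Real.posLog ‖c‖ + Real.log 2) := by
    intro c f z
    have h := Real.posLog_norm_add_le (f z - c) c
    rw [sub_add_cancel] at h
    have h2 : Real.posLog ‖f z - c‖ = max (Real.log ‖f z - c‖) 0 := by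
      rw [Real.posLog, max_comm]
    linarith
  have hlog2 : 0 ≤ Real.log 2 := Real.log_nonneg (by norm_num)
  induction a with
  | top =>
    induction b with
    | top => exact absurd rfl hab
    | coe c =>
      refine ⟨Real.posLog ‖c‖ + Real.log 2, add_nonneg Real.posLog_nonneg hlog2, fun f z => ?_⟩
      rw [pf7_ll_top, pf7_ll_coe, max_comm]
      exact hone c f z
  | coe c =>
    induction b with
    | top =>
      refine ⟨Real.posLog ‖c‖ + Real.log 2, add_nonneg Real.posLog_nonneg hlog2, fun f z => ?_⟩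
      rw [pf7_ll_top, pf7_ll_coe]
      exact hone c f z
    | coe d =>
      have hcd : c ≠ d := fun h => hab (by rw [h])
      set δ : ℝ := ‖c - d‖ / 2 with hδdef
      have hδ : 0 < δ := by
        have := norm_pos_iff.mpr (sub_ne_zero.mpr hcd)
        positivity
      set L : ℝ := 1 + (‖c‖ + ‖d‖) / δ with hLdef
      have hL : 1 ≤ L := by
        have : 0 ≤ (‖c‖ + ‖d‖) / δ := by positivity
        linarith
      refine ⟨Real.log L + |Real.log δ|, add_nonneg (Real.log_nonneg hL) (abs_nonneg _),
        fun f z => ?_⟩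
      rw [pf7_ll_coe, pf7_ll_coe]
      set w : ℂ := f z with hw
      -- the larger of the two distances
      obtain ⟨e, he, hmle⟩ : ∃ e : ℂ, δ ≤ ‖w - e‖ ∧ ‖e‖ ≤ ‖c‖ + ‖d‖ ∧
          Real.log ‖w - e‖ ≤ max (Real.log ‖w - c‖) (Real.log ‖w - d‖) := by
        have htri : ‖c - d‖ ≤ ‖w - c‖ + ‖w - d‖ := by
          have h1 : c - d = (w - d) - (w - c) := by ring
          rw [h1]
          have := norm_sub_le (w - d) (w - c)
          linarith
        rcases le_total ‖w - c‖ ‖w - d‖ with h | h
        · refine ⟨d, by rw [hδdef]; linarith, by linarith [norm_nonneg c], le_max_right _ _⟩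
        · refine ⟨c, by rw [hδdef]; linarith, by linarith [norm_nonneg d], le_max_left _ _⟩
      obtain ⟨hne, hle⟩ := hmle
      have hm0 : 0 < ‖w - e‖ := lt_of_lt_of_le hδ he
      have hwle : ‖w‖ ≤ ‖w - e‖ * L := by
        have h1 : ‖w‖ ≤ ‖w - e‖ + ‖e‖ := by
          have := norm_add_le (w - e) e
          rwa [sub_add_cancel] at this
        have h2 : ‖c‖ + ‖d‖ ≤ ‖w - e‖ * ((‖c‖ + ‖d‖) / δ) := by
          have h3 : ‖c‖ + ‖d‖ = δ * ((‖c‖ + ‖d‖) / δ) := by
            field_simp
          calc ‖c‖ + ‖d‖ = δ * ((‖c‖ + ‖d‖) / δ) := h3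
            _ ≤ ‖w - e‖ * ((‖c‖ + ‖d‖) / δ) :=
              mul_le_mul_of_nonneg_right he (by positivity)
        rw [hLdef, mul_add, mul_one]
        linarith
      have hlm : Real.log δ ≤ Real.log ‖w - e‖ := Real.log_le_log hδ he
      have habs : -|Real.log δ| ≤ Real.log δ := neg_abs_le _
      have hLn : 0 ≤ Real.log L := Real.log_nonneg hL
      have hkey : Real.posLog ‖w‖ ≤ Real.log ‖w - e‖ + (Real.log L + |Real.log δ|) := by
        rw [Real.posLog]
        refine max_le (by linarith) ?_
        rcases eq_or_lt_of_le (norm_nonneg w) with h0 | h0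
        · rw [← h0, Real.log_zero]; linarith
        · have h1 : Real.log ‖w‖ ≤ Real.log (‖w - e‖ * L) := Real.log_le_log h0 hwle
          rw [Real.log_mul hm0.ne' (by linarith)] at h1
          linarith [abs_nonneg (Real.log δ)]
      linarith

/-- the mean of `|log |f - a||` is at most `2 T + O(1)` -/
theorem pf7_abs {f : ℂ → ℂ} (hf : Meromorphic f) (a : WithTop ℂ) :
    ∃ C : ℝ, ∀ r : ℝ, 1 ≤ r → Real.circleAverage (fun z => |ll f a z|) 0 r ≤
      2 * characteristic f ⊤ r + C := by
  obtain ⟨κ, hκ⟩ := pf7_mean hf a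
  induction a with
  | top =>
    refine ⟨0, fun r hr => ?_⟩
    have h : Real.circleAverage (fun _ : ℂ => (0 : ℝ)) 0 r = 0 :=
      Real.circleAverage_const (0 : ℝ) 0 r
    have h2 : Real.circleAverage (fun z => |ll f (⊤ : WithTop ℂ) z|) 0 r = 0 := by
      simpa [pf7_ll_top] using h
    rw [h2]
    have := characteristic_nonneg (f := f) (a := ⊤) hr
    linarith
  | coe c =>
    refine ⟨2 * (Real.posLog ‖c‖ + Real.log 2) - κ, fun r hr => ?_⟩
    have hI := pf7_int hf (c : WithTop ℂ) r
    have hIa : CircleIntegrable (fun z => |ll f (c : WithTop ℂ) z|) 0 r := hI.abs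
    have hP : Real.circleAverage (fun z => Real.posLog ‖f z - c‖) 0 r =
        (Real.circleAverage (fun z => ll f (c : WithTop ℂ) z) 0 r +
          Real.circleAverage (fun z => |ll f (c : WithTop ℂ) z|) 0 r) / 2 := by
      have h1 : (fun z => Real.posLog ‖f z - c‖) = fun z => (2⁻¹ : ℝ) • (ll f (c : WithTop ℂ) z +
          |ll f (c : WithTop ℂ) z|) := by
        funext z
        rw [← Real.half_mul_log_add_log_abs, pf7_ll_coe, smul_eq_mul]
      rw [h1, Real.circleAverage_fun_smul, Real.circleAverage_fun_add hI hIa, smul_eq_mul]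
      ring
    have hT := abs_characteristic_sub_characteristic_shift_le (a₀ := c) (r := r) hf
    have hTc : characteristic (fun z => f z - c) ⊤ r =
        Real.circleAverage (fun z => Real.posLog ‖f z - c‖) 0 r + logCounting f ⊤ r := by
      rw [characteristic, Pi.add_apply, proximity_top]
      congr 1
      have := logCounting_sub_const (a₀ := c) hf
      exact congrFun this r
    rw [abs_le, hTc] at hT
    have h0 := logCounting_nonneg (f := f) (e := (c : WithTop ℂ)) hr
    have h1 := logCounting_nonneg (f := f) (e := ⊤) hr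
    have h2 := hκ r hr
    linarith [hT.1, hT.2]

theorem T_le {f : ℂ → ℂ} (hf : Meromorphic f) (hne : ∀ c z : ℂ, meromorphicOrderAt (fun z => f z - c) z ≠ ⊤)
    {a b : WithTop ℂ} (hab : a ≠ b) :
    ∃ C : ℝ, 0 ≤ C ∧ ∀ r : ℝ, 1 ≤ r →
      characteristic f ⊤ r ≤ (UU (fun z => ll f a z - ll f b z) r +
        (logCounting f a r + logCounting f b r)) / 2 + C ∧
      UU (fun z => ll f a z - ll f b z) r ≤ 4 * characteristic f ⊤ r + C ∧
      |Real.circleAverage (fun z => ll f a z - ll f b z) 0 r| ≤
        (logCounting f a r + logCounting f b r) + C := by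
  obtain ⟨κa, ha⟩ := pf7_mean hf a
  obtain ⟨κb, hb⟩ := pf7_mean hf b
  obtain ⟨K, hK0, hK⟩ := pf7_point hab
  obtain ⟨Ca, hCa⟩ := pf7_abs hf a
  obtain ⟨Cb, hCb⟩ := pf7_abs hf b
  have hA1 := le_abs_self κa
  have hA2 := neg_abs_le κa
  have hB1 := le_abs_self κb
  have hB2 := neg_abs_le κb
  have hC1 := le_abs_self Ca
  have hC2 := le_abs_self Cb
  have hA0 := abs_nonneg κa
  have hB0 := abs_nonneg κb
  have hC10 := abs_nonneg Ca
  have hC20 := abs_nonneg Cb
  refine ⟨K + |κa| + |κb| + |Ca| + |Cb|, by linarith, fun r hr => ?_⟩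
  have hIa := pf7_int hf a r
  have hIb := pf7_int hf b r
  have hId : CircleIntegrable (fun z => ll f a z - ll f b z) 0 r := hIa.sub hIb
  have hIda : CircleIntegrable (fun z => |ll f a z - ll f b z|) 0 r := hId.abs
  have hIaa : CircleIntegrable (fun z => |ll f a z|) 0 r := hIa.abs
  have hIba : CircleIntegrable (fun z => |ll f b z|) 0 r := hIb.abs
  have hNa := logCounting_nonneg (f := f) (e := a) hr
  have hNb := logCounting_nonneg (f := f) (e := b) hr
  have h1 := ha r hr
  have h2 := hb r hr
  refine ⟨?_, ?_, ?_⟩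
  · -- the first inequality
    have hP : Real.circleAverage (fun z => Real.posLog ‖f z‖) 0 r ≤
        Real.circleAverage (fun z => (2⁻¹ : ℝ) • (ll f a z + ll f b z + |ll f a z - ll f b z|)
          + K) 0 r := by
      refine Real.circleAverage_mono ?_ ?_ ?_
      · exact hf.meromorphicOn.circleIntegrable_posLog_norm
      · exact (((hIa.add hIb).add hIda).const_smul (a := (2⁻¹ : ℝ))).add
          (circleIntegrable_const K 0 r)
      · intro z _
        have := hK f z
        simp only [smul_eq_mul]
        linarith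
    have hS : Real.circleAverage (fun z => (2⁻¹ : ℝ) •
        (ll f a z + ll f b z + |ll f a z - ll f b z|) + K) 0 r =
        (Real.circleAverage (fun z => ll f a z) 0 r + Real.circleAverage (fun z => ll f b z) 0 r +
          UU (fun z => ll f a z - ll f b z) r) / 2 + K := by
      rw [Real.circleAverage_fun_add
        (f₁ := fun z => (2⁻¹ : ℝ) • (ll f a z + ll f b z + |ll f a z - ll f b z|))
        (f₂ := fun _ => K)
        (((hIa.add hIb).add hIda).const_smul (a := (2⁻¹ : ℝ))) (circleIntegrable_const K 0 r),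
        Real.circleAverage_fun_smul, Real.circleAverage_const,
        Real.circleAverage_fun_add (f₁ := fun z => ll f a z + ll f b z)
          (f₂ := fun z => |ll f a z - ll f b z|) (hIa.add hIb) hIda,
        Real.circleAverage_fun_add hIa hIb, smul_eq_mul, UU]
      ring
    have hT : characteristic f ⊤ r = Real.circleAverage (fun z => Real.posLog ‖f z‖) 0 r +
        logCounting f ⊤ r := by
      rw [characteristic, Pi.add_apply, proximity_top]
    rw [hT]
    rw [hS] at hP
    linarith
  · -- the second inequality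
    have hP : UU (fun z => ll f a z - ll f b z) r ≤
        Real.circleAverage (fun z => |ll f a z| + |ll f b z|) 0 r := by
      rw [UU]
      refine Real.circleAverage_mono hIda (hIaa.add hIba) ?_
      intro z _
      exact abs_sub _ _
    rw [Real.circleAverage_fun_add hIaa hIba] at hP
    have h3 := hCa r hr
    have h4 := hCb r hr
    linarith
  · -- the third inequality
    rw [Real.circleAverage_fun_sub hIa hIb, h1, h2, abs_le]
    constructor <;> linarith

end Pool.Agent.PfA
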