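import Pool.Agent.PfA.Defs

/-! MP_f2c8f8_an, project PfA, row PF-14 -/

set_option autoImplicit false

open Filter MeasureTheory ValueDistribution Metric
open scoped ComplexConjugate Topology

noncomputable section

namespace Pool.Agent.PfA

/-! ### trigonometric polynomials -/

/-- the degree of a trigonometric polynomial may be increased -/
theorem pf14_ext {M M' : ℕ} (h : M ≤ M') {b : ℕ → ℂ} (hb : ∀ n, M < n → b n = 0) (θ : ℝ) :
    tp M b θ = tp M' b θ := by
  unfold tp
  congr 2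
  refine Finset.sum_subset (Finset.Icc_subset_Icc le_rfl h) fun n hn hn' => ?_
  rw [Finset.mem_Icc] at hn hn'
  rw [hb n (by omega), zero_mul, Complex.zero_re]

theorem pf14_add (M : ℕ) (b c : ℕ → ℂ) (θ : ℝ) :
    tp M (fun n => b n + c n) θ = tp M b θ + tp M c θ := by
  unfold tp
  simp only [add_mul, Complex.add_re, Finset.sum_add_distrib]
  ring

/-- real parts of trigonometric polynomials -/
def pf14_P (p : ℝ → ℂ) : Prop :=
  ∀ c : ℂ, ∃ (M : ℕ) (b : ℕ → ℂ), (b 0).im = 0 ∧ (∀ n, M < n → b n = 0) ∧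
    ∀ θ : ℝ, (c * p θ).re = tp M b θ

theorem pf14_P_add {p q : ℝ → ℂ} (hp : pf14_P p) (hq : pf14_P q) :
    pf14_P (fun θ => p θ + q θ) := by
  intro c
  obtain ⟨M, b, b0, b1, b2⟩ := hp c
  obtain ⟨N, d, d0, d1, d2⟩ := hq c
  refine ⟨max M N, fun n => b n + d n, by simp [b0, d0], fun n hn => ?_, fun θ => ?_⟩
  · show b n + d n = 0
    rw [b1 n (lt_of_le_of_lt (le_max_left _ _) hn), d1 n (lt_of_le_of_lt (le_max_right _ _) hn),
      add_zero]
  · rw [pf14_add, ← pf14_ext (le_max_left M N) b1, ← pf14_ext (le_max_right M N) d1, ← b2, ← d2,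
      mul_add, Complex.add_re]

theorem pf14_P_smul {p : ℝ → ℂ} (a : ℂ) (hp : pf14_P p) : pf14_P (fun θ => a * p θ) := by
  intro c
  obtain ⟨M, b, b0, b1, b2⟩ := hp (c * a)
  exact ⟨M, b, b0, b1, fun θ => by rw [← b2, mul_assoc]⟩

theorem pf14_P_zero : pf14_P (fun _ => 0) := by
  intro c
  exact ⟨0, fun _ => 0, by simp, fun _ _ => rfl, fun θ => by simp [tp]⟩

theorem pf14_single (n : ℕ) (hn : 1 ≤ n) (c : ℂ) (θ : ℝ) :
    tp n (fun k => if k = n then c / 2 else 0) θ =
      (c * Complex.exp ((n : ℂ) * (θ : ℂ) * Complex.I)).re := by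
  unfold tp
  have h0 : (0 : ℕ) ≠ n := by omega
  simp only [h0, if_false, Complex.zero_re, zero_add]
  rw [Finset.sum_eq_single n]
  · simp only [if_true]
    have : c * Complex.exp ((n : ℂ) * (θ : ℂ) * Complex.I) =
        ((2 : ℝ) : ℂ) * (c / 2 * Complex.exp ((n : ℂ) * (θ : ℂ) * Complex.I)) := by
      push_cast
      ring
    rw [this, Complex.re_ofReal_mul]
  · intro k _ hk
    rw [if_neg hk, zero_mul, Complex.zero_re]
  · intro h
    exact absurd (Finset.mem_Icc.2 ⟨hn, le_rfl⟩) h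

theorem pf14_P_exp (n : ℤ) :
    pf14_P (fun θ => Complex.exp ((n : ℂ) * (θ : ℂ) * Complex.I)) := by
  intro c
  rcases lt_trichotomy n 0 with hn | hn | hn
  · obtain ⟨m, hm⟩ : ∃ m : ℕ, n = -(m : ℤ) := ⟨n.natAbs, by omega⟩
    have hm1 : 1 ≤ m := by omega
    have hm0 : (0 : ℕ) ≠ m := by omega
    refine ⟨m, fun k => if k = m then conj c / 2 else 0, by simp [hm0],
      fun k hk => if_neg (by omega), fun θ => ?_⟩
    rw [pf14_single m hm1]
    rw [← Complex.conj_re]
    congr 1
    rw [map_mul, ← Complex.exp_conj]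
    congr 2
    rw [hm]
    simp only [map_mul, Complex.conj_I, Complex.conj_ofReal, map_intCast]
    push_cast
    ring
  · subst hn
    refine ⟨0, fun k => if k = 0 then ((c.re : ℝ) : ℂ) else 0, by simp,
      fun k hk => if_neg (by omega), fun θ => ?_⟩
    simp [tp]
  · obtain ⟨m, hm⟩ : ∃ m : ℕ, n = (m : ℤ) := ⟨n.natAbs, by omega⟩
    have hm1 : 1 ≤ m := by omega
    have hm0 : (0 : ℕ) ≠ m := by omega
    refine ⟨m, fun k => if k = m then c / 2 else 0, by simp [hm0],
      fun k hk => if_neg (by omega), fun θ => ?_⟩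
    rw [pf14_single m hm1, hm]
    push_cast
    rfl

/-! ### approximation -/

local instance pf14_fact : Fact (0 < 2 * Real.pi) := ⟨Real.two_pi_pos⟩

/-- continuous periodic functions are uniform limits of trigonometric polynomials -/
theorem pf14_unif (h : C(AddCircle (2 * Real.pi), ℝ)) {η : ℝ} (hη : 0 < η) :
    ∃ (M : ℕ) (b : ℕ → ℂ), (b 0).im = 0 ∧
      ∀ θ : ℝ, |tp M b θ - h (θ : AddCircle (2 * Real.pi))| ≤ η := by
  set hc : C(AddCircle (2 * Real.pi), ℂ) :=
    ⟨fun x => ((h x : ℝ) : ℂ), Complex.continuous_ofReal.comp h.continuous⟩ with hhc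
  have hmem : hc ∈ (Submodule.span ℂ (Set.range <| @fourier (2 * Real.pi))).topologicalClosure := by
    rw [span_fourier_closure_eq_top]
    trivial
  have hmem' : hc ∈ closure
      ((Submodule.span ℂ (Set.range <| @fourier (2 * Real.pi)) : Submodule ℂ _) :
        Set C(AddCircle (2 * Real.pi), ℂ)) := hmem
  obtain ⟨p, hp, hd⟩ := Metric.mem_closure_iff.1 hmem' η hη
  have hP : pf14_P (fun θ : ℝ => p (θ : AddCircle (2 * Real.pi))) := by
    refine Submodule.span_induction
      (p := fun p _ => pf14_P (fun θ : ℝ => p (θ : AddCircle (2 * Real.pi)))) ?_ ?_ ?_ ?_ hp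
    · rintro _ ⟨n, rfl⟩
      have h1 := pf14_P_exp n
      have h2 : (fun θ : ℝ => (fourier n : C(AddCircle (2 * Real.pi), ℂ))
          (θ : AddCircle (2 * Real.pi))) =
          fun θ : ℝ => Complex.exp ((n : ℂ) * (θ : ℂ) * Complex.I) := by
        funext θ
        rw [fourier_coe_apply]
        congr 1
        have : (Real.pi : ℂ) ≠ 0 := by exact_mod_cast Real.pi_ne_zero
        push_cast
        field_simp
      rw [h2]
      exact h1
    · exact pf14_P_zero
    · intro x y _ _ hx hy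
      exact pf14_P_add hx hy
    · intro a x _ hx
      exact pf14_P_smul a hx
  obtain ⟨M, b, b0, -, b2⟩ := hP 1
  refine ⟨M, b, b0, fun θ => ?_⟩
  rw [← b2 θ, one_mul]
  have h3 : ‖hc (θ : AddCircle (2 * Real.pi)) - p (θ : AddCircle (2 * Real.pi))‖ ≤ dist hc p := by
    rw [← dist_eq_norm]
    exact ContinuousMap.dist_apply_le_dist _
  have h4 : |(p (θ : AddCircle (2 * Real.pi))).re - h (θ : AddCircle (2 * Real.pi))| ≤
      ‖hc (θ : AddCircle (2 * Real.pi)) - p (θ : AddCircle (2 * Real.pi))‖ := by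
    rw [abs_sub_comm]
    have h5 := Complex.abs_re_le_norm
      (hc (θ : AddCircle (2 * Real.pi)) - p (θ : AddCircle (2 * Real.pi)))
    rw [Complex.sub_re] at h5
    exact h5
  exact (h4.trans h3).trans hd.le

/-- approximation in the mean by continuous periodic functions -/
theorem pf14_mean {v : ℝ → ℝ} (hv : IntervalIntegrable v volume 0 (2 * Real.pi)) {δ : ℝ}
    (hδ : 0 < δ) : ∃ g : C(AddCircle (2 * Real.pi), ℝ),
      (∫ θ in (0 : ℝ)..(2 * Real.pi), |v θ - g (θ : AddCircle (2 * Real.pi))|) ≤ δ := by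
  have hpi := Real.two_pi_pos
  set F : ℝ → ℂ := fun θ => ((v θ : ℝ) : ℂ) with hF
  have h1 : MemLp F 1 (volume.restrict (Set.Ioc 0 (0 + 2 * Real.pi))) := by
    rw [memLp_one_iff_integrable, zero_add]
    exact ((intervalIntegrable_iff_integrableOn_Ioc_of_le hpi.le).1 hv).ofReal
  have h2 := h1.memLp_liftIoc
  rw [memLp_one_iff_integrable] at h2
  obtain ⟨g, -, hg, hgc, -⟩ := h2.exists_hasCompactSupport_integral_sub_le hδ
  refine ⟨⟨fun x => (g x).re, Complex.continuous_re.comp hgc⟩, ?_⟩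
  have h3 : (∫ x, ‖AddCircle.liftIoc (2 * Real.pi) 0 F x - g x‖) =
      ∫ θ in (0 : ℝ)..(0 + 2 * Real.pi), ‖AddCircle.liftIoc (2 * Real.pi) 0 F
        (θ : AddCircle (2 * Real.pi)) - g (θ : AddCircle (2 * Real.pi))‖ :=
    (AddCircle.intervalIntegral_preimage (2 * Real.pi) 0 _).symm
  rw [h3, zero_add] at hg
  have hgi : IntervalIntegrable (fun θ : ℝ => g (θ : AddCircle (2 * Real.pi))) volume 0
      (2 * Real.pi) :=
    (hgc.comp (AddCircle.continuous_mk' _)).intervalIntegrable _ _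
  have hFi : IntervalIntegrable F volume 0 (2 * Real.pi) := ⟨hv.1.ofReal, hv.2.ofReal⟩
  have h4 : (∫ θ in (0 : ℝ)..(2 * Real.pi), ‖AddCircle.liftIoc (2 * Real.pi) 0 F
        (θ : AddCircle (2 * Real.pi)) - g (θ : AddCircle (2 * Real.pi))‖) =
      ∫ θ in (0 : ℝ)..(2 * Real.pi), ‖F θ - g (θ : AddCircle (2 * Real.pi))‖ := by
    refine intervalIntegral.integral_congr_ae (Eventually.of_forall fun θ hθ => ?_)
    rw [Set.uIoc_of_le hpi.le] at hθ
    rw [AddCircle.liftIoc_coe_apply (by rw [zero_add]; exact hθ)]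
  rw [h4] at hg
  refine le_trans (intervalIntegral.integral_mono_on hpi.le ?_ ?_ fun θ _ => ?_) hg
  · exact (hv.sub ((Complex.continuous_re.comp
      (hgc.comp (AddCircle.continuous_mk' _))).intervalIntegrable _ _)).abs
  · exact (hFi.sub hgi).norm
  · have h5 := Complex.abs_re_le_norm (F θ - g (θ : AddCircle (2 * Real.pi)))
    rw [Complex.sub_re] at h5
    exact h5

/-! ### the pairing -/

theorem pf14_circle {r : ℝ} (hr : 0 < r) (θ : ℝ) :
    conj (circleMap 0 r θ) / (r : ℂ) = Complex.exp (-((θ : ℂ) * Complex.I)) := by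
  have hr' : (r : ℂ) ≠ 0 := by exact_mod_cast hr.ne'
  rw [circleMap_zero, map_mul, Complex.conj_ofReal, ← Complex.exp_conj, map_mul, Complex.conj_I,
    Complex.conj_ofReal, mul_div_cancel_left₀ _ hr']
  congr 1
  ring

theorem pf14_coef {u : ℂ → ℝ} {r : ℝ} (hr : 0 < r) (hu : CircleIntegrable u 0 r) (n : ℕ)
    (b : ℂ) : IntervalIntegrable (fun θ : ℝ => u (circleMap 0 r θ) *
      (b * Complex.exp ((n : ℂ) * (θ : ℂ) * Complex.I)).re) volume 0 (2 * Real.pi) ∧
    (fc u r n * conj b).re = (2 * Real.pi)⁻¹ * ∫ θ in (0 : ℝ)..(2 * Real.pi),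
      u (circleMap 0 r θ) * (b * Complex.exp ((n : ℂ) * (θ : ℂ) * Complex.I)).re := by
  have hu' : IntervalIntegrable (fun θ : ℝ => u (circleMap 0 r θ)) volume 0 (2 * Real.pi) := hu
  have hc : Continuous fun θ : ℝ =>
      (b * Complex.exp ((n : ℂ) * (θ : ℂ) * Complex.I)).re := by fun_prop
  refine ⟨hu'.mul_continuousOn hc.continuousOn, ?_⟩
  have h1 : fc u r n * conj b = ((2 * Real.pi : ℝ) : ℂ)⁻¹ * ∫ θ in (0 : ℝ)..(2 * Real.pi),
      ((u (circleMap 0 r θ) : ℝ) : ℂ) *
        (Complex.exp (-((n : ℂ) * (θ : ℂ) * Complex.I)) * conj b) := by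
    unfold fc
    rw [Real.circleAverage_def, Complex.real_smul, mul_assoc, ← intervalIntegral.integral_mul_const]
    congr 1
    · push_cast
      rfl
    · congr 1
      funext θ
      rw [pf14_circle hr, ← Complex.exp_nat_mul]
      have : (n : ℂ) * -((θ : ℂ) * Complex.I) = -((n : ℂ) * (θ : ℂ) * Complex.I) := by ring
      rw [this]
      ring
  have hI : IntervalIntegrable (fun θ : ℝ => ((u (circleMap 0 r θ) : ℝ) : ℂ) *
        (Complex.exp (-((n : ℂ) * (θ : ℂ) * Complex.I)) * conj b)) volume 0 (2 * Real.pi) :=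
    IntervalIntegrable.mul_continuousOn
      (show IntervalIntegrable (fun θ : ℝ => ((u (circleMap 0 r θ) : ℝ) : ℂ)) volume 0
        (2 * Real.pi) from ⟨hu'.1.ofReal, hu'.2.ofReal⟩) (by fun_prop)
  rw [h1, ← Complex.ofReal_inv, Complex.re_ofReal_mul]
  congr 1
  have h2 := Complex.reCLM.intervalIntegral_comp_comm hI
  simp only [Complex.reCLM_apply] at h2
  rw [← h2]
  congr 1
  funext θ
  rw [Complex.re_ofReal_mul]
  congr 1
  rw [← Complex.conj_re]
  congr 1
  rw [map_mul, Complex.conj_conj, ← Complex.exp_conj]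
  simp only [map_neg, map_mul, Complex.conj_I, Complex.conj_ofReal, map_natCast, mul_neg, neg_neg]
  ring

theorem pf14_pr {u : ℂ → ℝ} {r : ℝ} (hr : 0 < r) (hu : CircleIntegrable u 0 r) (M : ℕ)
    (b : ℕ → ℂ) :
    pr u r M b = (2 * Real.pi)⁻¹ * ∫ θ in (0 : ℝ)..(2 * Real.pi),
      u (circleMap 0 r θ) * tp M b θ := by
  have h0 := pf14_coef hr hu 0 (b 0)
  have e0 : ∀ θ : ℝ, (b 0 * Complex.exp (((0 : ℕ) : ℂ) * (θ : ℂ) * Complex.I)).re = (b 0).re := by
    intro θ
    simp
  simp only [e0] at h0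
  unfold pr
  rw [h0.2, Finset.sum_congr rfl fun n _ => (pf14_coef hr hu n (b n)).2, ← Finset.mul_sum,
    mul_left_comm, ← mul_add]
  congr 1
  rw [← intervalIntegral.integral_finsetSum fun n _ => (pf14_coef hr hu n (b n)).1,
    ← intervalIntegral.integral_const_mul, ← intervalIntegral.integral_add h0.1]
  · congr 1
    funext θ
    unfold tp
    rw [← Finset.mul_sum]
    ring
  · refine IntervalIntegrable.const_mul ?_ 2
    have h1 := IntervalIntegrable.sum (Finset.Icc 1 M)
      (f := fun (n : ℕ) (θ : ℝ) => u (circleMap 0 r θ) *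
        (b n * Complex.exp ((n : ℂ) * (θ : ℂ) * Complex.I)).re)
      fun n _ => (pf14_coef hr hu n (b n)).1
    have h2 : (∑ n ∈ Finset.Icc 1 M, fun θ : ℝ => u (circleMap 0 r θ) *
        (b n * Complex.exp ((n : ℂ) * (θ : ℂ) * Complex.I)).re) =
        fun θ : ℝ => ∑ n ∈ Finset.Icc 1 M, u (circleMap 0 r θ) *
        (b n * Complex.exp ((n : ℂ) * (θ : ℂ) * Complex.I)).re := by
      funext θ
      rw [Finset.sum_apply]
    rw [← h2]
    exact h1

theorem pf14_tp_cont (M : ℕ) (b : ℕ → ℂ) : Continuous (tp M b) := by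
  unfold tp
  fun_prop

/-- trigonometric polynomials bounded by one norm the integrable functions -/
theorem duality {u : ℂ → ℝ} {r : ℝ} (hr : 0 < r) (hu : CircleIntegrable u 0 r) {ε : ℝ}
    (hε : 0 < ε) : ∃ (M : ℕ) (b : ℕ → ℂ), TU M b ∧ UU u r ≤ pr u r M b + ε := by
  have hpi := Real.two_pi_pos
  set v : ℝ → ℝ := fun θ => u (circleMap 0 r θ) with hv
  have hvi : IntervalIntegrable v volume 0 (2 * Real.pi) := hu
  have hUU : UU u r = (2 * Real.pi)⁻¹ * ∫ θ in (0 : ℝ)..(2 * Real.pi), |v θ| := by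
    unfold UU
    rw [Real.circleAverage_def, smul_eq_mul]
  have hU0 : 0 ≤ UU u r := by
    rw [hUU]
    exact mul_nonneg (inv_nonneg.2 hpi.le)
      (intervalIntegral.integral_nonneg hpi.le fun θ _ => abs_nonneg _)
  -- parameters
  set δ : ℝ := ε / 8 with hδ
  have hδ0 : 0 < δ := by positivity
  set η : ℝ := min 1 (ε / (8 * (UU u r + 1))) with hη
  have hη0 : 0 < η := lt_min one_pos (by positivity)
  have hη1 : η ≤ 1 := min_le_left _ _
  have hη2 : η * UU u r ≤ ε / 8 := by
    have h1 : η ≤ ε / (8 * (UU u r + 1)) := min_le_right _ _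
    have h2 : η * UU u r ≤ ε / (8 * (UU u r + 1)) * UU u r :=
      mul_le_mul_of_nonneg_right h1 hU0
    have h3 : ε / (8 * (UU u r + 1)) * UU u r = ε / 8 * (UU u r / (UU u r + 1)) := by
      field_simp
    have h4 : UU u r / (UU u r + 1) ≤ 1 := by
      rw [div_le_one (by linarith)]
      linarith
    have h5 : ε / 8 * (UU u r / (UU u r + 1)) ≤ ε / 8 * 1 :=
      mul_le_mul_of_nonneg_left h4 (by positivity)
    linarith
  obtain ⟨g, hg⟩ := pf14_mean hvi hδ0
  -- the sign function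
  have hden : ∀ x, 0 < |g x| + δ := fun x => by positivity
  set h : C(AddCircle (2 * Real.pi), ℝ) :=
    ⟨fun x => (1 - η) * (g x / (|g x| + δ)), by
      refine continuous_const.mul (g.continuous.div (by fun_prop) fun x => (hden x).ne')⟩ with hh
  obtain ⟨M, b, hb0, hb⟩ := pf14_unif h hη0
  have hq : ∀ x, |g x / (|g x| + δ)| ≤ 1 := by
    intro x
    rw [abs_div, abs_of_pos (hden x), div_le_one (hden x)]
    linarith
  have hha : ∀ x, h x = (1 - η) * (g x / (|g x| + δ)) := fun x => rfl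
  refine ⟨M, b, ⟨hb0, fun θ => ?_⟩, ?_⟩
  · have h1 := hb θ
    have h2 : |h (θ : AddCircle (2 * Real.pi))| ≤ 1 - η := by
      rw [hha, abs_mul, abs_of_nonneg (by linarith)]
      have := mul_le_mul_of_nonneg_left (hq (θ : AddCircle (2 * Real.pi)))
        (show 0 ≤ 1 - η by linarith)
      linarith
    have h3 : |tp M b θ| ≤ |tp M b θ - h (θ : AddCircle (2 * Real.pi))| +
        |h (θ : AddCircle (2 * Real.pi))| := by
      have := abs_add_le (tp M b θ - h (θ : AddCircle (2 * Real.pi)))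
        (h (θ : AddCircle (2 * Real.pi)))
      rwa [sub_add_cancel] at this
    linarith
  · rw [pf14_pr hr hu M b]
    -- pointwise bound
    have key : ∀ θ : ℝ, (1 - 2 * η) * |v θ| - 2 * |v θ - g (θ : AddCircle (2 * Real.pi))| - δ ≤
        v θ * tp M b θ := by
      intro θ
      set G : ℝ := g (θ : AddCircle (2 * Real.pi)) with hG
      set Q : ℝ := G / (|G| + δ) with hQ
      have a1 : |tp M b θ - (1 - η) * Q| ≤ η := hb θ
      have a2 : |Q| ≤ 1 := hq _
      have a3 : |G| - δ ≤ G * Q := by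
        have hd : 0 < |G| + δ := hden _
        have e : G * Q = G ^ 2 / (|G| + δ) := by rw [hQ]; ring
        rw [e, le_div_iff₀ hd]
        nlinarith [sq_abs G]
      have a4 : -(η * |v θ|) ≤ v θ * (tp M b θ - (1 - η) * Q) := by
        have := abs_mul (v θ) (tp M b θ - (1 - η) * Q)
        have h5 : |v θ| * |tp M b θ - (1 - η) * Q| ≤ |v θ| * η :=
          mul_le_mul_of_nonneg_left a1 (abs_nonneg _)
        have h6 := neg_abs_le (v θ * (tp M b θ - (1 - η) * Q))
        linarith
      have a5 : -|v θ - G| ≤ (v θ - G) * Q := by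
        have h5 : |v θ - G| * |Q| ≤ |v θ - G| * 1 :=
          mul_le_mul_of_nonneg_left a2 (abs_nonneg _)
        have h6 := neg_abs_le ((v θ - G) * Q)
        rw [abs_mul] at h6
        linarith
      have a6 : |v θ| - |v θ - G| ≤ |G| := by
        have := abs_sub_abs_le_abs_sub (v θ) G
        linarith
      have a7 : |v θ| - 2 * |v θ - G| - δ ≤ v θ * Q := by
        have : v θ * Q = G * Q + (v θ - G) * Q := by ring
        linarith
      have a8 : (1 - η) * (|v θ| - 2 * |v θ - G| - δ) ≤ (1 - η) * (v θ * Q) :=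
        mul_le_mul_of_nonneg_left a7 (by linarith)
      have a9 : v θ * tp M b θ = v θ * (tp M b θ - (1 - η) * Q) + (1 - η) * (v θ * Q) := by ring
      have a10 : 0 ≤ η * (2 * |v θ - G| + δ) := by positivity
      nlinarith
    have hgi : IntervalIntegrable (fun θ : ℝ => |v θ - g (θ : AddCircle (2 * Real.pi))|) volume 0
        (2 * Real.pi) :=
      (hvi.sub ((g.continuous.comp (AddCircle.continuous_mk' _)).intervalIntegrable _ _)).abs
    have i1 : IntervalIntegrable (fun θ : ℝ => (1 - 2 * η) * |v θ|) volume 0 (2 * Real.pi) :=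
      hvi.abs.const_mul _
    have i2 : IntervalIntegrable (fun θ : ℝ => 2 * |v θ - g (θ : AddCircle (2 * Real.pi))|) volume 0
        (2 * Real.pi) := hgi.const_mul _
    have i3 : IntervalIntegrable (fun _ : ℝ => δ) volume 0 (2 * Real.pi) := by simp
    have hmono := intervalIntegral.integral_mono_on hpi.le ((i1.sub i2).sub i3)
      (hvi.mul_continuousOn (pf14_tp_cont M b).continuousOn) fun θ _ => key θ
    rw [intervalIntegral.integral_sub (i1.sub i2) i3, intervalIntegral.integral_sub i1 i2,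
      intervalIntegral.integral_const_mul, intervalIntegral.integral_const_mul,
      intervalIntegral.integral_const, sub_zero, smul_eq_mul] at hmono
    have hm2 := mul_le_mul_of_nonneg_left hmono (inv_nonneg.2 hpi.le)
    have e1 : (2 * Real.pi)⁻¹ * ((1 - 2 * η) * (∫ θ in (0 : ℝ)..(2 * Real.pi), |v θ|) -
        2 * (∫ θ in (0 : ℝ)..(2 * Real.pi), |v θ - g (θ : AddCircle (2 * Real.pi))|) -
        2 * Real.pi * δ) = (1 - 2 * η) * UU u r -
        2 * ((2 * Real.pi)⁻¹ *
          ∫ θ in (0 : ℝ)..(2 * Real.pi), |v θ - g (θ : AddCircle (2 * Real.pi))|) - δ := by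
      rw [hUU]
      have := Real.pi_ne_zero
      field_simp
    rw [e1] at hm2
    have e2 : (2 * Real.pi)⁻¹ *
        (∫ θ in (0 : ℝ)..(2 * Real.pi), |v θ - g (θ : AddCircle (2 * Real.pi))|) ≤ δ := by
      have h1 : (2 * Real.pi)⁻¹ ≤ 1 := by
        apply inv_le_one_of_one_le₀
        have := Real.pi_gt_three
        linarith
      have h2 : 0 ≤ ∫ θ in (0 : ℝ)..(2 * Real.pi), |v θ - g (θ : AddCircle (2 * Real.pi))| :=
        intervalIntegral.integral_nonneg hpi.le fun θ _ => abs_nonneg _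
      nlinarith [inv_nonneg.2 hpi.le]
    have e3 : (1 - 2 * η) * UU u r = UU u r - 2 * (η * UU u r) := by ring
    rw [e3] at hm2
    have e4 : 3 * δ + 2 * (ε / 8) ≤ ε := by
      rw [hδ]
      linarith
    linarith

end Pool.Agent.PfA
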