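import Pool.Agent.PfA.Sum0

/-! MP_f2c8f8_an, project PfA, row PF-19 -/

set_option autoImplicit false

open Filter MeasureTheory ValueDistribution Metric
open scoped ComplexConjugate Topology

noncomputable section

namespace Pool.Agent.PfA

theorem pf19_floor_lt {t : ℝ} (ht : 1 ≤ t) (hn : NonInt t) {n : ℕ} (h : n ≤ ⌊t⌋₊) :
    (n : ℝ) < t := by
  have h1 : (n : ℝ) ≤ (⌊t⌋₊ : ℝ) := by exact_mod_cast h
  have h2 : (⌊t⌋₊ : ℝ) ≤ t := Nat.floor_le (by linarith)
  have h3 : ((n : ℤ) : ℝ) ≠ t := hn n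
  have h4 : (n : ℝ) ≠ t := by exact_mod_cast h3
  exact lt_of_le_of_ne (h1.trans h2) h4

theorem pf19_lt_of_floor_lt {t : ℝ} {n : ℕ} (h : ¬ n ≤ ⌊t⌋₊) : t < (n : ℝ) := by
  push Not at h
  exact (Nat.floor_lt' (by omega)).1 h

theorem BB_pos {t : ℝ} (ht : 1 ≤ t) (hn : NonInt t) (n : ℕ) : 0 < BB t t ⌊t⌋₊ n := by
  unfold BB
  have he : 0 < Real.exp 1 := Real.exp_pos 1
  split_ifs with h0 h1
  · norm_num
  · have h2 := pf19_floor_lt ht hn h1
    have h3 : (0 : ℝ) ≤ n := Nat.cast_nonneg n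
    have h4 : 0 < t ^ 2 - (n : ℝ) ^ 2 := by nlinarith
    positivity
  · have h2 := pf19_lt_of_floor_lt h1
    have h3 : 0 < (n : ℝ) := by linarith
    have h4 : 0 < min (n : ℝ) (Real.exp 1 * t) := lt_min h3 (by positivity)
    have h5 : 0 < (n : ℝ) - t := by linarith
    have ht0 : 0 < t := by linarith
    positivity

/-- the pointwise bound -/
theorem pf19_BB_le {t : ℝ} (ht : 1 ≤ t) (hn : NonInt t) {n : ℕ} (h1n : 1 ≤ n) :
    BB t t ⌊t⌋₊ n ≤ (t / 2) / |(n : ℝ) - t| + 16 * t / (4 * t + n) := by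
  have he : 0 < Real.exp 1 := Real.exp_pos 1
  have he2 : Real.exp 1 < 2.7182818286 := Real.exp_one_lt_d9
  have ht0 : 0 < t := by linarith
  have hn1 : (1 : ℝ) ≤ n := by exact_mod_cast h1n
  have hn0 : (0 : ℝ) < n := by linarith
  have hden : 0 < 4 * t + (n : ℝ) := by linarith
  unfold BB
  rw [if_neg (by omega : ¬ n = 0)]
  split_ifs with h1
  · have h2 := pf19_floor_lt ht hn h1
    rw [abs_of_neg (by linarith : (n : ℝ) - t < 0)]
    have h3 : 0 < t - (n : ℝ) := by linarith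
    have h4 : 0 < t + (n : ℝ) := by linarith
    have h5 : t ^ 2 / (t ^ 2 - (n : ℝ) ^ 2) = (t / 2) / (t - n) + (t / 2) / (t + n) := by
      have : t ^ 2 - (n : ℝ) ^ 2 = (t - n) * (t + n) := by ring
      rw [this]
      field_simp
      ring
    rw [h5]
    have h6 : (t / 2) / (-((n : ℝ) - t)) = (t / 2) / (t - n) := by congr 1; ring
    rw [h6]
    have h7 : (t / 2) / (t + n) ≤ 16 * t / (4 * t + n) := by
      rw [div_le_div_iff₀ h4 hden]
      nlinarith [mul_pos ht0 hn0, mul_pos ht0 ht0]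
    linarith
  · have h2 := pf19_lt_of_floor_lt h1
    have h3 : 0 < (n : ℝ) - t := by linarith
    rw [abs_of_pos h3]
    rcases le_total (n : ℝ) (4 * t) with h4 | h4
    · have h5 : min (n : ℝ) (Real.exp 1 * t) / (2 * ((n : ℝ) - t)) ≤
          (t / 2) / ((n : ℝ) - t) + 1 / 2 := by
        have : (t / 2) / ((n : ℝ) - t) + 1 / 2 = n / (2 * ((n : ℝ) - t)) := by
          field_simp
          ring
        rw [this]
        exact div_le_div_of_nonneg_right (min_le_left _ _) (by positivity)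
      have h6 : Real.exp 1 * t / (2 * (n : ℝ)) ≤ 3 / 2 := by
        rw [div_le_div_iff₀ (by positivity) (by norm_num)]
        nlinarith
      have h7 : (2 : ℝ) ≤ 16 * t / (4 * t + n) := by
        rw [le_div_iff₀ hden]
        linarith
      linarith
    · have h5 : min (n : ℝ) (Real.exp 1 * t) / (2 * ((n : ℝ) - t)) ≤ 2 * t / n := by
        have h51 : min (n : ℝ) (Real.exp 1 * t) ≤ 3 * t :=
          (min_le_right _ _).trans (by nlinarith)
        rw [div_le_div_iff₀ (by positivity) hn0]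
        have h52 : min (n : ℝ) (Real.exp 1 * t) * n ≤ 3 * t * n :=
          mul_le_mul_of_nonneg_right h51 hn0.le
        nlinarith [mul_pos ht0 hn0]
      have h6 : Real.exp 1 * t / (2 * (n : ℝ)) ≤ (3 / 2) * t / n := by
        rw [div_le_div_iff₀ (by positivity) hn0]
        nlinarith [mul_pos ht0 hn0]
      have h7 : 2 * t / n + (3 / 2) * t / n ≤ 16 * t / (4 * t + n) := by
        rw [← add_div, div_le_div_iff₀ hn0 hden]
        nlinarith [mul_pos ht0 hn0]
      have h8 : 0 ≤ (t / 2) / ((n : ℝ) - t) := by positivity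
      linarith

theorem pf19_sum {X : ℝ} (hX : 0 < X) (M : ℕ) :
    ∑ n ∈ Finset.Icc 1 M, 1 / (X + (n : ℝ)) ^ 2 ≤ 1 / X := by
  have key : ∀ M : ℕ, ∑ n ∈ Finset.Icc 1 M, 1 / (X + (n : ℝ)) ^ 2 ≤ 1 / X - 1 / (X + M) := by
    intro M
    induction M with
    | zero => simp
    | succ M ih =>
      rw [Finset.sum_Icc_succ_top (by omega)]
      have h0 : (0 : ℝ) ≤ M := Nat.cast_nonneg M
      have h1 : 0 < X + (M : ℝ) := by linarith
      have h2 : 1 / (X + ((M + 1 : ℕ) : ℝ)) ^ 2 ≤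
          1 / (X + (M : ℝ)) - 1 / (X + ((M + 1 : ℕ) : ℝ)) := by
        push_cast
        have h3 : 0 < X + ((M : ℝ) + 1) := by linarith
        rw [div_sub_div _ _ h1.ne' h3.ne', div_le_div_iff₀ (by positivity) (by positivity)]
        nlinarith [mul_pos h1 h3, mul_pos (mul_pos h1 h3) h3, pow_pos h3 2]
      linarith
  refine (key M).trans ?_
  have : 0 ≤ 1 / (X + (M : ℝ)) := by positivity
  linarith

theorem pf19_mink (s : Finset ℕ) (a c : ℕ → ℝ) :
    √(∑ n ∈ s, (a n + c n) ^ 2) ≤ √(∑ n ∈ s, a n ^ 2) + √(∑ n ∈ s, c n ^ 2) := by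
  have h1 : 0 ≤ ∑ n ∈ s, a n ^ 2 := Finset.sum_nonneg fun _ _ => sq_nonneg _
  have h2 : 0 ≤ ∑ n ∈ s, c n ^ 2 := Finset.sum_nonneg fun _ _ => sq_nonneg _
  have h3 := Real.sum_mul_le_sqrt_mul_sqrt s a c
  apply Real.sqrt_le_iff.2
  refine ⟨by positivity, ?_⟩
  rw [add_sq, Real.sq_sqrt h1, Real.sq_sqrt h2]
  have h4 : ∑ n ∈ s, (a n + c n) ^ 2 =
      ∑ n ∈ s, a n ^ 2 + 2 * ∑ n ∈ s, a n * c n + ∑ n ∈ s, c n ^ 2 := by
    rw [Finset.mul_sum, ← Finset.sum_add_distrib, ← Finset.sum_add_distrib]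
    exact Finset.sum_congr rfl fun _ _ => by ring
  rw [h4]
  nlinarith

theorem pf19_exp (x : ℝ) : ‖Complex.exp ((x : ℂ) * Complex.I) - 1‖ ≤ min 2 |x| := by
  refine le_min ?_ ?_
  · calc ‖Complex.exp ((x : ℂ) * Complex.I) - 1‖ ≤ ‖Complex.exp ((x : ℂ) * Complex.I)‖ + ‖(1 : ℂ)‖ :=
          norm_sub_le _ _
      _ = 2 := by rw [Complex.norm_exp_ofReal_mul_I]; norm_num
  · have := Real.norm_exp_I_mul_ofReal_sub_one_le (x := x)
    rw [mul_comm, Real.norm_eq_abs] at this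
    exact this

theorem num : ∃ C : ℝ, 0 < C ∧ ∀ t : ℝ, 1 ≤ t → NonInt t → ∃ p : ℕ, 1 ≤ p ∧ ∀ M : ℕ,
    √(∑ n ∈ Finset.Icc 1 M, BB t t ⌊t⌋₊ n ^ 2) ≤ Real.pi * t / (2 * sn t) + C * √t ∧
    ∀ y : ℝ, 0 ≤ y → y ≤ 2 * Real.pi / p → ∑ n ∈ Finset.Icc 1 M,
      BB t t ⌊t⌋₊ n ^ 2 * ‖Complex.exp ((((n : ℝ) - p) * y : ℝ) * Complex.I) - 1‖ ^ 2 ≤
        (C * √t) ^ 2 := by
  refine ⟨2000, by norm_num, fun t ht hn => ?_⟩
  have ht0 : 0 < t := by linarith
  have hs : 0 < sn t := sn_pos hn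
  have hst : 0 ≤ √t := Real.sqrt_nonneg t
  refine ⟨⌊t + 1 / 2⌋₊, (Nat.one_le_floor_iff _).2 (by linarith), fun M => ⟨?_, ?_⟩⟩
  · have hA : √(∑ n ∈ Finset.Icc 1 M, ((t / 2) / |(n : ℝ) - t|) ^ 2) ≤ Real.pi * t / (2 * sn t) := by
      apply Real.sqrt_le_iff.2
      refine ⟨by positivity, ?_⟩
      have h1 : ∑ n ∈ Finset.Icc 1 M, ((t / 2) / |(n : ℝ) - t|) ^ 2 =
          (t / 2) ^ 2 * ∑ n ∈ Finset.Icc 1 M, 1 / ((n : ℝ) - t) ^ 2 := by
        rw [Finset.mul_sum]
        refine Finset.sum_congr rfl fun n _ => ?_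
        rw [div_pow, sq_abs]
        ring
      rw [h1]
      calc (t / 2) ^ 2 * ∑ n ∈ Finset.Icc 1 M, 1 / ((n : ℝ) - t) ^ 2
          ≤ (t / 2) ^ 2 * (Real.pi ^ 2 / sn t ^ 2) :=
            mul_le_mul_of_nonneg_left (sum_inv_sq hn M) (by positivity)
        _ = (Real.pi * t / (2 * sn t)) ^ 2 := by
            field_simp
    have hB : √(∑ n ∈ Finset.Icc 1 M, (16 * t / (4 * t + n)) ^ 2) ≤ 2000 * √t := by
      apply Real.sqrt_le_iff.2
      refine ⟨by positivity, ?_⟩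
      have h1 : ∑ n ∈ Finset.Icc 1 M, (16 * t / (4 * t + n)) ^ 2 =
          (16 * t) ^ 2 * ∑ n ∈ Finset.Icc 1 M, 1 / (4 * t + (n : ℝ)) ^ 2 := by
        rw [Finset.mul_sum]
        refine Finset.sum_congr rfl fun n _ => ?_
        rw [div_pow]
        ring
      rw [h1, mul_pow (2000 : ℝ), Real.sq_sqrt ht0.le]
      calc (16 * t) ^ 2 * ∑ n ∈ Finset.Icc 1 M, 1 / (4 * t + (n : ℝ)) ^ 2
          ≤ (16 * t) ^ 2 * (1 / (4 * t)) :=
            mul_le_mul_of_nonneg_left (pf19_sum (by positivity) M) (by positivity)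
        _ = 64 * t := by field_simp; ring
        _ ≤ 2000 ^ 2 * t := by nlinarith
    calc √(∑ n ∈ Finset.Icc 1 M, BB t t ⌊t⌋₊ n ^ 2)
        ≤ √(∑ n ∈ Finset.Icc 1 M, ((t / 2) / |(n : ℝ) - t| + 16 * t / (4 * t + n)) ^ 2) := by
          apply Real.sqrt_le_sqrt
          refine Finset.sum_le_sum fun n hnM => ?_
          have h1n : 1 ≤ n := (Finset.mem_Icc.1 hnM).1
          exact pow_le_pow_left₀ (BB_pos ht hn n).le (pf19_BB_le ht hn h1n) 2
      _ ≤ √(∑ n ∈ Finset.Icc 1 M, ((t / 2) / |(n : ℝ) - t|) ^ 2) +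
          √(∑ n ∈ Finset.Icc 1 M, (16 * t / (4 * t + n)) ^ 2) :=
          pf19_mink _ _ _
      _ ≤ _ := add_le_add hA hB
  · intro y hy0 hy
    set p : ℕ := ⌊t + 1 / 2⌋₊ with hp
    have hp1 : (p : ℝ) ≤ t + 1 / 2 := Nat.floor_le (by linarith)
    have hp2 : t + 1 / 2 < (p : ℝ) + 1 := Nat.lt_floor_add_one _
    have hp3 : t / 2 ≤ (p : ℝ) := by linarith
    have hp0 : (0 : ℝ) < p := by linarith
    have hy2 : y * t ≤ 13 := by
      have h1 : y * p ≤ 2 * Real.pi := by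
        rwa [le_div_iff₀ hp0] at hy
      have h2 : Real.pi < 3.15 := Real.pi_lt_d2
      nlinarith [mul_le_mul_of_nonneg_left hp3 hy0]
    have key : ∀ n ∈ Finset.Icc 1 M,
        BB t t ⌊t⌋₊ n ^ 2 * ‖Complex.exp ((((n : ℝ) - p) * y : ℝ) * Complex.I) - 1‖ ^ 2 ≤
          (2000 * t) ^ 2 * (1 / (t + (n : ℝ)) ^ 2) := by
      intro n hnM
      have h1n : 1 ≤ n := (Finset.mem_Icc.1 hnM).1
      have hn1 : (1 : ℝ) ≤ n := by exact_mod_cast h1n
      rcases eq_or_ne n p with hnp | hnp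
      · rw [hnp]
        have h0 : Complex.exp ((((p : ℝ) - p) * y : ℝ) * Complex.I) - 1 = 0 := by
          simp
        rw [h0, norm_zero]
        have h1 : 0 ≤ (2000 * t) ^ 2 * (1 / (t + (p : ℝ)) ^ 2) := by positivity
        simpa using h1
      · set m : ℝ := |(n : ℝ) - p| with hm
        have hm1 : 1 ≤ m := by
          have h1 : ((n : ℤ) - (p : ℤ)) ≠ 0 := by
            intro h
            apply hnp
            omega
          have h2 : (1 : ℤ) ≤ |(n : ℤ) - (p : ℤ)| := Int.one_le_abs h1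
          have h3 : ((1 : ℤ) : ℝ) ≤ ((|(n : ℤ) - (p : ℤ)| : ℤ) : ℝ) := by exact_mod_cast h2
          push_cast at h3
          exact h3
        have hm0 : 0 < m := by linarith
        have hnt : m / 2 ≤ |(n : ℝ) - t| := by
          have h1 : |(p : ℝ) - t| ≤ 1 / 2 := abs_le.2 ⟨by linarith, by linarith⟩
          have h2 : m ≤ |(n : ℝ) - t| + |(p : ℝ) - t| := by
            rw [hm, abs_sub_comm (p : ℝ) t]
            calc |(n : ℝ) - p| = |((n : ℝ) - t) + (t - p)| := by congr 1; ring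
              _ ≤ _ := abs_add_le _ _
          linarith
        have hmn : m ≤ 4 * t + n := by
          rw [hm]
          exact abs_le.2 ⟨by linarith, by linarith⟩
        have htn : (2 / 5) * (t + n) ≤ t + m := by
          have h1 : (n : ℝ) - p ≤ m := le_abs_self _
          linarith
        have hB : BB t t ⌊t⌋₊ n ≤ 17 * t / m := by
          refine (pf19_BB_le ht hn h1n).trans ?_
          have h1 : (t / 2) / |(n : ℝ) - t| ≤ (t / 2) / (m / 2) :=
            div_le_div_of_nonneg_left (by positivity) (by positivity) hnt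
          have h2 : 16 * t / (4 * t + n) ≤ 16 * t / m :=
            div_le_div_of_nonneg_left (by positivity) hm0 hmn
          have h3 : (t / 2) / (m / 2) = t / m := by field_simp
          rw [h3] at h1
          calc _ ≤ t / m + 16 * t / m := add_le_add h1 h2
            _ = 17 * t / m := by ring
        have hE : ‖Complex.exp ((((n : ℝ) - p) * y : ℝ) * Complex.I) - 1‖ ≤ 26 * m / (t + m) := by
          refine (pf19_exp _).trans ?_
          rw [abs_mul, abs_of_nonneg hy0, ← hm, le_div_iff₀ (by positivity)]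
          rcases le_total t m with h1 | h1
          · have h2 : min 2 (m * y) ≤ 2 := min_le_left _ _
            nlinarith
          · have h2 : min 2 (m * y) ≤ m * y := min_le_right _ _
            have h3 : min 2 (m * y) * (t + m) ≤ m * y * (2 * t) :=
              mul_le_mul h2 (by linarith) (by positivity) (by positivity)
            nlinarith [mul_le_mul_of_nonneg_left hy2 hm0.le]
        have hprod : BB t t ⌊t⌋₊ n * ‖Complex.exp ((((n : ℝ) - p) * y : ℝ) * Complex.I) - 1‖ ≤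
            2000 * t * (1 / (t + n)) := by
          calc BB t t ⌊t⌋₊ n * ‖Complex.exp ((((n : ℝ) - p) * y : ℝ) * Complex.I) - 1‖
              ≤ (17 * t / m) * (26 * m / (t + m)) :=
                mul_le_mul hB hE (norm_nonneg _) (by positivity)
            _ = 442 * t / (t + m) := by field_simp; ring
            _ ≤ 442 * t / ((2 / 5) * (t + n)) :=
                div_le_div_of_nonneg_left (by positivity) (by positivity) htn
            _ ≤ 2000 * t * (1 / (t + n)) := by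
                rw [mul_one_div, div_le_div_iff₀ (by positivity) (by positivity)]
                nlinarith [mul_pos ht0 (by linarith : (0 : ℝ) < t + n)]
        have h0 : 0 ≤ BB t t ⌊t⌋₊ n * ‖Complex.exp ((((n : ℝ) - p) * y : ℝ) * Complex.I) - 1‖ :=
          mul_nonneg (BB_pos ht hn n).le (norm_nonneg _)
        calc BB t t ⌊t⌋₊ n ^ 2 * ‖Complex.exp ((((n : ℝ) - p) * y : ℝ) * Complex.I) - 1‖ ^ 2
            = (BB t t ⌊t⌋₊ n * ‖Complex.exp ((((n : ℝ) - p) * y : ℝ) * Complex.I) - 1‖) ^ 2 := by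
              ring
          _ ≤ (2000 * t * (1 / (t + n))) ^ 2 := pow_le_pow_left₀ h0 hprod 2
          _ = (2000 * t) ^ 2 * (1 / (t + (n : ℝ)) ^ 2) := by
              rw [mul_pow, div_pow, one_pow]
    calc ∑ n ∈ Finset.Icc 1 M,
        BB t t ⌊t⌋₊ n ^ 2 * ‖Complex.exp ((((n : ℝ) - p) * y : ℝ) * Complex.I) - 1‖ ^ 2
        ≤ ∑ n ∈ Finset.Icc 1 M, (2000 * t) ^ 2 * (1 / (t + (n : ℝ)) ^ 2) := Finset.sum_le_sum key
      _ = (2000 * t) ^ 2 * ∑ n ∈ Finset.Icc 1 M, 1 / (t + (n : ℝ)) ^ 2 := by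
          rw [Finset.mul_sum]
      _ ≤ (2000 * t) ^ 2 * (1 / t) :=
          mul_le_mul_of_nonneg_left (pf19_sum ht0 M) (by positivity)
      _ = (2000 * √t) ^ 2 := by
          rw [mul_pow, mul_pow, Real.sq_sqrt ht0.le]
          field_simp

end Pool.Agent.PfA
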