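import Pool.Agent.PfA.Defs
import Pool.Agent.PfA.Dual

/-! MP_f2c8f8_an, project PfA, row PF-15 -/

set_option autoImplicit false

open Filter MeasureTheory ValueDistribution Metric
open scoped ComplexConjugate Topology

noncomputable section

namespace Pool.Agent.PfA

theorem pr_eq {u : ℂ → ℝ} {r : ℝ} (hr : 0 < r) (hu : CircleIntegrable u 0 r) {M : ℕ} {b : ℕ → ℂ}
    (h0 : (b 0).im = 0) :
    pr u r M b = (2 * Real.pi)⁻¹ * ∫ θ in (0 : ℝ)..(2 * Real.pi), u (circleMap 0 r θ) * tp M b θ :=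
  pf14_pr hr hu M b

theorem pr_le {u : ℂ → ℝ} {r : ℝ} (hr : 0 < r) (hu : CircleIntegrable u 0 r) {M : ℕ} {b : ℕ → ℂ}
    (h : TU M b) : pr u r M b ≤ UU u r := by
  have hpi := Real.two_pi_pos
  have hu' : IntervalIntegrable (fun θ : ℝ => u (circleMap 0 r θ)) volume 0 (2 * Real.pi) := hu
  rw [pr_eq hr hu h.1]
  unfold UU
  rw [Real.circleAverage_def, smul_eq_mul]
  refine mul_le_mul_of_nonneg_left ?_ (inv_nonneg.2 hpi.le)
  refine intervalIntegral.integral_mono_on hpi.le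
    (hu'.mul_continuousOn (pf14_tp_cont M b).continuousOn) hu'.abs fun θ _ => ?_
  refine (le_abs_self _).trans ?_
  rw [abs_mul]
  have h1 : |u (circleMap 0 r θ)| * |tp M b θ| ≤ |u (circleMap 0 r θ)| * 1 :=
    mul_le_mul_of_nonneg_left (h.2 θ) (abs_nonneg _)
  rw [mul_one] at h1
  exact h1

theorem pf15_exp_int (m : ℤ) : ∫ θ in (0 : ℝ)..(2 * Real.pi),
    Complex.exp ((m : ℂ) * Complex.I * (θ : ℂ)) = if m = 0 then ((2 * Real.pi : ℝ) : ℂ) else 0 := by
  split_ifs with hm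
  · subst hm
    simp
  · have hc : (m : ℂ) * Complex.I ≠ 0 := mul_ne_zero (by exact_mod_cast hm) Complex.I_ne_zero
    rw [integral_exp_mul_complex hc]
    have h1 : (m : ℂ) * Complex.I * ((2 * Real.pi : ℝ) : ℂ) = (m : ℂ) * (2 * Real.pi * Complex.I) := by
      push_cast
      ring
    rw [h1, Complex.exp_int_mul_two_pi_mul_I]
    simp

theorem pf15_re (z : ℂ) : ((2 * z.re : ℝ) : ℂ) = z + conj z := by
  rw [Complex.add_conj]

theorem pf15_tp {M : ℕ} {b : ℕ → ℂ} (h0 : (b 0).im = 0) (θ : ℝ) :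
    ((tp M b θ : ℝ) : ℂ) = b 0 + ∑ k ∈ Finset.Icc 1 M,
      (b k * Complex.exp (((k : ℤ) : ℂ) * Complex.I * (θ : ℂ)) +
        conj (b k) * Complex.exp (((-(k : ℤ) : ℤ) : ℂ) * Complex.I * (θ : ℂ))) := by
  unfold tp
  rw [Finset.mul_sum, Complex.ofReal_add, Complex.ofReal_sum]
  congr 1
  · exact Complex.ext (by simp) (by simp [h0])
  · refine Finset.sum_congr rfl fun k _ => ?_
    rw [pf15_re, map_mul, ← Complex.exp_conj]
    simp only [map_mul, Complex.conj_I, Complex.conj_ofReal, map_natCast]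
    congr 3
    · push_cast
      ring
    · push_cast
      ring

/-- the coefficients of a trigonometric polynomial -/
theorem pf15_coef {M : ℕ} {b : ℕ → ℂ} (h0 : (b 0).im = 0) {n : ℕ} (hn : n ≤ M) :
    ∫ θ in (0 : ℝ)..(2 * Real.pi),
      ((tp M b θ : ℝ) : ℂ) * Complex.exp (((-(n : ℤ) : ℤ) : ℂ) * Complex.I * (θ : ℂ)) =
      ((2 * Real.pi : ℝ) : ℂ) * b n := by
  have h1 : ∀ θ : ℝ, ((tp M b θ : ℝ) : ℂ) *
      Complex.exp (((-(n : ℤ) : ℤ) : ℂ) * Complex.I * (θ : ℂ)) =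
      b 0 * Complex.exp (((-(n : ℤ) : ℤ) : ℂ) * Complex.I * (θ : ℂ)) +
      ∑ k ∈ Finset.Icc 1 M,
      (b k * Complex.exp ((((k : ℤ) - n : ℤ) : ℂ) * Complex.I * (θ : ℂ)) +
        conj (b k) * Complex.exp (((-(k : ℤ) - n : ℤ) : ℂ) * Complex.I * (θ : ℂ))) := by
    intro θ
    rw [pf15_tp h0, add_mul, Finset.sum_mul]
    congr 1
    refine Finset.sum_congr rfl fun k _ => ?_
    rw [add_mul, mul_assoc (b k), mul_assoc (conj (b k)), ← Complex.exp_add, ← Complex.exp_add]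
    congr 3
    · push_cast
      ring
    · push_cast
      ring
  simp only [h1]
  have hi : ∀ (m : ℤ) (c : ℂ), IntervalIntegrable
      (fun θ : ℝ => c * Complex.exp ((m : ℂ) * Complex.I * (θ : ℂ))) volume 0 (2 * Real.pi) := by
    intro m c
    refine Continuous.intervalIntegrable ?_ _ _
    fun_prop
  have hs : IntervalIntegrable (fun θ : ℝ => ∑ k ∈ Finset.Icc 1 M,
      (b k * Complex.exp ((((k : ℤ) - n : ℤ) : ℂ) * Complex.I * (θ : ℂ)) +
        conj (b k) * Complex.exp (((-(k : ℤ) - n : ℤ) : ℂ) * Complex.I * (θ : ℂ))))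
      volume 0 (2 * Real.pi) := by
    refine Continuous.intervalIntegrable ?_ _ _
    fun_prop
  rw [intervalIntegral.integral_add (hi _ _) hs,
    intervalIntegral.integral_finsetSum fun k _ => (hi _ _).add (hi _ _)]
  have h2 : ∀ k ∈ Finset.Icc 1 M, (∫ θ in (0 : ℝ)..(2 * Real.pi),
      (b k * Complex.exp ((((k : ℤ) - n : ℤ) : ℂ) * Complex.I * (θ : ℂ)) +
        conj (b k) * Complex.exp (((-(k : ℤ) - n : ℤ) : ℂ) * Complex.I * (θ : ℂ)))) =
      if k = n then ((2 * Real.pi : ℝ) : ℂ) * b n else 0 := by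
    intro k hk
    rw [Finset.mem_Icc] at hk
    rw [intervalIntegral.integral_add (hi _ _) (hi _ _), intervalIntegral.integral_const_mul,
      intervalIntegral.integral_const_mul, pf15_exp_int, pf15_exp_int,
      if_neg (show ¬ (-(k : ℤ) - n = 0) by omega), mul_zero, add_zero]
    by_cases hkn : k = n
    · subst hkn
      rw [if_pos (by omega), if_pos rfl, mul_comm]
    · rw [if_neg (by omega), if_neg hkn, mul_zero]
  rw [Finset.sum_congr rfl h2, intervalIntegral.integral_const_mul, pf15_exp_int]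
  by_cases hn0 : n = 0
  · subst hn0
    rw [if_pos (by simp), mul_comm]
    have : (∑ k ∈ Finset.Icc 1 M, if k = 0 then ((2 * Real.pi : ℝ) : ℂ) * b 0 else 0) = 0 := by
      refine Finset.sum_eq_zero fun k hk => ?_
      rw [Finset.mem_Icc] at hk
      rw [if_neg (by omega)]
    rw [this, add_zero]
  · rw [if_neg (by omega), mul_zero, zero_add, Finset.sum_ite_eq' (Finset.Icc 1 M) n,
      if_pos (Finset.mem_Icc.2 ⟨by omega, hn⟩)]

theorem norm_coef_le {M : ℕ} {b : ℕ → ℂ} (h : TU M b) {n : ℕ} (hn : n ≤ M) : ‖b n‖ ≤ 1 := by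
  have hpi := Real.two_pi_pos
  have h1 := pf15_coef h.1 hn
  have h2 : ‖∫ θ in (0 : ℝ)..(2 * Real.pi),
      ((tp M b θ : ℝ) : ℂ) * Complex.exp (((-(n : ℤ) : ℤ) : ℂ) * Complex.I * (θ : ℂ))‖ ≤
      1 * |2 * Real.pi - 0| := by
    refine intervalIntegral.norm_integral_le_of_norm_le_const fun θ _ => ?_
    rw [norm_mul, Complex.norm_real, Real.norm_eq_abs]
    have h3 : ‖Complex.exp (((-(n : ℤ) : ℤ) : ℂ) * Complex.I * (θ : ℂ))‖ = 1 := by
      have : ((-(n : ℤ) : ℤ) : ℂ) * Complex.I * (θ : ℂ) = ((-(n : ℝ) * θ : ℝ) : ℂ) * Complex.I := by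
        push_cast
        ring
      rw [this, Complex.norm_exp_ofReal_mul_I]
    rw [h3, mul_one]
    exact h.2 θ
  rw [h1, norm_mul, Complex.norm_real, Real.norm_eq_abs, sub_zero, abs_of_pos hpi, one_mul] at h2
  have h3 : 2 * Real.pi * ‖b n‖ ≤ 2 * Real.pi * 1 := by linarith
  exact le_of_mul_le_mul_left h3 hpi

end Pool.Agent.PfA
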