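import Pool.Agent.PfA.Peaks
import Pool.Agent.PfA.CoefLow
import Pool.Agent.PfA.CoefHigh
import Pool.Agent.PfA.Dual
import Pool.Agent.PfA.Pair
import Pool.Agent.PfA.Num
import Pool.Agent.PfA.Cont

/-! MP_f2c8f8_an, project PfA, row PF-21 -/

set_option autoImplicit false

open Filter MeasureTheory ValueDistribution Metric
open scoped ComplexConjugate Topology

noncomputable section

namespace Pool.Agent.PfA

theorem pf21_geom_aux {A s2 : ℝ} {q : ℕ} (hA : 2 ≤ A) (M : ℕ) :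
    ∑ n ∈ Finset.Icc 1 M, (if n ≤ q then (0 : ℝ) else A ^ (-((n : ℝ) - s2))) ≤
      2 * A ^ (-((q : ℝ) + 1 - s2)) -
        (if M ≤ q then 2 * A ^ (-((q : ℝ) + 1 - s2)) else A ^ (-((M : ℝ) - s2))) := by
  have hA0 : (0 : ℝ) < A := by linarith
  induction M with
  | zero => simp
  | succ M ih =>
    rw [Finset.sum_Icc_succ_top (by omega)]
    by_cases h1 : M + 1 ≤ q
    · have h2 : M ≤ q := by omega
      simp only [h1, if_true, h2] at ih ⊢
      linarith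
    · by_cases h2 : M ≤ q
      · have h3 : q = M := by omega
        subst h3
        simp only [h1, if_false, le_refl, if_true] at ih ⊢
        push_cast
        linarith
      · simp only [h1, if_false, h2] at ih ⊢
        have h4 : A ^ (-((M : ℝ) - s2)) = A * A ^ (-(((M + 1 : ℕ) : ℝ) - s2)) := by
          have : -((M : ℝ) - s2) = 1 + -(((M + 1 : ℕ) : ℝ) - s2) := by push_cast; ring
          rw [this, Real.rpow_add hA0, Real.rpow_one]
        have h5 : 0 < A ^ (-(((M + 1 : ℕ) : ℝ) - s2)) := Real.rpow_pos_of_pos hA0 _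
        nlinarith

theorem pf21_geom {A s2 : ℝ} {q : ℕ} (hA : 2 ≤ A) (M : ℕ) :
    ∑ n ∈ Finset.Icc 1 M, (if n ≤ q then (0 : ℝ) else A ^ (-((n : ℝ) - s2))) ≤
      2 * A ^ (-((q : ℝ) + 1 - s2)) := by
  have h := pf21_geom_aux (s2 := s2) (q := q) hA M
  have hA0 : (0 : ℝ) < A := by linarith
  have h1 : 0 ≤ (if M ≤ q then 2 * A ^ (-((q : ℝ) + 1 - s2)) else A ^ (-((M : ℝ) - s2))) := by
    split_ifs <;> positivity
  linarith

theorem pf21_low {q M : ℕ} {c : ℝ} (hc : 0 ≤ c) :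
    ∑ n ∈ Finset.Icc 1 M, (if n ≤ q then c else 0) ≤ q * c := by
  rw [← Finset.sum_filter, Finset.sum_const, nsmul_eq_mul]
  apply mul_le_mul_of_nonneg_right _ hc
  have : (Finset.filter (fun n => n ≤ q) (Finset.Icc 1 M)) ⊆ Finset.Icc 1 q := by
    intro n hn
    simp only [Finset.mem_filter, Finset.mem_Icc] at hn ⊢
    omega
  have h2 := Finset.card_le_card this
  rw [Nat.card_Icc] at h2
  exact_mod_cast (by omega : (Finset.filter (fun n => n ≤ q) (Finset.Icc 1 M)).card ≤ q)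

theorem pf21_fc_zero (u : ℂ → ℝ) (r : ℝ) : fc u r 0 = ((Real.circleAverage u 0 r : ℝ) : ℂ) := by
  unfold fc Real.circleAverage
  simp only [pow_zero, mul_one]
  rw [intervalIntegral.integral_ofReal, Complex.real_smul, smul_eq_mul, Complex.ofReal_mul]

theorem core_main {u w : ℂ → ℝ} {E : Set ℝ} {N T : ℝ → ℝ} {C : ℝ} (h : Core u w E N T C) {t : ℝ}
    (ht : 1 ≤ t) (hn : NonInt t)
    (hbig : ∀ s : ℝ, 0 < s → s < t → ∀ M X : ℝ, ∃ x ≥ X, M * x ^ s ≤ T x)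
    (hsmall : ∀ s : ℝ, t < s → ∀ ε : ℝ, 0 < ε → ∀ X : ℝ, ∃ x ≥ X, T x ≤ ε * x ^ s) {S : ℝ}
    (hS : ∀ (M : ℕ) (b : ℕ → ℂ), TU M b → mp (BB t t ⌊t⌋₊) M b ≤ S) {κ : ℝ} (hκ : 0 < κ)
    (hκ2 : κ * (1 + S) < 2) (X : ℝ) : ∃ r ≥ X, 0 < T r ∧ κ * T r < N r := by
  by_contra! hcon
  -- `S ≥ 0`
  have hS0 : 0 ≤ S := by
    have h1 : TU 0 (fun _ => (0 : ℂ)) := by
      refine ⟨by simp, fun θ => by simp [tp]⟩
    have h2 := hS 0 (fun _ => 0) h1
    simpa [mp] using h2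
  -- positivity of `T`
  obtain ⟨x0, hx0, hTx0⟩ := hbig (t / 2) (by linarith) (by linarith) 1 (max 1 X)
  have hx1 : 1 ≤ x0 := le_trans (le_max_left _ _) hx0
  have hxX : X ≤ x0 := le_trans (le_max_right _ _) hx0
  have hTx0' : 0 < T x0 := by
    have : 0 < x0 ^ (t / 2) := Real.rpow_pos_of_pos (by linarith) _
    linarith
  have hTpos : ∀ r, x0 ≤ r → 0 < T r := by
    intro r hr
    have := h.Tmono (a := x0) (b := r) (Set.mem_Ici.2 hx1) (Set.mem_Ici.2 (le_trans hx1 hr)) hr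
    linarith
  have hN : ∀ r, x0 ≤ r → N r ≤ κ * T r := fun r hr => hcon r (le_trans hxX hr) (hTpos r hr)
  -- choice of `η`
  have hc0 : 0 < κ * (1 + S) := by positivity
  obtain ⟨η, hη, hη2⟩ : ∃ η : ℝ, 0 < η ∧ κ * (1 + η) ^ 2 * (1 + S) < 2 := by
    refine ⟨min 1 ((2 - κ * (1 + S)) / 8), lt_min one_pos (by linarith), ?_⟩
    set e := min 1 ((2 - κ * (1 + S)) / 8) with he
    have h1 : e ≤ 1 := min_le_left _ _
    have h2 : e ≤ (2 - κ * (1 + S)) / 8 := min_le_right _ _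
    have h0 : 0 < e := lt_min one_pos (by linarith)
    have h3 : (1 + e) ^ 2 ≤ 1 + 3 * e := by nlinarith
    have h4 : κ * (1 + e) ^ 2 * (1 + S) = κ * (1 + S) * (1 + e) ^ 2 := by ring
    rw [h4]
    have h5 : κ * (1 + S) * (1 + e) ^ 2 ≤ κ * (1 + S) * (1 + 3 * e) :=
      mul_le_mul_of_nonneg_left h3 hc0.le
    nlinarith
  obtain ⟨s1, s2, hq1, hs1, hs2, hq2, hB⟩ := BB_cont ht hn hη
  set q := ⌊t⌋₊ with hq
  have hq0 : (1 : ℝ) ≤ (q : ℝ) := by
    have : 1 ≤ q := Nat.le_floor (by simpa using ht)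
    exact_mod_cast this
  have hs10 : 0 < s1 := by linarith
  obtain ⟨C1, r1, hC1, hlow⟩ := coef_low h hκ hη hx1 hN hq1 (s2 := s2)
  obtain ⟨C2, hC2, hhigh⟩ := coef_high (s1 := s1) h hκ hη hx1 hN (by linarith : (1 : ℝ) ≤ s2) hq2
  set γ := 1 - κ * (1 + η) ^ 2 * (1 + S) / 2 with hγ
  have hγ0 : 0 < γ := by rw [hγ]; linarith
  -- choice of `A`
  obtain ⟨A, hA2, hA⟩ : ∃ A : ℝ, 2 ≤ A ∧ 2 * C2 * A ^ (-((q : ℝ) + 1 - s2)) ≤ γ / 4 := by
    have hδ : 0 < (q : ℝ) + 1 - s2 := by linarith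
    have h1 : Tendsto (fun A : ℝ => 2 * C2 * A ^ (-((q : ℝ) + 1 - s2))) atTop (𝓝 (2 * C2 * 0)) :=
      (tendsto_rpow_neg_atTop hδ).const_mul _
    rw [mul_zero] at h1
    have h2 := (h1.eventually (ge_mem_nhds (show (0 : ℝ) < γ / 4 by linarith))).and
      (eventually_ge_atTop (2 : ℝ))
    obtain ⟨A, h3, h4⟩ := h2.exists
    exact ⟨A, h4, h3⟩
  set K := 3 / 2 * C + 1 / 2 + γ / 4 + q * C1 with hK
  have hC := h.hC
  have hK0 : 0 ≤ K := by rw [hK]; positivity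
  obtain ⟨r, hrX, hr1, hrE, hTr, hMr, hl, hh'⟩ := exists_peak h.Tmono hs10 (hs1.trans hs2)
    (hbig s1 hs10 hs1) (hsmall s2 hs2) h.dat.cE hη (Real.exp 3 * A) ((K + 1) / (3 / 4 * γ))
    (max x0 r1)
  have hrx0 : x0 ≤ r := le_trans (le_max_left _ _) hrX
  have hrr1 : r1 ≤ r := le_trans (le_max_right _ _) hrX
  have hr0 : 0 < r := by linarith
  have hlow' := hlow r hrr1 hrE hTr hl
  have hhigh' := hhigh r A (by linarith) hrx0 hrE hTr hh'
  obtain ⟨M, b, hb, hUU⟩ := duality hr0 (h.dat.int r) (ε := 1) one_pos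
  set P := κ * (1 + η) ^ 2 * T r with hP
  have hP0 : 0 ≤ P := by positivity
  have hη1 : 1 ≤ (1 + η) ^ 2 := by nlinarith
  have hB' : ∀ n, κ * (1 + η) * T r * BB s1 s2 q n ≤ P * BB t t q n := by
    intro n
    have h1 : κ * (1 + η) * T r * BB s1 s2 q n ≤ κ * (1 + η) * T r * ((1 + η) * BB t t q n) :=
      mul_le_mul_of_nonneg_left (hB n) (by positivity)
    calc _ ≤ _ := h1
      _ = P * BB t t q n := by rw [hP]; ring
  have hBpos : ∀ n, 0 < BB t t q n := fun n => BB_pos ht hn n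
  -- bound of the terms
  have hterm : ∀ n ∈ Finset.Icc 1 M, (fc u r n * conj (b n)).re ≤
      P * (BB t t q n * ‖b n‖) + ((if n ≤ q then C1 * r ^ q else 0) +
        C2 * (T r + 1) * (if n ≤ q then (0 : ℝ) else A ^ (-((n : ℝ) - s2)))) := by
    intro n hnM
    rw [Finset.mem_Icc] at hnM
    have h1 : (fc u r n * conj (b n)).re ≤ ‖fc u r n‖ * ‖b n‖ := by
      calc (fc u r n * conj (b n)).re ≤ ‖fc u r n * conj (b n)‖ := Complex.re_le_norm _
        _ = ‖fc u r n‖ * ‖b n‖ := by rw [norm_mul, RCLike.norm_conj]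
    have hb1 : ‖b n‖ ≤ 1 := norm_coef_le hb hnM.2
    have hb0 : 0 ≤ ‖b n‖ := norm_nonneg _
    by_cases hnq : n ≤ q
    · simp only [hnq, if_true, mul_zero, add_zero]
      have h2 := hlow' n hnM.1 hnq
      have h3 : ‖fc u r n‖ ≤ P * BB t t q n + C1 * r ^ q := h2.trans (by linarith [hB' n])
      have h4 : 0 ≤ C1 * r ^ q := by positivity
      calc (fc u r n * conj (b n)).re ≤ ‖fc u r n‖ * ‖b n‖ := h1
        _ ≤ (P * BB t t q n + C1 * r ^ q) * ‖b n‖ := mul_le_mul_of_nonneg_right h3 hb0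
        _ = P * (BB t t q n * ‖b n‖) + C1 * r ^ q * ‖b n‖ := by ring
        _ ≤ P * (BB t t q n * ‖b n‖) + C1 * r ^ q := by nlinarith
    · simp only [hnq, if_false, zero_add]
      have h2 := hhigh' n (by omega)
      have h3 : ‖fc u r n‖ ≤ P * BB t t q n + C2 * (T r + 1) * A ^ (-((n : ℝ) - s2)) :=
        h2.trans (by linarith [hB' n])
      have h4 : 0 ≤ C2 * (T r + 1) * A ^ (-((n : ℝ) - s2)) := by
        have : 0 < A ^ (-((n : ℝ) - s2)) := Real.rpow_pos_of_pos (by linarith) _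
        positivity
      calc (fc u r n * conj (b n)).re ≤ ‖fc u r n‖ * ‖b n‖ := h1
        _ ≤ (P * BB t t q n + C2 * (T r + 1) * A ^ (-((n : ℝ) - s2))) * ‖b n‖ :=
          mul_le_mul_of_nonneg_right h3 hb0
        _ = P * (BB t t q n * ‖b n‖) + C2 * (T r + 1) * A ^ (-((n : ℝ) - s2)) * ‖b n‖ := by ring
        _ ≤ P * (BB t t q n * ‖b n‖) + C2 * (T r + 1) * A ^ (-((n : ℝ) - s2)) := by nlinarith
  have hzero : (fc u r 0 * conj (b 0)).re ≤ P * (BB t t q 0 * ‖b 0‖) + C := by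
    have hBB0 : BB t t q 0 = 1 := by simp [BB]
    rw [hBB0, one_mul, pf21_fc_zero]
    have hb1 : ‖b 0‖ ≤ 1 := norm_coef_le hb (Nat.zero_le _)
    have hb0 : 0 ≤ ‖b 0‖ := norm_nonneg _
    have h1 : (((Real.circleAverage u 0 r : ℝ) : ℂ) * conj (b 0)).re ≤
        |Real.circleAverage u 0 r| * ‖b 0‖ := by
      calc _ ≤ ‖((Real.circleAverage u 0 r : ℝ) : ℂ) * conj (b 0)‖ := Complex.re_le_norm _
        _ = |Real.circleAverage u 0 r| * ‖b 0‖ := by
          rw [norm_mul, RCLike.norm_conj, Complex.norm_real, Real.norm_eq_abs]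
    have h2 := h.h0 r hr1
    have h3 := hN r hrx0
    have h4 : κ * T r ≤ P := by
      rw [hP]
      have : 0 ≤ κ * T r := by positivity
      nlinarith
    have h5 : |Real.circleAverage u 0 r| ≤ P + C := by linarith
    calc _ ≤ |Real.circleAverage u 0 r| * ‖b 0‖ := h1
      _ ≤ (P + C) * ‖b 0‖ := mul_le_mul_of_nonneg_right h5 hb0
      _ = P * ‖b 0‖ + C * ‖b 0‖ := by ring
      _ ≤ P * ‖b 0‖ + C := by nlinarith
  have hpr : pr u r M b ≤ P * mp (BB t t q) M b + C + 2 * (q * (C1 * r ^ q) +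
      C2 * (T r + 1) * (2 * A ^ (-((q : ℝ) + 1 - s2)))) := by
    unfold pr mp
    have h1 := Finset.sum_le_sum hterm
    rw [Finset.sum_add_distrib, Finset.sum_add_distrib, ← Finset.mul_sum, ← Finset.mul_sum] at h1
    have h2 := pf21_low (q := q) (M := M) (c := C1 * r ^ q) (by positivity)
    have h3 := pf21_geom (s2 := s2) (q := q) hA2 M
    have h4 : C2 * (T r + 1) * ∑ n ∈ Finset.Icc 1 M,
        (if n ≤ q then (0 : ℝ) else A ^ (-((n : ℝ) - s2))) ≤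
        C2 * (T r + 1) * (2 * A ^ (-((q : ℝ) + 1 - s2))) :=
      mul_le_mul_of_nonneg_left h3 (by positivity)
    have h5 : P * (BB t t q 0 * ‖b 0‖ + 2 * ∑ n ∈ Finset.Icc 1 M, BB t t q n * ‖b n‖) =
        P * (BB t t q 0 * ‖b 0‖) + 2 * (P * ∑ n ∈ Finset.Icc 1 M, BB t t q n * ‖b n‖) := by ring
    rw [h5]
    linarith
  have hmp := hS M b hb
  have hPS : P * mp (BB t t q) M b ≤ P * S := mul_le_mul_of_nonneg_left hmp hP0
  have hTle := h.hT r hr1
  have hNr := hN r hrx0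
  have hκP : κ * T r ≤ P := by
    rw [hP]
    have : 0 ≤ κ * T r := by positivity
    nlinarith
  have herr : C2 * (T r + 1) * (2 * A ^ (-((q : ℝ) + 1 - s2))) ≤ γ / 4 * (T r + 1) := by
    have := mul_le_mul_of_nonneg_right hA (show 0 ≤ T r + 1 by linarith)
    calc _ = 2 * C2 * A ^ (-((q : ℝ) + 1 - s2)) * (T r + 1) := by ring
      _ ≤ _ := this
  have hrq : (1 : ℝ) ≤ r ^ q := one_le_pow₀ hr1
  -- final contradiction
  have hfin : T r ≤ P * (1 + S) / 2 + (3 / 2 * C + 1 / 2) + q * (C1 * r ^ q) + γ / 4 * (T r + 1) := by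
    nlinarith
  have hPγ : P * (1 + S) / 2 = (1 - γ) * T r := by rw [hP, hγ]; ring
  have hfin2 : 3 / 4 * γ * T r ≤ K * r ^ q := by
    have h1 : 3 / 4 * γ * T r ≤ (3 / 2 * C + 1 / 2 + γ / 4) + q * (C1 * r ^ q) := by
      rw [hPγ] at hfin
      linarith
    have h2 : (3 / 2 * C + 1 / 2 + γ / 4) ≤ (3 / 2 * C + 1 / 2 + γ / 4) * r ^ q :=
      le_mul_of_one_le_right (by positivity) hrq
    calc _ ≤ _ := h1
      _ ≤ (3 / 2 * C + 1 / 2 + γ / 4) * r ^ q + q * (C1 * r ^ q) := by linarith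
      _ = K * r ^ q := by rw [hK]; ring
  have hfin3 : (K + 1) * r ^ q ≤ 3 / 4 * γ * T r := by
    have h1 : (r : ℝ) ^ q ≤ r ^ s1 := by
      rw [← Real.rpow_natCast]
      exact Real.rpow_le_rpow_of_exponent_le hr1 hq1.le
    have h2 : (K + 1) * r ^ q ≤ (K + 1) * r ^ s1 := mul_le_mul_of_nonneg_left h1 (by linarith)
    have h3 : 3 / 4 * γ * ((K + 1) / (3 / 4 * γ) * r ^ s1) ≤ 3 / 4 * γ * T r :=
      mul_le_mul_of_nonneg_left hMr (by positivity)
    have h4 : 3 / 4 * γ * ((K + 1) / (3 / 4 * γ) * r ^ s1) = (K + 1) * r ^ s1 := by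
      field_simp
    linarith
  have : 0 < (r : ℝ) ^ q := by positivity
  nlinarith

end Pool.Agent.PfA
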