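import Mathlib
import Pool.Agent.H9.Pf.Value

/-!
# Pfluger's problem: definitions (MP_f2c8f8_an)

Fourier coefficients of `log |f - a| - log |f - b|` on circles.
-/

set_option autoImplicit false

open Filter MeasureTheory ValueDistribution
open scoped ComplexConjugate Topology

noncomputable section

namespace Pool.Agent.PfA

/-- the `n`-th Fourier coefficient of `u` on the circle of radius `r` -/
def fc (u : ℂ → ℝ) (r : ℝ) (n : ℕ) : ℂ :=
  Real.circleAverage (fun z => (u z : ℂ) * (conj z / (r : ℂ)) ^ n) 0 r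

/-- the weights `w` have locally finite support -/
def LF (w : ℂ → ℝ) : Prop := ∀ R : ℝ, {a : ℂ | ‖a‖ ≤ R ∧ w a ≠ 0}.Finite

open Classical in
/-- the points of norm at most `R` with nonzero weight -/
def zs (w : ℂ → ℝ) (R : ℝ) : Finset ℂ :=
  if h : {a : ℂ | ‖a‖ ≤ R ∧ w a ≠ 0}.Finite then h.toFinset else ∅

/-- the total weight of the closed disc of radius `R` -/
def cnt (w : ℂ → ℝ) (R : ℝ) : ℝ := ∑ a ∈ zs w R, |w a|

/-- the integrated counting function -/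
def NI (w : ℂ → ℝ) (R : ℝ) : ℝ :=
  ∑ a ∈ zs w R, |w a| * Real.log (R * ‖a‖⁻¹) + |w 0| * Real.log R

/-- the mean of `|u|` on the circle of radius `r` -/
def UU (u : ℂ → ℝ) (r : ℝ) : ℝ := Real.circleAverage (fun z => |u z|) 0 r

/-- the formula which connects the Fourier coefficients on two circles, whose radii are not in the
exceptional set `E` -/
def TwoR (u w : ℂ → ℝ) (E : Set ℝ) : Prop := ∀ r R : ℝ, 0 < r → r < R → r ∉ E → R ∉ E →
  ∀ n : ℕ, 1 ≤ n → fc u r n - ((r / R : ℝ) : ℂ) ^ n * fc u R n =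
    -(1 / (2 * (n : ℂ))) * ∑ a ∈ zs w R, (w a : ℂ) *
      ((if ‖a‖ < r then conj a / (r : ℂ) else (r : ℂ) / a) ^ n -
        ((r : ℂ) * conj a / (R : ℂ) ^ 2) ^ n)

/-- `u` is integrable on circles and harmonic off the points with nonzero weight, where it behaves
like `w a * log |z - a|` -/
structure Dat (u w : ℂ → ℝ) (E : Set ℝ) : Prop where
  lf : LF w
  int : ∀ r : ℝ, CircleIntegrable u 0 r
  two : TwoR u w E
  cE : E.Countable
  wE : ∀ a : ℂ, w a ≠ 0 → ‖a‖ ∈ E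

/-- what is used of Nevanlinna theory -/
structure Core (u w : ℂ → ℝ) (E : Set ℝ) (N T : ℝ → ℝ) (C : ℝ) : Prop where
  dat : Dat u w E
  hC : 0 ≤ C
  hN : ∀ r, 1 ≤ r → N r = NI w r
  Tmono : MonotoneOn T (Set.Ici 1)
  hT : ∀ r, 1 ≤ r → T r ≤ (UU u r + N r) / 2 + C
  hU : ∀ r, 1 ≤ r → UU u r ≤ 4 * T r + C
  h0 : ∀ r, 1 ≤ r → |Real.circleAverage u 0 r| ≤ N r + C

/-- the majorant of the Fourier coefficients -/
def BB (s1 s2 : ℝ) (q n : ℕ) : ℝ :=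
  if n = 0 then 1 else if n ≤ q then s1 ^ 2 / (s1 ^ 2 - (n : ℝ) ^ 2)
  else min (n : ℝ) (Real.exp 1 * s2) / (2 * ((n : ℝ) - s2)) + Real.exp 1 * s2 / (2 * (n : ℝ))

/-- real trigonometric polynomial with the coefficients `b n`, `n ≤ M` -/
def tp (M : ℕ) (b : ℕ → ℂ) (θ : ℝ) : ℝ :=
  (b 0).re + 2 * ∑ n ∈ Finset.Icc 1 M, (b n * Complex.exp ((n : ℂ) * (θ : ℂ) * Complex.I)).re

/-- trigonometric polynomials bounded by one -/
def TU (M : ℕ) (b : ℕ → ℂ) : Prop := (b 0).im = 0 ∧ ∀ θ : ℝ, |tp M b θ| ≤ 1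

/-- the pairing of `u` with a trigonometric polynomial -/
def pr (u : ℂ → ℝ) (r : ℝ) (M : ℕ) (b : ℕ → ℂ) : ℝ :=
  (fc u r 0 * conj (b 0)).re + 2 * ∑ n ∈ Finset.Icc 1 M, (fc u r n * conj (b n)).re

/-- the majorant pairing -/
def mp (B : ℕ → ℝ) (M : ℕ) (b : ℕ → ℂ) : ℝ :=
  B 0 * ‖b 0‖ + 2 * ∑ n ∈ Finset.Icc 1 M, B n * ‖b n‖

/-- `t` is not an integer -/
def NonInt (t : ℝ) : Prop := ∀ n : ℤ, (n : ℝ) ≠ t

/-- `|sin (π t)|` -/
def sn (t : ℝ) : ℝ := |Real.sin (Real.pi * t)|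

/-! ### The extremal functions -/

/-- elementary factor of genus `q` -/
def EE (q : ℕ) (z : ℂ) : ℂ := (1 - z) * Complex.exp (∑ k ∈ Finset.Icc 1 q, z ^ k / (k : ℂ))

/-- the moduli of the zeros -/
def aa (ρ : ℝ) (k : ℕ) : ℝ := ((k : ℝ) + 1) ^ (1 / ρ)

/-- the canonical product with the zeros `- aa ρ k` -/
def PP (ρ : ℝ) (z : ℂ) : ℂ := ∏' k : ℕ, EE ⌊ρ⌋₊ (-z / (aa ρ k : ℂ))

/-- the Fourier coefficients of `log |EE|`, up to the sign `(- 1) ^ n` -/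
def kap (q n : ℕ) (y : ℝ) : ℝ :=
  if n = 0 then max 0 (Real.log y)
  else 1 / (2 * (n : ℝ)) * ((if n ≤ q then y ^ n else 0) - (if y < 1 then y ^ n else (y⁻¹) ^ n))

/-- the indicator -/
def hh (ρ : ℝ) (z : ℂ) : ℝ := Real.pi * Real.cos (ρ * Complex.arg z) / Real.sin (Real.pi * ρ)

end Pool.Agent.PfA
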