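import Pool.Agent.PfA.Defs

/-! MP_f2c8f8_an, project PfA, row PF-23 -/

set_option autoImplicit false

open Filter MeasureTheory ValueDistribution Metric
open scoped ComplexConjugate Topology

noncomputable section

namespace Pool.Agent.PfA

theorem EE_differentiable (q : ℕ) : Differentiable ℂ (EE q) := by
  unfold EE
  fun_prop

theorem EE_zero (q : ℕ) : EE q 0 = 1 := by
  have h : ∑ k ∈ Finset.Icc 1 q, (0 : ℂ) ^ k / (k : ℂ) = 0 := by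
    apply Finset.sum_eq_zero
    intro k hk
    have : k ≠ 0 := by have := (Finset.mem_Icc.mp hk).1; omega
    simp [this]
  simp [EE, h]

/-- the exponent of `EE q z` -/
def pf23_w (q : ℕ) (z : ℂ) : ℂ := Complex.log (1 - z) + ∑ k ∈ Finset.Icc 1 q, z ^ k / (k : ℂ)

theorem pf23_exp (q : ℕ) (z : ℂ) (hz : ‖z‖ ≤ 1 / 2) : EE q z = Complex.exp (pf23_w q z) := by
  have h1 : (1 : ℂ) - z ≠ 0 := by
    intro h
    have : z = 1 := by linear_combination -h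
    rw [this] at hz
    norm_num at hz
  rw [pf23_w, Complex.exp_add, Complex.exp_log h1, EE]

theorem pf23_taylor (q : ℕ) (z : ℂ) :
    Complex.logTaylor (q + 1) (-z) = - ∑ k ∈ Finset.Icc 1 q, z ^ k / (k : ℂ) := by
  rw [Complex.logTaylor, Finset.range_eq_Ico, Finset.sum_eq_sum_Ico_succ_bot (by omega)]
  have : Finset.Ico (0 + 1) (q + 1) = Finset.Icc 1 q := by
    ext k; simp [Finset.mem_Ico, Finset.mem_Icc]
  rw [this]
  simp only [Nat.cast_zero, div_zero, zero_add, ← Finset.sum_neg_distrib]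
  apply Finset.sum_congr rfl
  intro k _
  have : (-z) ^ k = (-1) ^ k * z ^ k := by rw [← neg_one_mul, mul_pow]
  rw [this, ← mul_assoc, ← pow_add]
  have h2 : (-1 : ℂ) ^ (k + 1 + k) = -1 := by
    rw [show k + 1 + k = 2 * k + 1 by ring, pow_succ, pow_mul]; norm_num
  rw [h2]; ring

theorem pf23_w_le (q : ℕ) (z : ℂ) (hz : ‖z‖ ≤ 1 / 2) : ‖pf23_w q z‖ ≤ 2 * ‖z‖ ^ (q + 1) := by
  have h := Complex.norm_log_sub_logTaylor_le q (z := -z) (by rw [norm_neg]; linarith)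
  rw [pf23_taylor, norm_neg] at h
  have e : Complex.log (1 + -z) - -∑ k ∈ Finset.Icc 1 q, z ^ k / (k : ℂ) = pf23_w q z := by
    rw [pf23_w, sub_eq_add_neg (1 : ℂ) z]; ring
  rw [e] at h
  refine h.trans ?_
  have h1 : (1 - ‖z‖)⁻¹ ≤ 2 := by
    rw [inv_le_comm₀ (by linarith) (by norm_num)]; linarith
  have h0 : (0 : ℝ) ≤ ‖z‖ ^ (q + 1) := by positivity
  have h2 : (0 : ℝ) ≤ (1 - ‖z‖)⁻¹ := by
    apply inv_nonneg.mpr; linarith
  rw [div_le_iff₀ (by positivity)]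
  have hq : (1 : ℝ) ≤ (q : ℝ) + 1 := by have := Nat.cast_nonneg (α := ℝ) q; linarith
  nlinarith [mul_le_mul_of_nonneg_left h1 h0, mul_nonneg h0 (by linarith : (0:ℝ) ≤ (q:ℝ) + 1 - 1)]

theorem pf23_w_le_one (q : ℕ) (z : ℂ) (hz : ‖z‖ ≤ 1 / 2) : ‖pf23_w q z‖ ≤ 1 := by
  refine (pf23_w_le q z hz).trans ?_
  have h : ‖z‖ ^ (q + 1) ≤ ‖z‖ ^ 1 :=
    pow_le_pow_of_le_one (norm_nonneg _) (by linarith) (by omega)
  rw [pow_one] at h
  linarith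

theorem EE_sub_one (q : ℕ) : ∃ C : ℝ, 0 < C ∧ ∀ z : ℂ, ‖z‖ ≤ 1 / 2 → ‖EE q z - 1‖ ≤ C * ‖z‖ ^ (q + 1) := by
  refine ⟨4, by norm_num, fun z hz => ?_⟩
  rw [pf23_exp q z hz]
  refine (Complex.norm_exp_sub_one_le (pf23_w_le_one q z hz)).trans ?_
  have := pf23_w_le q z hz
  linarith

theorem pf23_log (q : ℕ) (z : ℂ) (hz : ‖z‖ ≤ 1 / 2) :
    |Real.log ‖EE q z‖| ≤ 2 * ‖z‖ ^ (q + 1) := by
  rw [pf23_exp q z hz, Complex.norm_exp, Real.log_exp]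
  exact (Complex.abs_re_le_norm _).trans (pf23_w_le q z hz)

theorem pf23_big (q k : ℕ) (hk : k ≤ q) (x τ : ℝ) (hx : 1 / 2 < x) (h1 : (q : ℝ) ≤ τ)
    (h2 : τ ≤ q + 1) : x ^ k ≤ 2 ^ (q + 1) * x ^ τ := by
  have hx0 : 0 < x := by linarith
  have e : x ^ k = x ^ τ * x ^ ((k : ℝ) - τ) := by
    rw [← Real.rpow_add hx0, ← Real.rpow_natCast]; congr 1; ring
  have hkq : (k : ℝ) ≤ (q : ℝ) := by exact_mod_cast hk
  have h3 : x ^ ((k : ℝ) - τ) ≤ (2 : ℝ) ^ (q + 1) := by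
    calc x ^ ((k : ℝ) - τ) ≤ (1 / 2 : ℝ) ^ ((k : ℝ) - τ) :=
          Real.rpow_le_rpow_of_nonpos (by norm_num) hx.le (by linarith)
      _ = (2 : ℝ) ^ (τ - k) := by
          rw [one_div, Real.inv_rpow (by norm_num), ← Real.rpow_neg (by norm_num)]
          congr 1; ring
      _ ≤ (2 : ℝ) ^ ((q : ℝ) + 1) := by
          apply Real.rpow_le_rpow_of_exponent_le (by norm_num)
          have := Nat.cast_nonneg (α := ℝ) k
          linarith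
      _ = (2 : ℝ) ^ (q + 1) := by
          rw [← Nat.cast_add_one, Real.rpow_natCast]
  rw [e, mul_comm]
  exact mul_le_mul_of_nonneg_right h3 (Real.rpow_nonneg hx0.le _)

theorem pf23_log_le (q : ℕ) (z : ℂ) :
    Real.posLog ‖EE q z‖ ≤ ‖z‖ + ∑ k ∈ Finset.Icc 1 q, ‖z‖ ^ k := by
  have hs : (0 : ℝ) ≤ ∑ k ∈ Finset.Icc 1 q, ‖z‖ ^ k := Finset.sum_nonneg fun _ _ => by positivity
  have h1 : ‖EE q z‖ ≤ Real.exp (‖z‖ + ∑ k ∈ Finset.Icc 1 q, ‖z‖ ^ k) := by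
    rw [EE, norm_mul, Complex.norm_exp, Real.exp_add]
    apply mul_le_mul
    · calc ‖1 - z‖ ≤ ‖(1 : ℂ)‖ + ‖z‖ := norm_sub_le _ _
        _ = ‖z‖ + 1 := by rw [norm_one, add_comm]
        _ ≤ Real.exp ‖z‖ := Real.add_one_le_exp _
    · apply Real.exp_le_exp.mpr
      refine (Complex.re_le_norm _).trans ((norm_sum_le _ _).trans ?_)
      apply Finset.sum_le_sum
      intro k hk
      rw [norm_div, norm_pow, Complex.norm_natCast]
      have : (1 : ℝ) ≤ k := by exact_mod_cast (Finset.mem_Icc.mp hk).1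
      exact div_le_self (by positivity) this
    · exact (Real.exp_pos _).le
    · exact (Real.exp_pos _).le
  have h2 : (0 : ℝ) ≤ ‖z‖ + ∑ k ∈ Finset.Icc 1 q, ‖z‖ ^ k := by positivity
  rcases eq_or_lt_of_le (norm_nonneg (EE q z)) with h | h
  · rw [← h, Real.posLog_zero]; exact h2
  · rw [Real.posLog_def]
    refine max_le h2 ?_
    rw [← Real.log_exp (‖z‖ + ∑ k ∈ Finset.Icc 1 q, ‖z‖ ^ k)]
    exact Real.log_le_log h h1

theorem posLog_EE (q : ℕ) (hq : 1 ≤ q) : ∃ C : ℝ, 0 < C ∧ ∀ (z : ℂ) (τ : ℝ), (q : ℝ) ≤ τ → τ ≤ q + 1 →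
    Real.posLog ‖EE q z‖ ≤ C * ‖z‖ ^ τ := by
  refine ⟨((q : ℝ) + 1) * 2 ^ (q + 1), by positivity, fun z τ h1 h2 => ?_⟩
  have hτ : 0 < τ := lt_of_lt_of_le (by exact_mod_cast hq) h1
  have hC : (2 : ℝ) ≤ ((q : ℝ) + 1) * 2 ^ (q + 1) := by
    have h3 : (1 : ℝ) ≤ 2 ^ (q + 1) := one_le_pow₀ (by norm_num)
    have h4 : (1 : ℝ) ≤ q := by exact_mod_cast hq
    nlinarith
  rcases le_or_gt ‖z‖ (1 / 2) with hz | hz
  · have h3 : Real.posLog ‖EE q z‖ ≤ |Real.log ‖EE q z‖| := by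
      rw [Real.posLog_def]; exact max_le (abs_nonneg _) (le_abs_self _)
    refine h3.trans ((pf23_log q z hz).trans ?_)
    have h4 : ‖z‖ ^ (q + 1) ≤ ‖z‖ ^ τ := by
      rcases eq_or_lt_of_le (norm_nonneg z) with h | h
      · rw [← h, zero_pow (by omega), Real.zero_rpow hτ.ne']
      · rw [← Real.rpow_natCast]
        apply Real.rpow_le_rpow_of_exponent_ge h (by linarith)
        push_cast; exact h2
    calc 2 * ‖z‖ ^ (q + 1) ≤ 2 * ‖z‖ ^ τ := by linarith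
      _ ≤ _ := mul_le_mul_of_nonneg_right hC (Real.rpow_nonneg (norm_nonneg _) _)
  · refine (pf23_log_le q z).trans ?_
    have h5 : ‖z‖ ≤ 2 ^ (q + 1) * ‖z‖ ^ τ := by
      have := pf23_big q 1 hq ‖z‖ τ hz h1 h2
      rwa [pow_one] at this
    have h6 : ∑ k ∈ Finset.Icc 1 q, ‖z‖ ^ k ≤ (q : ℝ) * (2 ^ (q + 1) * ‖z‖ ^ τ) := by
      calc ∑ k ∈ Finset.Icc 1 q, ‖z‖ ^ k ≤ ∑ k ∈ Finset.Icc 1 q, (2 ^ (q + 1) * ‖z‖ ^ τ) :=
            Finset.sum_le_sum fun k hk => pf23_big q k (Finset.mem_Icc.mp hk).2 ‖z‖ τ hz h1 h2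
        _ = _ := by rw [Finset.sum_const, Nat.card_Icc, nsmul_eq_mul]; simp
    calc ‖z‖ + ∑ k ∈ Finset.Icc 1 q, ‖z‖ ^ k
        ≤ 2 ^ (q + 1) * ‖z‖ ^ τ + (q : ℝ) * (2 ^ (q + 1) * ‖z‖ ^ τ) := add_le_add h5 h6
      _ = _ := by ring

theorem abs_log_EE (q : ℕ) : ∃ C : ℝ, 0 < C ∧ ∀ z : ℂ, ‖z‖ ≤ 1 / 2 → |Real.log ‖EE q z‖| ≤ C * ‖z‖ ^ (q + 1) :=
  ⟨2, by norm_num, fun z hz => pf23_log q z hz⟩

end Pool.Agent.PfA
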