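import Pool.Agent.PfA.Fact

/-! MP_f2c8f8_an, project PfA, row PF-24 -/

set_option autoImplicit false

open Filter MeasureTheory ValueDistribution Metric
open scoped ComplexConjugate Topology

noncomputable section

namespace Pool.Agent.PfA

private lemma pf24_int {u : ℂ → ℝ} {r : ℝ} (hu : CircleIntegrable u 0 r) (n : ℕ) :
    CircleIntegrable (fun z => (u z : ℂ) * (conj z / (r : ℂ)) ^ n) 0 r := by
  have h1 : IntervalIntegrable (fun θ : ℝ => ((u (circleMap 0 r θ) : ℝ) : ℂ)) volume 0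
      (2 * Real.pi) := ⟨hu.1.ofReal, hu.2.ofReal⟩
  have hc : Continuous (fun θ : ℝ => (conj (circleMap 0 r θ) / (r : ℂ)) ^ n) :=
    (((Complex.continuous_conj.comp (continuous_circleMap 0 r)).div_const _).pow n)
  exact h1.mul_continuousOn hc.continuousOn

private lemma pf24_add {u v : ℂ → ℝ} {r : ℝ} (hu : CircleIntegrable u 0 r)
    (hv : CircleIntegrable v 0 r) (n : ℕ) :
    fc (fun z => u z + v z) r n = fc u r n + fc v r n := by
  unfold fc
  rw [← Real.circleAverage_fun_add (pf24_int hu n) (pf24_int hv n)]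
  congr 1
  funext z
  push_cast
  ring

private lemma pf24_cmul (c : ℝ) (u : ℂ → ℝ) (r : ℝ) (n : ℕ) :
    fc (fun z => c * u z) r n = (c : ℂ) * fc u r n := by
  unfold fc
  rw [← smul_eq_mul (c : ℂ), ← Real.circleAverage_fun_smul]
  congr 1
  funext z
  rw [smul_eq_mul]
  push_cast
  ring

private lemma pf24_sum {ι : Type} (s : Finset ι) (u : ι → ℂ → ℝ) (r : ℝ)
    (hu : ∀ i ∈ s, CircleIntegrable (u i) 0 r) (n : ℕ) :
    fc (fun z => ∑ i ∈ s, u i z) r n = ∑ i ∈ s, fc (u i) r n := by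
  unfold fc
  rw [← Real.circleAverage_fun_sum (fun i hi => pf24_int (hu i hi) n)]
  congr 1
  funext z
  rw [← Finset.sum_mul]
  push_cast
  ring

private lemma pf24_exp (m : ℤ) : ∫ θ in (0 : ℝ)..(2 * Real.pi),
    Complex.exp ((m : ℂ) * (θ : ℂ) * Complex.I) = if m = 0 then (2 * Real.pi : ℂ) else 0 := by
  by_cases hm : m = 0
  · subst hm
    simp
  · rw [if_neg hm]
    have hc : (m : ℂ) * Complex.I ≠ 0 := by
      refine mul_ne_zero (by exact_mod_cast hm) Complex.I_ne_zero
    have h1 := integral_exp_mul_complex (a := 0) (b := 2 * Real.pi) hc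
    have h2 : ∀ θ : ℝ, (m : ℂ) * (θ : ℂ) * Complex.I = (m : ℂ) * Complex.I * (θ : ℂ) := by
      intro θ; ring
    simp_rw [h2]
    rw [h1]
    have h3 : Complex.exp ((m : ℂ) * Complex.I * ((2 * Real.pi : ℝ) : ℂ)) = 1 := by
      have := Complex.exp_int_mul_two_pi_mul_I m
      rw [← this]
      congr 1
      push_cast
      ring
    rw [h3]
    simp

private lemma pf24_pow (k n : ℕ) (hk : 1 ≤ k) {a r : ℝ} (ha : 0 < a) (hr : 0 < r) :
    fc (fun z => ((-z / (a : ℂ)) ^ k).re) r n =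
      if k = n then (-1) ^ n * (((r / a) ^ n / 2 : ℝ) : ℂ) else 0 := by
  have hrc : (r : ℂ) ≠ 0 := by exact_mod_cast hr.ne'
  have hac : (a : ℂ) ≠ 0 := by exact_mod_cast ha.ne'
  have e : ∀ θ : ℝ, ((((-(circleMap 0 r θ) / (a : ℂ)) ^ k).re : ℝ) : ℂ) *
      (conj (circleMap 0 r θ) / (r : ℂ)) ^ n =
      ((-1) ^ k * ((r / a : ℝ) : ℂ) ^ k / 2) *
        (Complex.exp (((((k : ℤ) - n : ℤ)) : ℂ) * (θ : ℂ) * Complex.I) +
          Complex.exp (((-((k : ℤ) + n) : ℤ) : ℂ) * (θ : ℂ) * Complex.I)) := by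
    intro θ
    have h1 : (conj (circleMap 0 r θ) / (r : ℂ)) = Complex.exp (-((θ : ℂ) * Complex.I)) := by
      rw [circleMap_zero, map_mul, Complex.conj_ofReal, ← Complex.exp_conj, map_mul,
        Complex.conj_ofReal, Complex.conj_I, mul_div_assoc, mul_comm (r : ℂ), div_mul_cancel₀ _ hrc]
      congr 1
      ring
    have h2 : (-(circleMap 0 r θ) / (a : ℂ)) ^ k =
        (-1) ^ k * ((r / a : ℝ) : ℂ) ^ k * Complex.exp ((k : ℂ) * ((θ : ℂ) * Complex.I)) := by
      rw [circleMap_zero, Complex.exp_nat_mul, ← mul_pow, ← mul_pow]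
      congr 1
      push_cast
      field_simp
    have h3 : conj ((-(circleMap 0 r θ) / (a : ℂ)) ^ k) =
        (-1) ^ k * ((r / a : ℝ) : ℂ) ^ k * Complex.exp (-((k : ℂ) * ((θ : ℂ) * Complex.I))) := by
      rw [h2, map_mul, map_mul, map_pow, map_pow, map_neg, map_one, Complex.conj_ofReal,
        ← Complex.exp_conj, map_mul, map_mul, Complex.conj_ofReal, Complex.conj_I,
        Complex.conj_natCast]
      congr 2
      ring
    have h4 : ((((-(circleMap 0 r θ) / (a : ℂ)) ^ k).re : ℝ) : ℂ) =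
        ((-(circleMap 0 r θ) / (a : ℂ)) ^ k + conj ((-(circleMap 0 r θ) / (a : ℂ)) ^ k)) / 2 := by
      rw [Complex.add_conj]
      push_cast
      ring
    rw [h4, h3, h2, h1, ← Complex.exp_nat_mul]
    have h5 : Complex.exp (((((k : ℤ) - n : ℤ)) : ℂ) * (θ : ℂ) * Complex.I) =
        Complex.exp ((k : ℂ) * ((θ : ℂ) * Complex.I)) *
          Complex.exp ((n : ℂ) * -((θ : ℂ) * Complex.I)) := by
      rw [← Complex.exp_add]
      congr 1
      push_cast
      ring
    have h6 : Complex.exp (((-((k : ℤ) + n) : ℤ) : ℂ) * (θ : ℂ) * Complex.I) =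
        Complex.exp (-((k : ℂ) * ((θ : ℂ) * Complex.I))) *
          Complex.exp ((n : ℂ) * -((θ : ℂ) * Complex.I)) := by
      rw [← Complex.exp_add]
      congr 1
      push_cast
      ring
    rw [h5, h6]
    ring
  unfold fc
  rw [Real.circleAverage_def]
  simp_rw [e]
  rw [intervalIntegral.integral_const_mul, intervalIntegral.integral_add
    (Continuous.intervalIntegrable (by fun_prop) _ _)
    (Continuous.intervalIntegrable (by fun_prop) _ _), pf24_exp, pf24_exp]
  have hm2 : ¬ (-((k : ℤ) + n) = 0) := by omega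
  rw [if_neg hm2]
  by_cases hkn : k = n
  · subst hkn
    rw [if_pos (by ring), if_pos rfl]
    rw [Complex.real_smul]
    push_cast
    have : (Real.pi : ℂ) ≠ 0 := by exact_mod_cast Real.pi_ne_zero
    field_simp
    ring
  · have hm1 : ¬ ((k : ℤ) - n = 0) := by omega
    rw [if_neg hm1, if_neg hkn]
    simp

private lemma pf24_one (r : ℝ) (hr : 0 < r) (n : ℕ) :
    fc (fun _ => (1 : ℝ)) r n = if n = 0 then 1 else 0 := by
  have hrc : (r : ℂ) ≠ 0 := by exact_mod_cast hr.ne'
  have e : ∀ θ : ℝ, (((1 : ℝ)) : ℂ) * (conj (circleMap 0 r θ) / (r : ℂ)) ^ n =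
      Complex.exp (((-(n : ℤ) : ℤ) : ℂ) * (θ : ℂ) * Complex.I) := by
    intro θ
    have h1 : (conj (circleMap 0 r θ) / (r : ℂ)) = Complex.exp (-((θ : ℂ) * Complex.I)) := by
      rw [circleMap_zero, map_mul, Complex.conj_ofReal, ← Complex.exp_conj, map_mul,
        Complex.conj_ofReal, Complex.conj_I, mul_div_assoc, mul_comm (r : ℂ), div_mul_cancel₀ _ hrc]
      congr 1
      ring
    rw [h1, ← Complex.exp_nat_mul]
    push_cast
    rw [one_mul]
    congr 1
    ring
  unfold fc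
  rw [Real.circleAverage_def]
  simp_rw [e]
  rw [pf24_exp]
  by_cases hn : n = 0
  · subst hn
    rw [if_pos (by simp), if_pos rfl, Complex.real_smul]
    have : (Real.pi : ℂ) ≠ 0 := by exact_mod_cast Real.pi_ne_zero
    push_cast
    field_simp
  · rw [if_neg (by omega), if_neg hn]
    simp

private lemma pf24_logint (a : ℂ) (r : ℝ) : CircleIntegrable (fun z => Real.log ‖z - a‖) 0 r :=
  MeromorphicOn.circleIntegrable_log_norm (fun _ _ => by fun_prop)

theorem fc_EE (q : ℕ) {a r : ℝ} (ha : 0 < a) (hr : 0 < r) (har : a ≠ r) (n : ℕ) :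
    fc (fun z => Real.log ‖EE q (-z / (a : ℂ))‖) r n = (-1) ^ n * ((kap q n (r / a) : ℝ) : ℂ) := by
  have hac : (a : ℂ) ≠ 0 := by exact_mod_cast ha.ne'
  have hsph : Set.EqOn (fun z : ℂ => ((Real.log ‖EE q (-z / (a : ℂ))‖ : ℝ) : ℂ) *
      (conj z / (r : ℂ)) ^ n) (fun z : ℂ => ((Real.log ‖z - (-(a : ℂ))‖ + (-Real.log a) * 1 +
        ∑ k ∈ Finset.Icc 1 q, (1 / (k : ℝ)) * ((-z / (a : ℂ)) ^ k).re : ℝ) : ℂ) *
          (conj z / (r : ℂ)) ^ n) (sphere 0 |r|) := by
    intro z hz
    have hz' : ‖z‖ = r := by simpa [abs_of_pos hr] using hz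
    have hza : z - (-(a : ℂ)) ≠ 0 := by
      intro h
      have : z = -(a : ℂ) := by
        have := sub_eq_zero.1 h
        exact this
      rw [this, norm_neg, Complex.norm_real, Real.norm_of_nonneg ha.le] at hz'
      exact har hz'
    have h1 : EE q (-z / (a : ℂ)) = ((z - (-(a : ℂ))) / (a : ℂ)) *
        Complex.exp (∑ k ∈ Finset.Icc 1 q, (-z / (a : ℂ)) ^ k / (k : ℂ)) := by
      unfold EE
      congr 1
      field_simp
      ring
    have h2 : Real.log ‖EE q (-z / (a : ℂ))‖ = Real.log ‖z - (-(a : ℂ))‖ + (-Real.log a) * 1 +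
        ∑ k ∈ Finset.Icc 1 q, (1 / (k : ℝ)) * ((-z / (a : ℂ)) ^ k).re := by
      rw [h1, norm_mul, norm_div, Complex.norm_real, Real.norm_of_nonneg ha.le, Complex.norm_exp,
        Real.log_mul (by
          have := norm_pos_iff.2 hza
          positivity) (Real.exp_ne_zero _), Real.log_exp,
        Real.log_div (norm_ne_zero_iff.2 hza) ha.ne', Complex.re_sum]
      have h3 : ∀ k : ℕ, ((-z / (a : ℂ)) ^ k / (k : ℂ)).re =
          1 / (k : ℝ) * ((-z / (a : ℂ)) ^ k).re := by
        intro k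
        rw [Complex.div_natCast_re]
        ring
      simp_rw [h3]
      ring
    simp only
    rw [h2]
  have hcont : ∀ k : ℕ, Continuous (fun z : ℂ => (1 / (k : ℝ)) * ((-z / (a : ℂ)) ^ k).re) := by
    intro k
    exact continuous_const.mul (Complex.continuous_re.comp (by fun_prop))
  have hi1 := pf24_logint (-(a : ℂ)) r
  have hi2 : CircleIntegrable (fun _ : ℂ => (-Real.log a) * 1) 0 r :=
    circleIntegrable_const _ _ _
  have hi3 : ∀ k ∈ Finset.Icc 1 q,
      CircleIntegrable (fun z : ℂ => (1 / (k : ℝ)) * ((-z / (a : ℂ)) ^ k).re) 0 r :=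
    fun k _ => (hcont k).continuousOn.circleIntegrable'
  have hi4 : CircleIntegrable (fun z : ℂ => ∑ k ∈ Finset.Icc 1 q,
      (1 / (k : ℝ)) * ((-z / (a : ℂ)) ^ k).re) 0 r :=
    (continuous_finsetSum _ fun k _ => hcont k).continuousOn.circleIntegrable'
  have hfc : fc (fun z => Real.log ‖EE q (-z / (a : ℂ))‖) r n =
      fc (fun z => Real.log ‖z - (-(a : ℂ))‖) r n + ((-Real.log a : ℝ) : ℂ) *
        (if n = 0 then 1 else 0) + ∑ k ∈ Finset.Icc 1 q, ((1 / (k : ℝ) : ℝ) : ℂ) *
          (if k = n then (-1) ^ n * (((r / a) ^ n / 2 : ℝ) : ℂ) else 0) := by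
    have h0 : fc (fun z => Real.log ‖EE q (-z / (a : ℂ))‖) r n =
        fc (fun z => Real.log ‖z - (-(a : ℂ))‖ + (-Real.log a) * 1 +
          ∑ k ∈ Finset.Icc 1 q, (1 / (k : ℝ)) * ((-z / (a : ℂ)) ^ k).re) r n := by
      unfold fc
      exact Real.circleAverage_congr_sphere hsph
    have hi12 : CircleIntegrable (fun z : ℂ => Real.log ‖z - (-(a : ℂ))‖ + (-Real.log a) * 1) 0 r :=
      hi1.add hi2
    rw [h0, pf24_add hi12 hi4, pf24_add hi1 hi2, pf24_cmul, pf24_one r hr,
      pf24_sum _ _ _ hi3]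
    congr 1
    refine Finset.sum_congr rfl fun k hk => ?_
    rw [pf24_cmul, pf24_pow k n (Finset.mem_Icc.1 hk).1 ha hr]
  rw [hfc]
  have hsum : ∑ k ∈ Finset.Icc 1 q, ((1 / (k : ℝ) : ℝ) : ℂ) *
      (if k = n then (-1) ^ n * (((r / a) ^ n / 2 : ℝ) : ℂ) else 0) =
      if n ∈ Finset.Icc 1 q then ((1 / (n : ℝ) : ℝ) : ℂ) * ((-1) ^ n *
        (((r / a) ^ n / 2 : ℝ) : ℂ)) else 0 := by
    simp_rw [mul_ite, mul_zero]
    rw [Finset.sum_ite_eq']
  rw [hsum]
  by_cases hn : n = 0
  · subst hn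
    rw [if_pos rfl, if_neg (by simp), pow_zero, one_mul, mul_one, add_zero]
    have h1 : fc (fun z => Real.log ‖z - (-(a : ℂ))‖) r 0 =
        ((Real.circleAverage (fun z => Real.log ‖z - (-(a : ℂ))‖) 0 r : ℝ) : ℂ) := by
      unfold fc
      simp only [pow_zero, mul_one]
      exact Complex.ofRealCLM.circleAverage_comp_comm hi1
    have h2 : Real.circleAverage (fun z => Real.log ‖z - (-(a : ℂ))‖) 0 r =
        Real.log r + Real.posLog (r⁻¹ * ‖(0 : ℂ) - (-(a : ℂ))‖) :=
      circleAverage_log_norm_sub_const_eq_log_radius_add_posLog hr.ne'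
    rw [h1, h2, ← Complex.ofReal_add]
    congr 1
    rw [zero_sub, neg_neg, Complex.norm_real, Real.norm_of_nonneg ha.le, Real.posLog]
    unfold kap
    rw [if_pos rfl, Real.log_mul (inv_ne_zero hr.ne') ha.ne', Real.log_inv,
      Real.log_div hr.ne' ha.ne']
    rcases le_total (Real.log r) (Real.log a) with h | h
    · rw [max_eq_right (by linarith), max_eq_left (by linarith)]
      ring
    · rw [max_eq_left (by linarith), max_eq_right (by linarith)]
      ring
  · have hn1 : 1 ≤ n := Nat.one_le_iff_ne_zero.2 hn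
    have hna : ‖(-(a : ℂ))‖ = a := by
      rw [norm_neg, Complex.norm_real, Real.norm_of_nonneg ha.le]
    rw [fc_log_sub hr (by rw [hna]; exact har) hn1, if_neg hn, mul_zero, add_zero, hna]
    have hnc : (n : ℂ) ≠ 0 := by exact_mod_cast hn
    have hnr : (n : ℝ) ≠ 0 := by exact_mod_cast hn
    have hm : (n ∈ Finset.Icc 1 q) = (n ≤ q) := by
      rw [Finset.mem_Icc]
      exact propext ⟨fun h => h.2, fun h => ⟨hn1, h⟩⟩
    simp only [hm]
    unfold kap
    rw [if_neg hn]
    have hP : (if a < r then conj (-(a : ℂ)) / (r : ℂ) else (r : ℂ) / (-(a : ℂ))) ^ n =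
        (-1) ^ n * (((if r / a < 1 then (r / a) ^ n else ((r / a)⁻¹) ^ n : ℝ)) : ℂ) := by
      by_cases h : a < r
      · have h' : ¬ (r / a < 1) := by
          rw [div_lt_one ha]; exact not_lt.2 h.le
        rw [if_pos h, if_neg h', map_neg, Complex.conj_ofReal, inv_div]
        push_cast
        rw [← mul_pow]
        congr 1
        ring
      · have h' : r / a < 1 := by
          rw [div_lt_one ha]
          exact lt_of_le_of_ne (not_lt.1 h) (Ne.symm har)
        rw [if_neg h, if_pos h']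
        push_cast
        rw [← mul_pow]
        congr 1
        rw [div_neg]
        ring
    rw [hP]
    by_cases hq : n ≤ q
    · rw [if_pos hq, if_pos hq]
      push_cast
      ring
    · rw [if_neg hq, if_neg hq]
      push_cast
      ring

theorem circleIntegrable_log_EE (q : ℕ) {a : ℝ} (ha : 0 < a) (r : ℝ) :
    CircleIntegrable (fun z => Real.log ‖EE q (-z / (a : ℂ))‖) 0 r := by
  have _ := ha
  refine MeromorphicOn.circleIntegrable_log_norm (f := fun z => EE q (-z / (a : ℂ))) ?_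
  intro z _
  have hd : Differentiable ℂ (fun z : ℂ => EE q (-z / (a : ℂ))) := by
    unfold EE
    fun_prop
  exact (hd.analyticAt z).meromorphicAt

end Pool.Agent.PfA
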