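import Pool.Agent.PfA.Defs

/-! MP_f2c8f8_an, project PfA, row PF-1 -/

set_option autoImplicit false

open Filter MeasureTheory ValueDistribution Metric
open scoped ComplexConjugate Topology

noncomputable section

namespace Pool.Agent.PfA

private theorem pf1_int (m : ℤ) :
    ∫ θ in (0 : ℝ)..(2 * Real.pi), Complex.exp ((m : ℂ) * Complex.I * (θ : ℂ)) =
      if m = 0 then ((2 * Real.pi : ℝ) : ℂ) else 0 := by
  split_ifs with h
  · subst h
    simp
  · have hc : ((m : ℂ) * Complex.I) ≠ 0 :=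
      mul_ne_zero (Int.cast_ne_zero.mpr h) Complex.I_ne_zero
    rw [integral_exp_mul_complex hc]
    have h1 : (m : ℂ) * Complex.I * ((2 * Real.pi : ℝ) : ℂ) =
        (m : ℂ) * (2 * Real.pi * Complex.I) := by
      push_cast
      ring
    rw [h1, Complex.exp_int_mul_two_pi_mul_I]
    simp

private theorem pf1_z (r : ℝ) (θ : ℝ) :
    circleMap 0 r θ = (r : ℂ) * Complex.exp ((θ : ℂ) * Complex.I) := by
  simp [circleMap]

private theorem pf1_conj (θ : ℝ) :
    conj (Complex.exp ((θ : ℂ) * Complex.I)) = Complex.exp (-((θ : ℂ) * Complex.I)) := by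
  rw [← Complex.exp_conj]
  congr 1
  rw [map_mul, Complex.conj_I, Complex.conj_ofReal]
  ring

private theorem pf1_e {r : ℝ} (hr : 0 < r) (θ : ℝ) :
    conj (circleMap 0 r θ) / (r : ℂ) = Complex.exp (-((θ : ℂ) * Complex.I)) := by
  have hr' : (r : ℂ) ≠ 0 := by exact_mod_cast hr.ne'
  rw [pf1_z, map_mul, Complex.conj_ofReal, pf1_conj]
  field_simp

private theorem pf1_t1 {r : ℝ} (w : ℂ) (θ : ℝ) (k n : ℕ) :
    (w * ((r : ℂ) * Complex.exp ((θ : ℂ) * Complex.I))) ^ k *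
      Complex.exp (-((θ : ℂ) * Complex.I)) ^ n =
      (w * (r : ℂ)) ^ k *
        Complex.exp (((((k : ℤ) - (n : ℤ) : ℤ)) : ℂ) * Complex.I * (θ : ℂ)) := by
  rw [← mul_assoc, mul_pow (w * (r : ℂ)), ← Complex.exp_nat_mul, ← Complex.exp_nat_mul, mul_assoc,
    ← Complex.exp_add]
  congr 2
  push_cast
  ring

private theorem pf1_t2 {r : ℝ} (w : ℂ) (θ : ℝ) (k n : ℕ) :
    (conj (w * ((r : ℂ) * Complex.exp ((θ : ℂ) * Complex.I)))) ^ k *
      Complex.exp (-((θ : ℂ) * Complex.I)) ^ n =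
      (conj w * (r : ℂ)) ^ k *
        Complex.exp ((((-((k : ℤ) + (n : ℤ)) : ℤ)) : ℂ) * Complex.I * (θ : ℂ)) := by
  rw [map_mul, map_mul, Complex.conj_ofReal, pf1_conj, ← mul_assoc, mul_pow (conj w * (r : ℂ)),
    ← Complex.exp_nat_mul, ← Complex.exp_nat_mul, mul_assoc, ← Complex.exp_add]
  congr 2
  push_cast
  ring

/-- the terms of the series -/
private def pf1_F (w : ℂ) (r : ℝ) (n k : ℕ) (θ : ℝ) : ℂ :=
  -(1 / 2 : ℂ) * ((w * (r : ℂ)) ^ k / (k : ℂ) *
      Complex.exp (((((k : ℤ) - (n : ℤ) : ℤ)) : ℂ) * Complex.I * (θ : ℂ)) +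
    (conj w * (r : ℂ)) ^ k / (k : ℂ) *
      Complex.exp ((((-((k : ℤ) + (n : ℤ)) : ℤ)) : ℂ) * Complex.I * (θ : ℂ)))

private theorem pf1_hasSum {w : ℂ} {r : ℝ} (hr : 0 < r) (hw : ‖w‖ * r < 1) (n : ℕ) (θ : ℝ) :
    HasSum (fun k => pf1_F w r n k θ)
      ((Real.log ‖1 - w * circleMap 0 r θ‖ : ℂ) * (conj (circleMap 0 r θ) / (r : ℂ)) ^ n) := by
  rw [pf1_e hr, pf1_z]
  set ζ : ℂ := w * ((r : ℂ) * Complex.exp ((θ : ℂ) * Complex.I)) with hζ
  have hζ1 : ‖ζ‖ < 1 := by
    rw [hζ, norm_mul, norm_mul, Complex.norm_exp_ofReal_mul_I, mul_one, Complex.norm_real,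
      Real.norm_of_nonneg hr.le]
    exact hw
  have h1 := Complex.hasSum_taylorSeries_neg_log hζ1
  have h2 := (Complex.hasSum_conj').mpr h1
  have h3 := (h1.add h2).mul_left (-(1 / 2 : ℂ) * Complex.exp (-((θ : ℂ) * Complex.I)) ^ n)
  have h4 : (Real.log ‖1 - ζ‖ : ℂ) * Complex.exp (-((θ : ℂ) * Complex.I)) ^ n =
      -(1 / 2 : ℂ) * Complex.exp (-((θ : ℂ) * Complex.I)) ^ n *
        (-Complex.log (1 - ζ) + conj (-Complex.log (1 - ζ))) := by
    have h5 : ((Real.log ‖1 - ζ‖ : ℝ) : ℂ) = (Complex.log (1 - ζ) + conj (Complex.log (1 - ζ))) / 2 := by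
      rw [← Complex.re_eq_add_conj, Complex.log_re]
    rw [h5, map_neg]
    ring
  have hEq : (fun k => pf1_F w r n k θ) = fun k : ℕ =>
      -(1 / 2 : ℂ) * Complex.exp (-((θ : ℂ) * Complex.I)) ^ n *
        (ζ ^ k / (k : ℂ) + conj (ζ ^ k / (k : ℂ))) := by
    funext k
    unfold pf1_F
    rw [mul_add, mul_add, div_mul_eq_mul_div, div_mul_eq_mul_div, ← pf1_t1, ← pf1_t2, ← hζ]
    rw [map_div₀, map_pow, Complex.conj_natCast]
    ring
  rw [h4, hEq]
  exact h3

private theorem pf1_norm {w : ℂ} {r : ℝ} (hr : 0 < r) (n k : ℕ) (θ : ℝ) :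
    ‖pf1_F w r n k θ‖ ≤ (‖w‖ * r) ^ k := by
  have hE : ∀ m : ℤ, ‖Complex.exp ((m : ℂ) * Complex.I * (θ : ℂ))‖ = 1 := by
    intro m
    have : (m : ℂ) * Complex.I * (θ : ℂ) = (((m : ℝ) * θ : ℝ) : ℂ) * Complex.I := by
      push_cast
      ring
    rw [this, Complex.norm_exp_ofReal_mul_I]
  have hr0 : ‖(r : ℂ)‖ = r := by rw [Complex.norm_real, Real.norm_of_nonneg hr.le]
  have hq : 0 ≤ (‖w‖ * r) ^ k := by positivity
  have hk : (‖w‖ * r) ^ k / (k : ℝ) ≤ (‖w‖ * r) ^ k := by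
    rcases Nat.eq_zero_or_pos k with h | h
    · subst h
      simp
    · exact div_le_self hq (by exact_mod_cast h)
  unfold pf1_F
  rw [norm_mul]
  have h1 : ‖-(1 / 2 : ℂ)‖ = 1 / 2 := by
    rw [norm_neg]
    norm_num
  rw [h1]
  have h2 := norm_add_le ((w * (r : ℂ)) ^ k / (k : ℂ) *
      Complex.exp (((((k : ℤ) - (n : ℤ) : ℤ)) : ℂ) * Complex.I * (θ : ℂ)))
    ((conj w * (r : ℂ)) ^ k / (k : ℂ) *
      Complex.exp ((((-((k : ℤ) + (n : ℤ)) : ℤ)) : ℂ) * Complex.I * (θ : ℂ)))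
  rw [norm_mul, norm_mul, hE, hE, mul_one, mul_one, norm_div, norm_div, norm_pow, norm_pow,
    norm_mul, norm_mul, hr0, RCLike.norm_conj, Complex.norm_natCast] at h2
  linarith

private theorem pf1_intF (w : ℂ) (r : ℝ) {n : ℕ} (hn : 1 ≤ n) (k : ℕ) :
    ∫ θ in (0 : ℝ)..(2 * Real.pi), pf1_F w r n k θ =
      if k = n then -(1 / 2 : ℂ) * ((w * (r : ℂ)) ^ n / (n : ℂ) * ((2 * Real.pi : ℝ) : ℂ)) else 0 := by
  have hc : ∀ m : ℤ, IntervalIntegrable
      (fun θ : ℝ => Complex.exp ((m : ℂ) * Complex.I * (θ : ℂ))) volume 0 (2 * Real.pi) := by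
    intro m
    apply Continuous.intervalIntegrable
    fun_prop
  unfold pf1_F
  rw [intervalIntegral.integral_const_mul, intervalIntegral.integral_add ((hc _).const_mul _)
    ((hc _).const_mul _), intervalIntegral.integral_const_mul, intervalIntegral.integral_const_mul,
    pf1_int, pf1_int]
  have h2 : ¬ (-((k : ℤ) + (n : ℤ)) = 0) := by omega
  rw [if_neg h2]
  by_cases h : k = n
  · subst h
    simp
  · have h3 : ¬ ((k : ℤ) - (n : ℤ) = 0) := by omega
    rw [if_neg h3, if_neg h]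
    simp

private theorem pf1_main {w : ℂ} {r : ℝ} (hr : 0 < r) (hw : ‖w‖ * r < 1) {n : ℕ} (hn : 1 ≤ n) :
    ∫ θ in (0 : ℝ)..(2 * Real.pi), (Real.log ‖1 - w * circleMap 0 r θ‖ : ℂ) *
      (conj (circleMap 0 r θ) / (r : ℂ)) ^ n =
      -(1 / 2 : ℂ) * ((w * (r : ℂ)) ^ n / (n : ℂ) * ((2 * Real.pi : ℝ) : ℂ)) := by
  have h0 : 0 ≤ ‖w‖ * r := by positivity
  have key := intervalIntegral.hasSum_integral_of_dominated_convergence (μ := volume)
    (a := 0) (b := 2 * Real.pi) (F := fun k θ => pf1_F w r n k θ)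
    (f := fun θ => (Real.log ‖1 - w * circleMap 0 r θ‖ : ℂ) *
      (conj (circleMap 0 r θ) / (r : ℂ)) ^ n)
    (fun k _ => (‖w‖ * r) ^ k)
    (fun k => by
      apply Continuous.aestronglyMeasurable
      unfold pf1_F
      fun_prop)
    (fun k => Eventually.of_forall fun θ _ => pf1_norm hr n k θ)
    (Eventually.of_forall fun θ _ => summable_geometric_of_lt_one h0 hw)
    (intervalIntegrable_const)
    (Eventually.of_forall fun θ _ => pf1_hasSum hr hw n θ)
  have h2 : (fun k => ∫ θ in (0 : ℝ)..(2 * Real.pi), pf1_F w r n k θ) = fun k =>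
      if k = n then -(1 / 2 : ℂ) * ((w * (r : ℂ)) ^ n / (n : ℂ) * ((2 * Real.pi : ℝ) : ℂ)) else 0 := by
    funext k
    exact pf1_intF w r hn k
  rw [h2] at key
  exact key.unique (hasSum_ite_eq n _)

private theorem pf1_gen {w : ℂ} {r c : ℝ} (hr : 0 < r) (hw : ‖w‖ * r < 1) {n : ℕ} (hn : 1 ≤ n)
    {u : ℂ → ℝ} (hu : ∀ z : ℂ, ‖z‖ = r → u z = c + Real.log ‖1 - w * z‖) :
    fc u r n = -(1 / (2 * (n : ℂ))) * (w * (r : ℂ)) ^ n := by
  have hn' : (n : ℂ) ≠ 0 := by
    have : n ≠ 0 := by omega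
    exact_mod_cast this
  have hpi : (Real.pi : ℂ) ≠ 0 := by exact_mod_cast Real.pi_ne_zero
  have hz : ∀ θ : ℝ, ‖circleMap 0 r θ‖ = r := by
    intro θ
    rw [norm_circleMap_zero, abs_of_pos hr]
  have hne : ∀ θ : ℝ, 1 - w * circleMap 0 r θ ≠ 0 := by
    intro θ h
    have h1 : w * circleMap 0 r θ = 1 := by linear_combination -h
    have h2 : ‖w‖ * r = 1 := by
      rw [← hz θ, ← norm_mul, h1, norm_one]
    linarith
  have hcont : Continuous (fun θ : ℝ => (Real.log ‖1 - w * circleMap 0 r θ‖ : ℂ) *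
      (conj (circleMap 0 r θ) / (r : ℂ)) ^ n) := by
    have h1 : Continuous (fun θ : ℝ => Real.log ‖1 - w * circleMap 0 r θ‖) := by
      apply Continuous.log
      · have := continuous_circleMap 0 r
        fun_prop
      · intro θ
        exact norm_ne_zero_iff.mpr (hne θ)
    have h2 : Continuous (fun θ : ℝ => conj (circleMap 0 r θ)) :=
      Complex.continuous_conj.comp (continuous_circleMap 0 r)
    have h3 : Continuous (fun θ : ℝ => ((Real.log ‖1 - w * circleMap 0 r θ‖ : ℝ) : ℂ)) :=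
      Complex.continuous_ofReal.comp h1
    exact h3.mul ((h2.div_const _).pow n)
  have hcont2 : Continuous (fun θ : ℝ => (c : ℂ) * (conj (circleMap 0 r θ) / (r : ℂ)) ^ n) := by
    have h2 : Continuous (fun θ : ℝ => conj (circleMap 0 r θ)) :=
      Complex.continuous_conj.comp (continuous_circleMap 0 r)
    exact continuous_const.mul ((h2.div_const _).pow n)
  have hc0 : ∫ θ in (0 : ℝ)..(2 * Real.pi), (c : ℂ) * (conj (circleMap 0 r θ) / (r : ℂ)) ^ n = 0 := by
    have h1 : ∀ θ : ℝ, (c : ℂ) * (conj (circleMap 0 r θ) / (r : ℂ)) ^ n =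
        (c : ℂ) * Complex.exp (((-(n : ℤ) : ℤ) : ℂ) * Complex.I * (θ : ℂ)) := by
      intro θ
      rw [pf1_e hr, ← Complex.exp_nat_mul]
      congr 2
      push_cast
      ring
    simp only [h1]
    rw [intervalIntegral.integral_const_mul, pf1_int, if_neg (by omega), mul_zero]
  unfold fc Real.circleAverage
  have h1 : ∀ θ : ℝ, (u (circleMap 0 r θ) : ℂ) * (conj (circleMap 0 r θ) / (r : ℂ)) ^ n =
      (c : ℂ) * (conj (circleMap 0 r θ) / (r : ℂ)) ^ n +
        (Real.log ‖1 - w * circleMap 0 r θ‖ : ℂ) * (conj (circleMap 0 r θ) / (r : ℂ)) ^ n := by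
    intro θ
    rw [hu _ (hz θ)]
    push_cast
    ring
  simp only [h1]
  rw [intervalIntegral.integral_add (hcont2.intervalIntegrable _ _)
    (hcont.intervalIntegrable _ _), hc0, pf1_main hr hw hn, zero_add]
  rw [Complex.real_smul]
  push_cast
  field_simp

theorem fc_log_sub {a : ℂ} {r : ℝ} (hr : 0 < r) (ha : ‖a‖ ≠ r) {n : ℕ} (hn : 1 ≤ n) :
    fc (fun z => Real.log ‖z - a‖) r n =
      -(1 / (2 * (n : ℂ))) * (if ‖a‖ < r then conj a / (r : ℂ) else (r : ℂ) / a) ^ n := by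
  have hr' : (r : ℂ) ≠ 0 := by exact_mod_cast hr.ne'
  split_ifs with h
  · have hw : ‖conj a / (r : ℂ) ^ 2‖ * r < 1 := by
      rw [norm_div, RCLike.norm_conj, norm_pow, Complex.norm_real, Real.norm_of_nonneg hr.le]
      rw [div_mul_eq_mul_div, div_lt_one (by positivity)]
      nlinarith
    have := pf1_gen (c := Real.log r) (u := fun z => Real.log ‖z - a‖) hr hw hn (by
      intro z hz
      have hz0 : z ≠ 0 := by
        intro h0
        rw [h0, norm_zero] at hz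
        exact hr.ne hz
      have hzz : z * conj z = (r : ℂ) ^ 2 := by
        rw [Complex.mul_conj, Complex.normSq_eq_norm_sq, hz]
        push_cast
        ring
      have h1 : z - a = z * conj (1 - conj a / (r : ℂ) ^ 2 * z) := by
        rw [map_sub, map_mul, map_div₀, map_pow, Complex.conj_ofReal, map_one, Complex.conj_conj]
        have : z * (1 - a / (r : ℂ) ^ 2 * conj z) = z - a / (r : ℂ) ^ 2 * (z * conj z) := by ring
        rw [this, hzz]
        field_simp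
      have h2 : 1 - conj a / (r : ℂ) ^ 2 * z ≠ 0 := by
        intro h0
        rw [h0, map_zero, mul_zero] at h1
        have h3 : z = a := sub_eq_zero.mp h1
        rw [h3] at hz
        exact ha hz
      show Real.log ‖z - a‖ = _
      rw [h1, norm_mul, RCLike.norm_conj, hz,
        Real.log_mul hr.ne' (norm_ne_zero_iff.mpr h2)])
    rw [this]
    congr 2
    field_simp
  · have h' : r < ‖a‖ := lt_of_le_of_ne (not_lt.mp h) (Ne.symm ha)
    have ha0 : a ≠ 0 := by
      intro h0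
      rw [h0, norm_zero] at h'
      linarith
    have ha1 : 0 < ‖a‖ := norm_pos_iff.mpr ha0
    have hw : ‖a⁻¹‖ * r < 1 := by
      rw [norm_inv, inv_mul_lt_iff₀ ha1, mul_one]
      exact h'
    have := pf1_gen (c := Real.log ‖a‖) (u := fun z => Real.log ‖z - a‖) hr hw hn (by
      intro z hz
      have h1 : z - a = -a * (1 - a⁻¹ * z) := by
        field_simp
        ring
      have h2 : 1 - a⁻¹ * z ≠ 0 := by
        intro h0
        rw [h0, mul_zero] at h1
        have h3 : z = a := sub_eq_zero.mp h1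
        rw [h3] at hz
        exact ha hz
      show Real.log ‖z - a‖ = _
      rw [h1, norm_mul, norm_neg,
        Real.log_mul ha1.ne' (norm_ne_zero_iff.mpr h2)])
    rw [this]
    congr 2
    field_simp

end Pool.Agent.PfA
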