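import Pool.Agent.PfA.Defs

/-! MP_f2c8f8_an, project PfA, row PF-2 -/

set_option autoImplicit false

open Filter MeasureTheory ValueDistribution Metric
open scoped ComplexConjugate Topology

noncomputable section

namespace Pool.Agent.PfA

theorem pf2_conj {s : ℝ} (hs : 0 < s) {z : ℂ} (hz : z ∈ sphere (0 : ℂ) |s|) :
    conj z / (s : ℂ) = (s : ℂ) * z⁻¹ := by
  have h1 : ‖z‖ = s := by
    rw [mem_sphere_zero_iff_norm, abs_of_pos hs] at hz
    exact hz
  have hz0 : z ≠ 0 := by
    intro h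
    rw [h, norm_zero] at h1
    exact hs.ne h1
  have hs0 : (s : ℂ) ≠ 0 := by exact_mod_cast hs.ne'
  rw [div_eq_iff hs0]
  have h2 : conj z * z = (s : ℂ) * s := by
    rw [← Complex.normSq_eq_conj_mul_self, Complex.normSq_eq_norm_sq, h1]
    push_cast
    ring
  field_simp
  rw [h2]
  ring

theorem pf2_avg {H : ℂ → ℂ} {s : ℝ} (hs : 0 < s) (n : ℕ) :
    Real.circleAverage (fun z => H z * (conj z / (s : ℂ)) ^ n) 0 s =
      (s : ℂ) ^ n * (cauchyPowerSeries H 0 s n fun _ => 1) := by
  have h1 : Real.circleAverage (fun z => H z * (conj z / (s : ℂ)) ^ n) 0 s =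
      Real.circleAverage (fun z => (s : ℂ) ^ n • (H z * (z⁻¹) ^ n)) 0 s := by
    refine Real.circleAverage_congr_sphere fun z hz => ?_
    show H z * (conj z / (s : ℂ)) ^ n = (s : ℂ) ^ n • (H z * (z⁻¹) ^ n)
    rw [pf2_conj hs hz, mul_pow, smul_eq_mul]
    ring
  rw [h1, Real.circleAverage_fun_smul, smul_eq_mul,
    Real.circleAverage_eq_circleIntegral hs.ne', cauchyPowerSeries_apply]
  congr 2
  congr 1
  funext z
  simp only [sub_zero, smul_eq_mul, one_div]
  ring

theorem pf2_avg_conj {H : ℂ → ℂ} {s : ℝ} (hs : 0 < s)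
    (hH : DifferentiableOn ℂ H (closedBall 0 s)) (n : ℕ) :
    Real.circleAverage (fun z => conj (H z) * (conj z / (s : ℂ)) ^ n) 0 s =
      conj (H 0) * (0 : ℂ) ^ n := by
  have hd : DifferentiableOn ℂ (fun z => H z * (z / (s : ℂ)) ^ n) (closedBall 0 s) :=
    hH.mul ((differentiableOn_id.div_const _).pow n)
  have hci : CircleIntegrable (fun z => H z * (z / (s : ℂ)) ^ n) 0 s := by
    apply ContinuousOn.circleIntegrable hs.le
    exact hd.continuousOn.mono sphere_subset_closedBall
  have h1 : Real.circleAverage (fun z => H z * (z / (s : ℂ)) ^ n) 0 s =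
      H 0 * ((0 : ℂ) / (s : ℂ)) ^ n := by
    have h2 : DiffContOnCl ℂ (fun z => H z * (z / (s : ℂ)) ^ n) (ball 0 |s|) := by
      rw [abs_of_pos hs]
      exact (hd.mono closure_ball_subset_closedBall).diffContOnCl
    exact h2.circleAverage
  have h3 := Complex.conjCLE.toContinuousLinearMap.circleAverage_comp_comm hci
  have h4 : Real.circleAverage (fun z => conj (H z) * (conj z / (s : ℂ)) ^ n) 0 s =
      Real.circleAverage (Complex.conjCLE.toContinuousLinearMap ∘
        fun z => H z * (z / (s : ℂ)) ^ n) 0 s := by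
    congr 1
    funext z
    simp
  rw [h4, h3, h1]
  simp

theorem pf2_fc {v : ℂ → ℝ} {H : ℂ → ℂ} {s : ℝ} (hs : 0 < s)
    (hH : DifferentiableOn ℂ H (closedBall 0 s))
    (hv : ∀ z ∈ sphere (0 : ℂ) s, (H z).re = v z) (n : ℕ) :
    fc v s n = (1 / 2 : ℂ) * ((s : ℂ) ^ n * (cauchyPowerSeries H 0 s n fun _ => 1) +
      conj (H 0) * (0 : ℂ) ^ n) := by
  have hHc : ContinuousOn H (sphere 0 s) := hH.continuousOn.mono sphere_subset_closedBall
  have hcc : ContinuousOn (fun z : ℂ => (conj z / (s : ℂ)) ^ n) (sphere 0 s) :=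
    ((Complex.continuous_conj.div_const _).pow n).continuousOn
  have hc1 : ContinuousOn (fun z => conj (H z)) (sphere 0 s) :=
    Complex.continuous_conj.comp_continuousOn hHc
  have i1 : CircleIntegrable (fun z => H z * (conj z / (s : ℂ)) ^ n) 0 s :=
    (hHc.mul hcc).circleIntegrable hs.le
  have i2 : CircleIntegrable (fun z => conj (H z) * (conj z / (s : ℂ)) ^ n) 0 s :=
    (hc1.mul hcc).circleIntegrable hs.le
  rw [← pf2_avg hs n, ← pf2_avg_conj hs hH n, ← Real.circleAverage_fun_add i1 i2, ← smul_eq_mul,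
    ← Real.circleAverage_fun_smul]
  unfold fc
  refine Real.circleAverage_congr_sphere fun z hz => ?_
  rw [abs_of_pos hs] at hz
  simp only [smul_eq_mul]
  rw [← hv z hz, Complex.re_eq_add_conj]
  ring

theorem pf2_series {H : ℂ → ℂ} {r R : ℝ} (hr : 0 < r) (hrR : r < R)
    (hH : DifferentiableOn ℂ H (closedBall 0 R)) :
    cauchyPowerSeries H 0 r = cauchyPowerSeries H 0 R := by
  have h1 : HasFPowerSeriesAt H (cauchyPowerSeries H 0 R) 0 := by
    have h2 := DifferentiableOn.hasFPowerSeriesOnBall (R := ⟨R, (hr.trans hrR).le⟩) (c := (0 : ℂ))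
      hH (hr.trans hrR)
    exact h2.hasFPowerSeriesAt
  have h3 : HasFPowerSeriesAt H (cauchyPowerSeries H 0 r) 0 := by
    have h2 := DifferentiableOn.hasFPowerSeriesOnBall (R := ⟨r, hr.le⟩) (c := (0 : ℂ))
      (hH.mono (closedBall_subset_closedBall hrR.le)) hr
    exact h2.hasFPowerSeriesAt
  exact h3.eq_formalMultilinearSeries h1

theorem fc_harmonic {v : ℂ → ℝ} {r R : ℝ} (hr : 0 < r) (hrR : r < R)
    (hv : InnerProductSpace.HarmonicOnNhd v (closedBall (0 : ℂ) R)) (n : ℕ) :
    fc v r n = ((r / R : ℝ) : ℂ) ^ n * fc v R n := by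
  have hR : 0 < R := hr.trans hrR
  obtain ⟨e, he, hsub⟩ := (isCompact_closedBall (0 : ℂ) R).exists_thickening_subset_open
    (InnerProductSpace.isOpen_setOfPred_harmonicAt v) hv
  rw [thickening_closedBall he hR.le] at hsub
  obtain ⟨H, hH1, hH2⟩ := InnerProductSpace.HarmonicOnNhd.exists_analyticOnNhd_ball_re_eq hsub
  have hdR : DifferentiableOn ℂ H (closedBall 0 R) := fun z hz =>
    (hH1 z (closedBall_subset_ball (by linarith) hz)).differentiableAt.differentiableWithinAt
  have hdr : DifferentiableOn ℂ H (closedBall 0 r) :=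
    hdR.mono (closedBall_subset_closedBall hrR.le)
  rw [pf2_fc hr hdr (fun z hz => hH2 (closedBall_subset_ball (by linarith)
      (closedBall_subset_closedBall hrR.le (sphere_subset_closedBall hz)))) n,
    pf2_fc hR hdR (fun z hz => hH2 (closedBall_subset_ball (by linarith)
      (sphere_subset_closedBall hz))) n, pf2_series hr hrR hdR]
  have hR0 : (R : ℂ) ≠ 0 := by exact_mod_cast hR.ne'
  rcases Nat.eq_zero_or_pos n with hn | hn
  · subst hn
    simp
  · rw [zero_pow hn.ne', mul_zero, add_zero, add_zero]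
    push_cast
    rw [div_pow]
    field_simp

end Pool.Agent.PfA
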