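import Pool.Agent.PfA.Defs

/-! MP_f2c8f8_an, project PfA, row PF-29 -/

set_option autoImplicit false

open Filter MeasureTheory ValueDistribution Metric
open scoped ComplexConjugate Topology

noncomputable section

namespace Pool.Agent.PfA

theorem pf29_hh_meas (ρ : ℝ) : Measurable (hh ρ) := by
  unfold hh
  exact ((Real.measurable_cos.comp (Complex.measurable_arg.const_mul ρ)).const_mul _).div_const _

theorem pf29_hh_le (ρ : ℝ) (z : ℂ) : |hh ρ z| ≤ |Real.pi / Real.sin (Real.pi * ρ)| := by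
  unfold hh
  rw [mul_div_right_comm, abs_mul]
  exact mul_le_of_le_one_right (abs_nonneg _) (Real.abs_cos_le_one _)

theorem hh_circleIntegrable {ρ : ℝ} (r : ℝ) : CircleIntegrable (hh ρ) 0 r := by
  unfold CircleIntegrable
  have h1 : IntervalIntegrable (fun _ : ℝ => |Real.pi / Real.sin (Real.pi * ρ)|) volume 0
      (2 * Real.pi) := intervalIntegrable_const
  refine h1.mono_fun' ?_ ?_
  · exact ((pf29_hh_meas ρ).comp (continuous_circleMap 0 r).measurable).aestronglyMeasurable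
  · refine Eventually.of_forall fun θ => ?_
    show ‖hh ρ (circleMap 0 r θ)‖ ≤ |Real.pi / Real.sin (Real.pi * ρ)|
    rw [Real.norm_eq_abs]
    exact pf29_hh_le ρ _

theorem pf29_avg {E : Type*} [NormedAddCommGroup E] [NormedSpace ℝ E] (f : ℂ → E) :
    Real.circleAverage f 0 1 =
      (2 * Real.pi)⁻¹ • ∫ θ in (-Real.pi)..Real.pi, f (circleMap 0 1 θ) := by
  rw [Real.circleAverage_eq_integral_add (-Real.pi),
    intervalIntegral.integral_comp_add_right (fun θ => f (circleMap 0 1 θ))]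
  congr 2 <;> ring

theorem pf29_arg {θ : ℝ} (h1 : -Real.pi < θ) (h2 : θ ≤ Real.pi) :
    Complex.arg (circleMap 0 1 θ) = θ := by
  have h3 : circleMap 0 1 θ = Complex.exp (θ * Complex.I) := by
    rw [circleMap]
    simp
  rw [h3, ← Complex.log_im, Complex.log_exp (by simpa using h1) (by simpa using h2)]
  simp

theorem pf29_exp {a : ℝ} (ha : a ≠ 0) :
    (∫ θ in (-Real.pi)..Real.pi, Complex.exp ((a : ℂ) * Complex.I * (θ : ℂ))) =
      ((2 * Real.sin (a * Real.pi) / a : ℝ) : ℂ) := by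
  have hc : (a : ℂ) * Complex.I ≠ 0 :=
    mul_ne_zero (by exact_mod_cast ha) Complex.I_ne_zero
  have ha' : (a : ℂ) ≠ 0 := by exact_mod_cast ha
  rw [integral_exp_mul_complex hc]
  have h1 : Complex.exp ((a : ℂ) * Complex.I * (Real.pi : ℂ)) =
      (Real.cos (a * Real.pi) : ℂ) + (Real.sin (a * Real.pi) : ℂ) * Complex.I := by
    rw [show (a : ℂ) * Complex.I * (Real.pi : ℂ) = ((a * Real.pi : ℝ) : ℂ) * Complex.I by
      push_cast; ring, Complex.exp_mul_I]
    push_cast
    rfl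
  have h2 : Complex.exp ((a : ℂ) * Complex.I * ((-Real.pi : ℝ) : ℂ)) =
      (Real.cos (a * Real.pi) : ℂ) - (Real.sin (a * Real.pi) : ℂ) * Complex.I := by
    rw [show (a : ℂ) * Complex.I * ((-Real.pi : ℝ) : ℂ) = ((-(a * Real.pi) : ℝ) : ℂ) * Complex.I by
      push_cast; ring, Complex.exp_mul_I]
    push_cast
    rw [Complex.cos_neg, Complex.sin_neg]
    ring
  rw [h1, h2]
  push_cast
  field_simp
  ring

theorem fc_hh {ρ : ℝ} (hρ : 1 < ρ) (hn : NonInt ρ) (n : ℕ) :
    fc (hh ρ) 1 n = (((-1) ^ n * (ρ / (ρ ^ 2 - (n : ℝ) ^ 2)) : ℝ) : ℂ) := by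
  have hs : Real.sin (Real.pi * ρ) ≠ 0 := by
    intro h
    rw [Real.sin_eq_zero_iff] at h
    obtain ⟨m, hm⟩ := h
    apply hn m
    have := Real.pi_pos
    have h2 : (m : ℝ) * Real.pi = ρ * Real.pi := by linarith
    exact mul_right_cancel₀ this.ne' h2
  have hm : ρ - n ≠ 0 := by
    intro h
    apply hn n
    push_cast
    linarith
  have hp : ρ + n ≠ 0 := by positivity
  unfold fc
  rw [pf29_avg]
  have h1 : (∫ θ in (-Real.pi)..Real.pi, ((hh ρ (circleMap 0 1 θ) : ℝ) : ℂ) *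
      (conj (circleMap 0 1 θ) / ((1 : ℝ) : ℂ)) ^ n) =
      ∫ θ in (-Real.pi)..Real.pi, ((Real.pi / (2 * Real.sin (Real.pi * ρ)) : ℝ) : ℂ) *
        (Complex.exp (((ρ - n : ℝ) : ℂ) * Complex.I * (θ : ℂ)) +
          Complex.exp (((-(ρ + n) : ℝ) : ℂ) * Complex.I * (θ : ℂ))) := by
    refine intervalIntegral.integral_congr_ae (Eventually.of_forall fun θ hθ => ?_)
    rw [Set.uIoc_of_le (by linarith [Real.pi_pos])] at hθ
    have h2 : (conj (circleMap 0 1 θ) / ((1 : ℝ) : ℂ)) ^ n =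
        Complex.exp (-((n : ℂ) * (θ : ℂ) * Complex.I)) := by
      rw [circleMap]
      simp only [Complex.ofReal_one, zero_add, one_mul, div_one]
      rw [← Complex.exp_conj, ← Complex.exp_nat_mul]
      congr 1
      simp
      ring
    have h3 : ((Real.cos (ρ * θ) : ℝ) : ℂ) = (Complex.exp ((ρ : ℂ) * (θ : ℂ) * Complex.I) +
        Complex.exp (-((ρ : ℂ) * (θ : ℂ) * Complex.I))) / 2 := by
      rw [Complex.ofReal_cos, Complex.cos]
      push_cast
      rw [neg_mul]
    rw [h2]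
    unfold hh
    rw [pf29_arg hθ.1 hθ.2]
    have h4 : Complex.exp (((ρ - n : ℝ) : ℂ) * Complex.I * (θ : ℂ)) =
        Complex.exp ((ρ : ℂ) * (θ : ℂ) * Complex.I) *
          Complex.exp (-((n : ℂ) * (θ : ℂ) * Complex.I)) := by
      rw [← Complex.exp_add]
      congr 1
      push_cast
      ring
    have h5 : Complex.exp (((-(ρ + n) : ℝ) : ℂ) * Complex.I * (θ : ℂ)) =
        Complex.exp (-((ρ : ℂ) * (θ : ℂ) * Complex.I)) *
          Complex.exp (-((n : ℂ) * (θ : ℂ) * Complex.I)) := by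
      rw [← Complex.exp_add]
      congr 1
      push_cast
      ring
    rw [h4, h5]
    rw [show ((Real.pi * Real.cos (ρ * θ) / Real.sin (Real.pi * ρ) : ℝ) : ℂ) =
      (Real.pi : ℂ) * ((Real.cos (ρ * θ) : ℝ) : ℂ) / ((Real.sin (Real.pi * ρ) : ℝ) : ℂ) by
      push_cast; rfl, h3]
    push_cast
    have hs' : Complex.sin ((Real.pi : ℂ) * (ρ : ℂ)) ≠ 0 := by
      have : ((Real.sin (Real.pi * ρ) : ℝ) : ℂ) ≠ 0 := by exact_mod_cast hs
      rw [Complex.ofReal_sin] at this
      push_cast at this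
      exact this
    field_simp
  have i1 : ∀ a : ℝ, IntervalIntegrable (fun θ : ℝ => Complex.exp ((a : ℂ) * Complex.I * (θ : ℂ)))
      volume (-Real.pi) Real.pi := fun a => by
    apply Continuous.intervalIntegrable
    fun_prop
  rw [h1, intervalIntegral.integral_const_mul, intervalIntegral.integral_add (i1 _) (i1 _),
    pf29_exp hm, pf29_exp (neg_ne_zero.2 hp)]
  have e1 : Real.sin ((ρ - n) * Real.pi) = (-1) ^ n * Real.sin (Real.pi * ρ) := by
    rw [show (ρ - n) * Real.pi = Real.pi * ρ - n * Real.pi by ring, Real.sin_sub_nat_mul_pi]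
  have e2 : Real.sin (-(ρ + n) * Real.pi) = -((-1) ^ n * Real.sin (Real.pi * ρ)) := by
    rw [show -(ρ + n) * Real.pi = -(Real.pi * ρ + n * Real.pi) by ring, Real.sin_neg,
      Real.sin_add_nat_mul_pi]
  rw [e1, e2, Complex.real_smul]
  rw [← Complex.ofReal_add, ← Complex.ofReal_mul, ← Complex.ofReal_mul]
  congr 1
  have hpi := Real.pi_pos.ne'
  have hsq : ρ ^ 2 - (n : ℝ) ^ 2 ≠ 0 := by
    rw [show ρ ^ 2 - (n : ℝ) ^ 2 = (ρ - n) * (ρ + n) by ring]
    exact mul_ne_zero hm hp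
  rw [show ρ ^ 2 - (n : ℝ) ^ 2 = (ρ - n) * (ρ + n) by ring]
  field_simp
  ring

/-- the integral of `|cos|` -/
theorem pf29_cos_le {x : ℝ} (h0 : 0 ≤ x) (h1 : x ≤ Real.pi / 2) :
    (∫ t in (0 : ℝ)..x, |Real.cos t|) = Real.sin x := by
  have h2 : (∫ t in (0 : ℝ)..x, |Real.cos t|) = ∫ t in (0 : ℝ)..x, Real.cos t := by
    refine intervalIntegral.integral_congr fun t ht => ?_
    rw [Set.uIcc_of_le h0] at ht
    exact abs_of_nonneg (Real.cos_nonneg_of_mem_Icc ⟨by linarith [ht.1, Real.pi_pos],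
      ht.2.trans h1⟩)
  rw [h2, integral_cos, Real.sin_zero, sub_zero]

theorem pf29_cos_ge {x : ℝ} (h0 : Real.pi / 2 ≤ x) (h1 : x ≤ Real.pi) :
    (∫ t in (0 : ℝ)..x, |Real.cos t|) = 2 - Real.sin x := by
  have hc : Continuous fun t => |Real.cos t| := Real.continuous_cos.abs
  have h2 : (∫ t in (Real.pi / 2)..x, |Real.cos t|) = ∫ t in (Real.pi / 2)..x, -Real.cos t := by
    refine intervalIntegral.integral_congr fun t ht => ?_
    rw [Set.uIcc_of_le h0] at ht
    exact abs_of_nonpos (Real.cos_nonpos_of_pi_div_two_le_of_le ht.1 (by linarith [ht.2]))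
  rw [← intervalIntegral.integral_add_adjacent_intervals (hc.intervalIntegrable 0 (Real.pi / 2))
    (hc.intervalIntegrable (Real.pi / 2) x), pf29_cos_le (by linarith [Real.pi_pos]) le_rfl, h2,
    intervalIntegral.integral_neg, integral_cos, Real.sin_pi_div_two]
  ring

theorem pf29_cos {x : ℝ} (h0 : 0 ≤ x) :
    2 * x / Real.pi - |Real.sin x| ≤ ∫ t in (0 : ℝ)..x, |Real.cos t| := by
  have hpi := Real.pi_pos
  have hc : Continuous fun t => |Real.cos t| := Real.continuous_cos.abs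
  have hper : Function.Periodic (fun t => |Real.cos t|) Real.pi := fun t => by
    show |Real.cos (t + Real.pi)| = |Real.cos t|
    rw [Real.cos_add_pi, abs_neg]
  set q : ℕ := ⌊x / Real.pi⌋₊ with hq
  set y : ℝ := x - q * Real.pi with hy
  have hq1 : (q : ℝ) ≤ x / Real.pi := Nat.floor_le (by positivity)
  have hq2 : x / Real.pi < q + 1 := Nat.lt_floor_add_one _
  have hy0 : 0 ≤ y := by
    rw [le_div_iff₀ hpi] at hq1
    linarith
  have hy1 : y ≤ Real.pi := by
    rw [div_lt_iff₀ hpi] at hq2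
    nlinarith
  have hx : x = y + (q : ℤ) • Real.pi := by
    rw [zsmul_eq_mul]
    push_cast
    rw [hy]
    ring
  have h1 := hper.intervalIntegral_add_zsmul_eq (q : ℤ) y
    (fun a b => hc.intervalIntegrable a b)
  have h2 : (∫ t in y..(y + Real.pi), |Real.cos t|) = 2 := by
    rw [hper.intervalIntegral_add_eq y 0, zero_add,
      pf29_cos_ge (by linarith) le_rfl, Real.sin_pi, sub_zero]
  rw [h2, ← hx] at h1
  rw [← intervalIntegral.integral_add_adjacent_intervals (hc.intervalIntegrable 0 y)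
    (hc.intervalIntegrable y x), h1]
  have h3 : |Real.sin x| = Real.sin y := by
    have h4 : x = y + q * Real.pi := by rw [hy]; ring
    rw [h4, Real.sin_add_nat_mul_pi, abs_mul, abs_pow, abs_neg, abs_one, one_pow, one_mul,
      abs_of_nonneg (Real.sin_nonneg_of_nonneg_of_le_pi hy0 hy1)]
  have h5 : 2 * x / Real.pi = 2 * y / Real.pi + 2 * q := by
    rw [hy]
    field_simp
    ring
  rw [h3, h5]
  have h6 : ((q : ℤ) • (2 : ℝ)) = 2 * q := by
    rw [zsmul_eq_mul]
    push_cast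
    ring
  rw [h6]
  rcases le_total y (Real.pi / 2) with h | h
  · rw [pf29_cos_le hy0 h]
    have h7 := Real.mul_le_sin hy0 h
    have h8 : 2 / Real.pi * y = 2 * y / Real.pi := by ring
    have h9 : 0 ≤ 2 * y / Real.pi := by positivity
    linarith
  · rw [pf29_cos_ge h hy1]
    have h7 : 2 * y / Real.pi ≤ 2 := by
      rw [div_le_iff₀ hpi]
      linarith
    linarith

theorem UU_hh {ρ : ℝ} (hρ : 1 < ρ) (hn : NonInt ρ) :
    (2 * ρ - sn ρ) / (ρ * sn ρ) ≤ UU (hh ρ) 1 := by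
  have hpi := Real.pi_pos
  have hρ0 : 0 < ρ := by linarith
  have hs : Real.sin (Real.pi * ρ) ≠ 0 := by
    intro h
    rw [Real.sin_eq_zero_iff] at h
    obtain ⟨m, hm⟩ := h
    apply hn m
    have h2 : (m : ℝ) * Real.pi = ρ * Real.pi := by linarith
    exact mul_right_cancel₀ hpi.ne' h2
  have hsn : 0 < sn ρ := abs_pos.2 hs
  have hc : Continuous fun t => |Real.cos t| := Real.continuous_cos.abs
  have hc2 : Continuous fun θ => |Real.cos (ρ * θ)| := by fun_prop
  have h1 : UU (hh ρ) 1 = (2 * Real.pi)⁻¹ * (Real.pi / sn ρ *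
      ∫ θ in (-Real.pi)..Real.pi, |Real.cos (ρ * θ)|) := by
    suffices h0 : (∫ θ in (-Real.pi)..Real.pi, |hh ρ (circleMap 0 1 θ)|) =
        ∫ θ in (-Real.pi)..Real.pi, Real.pi / sn ρ * |Real.cos (ρ * θ)| by
      unfold UU
      rw [pf29_avg, smul_eq_mul, h0, intervalIntegral.integral_const_mul]
    refine intervalIntegral.integral_congr_ae (Eventually.of_forall fun θ hθ => ?_)
    rw [Set.uIoc_of_le (by linarith)] at hθ
    show |hh ρ (circleMap 0 1 θ)| = Real.pi / sn ρ * |Real.cos (ρ * θ)|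
    unfold hh
    rw [pf29_arg hθ.1 hθ.2, abs_div, abs_mul, abs_of_pos hpi]
    unfold sn
    ring
  have h2 : (∫ θ in (-Real.pi)..Real.pi, |Real.cos (ρ * θ)|) =
      2 * ∫ θ in (0 : ℝ)..Real.pi, |Real.cos (ρ * θ)| := by
    rw [← intervalIntegral.integral_add_adjacent_intervals
      (hc2.intervalIntegrable (-Real.pi) 0) (hc2.intervalIntegrable 0 Real.pi)]
    have h3 : (∫ θ in (0 : ℝ)..Real.pi, |Real.cos (ρ * -θ)|) =
        ∫ θ in (-Real.pi)..(-0), |Real.cos (ρ * θ)| :=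
      intervalIntegral.integral_comp_neg (fun θ => |Real.cos (ρ * θ)|)
    simp only [neg_zero, mul_neg, Real.cos_neg] at h3
    rw [← h3]
    ring
  have h3 : (∫ θ in (0 : ℝ)..Real.pi, |Real.cos (ρ * θ)|) =
      ρ⁻¹ * ∫ t in (0 : ℝ)..(ρ * Real.pi), |Real.cos t| := by
    have h4 : (∫ θ in (0 : ℝ)..Real.pi, |Real.cos (ρ * θ)|) =
        ρ⁻¹ • ∫ t in (ρ * 0)..(ρ * Real.pi), |Real.cos t| :=
      intervalIntegral.integral_comp_mul_left (fun t => |Real.cos t|) hρ0.ne'
    rw [h4, mul_zero, smul_eq_mul]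
  have h4 := pf29_cos (x := ρ * Real.pi) (by positivity)
  have h5 : |Real.sin (ρ * Real.pi)| = sn ρ := by
    unfold sn
    rw [mul_comm]
  have h6 : 2 * (ρ * Real.pi) / Real.pi = 2 * ρ := by field_simp
  rw [h5, h6] at h4
  rw [h1, h2, h3]
  have h7 : (2 * Real.pi)⁻¹ * (Real.pi / sn ρ *
      (2 * (ρ⁻¹ * ∫ t in (0 : ℝ)..(ρ * Real.pi), |Real.cos t|))) =
      (∫ t in (0 : ℝ)..(ρ * Real.pi), |Real.cos t|) / (ρ * sn ρ) := by
    field_simp
  rw [h7]
  exact div_le_div_of_nonneg_right h4 (by positivity)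

end Pool.Agent.PfA
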