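import Pool.Agent.PfA.Riem

/-! MP_f2c8f8_an, project PfA, row PF-28 -/

set_option autoImplicit false

open Filter MeasureTheory ValueDistribution Metric
open scoped ComplexConjugate Topology

noncomputable section

namespace Pool.Agent.PfA

/-- the kernel as a continuous function -/
theorem pf28_kap_eq (q n : ℕ) {y : ℝ} (hy : 0 < y) : kap q n y =
    if n = 0 then max 0 (Real.log y)
    else 1 / (2 * (n : ℝ)) * ((if n ≤ q then y ^ n else 0) - (min y y⁻¹) ^ n) := by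
  unfold kap
  split_ifs with h0 h1 h2 h2
  · rfl
  · rw [min_eq_left]
    exact h2.le.trans (one_le_inv_iff₀.mpr ⟨hy, h2.le⟩)
  · rw [min_eq_right]
    exact (inv_le_one_of_one_le₀ (not_lt.mp h2)).trans (not_lt.mp h2)
  · rw [min_eq_left]
    exact h2.le.trans (one_le_inv_iff₀.mpr ⟨hy, h2.le⟩)
  · rw [min_eq_right]
    exact (inv_le_one_of_one_le₀ (not_lt.mp h2)).trans (not_lt.mp h2)

theorem pf28_kap_cont (q n : ℕ) : ContinuousOn (kap q n) (Set.Ioi 0) := by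
  refine ContinuousOn.congr (f := fun y : ℝ => if n = 0 then max 0 (Real.log y)
    else 1 / (2 * (n : ℝ)) * ((if n ≤ q then y ^ n else 0) - (min y y⁻¹) ^ n)) ?_
    (fun y hy => pf28_kap_eq q n hy)
  by_cases h0 : n = 0
  · simp only [h0, if_true]
    exact ContinuousOn.sup continuousOn_const (Real.continuousOn_log.mono fun y hy => ne_of_gt hy)
  · simp only [h0, if_false]
    have hi : ContinuousOn (fun y : ℝ => (min y y⁻¹) ^ n) (Set.Ioi 0) :=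
      (ContinuousOn.inf continuousOn_id (continuousOn_id.inv₀ fun y hy => ne_of_gt hy)).pow n
    by_cases h1 : n ≤ q
    · simp only [h1, if_true]
      exact continuousOn_const.mul ((continuousOn_pow n).sub hi)
    · simp only [h1, if_false]
      exact continuousOn_const.mul (continuousOn_const.sub hi)

/-- the function of the Riemann sum -/
def pf28_g (ρ : ℝ) (n : ℕ) (x : ℝ) : ℝ := kap ⌊ρ⌋₊ n (x ^ (-(1 / ρ)))

/-- the majorant -/
def pf28_G (a b x : ℝ) : ℝ := if x ≤ 1 then x ^ (-a) else x ^ (-b)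

theorem pf28_G_anti {a b : ℝ} (ha : 0 ≤ a) (hb : 0 ≤ b) :
    AntitoneOn (pf28_G a b) (Set.Ioi 0) := by
  intro x hx y hy hxy
  have hx' : (0 : ℝ) < x := hx
  unfold pf28_G
  split_ifs with h1 h2 h2
  · exact Real.rpow_le_rpow_of_nonpos hx' hxy (by linarith)
  · exact absurd (hxy.trans h1) h2
  · calc y ^ (-b) ≤ 1 := Real.rpow_le_one_of_one_le_of_nonpos (not_le.mp h1).le (by linarith)
      _ ≤ x ^ (-a) := Real.one_le_rpow_of_pos_of_le_one_of_nonpos hx' h2 (by linarith)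
  · exact Real.rpow_le_rpow_of_nonpos hx' hxy (by linarith)

theorem pf28_rpow_Ioc {s : ℝ} (hs : -1 < s) :
    IntegrableOn (fun x : ℝ => x ^ s) (Set.Ioc 0 1) := by
  have h := (intervalIntegral.intervalIntegrable_rpow' (a := 0) (b := 1) hs).1
  exact h

theorem pf28_int_Ioc {s : ℝ} (hs : -1 < s) :
    ∫ x in Set.Ioc (0 : ℝ) 1, x ^ s = 1 / (s + 1) := by
  rw [← intervalIntegral.integral_of_le zero_le_one, integral_rpow (Or.inl hs),
    Real.one_rpow, Real.zero_rpow (by linarith), sub_zero]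

theorem pf28_G_int {a b : ℝ} (ha : a < 1) (hb : 1 < b) :
    IntegrableOn (pf28_G a b) (Set.Ioi 0) := by
  rw [← Set.Ioc_union_Ioi_eq_Ioi (zero_le_one (α := ℝ))]
  refine IntegrableOn.union ?_ ?_
  · refine (pf28_rpow_Ioc (s := -a) (by linarith)).congr_fun (fun x hx => ?_) measurableSet_Ioc
    simp only [pf28_G]
    rw [if_pos hx.2]
  · refine (integrableOn_Ioi_rpow_of_lt (a := -b) (by linarith) zero_lt_one).congr_fun
      (fun x hx => ?_) measurableSet_Ioi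
    simp only [pf28_G]
    rw [if_neg (not_le.mpr hx)]

theorem pf28_split {g A B : ℝ → ℝ} (hA : IntegrableOn A (Set.Ioc 0 1))
    (hB : IntegrableOn B (Set.Ioi 1)) (h1 : ∀ x, 0 < x → x ≤ 1 → g x = A x)
    (h2 : ∀ x, 1 < x → g x = B x) :
    ∫ x in Set.Ioi (0 : ℝ), g x = (∫ x in Set.Ioc (0 : ℝ) 1, A x) + ∫ x in Set.Ioi (1 : ℝ), B x := by
  have e1 : ∀ x ∈ Set.Ioc (0 : ℝ) 1, A x = g x := fun x hx => (h1 x hx.1 hx.2).symm
  have e2 : ∀ x ∈ Set.Ioi (1 : ℝ), B x = g x := fun x hx => (h2 x hx).symm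
  rw [← Set.Ioc_union_Ioi_eq_Ioi (zero_le_one (α := ℝ)), setIntegral_union _ measurableSet_Ioi
    (hA.congr_fun e1 measurableSet_Ioc) (hB.congr_fun e2 measurableSet_Ioi),
    setIntegral_congr_fun measurableSet_Ioc e1, setIntegral_congr_fun measurableSet_Ioi e2]
  rw [Set.disjoint_left]
  intro x hx hx2
  exact absurd hx.2 (not_le.mpr hx2)

/-- powers -/
theorem pf28_pow {ρ x : ℝ} (hx : 0 < x) (n : ℕ) :
    (x ^ (-(1 / ρ))) ^ n = x ^ (-((n : ℝ) / ρ)) := by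
  rw [← Real.rpow_natCast, ← Real.rpow_mul hx.le]
  congr 1
  ring

theorem pf28_pow_inv {ρ x : ℝ} (hx : 0 < x) (n : ℕ) :
    ((x ^ (-(1 / ρ)))⁻¹) ^ n = x ^ ((n : ℝ) / ρ) := by
  rw [inv_pow, pf28_pow hx, ← Real.rpow_neg hx.le, neg_neg]

theorem pf28_lt_one {ρ x : ℝ} (hρ : 0 < ρ) (hx : 1 < x) : x ^ (-(1 / ρ)) < 1 :=
  Real.rpow_lt_one_of_one_lt_of_neg hx (by
    have : 0 < 1 / ρ := by positivity
    linarith)

theorem pf28_one_le {ρ x : ℝ} (hρ : 0 < ρ) (hx : 0 < x) (hx1 : x ≤ 1) : 1 ≤ x ^ (-(1 / ρ)) :=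
  Real.one_le_rpow_of_pos_of_le_one_of_nonpos hx hx1 (by
    have : 0 < 1 / ρ := by positivity
    linarith)

/-- values of `g`, `n = 0` -/
theorem pf28_g0_a {ρ x : ℝ} (hρ : 0 < ρ) (hx : 0 < x) (hx1 : x ≤ 1) :
    pf28_g ρ 0 x = -(1 / ρ) * Real.log x := by
  unfold pf28_g kap
  rw [if_pos rfl, Real.log_rpow hx, max_eq_right]
  have h1 : Real.log x ≤ 0 := Real.log_nonpos hx.le hx1
  have h2 : 0 < 1 / ρ := by positivity
  nlinarith

theorem pf28_g0_b {ρ x : ℝ} (hρ : 0 < ρ) (hx1 : 1 < x) : pf28_g ρ 0 x = 0 := by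
  unfold pf28_g kap
  rw [if_pos rfl, Real.log_rpow (by linarith), max_eq_left]
  have h1 : 0 < Real.log x := Real.log_pos hx1
  have h2 : 0 < 1 / ρ := by positivity
  nlinarith

/-- values of `g`, `1 ≤ n ≤ q` -/
theorem pf28_g1_a {ρ x : ℝ} (hρ : 0 < ρ) {n : ℕ} (hn : n ≠ 0) (hq : n ≤ ⌊ρ⌋₊) (hx : 0 < x)
    (hx1 : x ≤ 1) :
    pf28_g ρ n x = 1 / (2 * (n : ℝ)) * (x ^ (-((n : ℝ) / ρ)) - x ^ ((n : ℝ) / ρ)) := by
  unfold pf28_g kap
  rw [if_neg hn, if_pos hq, if_neg (not_lt.mpr (pf28_one_le hρ hx hx1)), pf28_pow hx,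
    pf28_pow_inv hx]

theorem pf28_g1_b {ρ x : ℝ} (hρ : 0 < ρ) {n : ℕ} (hn : n ≠ 0) (hq : n ≤ ⌊ρ⌋₊) (hx1 : 1 < x) :
    pf28_g ρ n x = 0 := by
  unfold pf28_g kap
  rw [if_neg hn, if_pos hq, if_pos (pf28_lt_one hρ hx1), sub_self, mul_zero]

/-- values of `g`, `n > q` -/
theorem pf28_g2_a {ρ x : ℝ} (hρ : 0 < ρ) {n : ℕ} (hn : n ≠ 0) (hq : ¬ n ≤ ⌊ρ⌋₊) (hx : 0 < x)
    (hx1 : x ≤ 1) :
    pf28_g ρ n x = -(1 / (2 * (n : ℝ))) * x ^ ((n : ℝ) / ρ) := by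
  unfold pf28_g kap
  rw [if_neg hn, if_neg hq, if_neg (not_lt.mpr (pf28_one_le hρ hx hx1)), pf28_pow_inv hx]
  ring

theorem pf28_g2_b {ρ x : ℝ} (hρ : 0 < ρ) {n : ℕ} (hn : n ≠ 0) (hq : ¬ n ≤ ⌊ρ⌋₊) (hx1 : 1 < x) :
    pf28_g ρ n x = -(1 / (2 * (n : ℝ))) * x ^ (-((n : ℝ) / ρ)) := by
  unfold pf28_g kap
  rw [if_neg hn, if_neg hq, if_pos (pf28_lt_one hρ hx1), pf28_pow (by linarith)]
  ring

theorem pf28_cont {ρ : ℝ} (n : ℕ) : ContinuousOn (pf28_g ρ n) (Set.Ioi 0) := by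
  unfold pf28_g
  refine (pf28_kap_cont _ n).comp ?_ (fun x hx => Real.rpow_pos_of_pos hx _)
  exact continuousOn_id.rpow_const fun x hx => Or.inl (ne_of_gt hx)

theorem pf28_half {n : ℕ} (hn : n ≠ 0) : 0 ≤ 1 / (2 * (n : ℝ)) ∧ 1 / (2 * (n : ℝ)) ≤ 1 := by
  have h1 : (1 : ℝ) ≤ n := by exact_mod_cast Nat.one_le_iff_ne_zero.mpr hn
  refine ⟨by positivity, ?_⟩
  rw [div_le_one (by linarith)]
  linarith

theorem pf28_le {ρ : ℝ} (hρ : 1 < ρ) (hn : NonInt ρ) (n : ℕ) (x : ℝ) (hx : 0 < x) :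
    |pf28_g ρ n x| ≤ pf28_G ((⌊ρ⌋₊ : ℝ) / ρ) (((⌊ρ⌋₊ : ℝ) + 1) / ρ) x := by
  have h0 : 0 < ρ := by linarith
  have hq1 : (1 : ℝ) ≤ ⌊ρ⌋₊ := by
    have : 1 ≤ ⌊ρ⌋₊ := (Nat.one_le_floor_iff ρ).mpr hρ.le
    exact_mod_cast this
  unfold pf28_G
  rcases Nat.eq_zero_or_pos n with rfl | hn0
  · split_ifs with h1
    · rw [pf28_g0_a h0 hx h1, abs_mul, abs_neg, abs_of_pos (by positivity : (0 : ℝ) < 1 / ρ),
        abs_of_nonpos (Real.log_nonpos hx.le h1), ← Real.log_inv]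
      have h2 := Real.log_le_rpow_div (inv_pos.mpr hx).le
        (by positivity : (0 : ℝ) < (⌊ρ⌋₊ : ℝ) / ρ)
      rw [Real.inv_rpow hx.le, ← Real.rpow_neg hx.le] at h2
      have h3 : (0 : ℝ) < x ^ (-((⌊ρ⌋₊ : ℝ) / ρ)) := Real.rpow_pos_of_pos hx _
      calc 1 / ρ * Real.log x⁻¹ ≤ 1 / ρ * (x ^ (-((⌊ρ⌋₊ : ℝ) / ρ)) / ((⌊ρ⌋₊ : ℝ) / ρ)) :=
            mul_le_mul_of_nonneg_left h2 (by positivity)
        _ = x ^ (-((⌊ρ⌋₊ : ℝ) / ρ)) / (⌊ρ⌋₊ : ℝ) := by field_simp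
        _ ≤ x ^ (-((⌊ρ⌋₊ : ℝ) / ρ)) := div_le_self h3.le hq1
    · rw [pf28_g0_b h0 (not_le.mp h1), abs_zero]
      exact (Real.rpow_pos_of_pos hx _).le
  · have hn' : n ≠ 0 := hn0.ne'
    obtain ⟨k0, k1⟩ := pf28_half hn'
    by_cases hq : n ≤ ⌊ρ⌋₊
    · have hq' : (n : ℝ) ≤ ⌊ρ⌋₊ := by exact_mod_cast hq
      split_ifs with h1
      · rw [pf28_g1_a h0 hn' hq hx h1]
        have e1 : x ^ ((n : ℝ) / ρ) ≤ x ^ (-((n : ℝ) / ρ)) :=
          Real.rpow_le_rpow_of_exponent_ge hx h1 (by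
            have : 0 ≤ (n : ℝ) / ρ := by positivity
            linarith)
        have e2 : x ^ (-((n : ℝ) / ρ)) ≤ x ^ (-((⌊ρ⌋₊ : ℝ) / ρ)) :=
          Real.rpow_le_rpow_of_exponent_ge hx h1 (by
            have := div_le_div_of_nonneg_right hq' h0.le
            linarith)
        have e3 : (0 : ℝ) < x ^ ((n : ℝ) / ρ) := Real.rpow_pos_of_pos hx _
        rw [abs_of_nonneg (mul_nonneg k0 (by linarith))]
        calc _ ≤ 1 * (x ^ (-((n : ℝ) / ρ)) - x ^ ((n : ℝ) / ρ)) :=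
              mul_le_mul_of_nonneg_right k1 (by linarith)
          _ ≤ _ := by linarith
      · rw [pf28_g1_b h0 hn' hq (not_le.mp h1), abs_zero]
        exact (Real.rpow_pos_of_pos hx _).le
    · have hq' : (⌊ρ⌋₊ : ℝ) + 1 ≤ n := by exact_mod_cast (not_le.mp hq)
      split_ifs with h1
      · rw [pf28_g2_a h0 hn' hq hx h1, abs_mul, abs_neg, abs_of_nonneg k0,
          abs_of_pos (Real.rpow_pos_of_pos hx _)]
        have e1 : x ^ ((n : ℝ) / ρ) ≤ 1 := Real.rpow_le_one hx.le h1 (by positivity)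
        have e2 : 1 ≤ x ^ (-((⌊ρ⌋₊ : ℝ) / ρ)) :=
          Real.one_le_rpow_of_pos_of_le_one_of_nonpos hx h1 (by
            have : 0 ≤ (⌊ρ⌋₊ : ℝ) / ρ := by positivity
            linarith)
        have e3 : (0 : ℝ) < x ^ ((n : ℝ) / ρ) := Real.rpow_pos_of_pos hx _
        calc _ ≤ 1 * x ^ ((n : ℝ) / ρ) := mul_le_mul_of_nonneg_right k1 e3.le
          _ ≤ _ := by linarith
      · rw [pf28_g2_b h0 hn' hq (not_le.mp h1), abs_mul, abs_neg, abs_of_nonneg k0,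
          abs_of_pos (Real.rpow_pos_of_pos hx _)]
        have e1 : x ^ (-((n : ℝ) / ρ)) ≤ x ^ (-(((⌊ρ⌋₊ : ℝ) + 1) / ρ)) :=
          Real.rpow_le_rpow_of_exponent_le (not_le.mp h1).le (by
            have := div_le_div_of_nonneg_right hq' h0.le
            linarith)
        have e3 : (0 : ℝ) < x ^ (-((n : ℝ) / ρ)) := Real.rpow_pos_of_pos hx _
        calc _ ≤ 1 * x ^ (-((n : ℝ) / ρ)) := mul_le_mul_of_nonneg_right k1 e3.le
          _ ≤ _ := by linarith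

theorem pf28_floor_lt {ρ : ℝ} (hρ : 1 < ρ) (hn : NonInt ρ) :
    (⌊ρ⌋₊ : ℝ) < ρ ∧ ρ < (⌊ρ⌋₊ : ℝ) + 1 := by
  refine ⟨lt_of_le_of_ne (Nat.floor_le (by linarith)) ?_, Nat.lt_floor_add_one ρ⟩
  have := hn (⌊ρ⌋₊ : ℤ)
  exact_mod_cast this

theorem pf28_integral {ρ : ℝ} (hρ : 1 < ρ) (hn : NonInt ρ) (n : ℕ) :
    ∫ x in Set.Ioi (0 : ℝ), pf28_g ρ n x = ρ / (ρ ^ 2 - (n : ℝ) ^ 2) := by
  have h0 : 0 < ρ := by linarith
  obtain ⟨f1, f2⟩ := pf28_floor_lt hρ hn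
  rcases Nat.eq_zero_or_pos n with rfl | hn0
  · have hA : IntegrableOn (fun x : ℝ => -(1 / ρ) * Real.log x) (Set.Ioc 0 1) := by
      have h := (intervalIntegral.intervalIntegrable_log' (a := 0) (b := 1)).1
      exact h.const_mul _
    rw [pf28_split hA (integrableOn_zero) (fun x hx hx1 => pf28_g0_a h0 hx hx1)
      (fun x hx => pf28_g0_b h0 hx)]
    have e : ∫ x in Set.Ioc (0 : ℝ) 1, Real.log x = -1 := by
      rw [← intervalIntegral.integral_of_le zero_le_one, integral_log]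
      simp
    rw [integral_const_mul, e]
    simp only [integral_zero]
    have : ρ ≠ 0 := h0.ne'
    field_simp
    simp
  · have hn' : n ≠ 0 := hn0.ne'
    have hn1 : (1 : ℝ) ≤ n := by exact_mod_cast hn0
    by_cases hq : n ≤ ⌊ρ⌋₊
    · have hq' : (n : ℝ) < ρ := lt_of_le_of_lt (by exact_mod_cast hq) f1
      have c1 : (-1 : ℝ) < -((n : ℝ) / ρ) := by
        have : (n : ℝ) / ρ < 1 := (div_lt_one h0).mpr hq'
        linarith
      have c2 : (-1 : ℝ) < (n : ℝ) / ρ := by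
        have : 0 ≤ (n : ℝ) / ρ := by positivity
        linarith
      have i1 := pf28_rpow_Ioc c1
      have i2 := pf28_rpow_Ioc c2
      have hA : IntegrableOn (fun x : ℝ => 1 / (2 * (n : ℝ)) *
          (x ^ (-((n : ℝ) / ρ)) - x ^ ((n : ℝ) / ρ))) (Set.Ioc 0 1) := (i1.sub i2).const_mul _
      rw [pf28_split hA (integrableOn_zero) (fun x hx hx1 => pf28_g1_a h0 hn' hq hx hx1)
        (fun x hx => pf28_g1_b h0 hn' hq hx), integral_const_mul, integral_sub i1 i2,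
        pf28_int_Ioc c1, pf28_int_Ioc c2]
      simp only [integral_zero, add_zero]
      have d1 : ρ - n ≠ 0 := by linarith
      have d2 : ρ + n ≠ 0 := by linarith
      have d3 : ρ ^ 2 - (n : ℝ) ^ 2 ≠ 0 := by
        rw [show ρ ^ 2 - (n : ℝ) ^ 2 = (ρ - n) * (ρ + n) by ring]
        exact mul_ne_zero d1 d2
      have d4 : -((n : ℝ) / ρ) + 1 ≠ 0 := by linarith
      have d5 : (n : ℝ) / ρ + 1 ≠ 0 := by linarith
      have e1 : 1 / (-((n : ℝ) / ρ) + 1) = ρ / (ρ - n) := by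
        rw [div_eq_div_iff d4 d1]
        field_simp
        ring
      have e2 : 1 / ((n : ℝ) / ρ + 1) = ρ / (ρ + n) := by
        rw [div_eq_div_iff d5 d2]
        field_simp
        ring
      rw [e1, e2]
      field_simp
      ring
    · have hq' : ρ < n := lt_of_lt_of_le f2 (by exact_mod_cast (not_le.mp hq))
      have c1 : -((n : ℝ) / ρ) < -1 := by
        have : 1 < (n : ℝ) / ρ := (one_lt_div h0).mpr hq'
        linarith
      have c2 : (-1 : ℝ) < (n : ℝ) / ρ := by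
        have : 0 ≤ (n : ℝ) / ρ := by positivity
        linarith
      have i1 := integrableOn_Ioi_rpow_of_lt c1 (zero_lt_one (α := ℝ))
      have i2 := pf28_rpow_Ioc c2
      have hA : IntegrableOn (fun x : ℝ => -(1 / (2 * (n : ℝ))) * x ^ ((n : ℝ) / ρ))
        (Set.Ioc 0 1) := i2.const_mul _
      have hB : IntegrableOn (fun x : ℝ => -(1 / (2 * (n : ℝ))) * x ^ (-((n : ℝ) / ρ)))
        (Set.Ioi 1) := i1.const_mul _
      rw [pf28_split hA hB (fun x hx hx1 => pf28_g2_a h0 hn' hq hx hx1)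
        (fun x hx => pf28_g2_b h0 hn' hq hx), integral_const_mul, integral_const_mul,
        pf28_int_Ioc c2, integral_Ioi_rpow_of_lt c1 zero_lt_one, Real.one_rpow]
      have d1 : ρ - n ≠ 0 := by linarith
      have d2 : ρ + n ≠ 0 := by linarith
      have d3 : ρ ^ 2 - (n : ℝ) ^ 2 ≠ 0 := by
        rw [show ρ ^ 2 - (n : ℝ) ^ 2 = (ρ - n) * (ρ + n) by ring]
        exact mul_ne_zero d1 d2
      have d4 : -((n : ℝ) / ρ) + 1 ≠ 0 := by linarith
      have d5 : (n : ℝ) / ρ + 1 ≠ 0 := by linarith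
      have e1 : -1 / (-((n : ℝ) / ρ) + 1) = -(ρ / (ρ - n)) := by
        rw [neg_div, neg_inj, div_eq_div_iff d4 d1]
        field_simp
        ring
      have e2 : 1 / ((n : ℝ) / ρ + 1) = ρ / (ρ + n) := by
        rw [div_eq_div_iff d5 d2]
        field_simp
        ring
      rw [e1, e2]
      field_simp
      ring

theorem kap_tendsto {ρ : ℝ} (hρ : 1 < ρ) (hn : NonInt ρ) (n : ℕ) :
    Tendsto (fun r : ℝ => (r ^ ρ)⁻¹ * ∑' k : ℕ, kap ⌊ρ⌋₊ n (r / aa ρ k)) atTop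
      (𝓝 (ρ / (ρ ^ 2 - (n : ℝ) ^ 2))) := by
  have h0 : 0 < ρ := by linarith
  obtain ⟨f1, f2⟩ := pf28_floor_lt hρ hn
  have h1 := riemann (pf28_cont (ρ := ρ) n)
    (pf28_G_anti (a := (⌊ρ⌋₊ : ℝ) / ρ) (b := ((⌊ρ⌋₊ : ℝ) + 1) / ρ) (by positivity)
      (by positivity))
    (pf28_G_int ((div_lt_one h0).mpr f1) ((one_lt_div h0).mpr f2))
    (fun x hx => pf28_le hρ hn n x hx)
  rw [pf28_integral hρ hn n] at h1
  refine (h1.comp (tendsto_rpow_atTop h0)).congr' ?_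
  filter_upwards [eventually_gt_atTop 0] with r hr
  simp only [Function.comp_apply]
  congr 1
  refine tsum_congr fun k => ?_
  unfold pf28_g aa
  congr 1
  have hk : (0 : ℝ) < (k : ℝ) + 1 := by positivity
  have hr2 : 0 < r ^ ρ := Real.rpow_pos_of_pos hr _
  rw [Real.rpow_neg (by positivity), Real.div_rpow hk.le hr2.le, ← Real.rpow_mul hr.le,
    mul_one_div_cancel h0.ne', Real.rpow_one, inv_div]

end Pool.Agent.PfA
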