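import Pool.Agent.PfA.Maj0

/-! MP_f2c8f8_an, project PfA, row PF-17 -/

set_option autoImplicit false

open Filter MeasureTheory ValueDistribution Metric
open scoped ComplexConjugate Topology

noncomputable section

namespace Pool.Agent.PfA

/-- integral of an exponential -/
theorem pf17_e (k : ℤ) (x : ℂ) :
    ∫ θ in (0 : ℝ)..(2 * Real.pi), (x * Complex.exp ((k : ℂ) * (θ : ℂ) * Complex.I)).re =
      if k = 0 then 2 * Real.pi * x.re else 0 := by
  have hi : IntervalIntegrable (fun θ : ℝ => x * Complex.exp ((k : ℂ) * (θ : ℂ) * Complex.I))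
      volume 0 (2 * Real.pi) := by
    apply Continuous.intervalIntegrable
    fun_prop
  have h1 : ∫ θ in (0 : ℝ)..(2 * Real.pi), (x * Complex.exp ((k : ℂ) * (θ : ℂ) * Complex.I)).re =
      (∫ θ in (0 : ℝ)..(2 * Real.pi), x * Complex.exp ((k : ℂ) * (θ : ℂ) * Complex.I)).re :=
    Complex.reCLM.intervalIntegral_comp_comm hi
  rw [h1]
  by_cases hk : k = 0
  · rw [if_pos hk, hk]
    simp
  · rw [if_neg hk, intervalIntegral.integral_const_mul]
    have hc : (k : ℂ) * Complex.I ≠ 0 :=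
      mul_ne_zero (Int.cast_ne_zero.mpr hk) Complex.I_ne_zero
    have h2 : ∀ θ : ℝ, Complex.exp ((k : ℂ) * (θ : ℂ) * Complex.I) =
        Complex.exp (((k : ℂ) * Complex.I) * (θ : ℂ)) := by
      intro θ
      congr 1
      ring
    simp only [h2]
    rw [integral_exp_mul_complex hc]
    have h3 : Complex.exp (((k : ℂ) * Complex.I) * ((2 * Real.pi : ℝ) : ℂ)) = 1 := by
      rw [Complex.exp_eq_one_iff]
      refine ⟨k, ?_⟩
      push_cast
      ring
    rw [h3]
    simp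

theorem pf17_ri (x : ℂ) (n : ℕ) : Continuous
    (fun θ : ℝ => (x * Complex.exp ((n : ℂ) * (θ : ℂ) * Complex.I)).re) := by
  fun_prop

/-- orthogonality -/
theorem pf17_rr {n m : ℕ} (hn : 1 ≤ n) (hm : 1 ≤ m) (x y : ℂ) :
    ∫ θ in (0 : ℝ)..(2 * Real.pi), (x * Complex.exp ((n : ℂ) * (θ : ℂ) * Complex.I)).re *
      (y * Complex.exp ((m : ℂ) * (θ : ℂ) * Complex.I)).re =
      if n = m then Real.pi * (x * conj y).re else 0 := by
  have h1 : ∀ θ : ℝ, (x * Complex.exp ((n : ℂ) * (θ : ℂ) * Complex.I)).re *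
      (y * Complex.exp ((m : ℂ) * (θ : ℂ) * Complex.I)).re =
      1 / 2 * (x * y * Complex.exp ((((n : ℤ) + (m : ℤ) : ℤ) : ℂ) * (θ : ℂ) * Complex.I)).re +
      1 / 2 * (x * conj y *
        Complex.exp ((((n : ℤ) - (m : ℤ) : ℤ) : ℂ) * (θ : ℂ) * Complex.I)).re := by
    intro θ
    have e1 : Complex.exp ((((n : ℤ) + (m : ℤ) : ℤ) : ℂ) * (θ : ℂ) * Complex.I) =
        Complex.exp ((n : ℂ) * (θ : ℂ) * Complex.I) *
          Complex.exp ((m : ℂ) * (θ : ℂ) * Complex.I) := by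
      rw [← Complex.exp_add]
      congr 1
      push_cast
      ring
    have e2 : Complex.exp ((((n : ℤ) - (m : ℤ) : ℤ) : ℂ) * (θ : ℂ) * Complex.I) =
        Complex.exp ((n : ℂ) * (θ : ℂ) * Complex.I) *
          conj (Complex.exp ((m : ℂ) * (θ : ℂ) * Complex.I)) := by
      rw [← Complex.exp_conj, ← Complex.exp_add]
      congr 1
      simp only [map_mul, Complex.conj_I, Complex.conj_ofReal, map_natCast]
      push_cast
      ring
    rw [e1, e2]
    have e3 : ∀ u v : ℂ, u.re * v.re = 1 / 2 * (u * v).re + 1 / 2 * (u * conj v).re := by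
      intro u v
      simp only [Complex.mul_re, Complex.conj_re, Complex.conj_im]
      ring
    rw [e3]
    have e4 : x * Complex.exp ((n : ℂ) * (θ : ℂ) * Complex.I) *
        (y * Complex.exp ((m : ℂ) * (θ : ℂ) * Complex.I)) =
        x * y * (Complex.exp ((n : ℂ) * (θ : ℂ) * Complex.I) *
          Complex.exp ((m : ℂ) * (θ : ℂ) * Complex.I)) := by ring
    have e5 : x * Complex.exp ((n : ℂ) * (θ : ℂ) * Complex.I) *
        conj (y * Complex.exp ((m : ℂ) * (θ : ℂ) * Complex.I)) =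
        x * conj y * (Complex.exp ((n : ℂ) * (θ : ℂ) * Complex.I) *
          conj (Complex.exp ((m : ℂ) * (θ : ℂ) * Complex.I))) := by
      rw [map_mul]
      ring
    rw [e4, e5]
  have hc : ∀ (k : ℤ) (c : ℂ), Continuous
      (fun θ : ℝ => 1 / 2 * (c * Complex.exp ((k : ℂ) * (θ : ℂ) * Complex.I)).re) := by
    intro k c
    fun_prop
  simp only [h1]
  rw [intervalIntegral.integral_add ((hc _ _).intervalIntegrable _ _)
    ((hc _ _).intervalIntegrable _ _), intervalIntegral.integral_const_mul,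
    intervalIntegral.integral_const_mul, pf17_e, pf17_e, if_neg (by omega)]
  by_cases hnm : n = m
  · rw [if_pos (by omega), if_pos hnm]
    ring
  · rw [if_neg (by omega), if_neg hnm]
    ring

theorem pf17_z {n : ℕ} (hn : 1 ≤ n) (x : ℂ) :
    ∫ θ in (0 : ℝ)..(2 * Real.pi), (x * Complex.exp ((n : ℂ) * (θ : ℂ) * Complex.I)).re = 0 := by
  have h := pf17_e (n : ℤ) x
  rw [if_neg (by omega)] at h
  simpa only [Int.cast_natCast] using h

theorem pf17_sc (M : ℕ) (a : ℕ → ℂ) : Continuous (fun θ : ℝ => ∑ n ∈ Finset.Icc 1 M,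
    (a n * Complex.exp ((n : ℂ) * (θ : ℂ) * Complex.I)).re) := by
  fun_prop

theorem pf17_s (M : ℕ) (a : ℕ → ℂ) : ∫ θ in (0 : ℝ)..(2 * Real.pi), ∑ n ∈ Finset.Icc 1 M,
    (a n * Complex.exp ((n : ℂ) * (θ : ℂ) * Complex.I)).re = 0 := by
  rw [intervalIntegral.integral_finsetSum
    (fun n _ => (pf17_ri (a n) n).intervalIntegrable _ _)]
  exact Finset.sum_eq_zero fun n hn => pf17_z (Finset.mem_Icc.1 hn).1 _

theorem pf17_ss (M : ℕ) (a b : ℕ → ℂ) : ∫ θ in (0 : ℝ)..(2 * Real.pi),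
    (∑ n ∈ Finset.Icc 1 M, (a n * Complex.exp ((n : ℂ) * (θ : ℂ) * Complex.I)).re) *
      (∑ n ∈ Finset.Icc 1 M, (b n * Complex.exp ((n : ℂ) * (θ : ℂ) * Complex.I)).re) =
    Real.pi * ∑ n ∈ Finset.Icc 1 M, (a n * conj (b n)).re := by
  simp only [Finset.sum_mul_sum]
  rw [intervalIntegral.integral_finsetSum (fun n _ => by
    apply Continuous.intervalIntegrable
    fun_prop)]
  rw [Finset.mul_sum]
  refine Finset.sum_congr rfl fun n hn => ?_
  rw [intervalIntegral.integral_finsetSum (fun m _ => by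
    apply Continuous.intervalIntegrable
    fun_prop)]
  have h1 : ∀ m ∈ Finset.Icc 1 M, ∫ θ in (0 : ℝ)..(2 * Real.pi),
      (a n * Complex.exp ((n : ℂ) * (θ : ℂ) * Complex.I)).re *
        (b m * Complex.exp ((m : ℂ) * (θ : ℂ) * Complex.I)).re =
      if n = m then Real.pi * (a n * conj (b m)).re else 0 := fun m hm =>
    pf17_rr (Finset.mem_Icc.1 hn).1 (Finset.mem_Icc.1 hm).1 _ _
  rw [Finset.sum_congr rfl h1, Finset.sum_ite_eq, if_pos hn]

/-- Parseval for real trigonometric polynomials -/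
theorem pf17_par (M : ℕ) (a b : ℕ → ℂ) :
    ∫ θ in (0 : ℝ)..(2 * Real.pi), tp M a θ * tp M b θ =
      2 * Real.pi * ((a 0).re * (b 0).re +
        2 * ∑ n ∈ Finset.Icc 1 M, (a n * conj (b n)).re) := by
  have h1 : ∀ θ : ℝ, tp M a θ * tp M b θ = (a 0).re * (b 0).re +
      (2 * (a 0).re) * (∑ n ∈ Finset.Icc 1 M,
        (b n * Complex.exp ((n : ℂ) * (θ : ℂ) * Complex.I)).re) +
      (2 * (b 0).re) * (∑ n ∈ Finset.Icc 1 M,
        (a n * Complex.exp ((n : ℂ) * (θ : ℂ) * Complex.I)).re) +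
      4 * ((∑ n ∈ Finset.Icc 1 M, (a n * Complex.exp ((n : ℂ) * (θ : ℂ) * Complex.I)).re) *
        (∑ n ∈ Finset.Icc 1 M, (b n * Complex.exp ((n : ℂ) * (θ : ℂ) * Complex.I)).re)) := by
    intro θ
    unfold tp
    ring
  simp only [h1]
  have ca := pf17_sc M a
  have cb := pf17_sc M b
  have i0 : IntervalIntegrable (fun _ : ℝ => (a 0).re * (b 0).re) volume 0 (2 * Real.pi) :=
    intervalIntegrable_const
  have i1 := (cb.const_mul (2 * (a 0).re)).intervalIntegrable (μ := volume) 0 (2 * Real.pi)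
  have i2 := (ca.const_mul (2 * (b 0).re)).intervalIntegrable (μ := volume) 0 (2 * Real.pi)
  have i3 : IntervalIntegrable (fun θ : ℝ => 4 * ((∑ n ∈ Finset.Icc 1 M,
      (a n * Complex.exp ((n : ℂ) * (θ : ℂ) * Complex.I)).re) *
      (∑ n ∈ Finset.Icc 1 M, (b n * Complex.exp ((n : ℂ) * (θ : ℂ) * Complex.I)).re))) volume 0
      (2 * Real.pi) := ((ca.mul cb).const_mul 4).intervalIntegrable 0 (2 * Real.pi)
  rw [intervalIntegral.integral_add ((i0.add i1).add i2) i3,
    intervalIntegral.integral_add (i0.add i1) i2, intervalIntegral.integral_add i0 i1,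
    intervalIntegral.integral_const, intervalIntegral.integral_const_mul (2 * (a 0).re),
    intervalIntegral.integral_const_mul (2 * (b 0).re), intervalIntegral.integral_const_mul 4,
    pf17_s, pf17_s, pf17_ss]
  simp only [smul_eq_mul]
  ring

theorem pf17_c (M : ℕ) (a : ℕ → ℂ) : Continuous (tp M a) := by
  unfold tp
  fun_prop

theorem maj {M : ℕ} {b : ℕ → ℂ} (h : TU M b) {B : ℕ → ℝ} (hB : ∀ n, 0 ≤ B n) {p : ℕ} (hp : 1 ≤ p)
    {E : ℝ} (hE : 0 ≤ E)
    (hE2 : ∀ y : ℝ, 0 ≤ y → y ≤ 2 * Real.pi / p → ∑ n ∈ Finset.Icc 1 M,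
      B n ^ 2 * ‖Complex.exp ((((n : ℝ) - p) * y : ℝ) * Complex.I) - 1‖ ^ 2 ≤ E ^ 2) :
    mp B M b ≤ B 0 + 4 / Real.pi * √(∑ n ∈ Finset.Icc 1 M, B n ^ 2) + 2 * E := by
  set a : ℕ → ℂ := fun n => (B n : ℂ) * (b n / (‖b n‖ : ℂ)) with ha
  have hpi : 0 < Real.pi := Real.pi_pos
  have hu : ∀ n, ‖b n / (‖b n‖ : ℂ)‖ ≤ 1 := by
    intro n
    rw [norm_div, Complex.norm_real, norm_norm]
    exact div_self_le_one _
  have han : ∀ n, ‖a n‖ ≤ B n := by
    intro n
    rw [ha, norm_mul, Complex.norm_real, Real.norm_of_nonneg (hB n)]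
    exact mul_le_of_le_one_right (hB n) (hu n)
  have hab : ∀ n, (a n * conj (b n)).re = B n * ‖b n‖ := by
    intro n
    have h1 : a n * conj (b n) = ((B n * ‖b n‖ : ℝ) : ℂ) := by
      simp only [ha]
      by_cases h0 : b n = 0
      · simp [h0]
      · have h2 : (‖b n‖ : ℂ) ≠ 0 := by
          rw [Complex.ofReal_ne_zero]
          exact norm_ne_zero_iff.mpr h0
        have h3 : b n * conj (b n) = (‖b n‖ : ℂ) ^ 2 := by
          rw [Complex.mul_conj, Complex.normSq_eq_norm_sq]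
          push_cast
          rfl
        push_cast
        calc (B n : ℂ) * (b n / (‖b n‖ : ℂ)) * conj (b n) =
            (B n : ℂ) * (b n * conj (b n)) / (‖b n‖ : ℂ) := by ring
          _ = (B n : ℂ) * ‖b n‖ := by
            rw [h3]
            field_simp
    rw [h1, Complex.ofReal_re]
  have ha0 : (a 0).re * (b 0).re = B 0 * ‖b 0‖ := by
    have h1 := hab 0
    rw [Complex.mul_re, Complex.conj_re, Complex.conj_im, h.1] at h1
    linarith
  have hmp : mp B M b = (2 * Real.pi)⁻¹ * ∫ θ in (0 : ℝ)..(2 * Real.pi), tp M a θ * tp M b θ := by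
    rw [pf17_par, ← mul_assoc, inv_mul_cancel₀ (by positivity), one_mul, ha0]
    unfold mp
    congr 2
    exact Finset.sum_congr rfl fun n _ => (hab n).symm
  have h2pi : (0 : ℝ) ≤ 2 * Real.pi := by positivity
  have ca := pf17_c M a
  have cb := pf17_c M b
  have cs : Continuous (fun θ : ℝ => |2 * ∑ n ∈ Finset.Icc 1 M,
      (a n * Complex.exp ((n : ℂ) * (θ : ℂ) * Complex.I)).re|) :=
    ((pf17_sc M a).const_mul 2).abs
  have hle : ∫ θ in (0 : ℝ)..(2 * Real.pi), tp M a θ * tp M b θ ≤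
      ∫ θ in (0 : ℝ)..(2 * Real.pi), (B 0 + |2 * ∑ n ∈ Finset.Icc 1 M,
        (a n * Complex.exp ((n : ℂ) * (θ : ℂ) * Complex.I)).re|) := by
    refine intervalIntegral.integral_mono_on h2pi ((ca.mul cb).intervalIntegrable _ _)
      ((continuous_const.add cs).intervalIntegrable _ _) fun θ _ => ?_
    have h1 : tp M a θ * tp M b θ ≤ |tp M a θ| := by
      refine le_trans (le_abs_self _) ?_
      rw [abs_mul]
      exact mul_le_of_le_one_right (abs_nonneg _) (h.2 θ)
    refine h1.trans ?_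
    unfold tp
    refine (abs_add_le _ _).trans ?_
    have h2 : |(a 0).re| ≤ B 0 := (Complex.abs_re_le_norm _).trans (han 0)
    linarith
  have hl := l1_tp M a hp hE (fun y hy0 hy1 => by
    refine le_trans (Finset.sum_le_sum fun n _ => ?_) (hE2 y hy0 hy1)
    exact mul_le_mul_of_nonneg_right (pow_le_pow_left₀ (norm_nonneg _) (han n) 2) (by positivity))
  have hs : √(∑ n ∈ Finset.Icc 1 M, ‖a n‖ ^ 2) ≤ √(∑ n ∈ Finset.Icc 1 M, B n ^ 2) :=
    Real.sqrt_le_sqrt (Finset.sum_le_sum fun n _ => pow_le_pow_left₀ (norm_nonneg _) (han n) 2)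
  rw [intervalIntegral.integral_add intervalIntegrable_const (cs.intervalIntegrable _ _),
    intervalIntegral.integral_const, smul_eq_mul, sub_zero] at hle
  have h3 : mp B M b ≤ (2 * Real.pi)⁻¹ * (2 * Real.pi * B 0 +
      ∫ θ in (0 : ℝ)..(2 * Real.pi), |2 * ∑ n ∈ Finset.Icc 1 M,
        (a n * Complex.exp ((n : ℂ) * (θ : ℂ) * Complex.I)).re|) := by
    rw [hmp]
    exact mul_le_mul_of_nonneg_left hle (by positivity)
  have h4 : (2 * Real.pi)⁻¹ * (2 * Real.pi * B 0) = B 0 := by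
    rw [← mul_assoc, inv_mul_cancel₀ (by positivity), one_mul]
  rw [mul_add, h4] at h3
  have h5 : 4 / Real.pi * √(∑ n ∈ Finset.Icc 1 M, ‖a n‖ ^ 2) ≤
      4 / Real.pi * √(∑ n ∈ Finset.Icc 1 M, B n ^ 2) :=
    mul_le_mul_of_nonneg_left hs (by positivity)
  linarith

end Pool.Agent.PfA
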