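import Pool.Agent.PfA.Defs

/-! MP_f2c8f8_an, project PfA, row PF-8 -/

set_option autoImplicit false

open Filter MeasureTheory ValueDistribution Metric
open scoped ComplexConjugate Topology

noncomputable section

namespace Pool.Agent.PfA

open Pool.Agent.H9.Pf

/-- eventual bound for the quotient of logarithms, from above -/
theorem pf8_le {T : ℝ → ℝ} {s M : ℝ} (hs : 0 < s) (hM : 1 ≤ M) {X : ℝ}
    (h : ∀ x, X ≤ x → T x ≤ M * x ^ s) (h0 : ∀ x, 1 ≤ x → 0 ≤ T x) {e : ℝ} (he : 0 < e) :
    ∀ᶠ r in atTop, Real.log (T r) / Real.log r ≤ s + e := by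
  have hlim : Tendsto (fun r : ℝ => Real.log M / Real.log r) atTop (𝓝 0) :=
    Tendsto.div_atTop tendsto_const_nhds Real.tendsto_log_atTop
  filter_upwards [hlim.eventually_le_const he, eventually_gt_atTop 1, eventually_ge_atTop X]
    with r h1 h2 h3
  have hlr := Real.log_pos h2
  have hr0 : 0 < r := by linarith
  rcases (h0 r h2.le).eq_or_lt with h4 | h4
  · rw [← h4, Real.log_zero, zero_div]
    linarith
  · have h5 : Real.log (T r) ≤ Real.log M + s * Real.log r := by
      rw [← Real.log_rpow hr0, ← Real.log_mul (by linarith) (Real.rpow_pos_of_pos hr0 s).ne']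
      exact Real.log_le_log h4 (h r h3)
    have h6 : Real.log (T r) / Real.log r ≤ (Real.log M + s * Real.log r) / Real.log r := by
      gcongr
    have h7 : (Real.log M + s * Real.log r) / Real.log r = Real.log M / Real.log r + s := by
      field_simp
    linarith

/-- eventual bound for the quotient of logarithms, from below -/
theorem pf8_ge {T : ℝ → ℝ} {s ε : ℝ} (hε : 0 < ε) {X : ℝ}
    (h : ∀ x, X ≤ x → ε * x ^ s ≤ T x) {e : ℝ} (he : 0 < e) :
    ∀ᶠ r in atTop, s - e ≤ Real.log (T r) / Real.log r := by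
  have hlim : Tendsto (fun r : ℝ => Real.log ε / Real.log r) atTop (𝓝 0) :=
    Tendsto.div_atTop tendsto_const_nhds Real.tendsto_log_atTop
  have he' : -e < 0 := by linarith
  filter_upwards [hlim.eventually_const_le he', eventually_gt_atTop 1, eventually_ge_atTop X]
    with r h1 h2 h3
  have hlr := Real.log_pos h2
  have hr0 : 0 < r := by linarith
  have h5 : Real.log ε + s * Real.log r ≤ Real.log (T r) := by
    rw [← Real.log_rpow hr0, ← Real.log_mul hε.ne' (Real.rpow_pos_of_pos hr0 s).ne']
    exact Real.log_le_log (mul_pos hε (Real.rpow_pos_of_pos hr0 s)) (h r h3)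
  have h6 : (Real.log ε + s * Real.log r) / Real.log r ≤ Real.log (T r) / Real.log r := by
    gcongr
  have h7 : (Real.log ε + s * Real.log r) / Real.log r = Real.log ε / Real.log r + s := by
    field_simp
  linarith

/-- a function whose order is not zero is nowhere locally constant -/
theorem order_ne_top_of_order {f : ℂ → ℂ} (hf : Meromorphic f) (h : 0 < order f) (c z : ℂ) :
    meromorphicOrderAt (fun z => f z - c) z ≠ ⊤ := by
  intro htop
  have hm : MeromorphicOn (fun z => f z - c) Set.univ := fun w _ =>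
    (hf w).sub (MeromorphicAt.const c w)
  have hall : ∀ w, meromorphicOrderAt (fun z => f z - c) w = ⊤ := by
    intro w
    by_contra hw
    exact hm.meromorphicOrderAt_ne_top_of_isPreconnected isPreconnected_univ (Set.mem_univ w)
      (Set.mem_univ z) hw htop
  have hcd : f =ᶠ[codiscrete ℂ] fun _ => c := by
    rw [Filter.EventuallyEq, Filter.Eventually, codiscrete,
      mem_codiscreteWithin_iff_forall_mem_nhdsNE]
    intro w _
    rw [Set.compl_univ, Set.union_empty]
    filter_upwards [meromorphicOrderAt_eq_top_iff.1 (hall w)] with y hy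
    exact sub_eq_zero.1 hy
  have hchar : ∀ r : ℝ, r ≠ 0 → characteristic f ⊤ r = Real.posLog ‖c‖ := by
    intro r hr
    rw [characteristic_congr_codiscrete hcd hr]
    simp [characteristic]
  apply absurd h
  rw [not_lt]
  have h0 : ((0 : ℝ) : EReal) = 0 := rfl
  rw [← h0]
  apply limsup_le_real
  intro ε hε
  have hlim : Tendsto (fun r : ℝ => Real.log (Real.posLog ‖c‖) / Real.log r) atTop (𝓝 0) :=
    Tendsto.div_atTop tendsto_const_nhds Real.tendsto_log_atTop
  filter_upwards [hlim.eventually_le_const hε, eventually_gt_atTop 1] with r h1 h2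
  rw [zero_add, hchar r (by linarith)]
  exact h1

theorem T_mono {f : ℂ → ℂ} (hf : Meromorphic f) : MonotoneOn (characteristic f ⊤) (Set.Ici 1) :=
  (characteristic_monotoneOn hf).mono fun _ hx => Set.mem_Ioi.2 (one_pos.trans_le (Set.mem_Ici.1 hx))

theorem big_of_order {f : ℂ → ℂ} {t : ℝ} (h : (t : EReal) ≤ order f) {s : ℝ} (h0 : 0 < s)
    (hs : s < t) (M X : ℝ) : ∃ x ≥ X, M * x ^ s ≤ characteristic f ⊤ x := by
  by_contra hcon
  push Not at hcon
  have h1 : order f ≤ ((s + (t - s) / 2 : ℝ) : EReal) := by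
    apply limsup_le_real
    intro ε hε
    have h2 : ∀ x, max X 1 ≤ x → characteristic f ⊤ x ≤ max M 1 * x ^ s := by
      intro x hx
      have hx1 : 1 ≤ x := (le_max_right _ _).trans hx
      refine (hcon x ((le_max_left _ _).trans hx)).le.trans ?_
      gcongr
      exact le_max_left _ _
    filter_upwards [pf8_le h0 (le_max_right M 1) h2
      (fun x hx => characteristic_nonneg hx) (half_pos (sub_pos.2 hs))] with r hr
    linarith
  have h3 : (t : EReal) ≤ ((s + (t - s) / 2 : ℝ) : EReal) := h.trans h1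
  have h4 : t ≤ s + (t - s) / 2 := by exact_mod_cast h3
  linarith

theorem small_of_lowerOrder {f : ℂ → ℂ} {t : ℝ} (ht : 0 < t) (h : lowerOrder f ≤ (t : EReal)) {s : ℝ}
    (hs : t < s) {ε : ℝ} (hε : 0 < ε) (X : ℝ) : ∃ x ≥ X, characteristic f ⊤ x ≤ ε * x ^ s := by
  by_contra hcon
  push Not at hcon
  have h1 : ((s - (s - t) / 2 : ℝ) : EReal) ≤ lowerOrder f := by
    refine le_liminf_of_le (by isBoundedDefault) ?_
    filter_upwards [pf8_ge hε (fun x hx => (hcon x hx).le) (half_pos (sub_pos.2 hs))] with r hr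
    exact_mod_cast hr
  have h3 : ((s - (s - t) / 2 : ℝ) : EReal) ≤ (t : EReal) := h1.trans h
  have h4 : s - (s - t) / 2 ≤ t := by exact_mod_cast h3
  linarith

end Pool.Agent.PfA
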