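import Pool.Agent.PfA.CoreMain
import Pool.Agent.PfA.Maj
import Pool.Agent.PfA.Core2
import Pool.Agent.PfA.Core3
import Pool.Agent.PfA.Order

/-! MP_f2c8f8_an, project PfA, row PF-22 -/

set_option autoImplicit false

open Filter MeasureTheory ValueDistribution Metric
open scoped ComplexConjugate Topology

noncomputable section

namespace Pool.Agent.PfA

open Pool.Agent.H9.Pf

theorem pf22_sn_pos {t : ℝ} (hn : NonInt t) : 0 < sn t := by
  unfold sn
  rw [abs_pos, Real.sin_ne_zero_iff]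
  intro n h
  apply hn n
  have hpi := Real.pi_ne_zero
  have h1 : Real.pi * n = Real.pi * t := by rw [← h]; ring
  exact mul_left_cancel₀ hpi h1

theorem pf22_core {f : ℂ → ℂ} (hf : Meromorphic f)
    (hne : ∀ c z : ℂ, meromorphicOrderAt (fun z => f z - c) z ≠ ⊤) {a b : WithTop ℂ}
    (hab : a ≠ b) : ∃ (E : Set ℝ) (C : ℝ),
      Core (fun z => ll f a z - ll f b z) (fun z => dd f a z - dd f b z) E
        (fun r => logCounting f a r + logCounting f b r) (characteristic f ⊤) C := by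
  obtain ⟨E, hE⟩ := dat_ll hf hne a b
  obtain ⟨C, hC, h⟩ := T_le hf hne hab
  exact ⟨E, C, ⟨hE, hC, fun r hr => NI_eq hf hne hab hr, T_mono hf, fun r hr => (h r hr).1,
    fun r hr => (h r hr).2.1, fun r hr => (h r hr).2.2⟩⟩

theorem pf22_mp {C t : ℝ} (ht : 1 ≤ t) (hn : NonInt t) {p : ℕ} (hp : 1 ≤ p) (hC : 0 < C)
    (h : ∀ M : ℕ, √(∑ n ∈ Finset.Icc 1 M, BB t t ⌊t⌋₊ n ^ 2) ≤ Real.pi * t / (2 * sn t) + C * √t ∧
      ∀ y : ℝ, 0 ≤ y → y ≤ 2 * Real.pi / p → ∑ n ∈ Finset.Icc 1 M,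
        BB t t ⌊t⌋₊ n ^ 2 * ‖Complex.exp ((((n : ℝ) - p) * y : ℝ) * Complex.I) - 1‖ ^ 2 ≤
          (C * √t) ^ 2) (M : ℕ) (b : ℕ → ℂ) (hb : TU M b) :
    mp (BB t t ⌊t⌋₊) M b ≤ 1 + 2 * t / sn t + (4 / Real.pi + 2) * C * √t := by
  have hs := pf22_sn_pos hn
  have hpi := Real.pi_pos
  have h1 := maj hb (fun n => (BB_pos ht hn n).le) hp (by positivity : 0 ≤ C * √t) (h M).2
  have h2 : BB t t ⌊t⌋₊ 0 = 1 := by simp [BB]
  have h3 : 4 / Real.pi * √(∑ n ∈ Finset.Icc 1 M, BB t t ⌊t⌋₊ n ^ 2) ≤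
      4 / Real.pi * (Real.pi * t / (2 * sn t) + C * √t) :=
    mul_le_mul_of_nonneg_left (h M).1 (by positivity)
  have h4 : 4 / Real.pi * (Real.pi * t / (2 * sn t) + C * √t) =
      2 * t / sn t + 4 / Real.pi * C * √t := by
    field_simp
    ring
  rw [h2] at h1
  linarith

theorem lower : ∃ C : ℝ, 0 < C ∧ ∀ f : ℂ → ℂ, Meromorphic f → ∀ a b : WithTop ℂ, a ≠ b →
    ∀ t : ℝ, 1 ≤ t → NonInt t → lowerOrder f ≤ (t : EReal) → (t : EReal) ≤ order f →
    ((sn t / t / (1 + C * sn t / √t) : ℝ) : EReal) ≤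
      limsup (fun r : ℝ => (((logCounting f a r + logCounting f b r) /
        characteristic f ⊤ r : ℝ) : EReal)) atTop := by
  obtain ⟨C0, hC0, hnum⟩ := num
  have hpi := Real.pi_pos
  refine ⟨1 + (2 / Real.pi + 1) * C0, by positivity, ?_⟩
  intro f hf a b hab t ht hn hlow hord
  have ht0 : 0 < t := by linarith
  have hs := pf22_sn_pos hn
  have hst : 0 < √t := Real.sqrt_pos.2 ht0
  obtain ⟨p, hp, hM⟩ := hnum t ht hn
  set S : ℝ := 1 + 2 * t / sn t + (4 / Real.pi + 2) * C0 * √t with hS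
  have hS0 : 0 < S := by positivity
  have hord0 : 0 < order f := lt_of_lt_of_le (by exact_mod_cast ht0) hord
  have hne := order_ne_top_of_order hf hord0
  obtain ⟨E, C, hcore⟩ := pf22_core hf hne hab
  have key : ∀ κ : ℝ, 0 < κ → κ * (1 + S) < 2 → (κ : EReal) ≤
      limsup (fun r : ℝ => (((logCounting f a r + logCounting f b r) /
        characteristic f ⊤ r : ℝ) : EReal)) atTop := by
    intro κ hκ hκ2
    refine le_limsup_of_frequently_le ?_
    rw [frequently_atTop]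
    intro X
    obtain ⟨r, hr, hT, hN⟩ := core_main hcore ht hn (fun s h0 h1 M X => big_of_order hord h0 h1 M X)
      (fun s h1 ε hε X => small_of_lowerOrder ht0 hlow h1 hε X)
      (fun M b hb => pf22_mp ht hn hp hC0 hM M b hb) hκ hκ2 X
    refine ⟨r, hr, ?_⟩
    have : κ ≤ (logCounting f a r + logCounting f b r) / characteristic f ⊤ r := by
      rw [le_div_iff₀ hT]
      exact hN.le
    exact_mod_cast this
  -- the value `2 / (1 + S)`
  have h1 : sn t / t / (1 + (1 + (2 / Real.pi + 1) * C0) * sn t / √t) ≤ 2 / (1 + S) := by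
    have e1 : 2 / (1 + S) = sn t / t / (1 + (sn t / t + (2 / Real.pi + 1) * C0 * (√t * sn t / t))) := by
      rw [hS]
      field_simp
      ring
    have e2 : √t * sn t / t = sn t / √t := by
      rw [div_eq_div_iff ht0.ne' hst.ne']
      nlinarith [Real.mul_self_sqrt ht0.le]
    have e3 : sn t / t ≤ sn t / √t := by
      refine div_le_div_of_nonneg_left hs.le hst ?_
      rw [Real.sqrt_le_left (by linarith)]
      nlinarith
    rw [e1, e2]
    refine div_le_div_of_nonneg_left (by positivity) (by positivity) ?_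
    have e4 : (1 + (2 / Real.pi + 1) * C0) * sn t / √t =
        sn t / √t + (2 / Real.pi + 1) * C0 * (sn t / √t) := by ring
    rw [e4]
    linarith
  refine le_trans (EReal.coe_le_coe_iff.2 h1) ?_
  refine le_of_forall_lt fun c hc => ?_
  obtain ⟨x, hcx, hx⟩ := EReal.lt_iff_exists_real_btwn.1 hc
  have hx' : x < 2 / (1 + S) := by exact_mod_cast hx
  obtain ⟨κ, h2, h3⟩ := exists_between (max_lt hx' (by positivity : (0 : ℝ) < 2 / (1 + S)))
  have h4 : κ * (1 + S) < 2 := by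
    rwa [lt_div_iff₀ (by positivity)] at h3
  have h5 : x < κ := (le_max_left _ _).trans_lt h2
  have h6 : 0 < κ := (le_max_right _ _).trans_lt h2
  exact hcx.trans_le ((by exact_mod_cast h5.le : (x : EReal) ≤ κ).trans (key κ h6 h4))

end Pool.Agent.PfA
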