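import Pool.Agent.PfA.Defs

/-! MP_f2c8f8_an, project PfA, row PF-16 -/

set_option autoImplicit false

open Filter MeasureTheory ValueDistribution Metric
open scoped ComplexConjugate Topology

noncomputable section

namespace Pool.Agent.PfA

theorem pf16_orth (k : ℤ) : ∫ θ in (0 : ℝ)..(2 * Real.pi),
    Complex.exp ((k : ℂ) * (θ : ℂ) * Complex.I) = if k = 0 then (2 * Real.pi : ℂ) else 0 := by
  split_ifs with h
  · subst h
    simp
  · have hk : (k : ℂ) * Complex.I ≠ 0 := mul_ne_zero (Int.cast_ne_zero.2 h) Complex.I_ne_zero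
    have h1 : ∀ θ : ℝ, Complex.exp ((k : ℂ) * (θ : ℂ) * Complex.I) =
        Complex.exp ((k : ℂ) * Complex.I * (θ : ℂ)) := fun θ => by congr 1; ring
    simp_rw [h1]
    rw [integral_exp_mul_complex hk]
    have h2 : (k : ℂ) * Complex.I * ((2 * Real.pi : ℝ) : ℂ) = (k : ℂ) * (2 * Real.pi * Complex.I) := by
      push_cast; ring
    rw [h2, Complex.exp_int_mul_two_pi_mul_I]
    simp

/-- the trigonometric sum -/
def pf16S (M : ℕ) (c : ℕ → ℂ) (θ : ℝ) : ℂ :=
  ∑ n ∈ Finset.Icc 1 M, c n * Complex.exp ((n : ℂ) * (θ : ℂ) * Complex.I)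

theorem pf16S_cont (M : ℕ) (c : ℕ → ℂ) : Continuous (pf16S M c) := by
  unfold pf16S
  fun_prop

theorem pf16_l2 (M : ℕ) (c : ℕ → ℂ) : ∫ θ in (0 : ℝ)..(2 * Real.pi), ‖pf16S M c θ‖ ^ 2 =
    2 * Real.pi * ∑ n ∈ Finset.Icc 1 M, ‖c n‖ ^ 2 := by
  have h1 : ((∫ θ in (0 : ℝ)..(2 * Real.pi), ‖pf16S M c θ‖ ^ 2 : ℝ) : ℂ) =
      ((2 * Real.pi * ∑ n ∈ Finset.Icc 1 M, ‖c n‖ ^ 2 : ℝ) : ℂ) := by
    rw [← intervalIntegral.integral_ofReal]
    have h2 : ∀ θ : ℝ, ((‖pf16S M c θ‖ ^ 2 : ℝ) : ℂ) =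
        ∑ n ∈ Finset.Icc 1 M, ∑ m ∈ Finset.Icc 1 M, (c n * conj (c m)) *
          Complex.exp ((((n : ℤ) - (m : ℤ) : ℤ) : ℂ) * (θ : ℂ) * Complex.I) := by
      intro θ
      rw [Complex.ofReal_pow, ← Complex.mul_conj']
      unfold pf16S
      rw [map_sum, Finset.sum_mul_sum]
      refine Finset.sum_congr rfl fun n _ => Finset.sum_congr rfl fun m _ => ?_
      rw [map_mul, ← Complex.exp_conj]
      have h3 : conj ((m : ℂ) * (θ : ℂ) * Complex.I) = -((m : ℂ) * (θ : ℂ) * Complex.I) := by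
        rw [map_mul, map_mul, Complex.conj_I, Complex.conj_ofReal, Complex.conj_natCast]; ring
      rw [h3]
      have h4 : Complex.exp ((((n : ℤ) - (m : ℤ) : ℤ) : ℂ) * (θ : ℂ) * Complex.I) =
          Complex.exp ((n : ℂ) * (θ : ℂ) * Complex.I) *
            Complex.exp (-((m : ℂ) * (θ : ℂ) * Complex.I)) := by
        rw [← Complex.exp_add]; congr 1; push_cast; ring
      rw [h4]; ring
    simp_rw [h2]
    rw [intervalIntegral.integral_finset_sum]
    · have h5 : ∀ n ∈ Finset.Icc 1 M, ∫ θ in (0 : ℝ)..(2 * Real.pi), ∑ m ∈ Finset.Icc 1 M,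
          (c n * conj (c m)) * Complex.exp ((((n : ℤ) - (m : ℤ) : ℤ) : ℂ) * (θ : ℂ) * Complex.I) =
          2 * Real.pi * ((‖c n‖ ^ 2 : ℝ) : ℂ) := by
        intro n hn
        rw [intervalIntegral.integral_finset_sum]
        · simp_rw [intervalIntegral.integral_const_mul, pf16_orth]
          rw [Finset.sum_eq_single n]
          · rw [if_pos (by simp), Complex.mul_conj']; push_cast; ring
          · intro m _ hmn
            rw [if_neg, mul_zero]
            intro h
            exact hmn (by omega)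
          · intro h; exact absurd hn h
        · intro m _
          apply Continuous.intervalIntegrable
          fun_prop
      rw [Finset.sum_congr rfl h5, ← Finset.mul_sum]
      push_cast
      ring
    · intro n _
      apply Continuous.intervalIntegrable
      fun_prop
  exact_mod_cast h1

theorem pf16_l1 (M : ℕ) (c : ℕ → ℂ) {l : ℝ} (hl : 0 ≤ l)
    (h : ∑ n ∈ Finset.Icc 1 M, ‖c n‖ ^ 2 ≤ l ^ 2) :
    ∫ θ in (0 : ℝ)..(2 * Real.pi), ‖pf16S M c θ‖ ≤ 2 * Real.pi * l := by
  have hpi := Real.pi_pos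
  have key : ∀ s : ℝ, 0 < s → ∑ n ∈ Finset.Icc 1 M, ‖c n‖ ^ 2 ≤ s ^ 2 →
      ∫ θ in (0 : ℝ)..(2 * Real.pi), ‖pf16S M c θ‖ ≤ 2 * Real.pi * s := by
    intro s hs h1
    have h2 : ∫ θ in (0 : ℝ)..(2 * Real.pi), ‖pf16S M c θ‖ ≤
        ∫ θ in (0 : ℝ)..(2 * Real.pi), ((2 * s)⁻¹ * ‖pf16S M c θ‖ ^ 2 + s / 2) := by
      apply intervalIntegral.integral_mono_on (by positivity)
      · exact ((pf16S_cont M c).norm).intervalIntegrable _ _
      · apply Continuous.intervalIntegrable
        have := pf16S_cont M c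
        fun_prop
      · intro θ _
        have h3 : 0 ≤ (2 * s)⁻¹ * (‖pf16S M c θ‖ - s) ^ 2 := by positivity
        have h4 : (2 * s)⁻¹ * (‖pf16S M c θ‖ - s) ^ 2 =
            (2 * s)⁻¹ * ‖pf16S M c θ‖ ^ 2 + s / 2 - ‖pf16S M c θ‖ := by
          field_simp; ring
        linarith
    rw [intervalIntegral.integral_add, intervalIntegral.integral_const_mul, pf16_l2,
      intervalIntegral.integral_const] at h2
    · have h5 : (2 * s)⁻¹ * (2 * Real.pi * ∑ n ∈ Finset.Icc 1 M, ‖c n‖ ^ 2) ≤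
          (2 * s)⁻¹ * (2 * Real.pi * s ^ 2) := by gcongr
      have h6 : (2 * s)⁻¹ * (2 * Real.pi * s ^ 2) = Real.pi * s := by field_simp
      simp only [sub_zero, smul_eq_mul] at h2
      nlinarith
    · apply Continuous.intervalIntegrable
      have := pf16S_cont M c
      fun_prop
    · exact intervalIntegrable_const
  refine le_of_forall_pos_le_add fun ε hε => ?_
  have h1 := key (l + ε / (2 * Real.pi)) (by positivity)
    (h.trans (by gcongr; linarith [show 0 < ε / (2 * Real.pi) by positivity]))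
  have h2 : 2 * Real.pi * (l + ε / (2 * Real.pi)) = 2 * Real.pi * l + ε := by field_simp
  linarith

theorem pf16_abs_cos : ∫ u in (0 : ℝ)..(2 * Real.pi), |Real.cos u| = 4 := by
  have hpi := Real.pi_pos
  have hper : Function.Periodic (fun u : ℝ => |Real.cos u|) (2 * Real.pi) := fun u => by
    simp only [Real.cos_add_two_pi]
  have h0 := hper.intervalIntegral_add_eq 0 (-(Real.pi / 2))
  rw [zero_add] at h0
  rw [h0]
  have hi : ∀ a b : ℝ, IntervalIntegrable (fun u : ℝ => |Real.cos u|) volume a b := fun a b =>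
    (Real.continuous_cos.abs).intervalIntegrable _ _
  rw [← intervalIntegral.integral_add_adjacent_intervals (hi _ (Real.pi / 2)) (hi _ _)]
  have h1 : ∫ u in (-(Real.pi / 2))..(Real.pi / 2), |Real.cos u| =
      ∫ u in (-(Real.pi / 2))..(Real.pi / 2), Real.cos u := by
    apply intervalIntegral.integral_congr
    intro u hu
    rw [Set.uIcc_of_le (by linarith)] at hu
    exact abs_of_nonneg (Real.cos_nonneg_of_mem_Icc hu)
  have h2 : ∫ u in (Real.pi / 2)..(-(Real.pi / 2) + 2 * Real.pi), |Real.cos u| =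
      ∫ u in (Real.pi / 2)..(-(Real.pi / 2) + 2 * Real.pi), -Real.cos u := by
    apply intervalIntegral.integral_congr
    intro u hu
    rw [Set.uIcc_of_le (by linarith)] at hu
    exact abs_of_nonpos (Real.cos_nonpos_of_pi_div_two_le_of_le hu.1 (by linarith [hu.2]))
  rw [h1, h2, intervalIntegral.integral_neg, integral_cos, integral_cos, Real.sin_pi_div_two,
    Real.sin_neg, Real.sin_pi_div_two, Real.sin_add_two_pi, Real.sin_neg, Real.sin_pi_div_two]
  norm_num

/-- the mean of `|Re (e^(i u) z)|` -/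
theorem pf16_re (z : ℂ) : ∫ u in (0 : ℝ)..(2 * Real.pi),
    |(Complex.exp ((u : ℂ) * Complex.I) * z).re| = 4 * ‖z‖ := by
  have h1 : ∀ u : ℝ, |(Complex.exp ((u : ℂ) * Complex.I) * z).re| =
      ‖z‖ * |Real.cos (u + z.arg)| := by
    intro u
    conv_lhs => rw [← Complex.norm_mul_exp_arg_mul_I z]
    rw [mul_left_comm, ← Complex.exp_add, ← add_mul, ← Complex.ofReal_add, Complex.re_ofReal_mul,
      Complex.exp_ofReal_mul_I_re, abs_mul, abs_of_nonneg (norm_nonneg z)]
  simp_rw [h1]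
  rw [intervalIntegral.integral_const_mul]
  have hper : Function.Periodic (fun u : ℝ => |Real.cos u|) (2 * Real.pi) := fun u => by
    simp only [Real.cos_add_two_pi]
  rw [intervalIntegral.integral_comp_add_right (fun u => |Real.cos u|)]
  have h2 := hper.intervalIntegral_add_eq 0 z.arg
  rw [zero_add] at h2
  rw [zero_add, add_comm (2 * Real.pi), ← h2, pf16_abs_cos]
  ring

theorem pf16_rep {p : ℕ} (hp : 1 ≤ p) (z : ℂ) : ∫ y in (0 : ℝ)..(2 * Real.pi / p),
    |(Complex.exp ((((p : ℝ) * y : ℝ) : ℂ) * Complex.I) * z).re| = 4 / p * ‖z‖ := by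
  have hp0 : (p : ℝ) ≠ 0 := by positivity
  have h := intervalIntegral.integral_comp_mul_left (a := 0) (b := 2 * Real.pi / p)
    (fun u : ℝ => |(Complex.exp ((u : ℂ) * Complex.I) * z).re|) hp0
  rw [h, mul_zero, mul_div_cancel₀ _ hp0, pf16_re, smul_eq_mul]
  ring

/-- the `L¹` norm of the real part of a trigonometric polynomial, carrier frequency `p` -/
theorem l1_tp (M : ℕ) (a : ℕ → ℂ) {p : ℕ} (hp : 1 ≤ p) {E : ℝ} (hE : 0 ≤ E)
    (hE2 : ∀ y : ℝ, 0 ≤ y → y ≤ 2 * Real.pi / p → ∑ n ∈ Finset.Icc 1 M,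
      ‖a n‖ ^ 2 * ‖Complex.exp ((((n : ℝ) - p) * y : ℝ) * Complex.I) - 1‖ ^ 2 ≤ E ^ 2) :
    (2 * Real.pi)⁻¹ * ∫ θ in (0 : ℝ)..(2 * Real.pi), |2 * ∑ n ∈ Finset.Icc 1 M,
      (a n * Complex.exp ((n : ℂ) * (θ : ℂ) * Complex.I)).re| ≤
      4 / Real.pi * √(∑ n ∈ Finset.Icc 1 M, ‖a n‖ ^ 2) + 2 * E := by
  have hpi := Real.pi_pos
  have hp0 : (0 : ℝ) < p := by positivity
  have hre : ∀ θ : ℝ, |2 * ∑ n ∈ Finset.Icc 1 M,
      (a n * Complex.exp ((n : ℂ) * (θ : ℂ) * Complex.I)).re| = 2 * |(pf16S M a θ).re| := by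
    intro θ
    rw [abs_mul, abs_two]
    unfold pf16S
    rw [Complex.re_sum]
  simp_rw [hre]
  rw [intervalIntegral.integral_const_mul]
  set I0 : ℝ := ∫ θ in (0 : ℝ)..(2 * Real.pi), |(pf16S M a θ).re| with hI0
  have hc := pf16S_cont M a
  have hper : Function.Periodic (fun θ : ℝ => |(pf16S M a θ).re|) (2 * Real.pi) := by
    intro θ
    have : pf16S M a (θ + 2 * Real.pi) = pf16S M a θ := by
      unfold pf16S
      refine Finset.sum_congr rfl fun n _ => ?_
      congr 1
      rw [show (n : ℂ) * ((θ + 2 * Real.pi : ℝ) : ℂ) * Complex.I =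
        (n : ℂ) * (θ : ℂ) * Complex.I + (n : ℂ) * (2 * Real.pi * Complex.I) by push_cast; ring,
        Complex.exp_add, Complex.exp_nat_mul_two_pi_mul_I, mul_one]
    simp only [this]
  -- the inequality for each `y`
  have hy : ∀ y : ℝ, 0 ≤ y → y ≤ 2 * Real.pi / p → I0 ≤
      (∫ θ in (0 : ℝ)..(2 * Real.pi),
        |(Complex.exp ((((p : ℝ) * y : ℝ) : ℂ) * Complex.I) * pf16S M a θ).re|) +
        2 * Real.pi * E := by
    intro y hy0 hy1
    set c : ℕ → ℂ := fun n => a n * (Complex.exp ((((n : ℝ) - p) * y : ℝ) * Complex.I) - 1) with hcdef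
    have h1 : I0 = ∫ θ in (0 : ℝ)..(2 * Real.pi), |(pf16S M a (θ + y)).re| := by
      rw [intervalIntegral.integral_comp_add_right (fun θ => |(pf16S M a θ).re|)]
      have h2 := hper.intervalIntegral_add_eq 0 y
      rw [zero_add] at h2
      rw [hI0, h2, zero_add, add_comm y]
    have h2 : ∀ θ : ℝ, pf16S M a (θ + y) =
        Complex.exp ((((p : ℝ) * y : ℝ) : ℂ) * Complex.I) * pf16S M a θ +
        Complex.exp ((((p : ℝ) * y : ℝ) : ℂ) * Complex.I) * pf16S M c θ := by
      intro θ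
      unfold pf16S
      rw [Finset.mul_sum, Finset.mul_sum, ← Finset.sum_add_distrib]
      refine Finset.sum_congr rfl fun n _ => ?_
      have h3 : Complex.exp ((n : ℂ) * ((θ + y : ℝ) : ℂ) * Complex.I) =
          Complex.exp ((((p : ℝ) * y : ℝ) : ℂ) * Complex.I) *
            (Complex.exp ((((n : ℝ) - p) * y : ℝ) * Complex.I) *
              Complex.exp ((n : ℂ) * (θ : ℂ) * Complex.I)) := by
        rw [← Complex.exp_add, ← Complex.exp_add]
        congr 1
        push_cast
        ring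
      rw [h3, hcdef]
      ring
    have h3 : I0 ≤ ∫ θ in (0 : ℝ)..(2 * Real.pi),
        (|(Complex.exp ((((p : ℝ) * y : ℝ) : ℂ) * Complex.I) * pf16S M a θ).re| +
          ‖pf16S M c θ‖) := by
      rw [h1]
      apply intervalIntegral.integral_mono_on (by positivity)
      · apply Continuous.intervalIntegrable
        fun_prop
      · apply Continuous.intervalIntegrable
        have := pf16S_cont M c
        fun_prop
      · intro θ _
        rw [h2, Complex.add_re]
        refine (abs_add_le _ _).trans ?_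
        gcongr
        refine (Complex.abs_re_le_norm _).trans ?_
        rw [norm_mul, Complex.norm_exp_ofReal_mul_I, one_mul]
    rw [intervalIntegral.integral_add] at h3
    · refine h3.trans ?_
      gcongr
      apply pf16_l1 M c hE
      refine le_trans (le_of_eq ?_) (hE2 y hy0 hy1)
      refine Finset.sum_congr rfl fun n _ => ?_
      rw [hcdef, norm_mul, mul_pow]
    · apply Continuous.intervalIntegrable
      fun_prop
    · exact (pf16S_cont M c).norm.intervalIntegrable _ _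
  -- average over `y`
  have hav : 2 * Real.pi / p * I0 ≤
      (∫ y in (0 : ℝ)..(2 * Real.pi / p), ∫ θ in (0 : ℝ)..(2 * Real.pi),
        |(Complex.exp ((((p : ℝ) * y : ℝ) : ℂ) * Complex.I) * pf16S M a θ).re|) +
        2 * Real.pi / p * (2 * Real.pi * E) := by
    have hcc : Continuous fun y : ℝ => ∫ θ in (0 : ℝ)..(2 * Real.pi),
        |(Complex.exp ((((p : ℝ) * y : ℝ) : ℂ) * Complex.I) * pf16S M a θ).re| := by
      apply intervalIntegral.continuous_parametric_intervalIntegral_of_continuous'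
      fun_prop
    have h4 : ∫ y in (0 : ℝ)..(2 * Real.pi / p), I0 ≤ ∫ y in (0 : ℝ)..(2 * Real.pi / p),
        ((∫ θ in (0 : ℝ)..(2 * Real.pi),
          |(Complex.exp ((((p : ℝ) * y : ℝ) : ℂ) * Complex.I) * pf16S M a θ).re|) +
          2 * Real.pi * E) := by
      apply intervalIntegral.integral_mono_on (by positivity)
      · exact intervalIntegrable_const
      · exact (hcc.add continuous_const).intervalIntegrable _ _
      · intro y hyy
        exact hy y hyy.1 hyy.2
    rw [intervalIntegral.integral_add (hcc.intervalIntegrable _ _) intervalIntegrable_const,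
      intervalIntegral.integral_const, intervalIntegral.integral_const] at h4
    simpa only [sub_zero, smul_eq_mul] using h4
  have hsw : (∫ y in (0 : ℝ)..(2 * Real.pi / p), ∫ θ in (0 : ℝ)..(2 * Real.pi),
      |(Complex.exp ((((p : ℝ) * y : ℝ) : ℂ) * Complex.I) * pf16S M a θ).re|) =
      ∫ θ in (0 : ℝ)..(2 * Real.pi), ∫ y in (0 : ℝ)..(2 * Real.pi / p),
        |(Complex.exp ((((p : ℝ) * y : ℝ) : ℂ) * Complex.I) * pf16S M a θ).re| := by
    apply MeasureTheory.intervalIntegral_intervalIntegral_swap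
    have hcont : Continuous (Function.uncurry fun (y θ : ℝ) =>
        |(Complex.exp ((((p : ℝ) * y : ℝ) : ℂ) * Complex.I) * pf16S M a θ).re|) := by
      unfold Function.uncurry
      fun_prop
    exact (hcont.continuousOn.integrableOn_compact
      ((isCompact_uIcc (a := (0 : ℝ)) (b := 2 * Real.pi / p)).prod
        (isCompact_uIcc (a := (0 : ℝ)) (b := 2 * Real.pi)))).mono_set
      (Set.prod_mono Set.uIoc_subset_uIcc Set.uIoc_subset_uIcc)
  rw [hsw] at hav
  simp_rw [pf16_rep hp] at hav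
  rw [intervalIntegral.integral_const_mul] at hav
  have hl1 := pf16_l1 M a (Real.sqrt_nonneg (∑ n ∈ Finset.Icc 1 M, ‖a n‖ ^ 2))
    (Real.sq_sqrt (Finset.sum_nonneg fun _ _ => by positivity)).ge
  set S : ℝ := √(∑ n ∈ Finset.Icc 1 M, ‖a n‖ ^ 2)
  have h5 : 2 * Real.pi / p * I0 ≤ 4 / p * (2 * Real.pi * S) +
      2 * Real.pi / p * (2 * Real.pi * E) := hav.trans (by gcongr)
  have h6 : I0 ≤ 4 * S + 2 * Real.pi * E := by
    have h7 : (2 * Real.pi / p)⁻¹ * (2 * Real.pi / p * I0) ≤ (2 * Real.pi / p)⁻¹ *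
        (4 / p * (2 * Real.pi * S) + 2 * Real.pi / p * (2 * Real.pi * E)) := by gcongr
    have h8 : (2 * Real.pi / p)⁻¹ * (2 * Real.pi / p * I0) = I0 := by field_simp
    have h9 : (2 * Real.pi / p)⁻¹ *
        (4 / p * (2 * Real.pi * S) + 2 * Real.pi / p * (2 * Real.pi * E)) =
        4 * S + 2 * Real.pi * E := by field_simp
    linarith
  have h10 : (2 * Real.pi)⁻¹ * (2 * I0) ≤ (2 * Real.pi)⁻¹ * (2 * (4 * S + 2 * Real.pi * E)) := by
    gcongr
  refine h10.trans (le_of_eq ?_)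
  field_simp

end Pool.Agent.PfA
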