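import Pool.Agent.PfA.Defs

/-! MP_f2c8f8_an, project PfA, row PF-9 -/

set_option autoImplicit false

open Filter MeasureTheory ValueDistribution Metric
open scoped ComplexConjugate Topology

noncomputable section

namespace Pool.Agent.PfA

/-- almost maximal values -/
private theorem pf9_sup {S : Set ℝ} {F : ℝ → ℝ} {t0 : ℝ} (h0 : t0 ∈ S) (hp : 0 < F t0) {B : ℝ}
    (hB : ∀ t ∈ S, F t ≤ B) {κ : ℝ} (hκ : 1 < κ) :
    ∃ t ∈ S, 0 < F t ∧ ∀ u ∈ S, F u ≤ κ * F t := by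
  have hne : (F '' S).Nonempty := ⟨F t0, t0, h0, rfl⟩
  have hbd : BddAbove (F '' S) := ⟨B, by
    rintro _ ⟨t, ht, rfl⟩
    exact hB t ht⟩
  set s : ℝ := sSup (F '' S) with hs
  have hs0 : 0 < s := hp.trans_le (le_csSup hbd ⟨t0, h0, rfl⟩)
  have hκ0 : 0 < κ := by linarith
  have h1 : s / κ < s := by
    rw [div_lt_iff₀ hκ0]
    nlinarith
  obtain ⟨_, ⟨t, ht, rfl⟩, h2⟩ := exists_lt_of_lt_csSup hne h1
  refine ⟨t, ht, (div_pos hs0 hκ0).trans h2, fun u hu => ?_⟩
  have h3 : F u ≤ s := le_csSup hbd ⟨u, hu, rfl⟩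
  rw [div_lt_iff₀ hκ0] at h2
  linarith

theorem exists_peak {T : ℝ → ℝ} (hmono : MonotoneOn T (Set.Ici 1)) {s1 s2 : ℝ} (h0 : 0 < s1)
    (h12 : s1 < s2) (hbig : ∀ M X : ℝ, ∃ t ≥ X, M * t ^ s1 ≤ T t)
    (hsmall : ∀ ε : ℝ, 0 < ε → ∀ X : ℝ, ∃ t ≥ X, T t ≤ ε * t ^ s2) {E : Set ℝ} (hE : E.Countable)
    {η : ℝ} (hη : 0 < η) (A M X : ℝ) :
    ∃ r : ℝ, X ≤ r ∧ 1 ≤ r ∧ r ∉ E ∧ 0 < T r ∧ M * r ^ s1 ≤ T r ∧
      (∀ t, 1 ≤ t → t ≤ r → T t ≤ (1 + η) * T r * (t / r) ^ s1) ∧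
      (∀ t, r ≤ t → t ≤ A * r → T t ≤ (1 + η) * T r * (t / r) ^ s2) := by
  wlog hA : 1 ≤ A generalizing A
  · obtain ⟨r, h1, h2, h3, h4, h5, h6, h7⟩ := this (max A 1) (le_max_right _ _)
    refine ⟨r, h1, h2, h3, h4, h5, h6, fun t h8 h9 => h7 t h8 (h9.trans ?_)⟩
    exact mul_le_mul_of_nonneg_right (le_max_left _ _) (by linarith)
  have hs2 : 0 < s2 := h0.trans h12
  -- the constants
  obtain ⟨κ, hκ, hκ3⟩ : ∃ κ : ℝ, 1 < κ ∧ κ ^ 3 ≤ 1 + η := by
    refine ⟨1 + min 1 (η / 7), by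
      have : 0 < min 1 (η / 7) := lt_min one_pos (by positivity)
      linarith, ?_⟩
    have h1 : min 1 (η / 7) ≤ 1 := min_le_left _ _
    have h2 : min 1 (η / 7) ≤ η / 7 := min_le_right _ _
    have h3 : 0 ≤ min 1 (η / 7) := le_min zero_le_one (by positivity)
    generalize min 1 (η / 7) = x at h1 h2 h3
    have h4 : x ^ 2 ≤ x := by nlinarith
    have h5 : x ^ 3 ≤ x := by nlinarith [mul_nonneg h3 h3]
    nlinarith
  have hκ0 : 0 < κ := by linarith
  set d : ℝ := κ ^ (1 / s2) with hd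
  have hd1 : 1 < d := Real.one_lt_rpow hκ (by positivity)
  have hd0 : 0 < d := by linarith
  have hds2 : d ^ s2 = κ := by
    rw [hd, ← Real.rpow_mul hκ0.le, one_div_mul_cancel hs2.ne', Real.rpow_one]
  have hds1 : d ^ s1 ≤ κ := by
    rw [← hds2]
    exact Real.rpow_le_rpow_of_exponent_le hd1.le h12.le
  -- the first point
  set Y : ℝ := max X 1 with hY
  have hY1 : 1 ≤ Y := le_max_right _ _
  obtain ⟨y, hyY, hy⟩ := hbig (κ * (|T Y| + κ ^ 2 * |M| + 1)) Y
  have hy1 : 1 ≤ y := hY1.trans hyY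
  have hC0 : 0 < |T Y| + κ ^ 2 * |M| + 1 := by positivity
  have hyF : κ * (|T Y| + κ ^ 2 * |M| + 1) ≤ T y / y ^ s1 := by
    rw [le_div_iff₀ (Real.rpow_pos_of_pos (by linarith) _)]
    exact hy
  have hFb : ∀ b : ℝ, 1 ≤ b → ∀ s : ℝ, 0 ≤ s → ∀ t : ℝ, 1 ≤ t → t ≤ b → T t / t ^ s ≤ |T b| := by
    intro b hb s hs t ht htb
    have h1 : T t ≤ |T b| := (hmono ht hb htb).trans (le_abs_self _)
    have h2 : 1 ≤ t ^ s := Real.one_le_rpow ht hs
    rw [div_le_iff₀ (by linarith)]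
    nlinarith [abs_nonneg (T b)]
  obtain ⟨t1, ⟨ht1a, ht1b⟩, hF1p, hP1⟩ := pf9_sup (S := Set.Icc 1 y) (F := fun t => T t / t ^ s1)
    (t0 := y) ⟨hy1, le_rfl⟩ (lt_of_lt_of_le (by positivity) hyF)
    (fun t ht => hFb y hy1 s1 h0.le t ht.1 ht.2) hκ
  have hF1 : |T Y| + κ ^ 2 * |M| + 1 ≤ T t1 / t1 ^ s1 := by
    have h1 := hyF.trans (hP1 y ⟨hy1, le_rfl⟩)
    exact le_of_mul_le_mul_left h1 hκ0
  have ht1Y : Y < t1 := by
    by_contra h
    have h1 := hFb Y hY1 s1 h0.le t1 ht1a (not_lt.1 h)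
    have h2 : 0 ≤ κ ^ 2 * |M| := by positivity
    linarith
  have ht1p : 0 < t1 := by linarith
  have hTt1 : 0 < T t1 := by
    have h1 := mul_pos hF1p (Real.rpow_pos_of_pos ht1p s1)
    rwa [div_mul_cancel₀ _ (Real.rpow_pos_of_pos ht1p s1).ne'] at h1
  have hF2p : 0 < T t1 / t1 ^ s2 := div_pos hTt1 (Real.rpow_pos_of_pos ht1p _)
  -- the far point
  have hAd : 0 < A * d := by positivity
  obtain ⟨t3, ht13, ht3⟩ := hsmall ((T t1 / t1 ^ s2) / (κ * (A * d) ^ s2)) (by positivity) t1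
  have ht3p : 0 < t3 := by linarith
  have ht31 : 1 ≤ t3 := by linarith
  -- the second point
  obtain ⟨t2, ⟨ht2a, ht2b⟩, hF22, hP2⟩ := pf9_sup (S := Set.Icc t1 t3)
    (F := fun t => T t / t ^ s2) (t0 := t1) ⟨le_rfl, ht13⟩ hF2p
    (fun t ht => hFb t3 ht31 s2 hs2.le t (ht1a.trans ht.1) ht.2) hκ
  have ht2p : 0 < t2 := by linarith
  have ht21 : 1 ≤ t2 := by linarith
  have hTt2 : 0 < T t2 := by
    have h1 := mul_pos hF22 (Real.rpow_pos_of_pos ht2p s2)
    rwa [div_mul_cancel₀ _ (Real.rpow_pos_of_pos ht2p s2).ne'] at h1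
  have hTt3 : T t2 ≤ T t3 := hmono ht21 ht31 ht2b
  -- the third point is far away
  have hfar : A * d * t2 ≤ t3 := by
    have h1 : T t1 / t1 ^ s2 ≤ κ * (T t2 / t2 ^ s2) := hP2 t1 ⟨le_rfl, ht13⟩
    have h2 : T t2 ≤ κ * (T t2 / t2 ^ s2) / (κ * (A * d) ^ s2) * t3 ^ s2 := by
      refine hTt3.trans (ht3.trans ?_)
      gcongr
    have h3 : κ * (T t2 / t2 ^ s2) / (κ * (A * d) ^ s2) * t3 ^ s2 =
        T t2 * (t3 / (A * d * t2)) ^ s2 := by
      rw [Real.div_rpow ht3p.le (by positivity), Real.mul_rpow hAd.le ht2p.le]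
      have e1 : 0 < t2 ^ s2 := Real.rpow_pos_of_pos ht2p _
      have e2 : 0 < (A * d) ^ s2 := Real.rpow_pos_of_pos hAd _
      field_simp
    rw [h3] at h2
    have h4 : 1 ≤ (t3 / (A * d * t2)) ^ s2 := by
      by_contra h
      nlinarith [not_le.1 h]
    have h5 : 1 ≤ t3 / (A * d * t2) := by
      by_contra h
      have := Real.rpow_lt_one (by positivity) (not_le.1 h) hs2
      linarith
    rwa [one_le_div (by positivity)] at h5
  -- a regular radius
  obtain ⟨r, ⟨hr1, hr2⟩, hrE⟩ : ∃ r ∈ Set.Ioo t2 (d * t2), r ∉ E := by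
    obtain ⟨r, h1, h2⟩ := (hE.dense_compl ℝ).exists_between
      (show t2 < d * t2 by nlinarith)
    exact ⟨r, h2, h1⟩
  have hrp : 0 < r := by linarith
  have hr1' : 1 ≤ r := by linarith
  have hTr : T t2 ≤ T r := hmono ht21 hr1' hr1.le
  have hTrp : 0 < T r := hTt2.trans_le hTr
  have hrt : r / t2 ≤ d := by
    rw [div_le_iff₀ ht2p]
    exact hr2.le
  have hrt1 : (r / t2) ^ s1 ≤ κ :=
    (Real.rpow_le_rpow (by positivity) hrt h0.le).trans hds1
  have hrt2 : (r / t2) ^ s2 ≤ κ :=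
    (Real.rpow_le_rpow (by positivity) hrt hs2.le).trans hds2.le
  -- estimates
  have L2 : ∀ t, t1 ≤ t → t ≤ t3 → T t ≤ κ * T t2 * (t / t2) ^ s2 := by
    intro t ha hb
    have htp : 0 < t := by linarith
    have h1 := hP2 t ⟨ha, hb⟩
    rw [div_le_iff₀ (Real.rpow_pos_of_pos htp _)] at h1
    refine h1.trans (le_of_eq ?_)
    rw [Real.div_rpow htp.le ht2p.le]
    ring
  have L3 : ∀ t, t1 ≤ t → t ≤ t2 → T t ≤ κ * T t2 * (t / t2) ^ s1 := by
    intro t ha hb
    have htp : 0 < t := by linarith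
    refine (L2 t ha (hb.trans ht2b)).trans ?_
    refine mul_le_mul_of_nonneg_left ?_ (by positivity)
    exact Real.rpow_le_rpow_of_exponent_ge (by positivity) ((div_le_one ht2p).2 hb) h12.le
  have L4 : ∀ t, 1 ≤ t → t ≤ t2 → T t ≤ κ ^ 2 * T t2 * (t / t2) ^ s1 := by
    intro t ha hb
    have htp : 0 < t := by linarith
    have hq : 0 ≤ (t / t2) ^ s1 := Real.rpow_nonneg (by positivity) _
    rcases le_total t1 t with h | h
    · refine (L3 t h hb).trans ?_
      refine mul_le_mul_of_nonneg_right (mul_le_mul_of_nonneg_right ?_ hTt2.le) hq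
      nlinarith
    · have h1 := hP1 t ⟨ha, h.trans ht1b⟩
      rw [div_le_iff₀ (Real.rpow_pos_of_pos htp _)] at h1
      have h2 := L3 t1 le_rfl ht2a
      have h3 : κ * (T t1 / t1 ^ s1) * t ^ s1 = κ * (T t1 * (t / t1) ^ s1) := by
        rw [Real.div_rpow htp.le ht1p.le]
        ring
      have h4 : (t1 / t2) ^ s1 * (t / t1) ^ s1 = (t / t2) ^ s1 := by
        rw [← Real.mul_rpow (by positivity) (by positivity)]
        congr 1
        field_simp
      calc T t ≤ κ * (T t1 * (t / t1) ^ s1) := h1.trans h3.le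
        _ ≤ κ * ((κ * T t2 * (t1 / t2) ^ s1) * (t / t1) ^ s1) := by
            refine mul_le_mul_of_nonneg_left ?_ hκ0.le
            exact mul_le_mul_of_nonneg_right h2 (Real.rpow_nonneg (by positivity) _)
        _ = κ ^ 2 * T t2 * ((t1 / t2) ^ s1 * (t / t1) ^ s1) := by ring
        _ = _ := by rw [h4]
  refine ⟨r, (le_max_left X 1).trans (by linarith), hr1', hrE, hTrp, ?_, ?_, ?_⟩
  · have h1 := L3 t1 le_rfl ht2a
    have h2 : r ^ s1 ≤ κ * t2 ^ s1 := by
      have h3 : r ^ s1 = (r / t2) ^ s1 * t2 ^ s1 := by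
        rw [← Real.mul_rpow (by positivity) ht2p.le, div_mul_cancel₀ _ ht2p.ne']
      rw [h3]
      exact mul_le_mul_of_nonneg_right hrt1 (Real.rpow_nonneg ht2p.le _)
    have h4 : κ ^ 2 * |M| * t1 ^ s1 ≤ T t1 := by
      have h5 : κ ^ 2 * |M| ≤ T t1 / t1 ^ s1 := by
        have := abs_nonneg (T Y)
        linarith
      rwa [le_div_iff₀ (Real.rpow_pos_of_pos ht1p _)] at h5
    have h6 : κ ^ 2 * |M| * t2 ^ s1 ≤ κ * T t2 := by
      have h7 : κ ^ 2 * |M| * t2 ^ s1 * (t1 / t2) ^ s1 ≤ κ * T t2 * (t1 / t2) ^ s1 := by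
        refine le_trans (le_of_eq ?_) (h4.trans h1)
        rw [Real.div_rpow ht1p.le ht2p.le]
        have e1 : 0 < t2 ^ s1 := Real.rpow_pos_of_pos ht2p _
        field_simp
      exact le_of_mul_le_mul_right h7 (Real.rpow_pos_of_pos (by positivity) _)
    have h8 : κ * |M| * t2 ^ s1 ≤ T t2 := by
      have : κ * (κ * |M| * t2 ^ s1) ≤ κ * T t2 := by
        refine le_trans (le_of_eq ?_) h6
        ring
      exact le_of_mul_le_mul_left this hκ0
    calc M * r ^ s1 ≤ |M| * r ^ s1 :=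
          mul_le_mul_of_nonneg_right (le_abs_self M) (Real.rpow_nonneg hrp.le _)
      _ ≤ |M| * (κ * t2 ^ s1) := mul_le_mul_of_nonneg_left h2 (abs_nonneg M)
      _ = κ * |M| * t2 ^ s1 := by ring
      _ ≤ T t2 := h8
      _ ≤ T r := hTr
  · intro t ha hb
    have htp : 0 < t := by linarith
    have hq : 0 ≤ (t / r) ^ s1 := Real.rpow_nonneg (by positivity) _
    have hmain : T t ≤ κ ^ 3 * T r * (t / r) ^ s1 := by
      rcases le_total t t2 with h | h
      · have h1 := L4 t ha h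
        have h2 : (t / t2) ^ s1 = (t / r) ^ s1 * (r / t2) ^ s1 := by
          rw [← Real.mul_rpow (by positivity) (by positivity)]
          congr 1
          field_simp
        calc T t ≤ κ ^ 2 * T t2 * (t / t2) ^ s1 := h1
          _ = κ ^ 2 * T t2 * ((t / r) ^ s1 * (r / t2) ^ s1) := by rw [h2]
          _ ≤ κ ^ 2 * T r * ((t / r) ^ s1 * κ) := by
              refine mul_le_mul (mul_le_mul_of_nonneg_left hTr (by positivity))
                (mul_le_mul_of_nonneg_left hrt1 hq) ?_ (by positivity)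
              exact mul_nonneg hq (Real.rpow_nonneg (by positivity) _)
          _ = κ ^ 3 * T r * (t / r) ^ s1 := by ring
      · have h1 : T t ≤ T r := hmono ha hr1' hb
        have h2 : 1 ≤ κ * (t / r) ^ s1 := by
          have h3 : 1 = (r / t2) ^ s1 * (t2 / r) ^ s1 := by
            rw [← Real.mul_rpow (by positivity) (by positivity)]
            have : r / t2 * (t2 / r) = 1 := by field_simp
            rw [this, Real.one_rpow]
          have h4 : (t2 / r) ^ s1 ≤ (t / r) ^ s1 :=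
            Real.rpow_le_rpow (by positivity) (by gcongr) h0.le
          calc (1 : ℝ) = (r / t2) ^ s1 * (t2 / r) ^ s1 := h3
            _ ≤ κ * (t / r) ^ s1 :=
              mul_le_mul hrt1 h4 (Real.rpow_nonneg (by positivity) _) hκ0.le
        have h5 : 1 ≤ κ ^ 3 * (t / r) ^ s1 := by
          refine h2.trans (mul_le_mul_of_nonneg_right ?_ hq)
          nlinarith [mul_pos hκ0 hκ0]
        calc T t ≤ T r := h1
          _ ≤ T r * (κ ^ 3 * (t / r) ^ s1) := le_mul_of_one_le_right hTrp.le h5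
          _ = _ := by ring
    refine hmain.trans ?_
    exact mul_le_mul_of_nonneg_right (mul_le_mul_of_nonneg_right hκ3 hTrp.le) hq
  · intro t ha hb
    have htp : 0 < t := by linarith
    have hq : 0 ≤ (t / r) ^ s2 := Real.rpow_nonneg (by positivity) _
    have h3 : t ≤ t3 := by
      refine hb.trans (le_trans ?_ hfar)
      have : A * r ≤ A * (d * t2) := mul_le_mul_of_nonneg_left hr2.le (by linarith)
      linarith
    have h1 := L2 t (by linarith) h3
    have h2 : (t / t2) ^ s2 = (t / r) ^ s2 * (r / t2) ^ s2 := by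
      rw [← Real.mul_rpow (by positivity) (by positivity)]
      congr 1
      field_simp
    calc T t ≤ κ * T t2 * (t / t2) ^ s2 := h1
      _ = κ * T t2 * ((t / r) ^ s2 * (r / t2) ^ s2) := by rw [h2]
      _ ≤ κ * T r * ((t / r) ^ s2 * κ) := by
          refine mul_le_mul (mul_le_mul_of_nonneg_left hTr (by positivity))
            (mul_le_mul_of_nonneg_left hrt2 hq) ?_ (by positivity)
          exact mul_nonneg hq (Real.rpow_nonneg (by positivity) _)
      _ = κ ^ 2 * (T r * (t / r) ^ s2) := by ring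
      _ ≤ (1 + η) * (T r * (t / r) ^ s2) := by
          refine mul_le_mul_of_nonneg_right (le_trans ?_ hκ3) (mul_nonneg hTrp.le hq)
          nlinarith [mul_pos hκ0 hκ0]
      _ = _ := by ring

end Pool.Agent.PfA
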