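import Pool.Agent.PfA.Elem

/-! MP_f2c8f8_an, project PfA, row PF-25 -/

set_option autoImplicit false

open Filter MeasureTheory ValueDistribution Metric
open scoped ComplexConjugate Topology

noncomputable section

namespace Pool.Agent.PfA

theorem pf25_aa_pos (ρ : ℝ) (k : ℕ) : 0 < aa ρ k := by
  unfold aa
  positivity

theorem pf25_summable {ρ σ : ℝ} (hρ : 0 < ρ) (h : ρ < σ) :
    Summable (fun k : ℕ => (aa ρ k) ^ (-σ)) := by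
  have h1 : Summable (fun k : ℕ => ((k : ℝ)) ^ (-(σ / ρ))) := by
    rw [Real.summable_nat_rpow]
    have : 1 < σ / ρ := by rwa [one_lt_div hρ]
    linarith
  have h2 := (summable_nat_add_iff (f := fun k : ℕ => ((k : ℝ)) ^ (-(σ / ρ))) 1).2 h1
  refine h2.congr (fun k => ?_)
  unfold aa
  rw [← Real.rpow_mul (by positivity)]
  congr 1
  · push_cast; ring
  · field_simp

theorem pf25_aa_tendsto {ρ : ℝ} (hρ : 0 < ρ) : Tendsto (aa ρ) atTop atTop := by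
  unfold aa
  exact (tendsto_rpow_atTop (by positivity)).comp
    (tendsto_atTop_add_const_right _ _ tendsto_natCast_atTop_atTop)

theorem pf25_lt (ρ : ℝ) : ρ < ((⌊ρ⌋₊ + 1 : ℕ) : ℝ) := by
  exact_mod_cast Nat.lt_floor_add_one ρ

theorem pf25_norm (ρ : ℝ) (k : ℕ) (z : ℂ) : ‖-z / (aa ρ k : ℂ)‖ = ‖z‖ * (aa ρ k)⁻¹ := by
  rw [norm_div, norm_neg, Complex.norm_real, Real.norm_of_nonneg (pf25_aa_pos ρ k).le,
    div_eq_mul_inv]

theorem pf25_hasProd {ρ : ℝ} (hρ : 0 < ρ) (R : ℝ) :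
    HasProdLocallyUniformlyOn
      (fun (k : ℕ) (z : ℂ) => 1 + (EE ⌊ρ⌋₊ (-z / (aa ρ k : ℂ)) - 1)) (PP ρ) (ball 0 R) := by
  obtain ⟨C, hC, hb⟩ := EE_sub_one ⌊ρ⌋₊
  have hPP : PP ρ = fun z => ∏' k : ℕ, (1 + (EE ⌊ρ⌋₊ (-z / (aa ρ k : ℂ)) - 1)) := by
    funext z
    simp only [add_sub_cancel, PP]
  rw [hPP]
  refine Summable.hasProdLocallyUniformlyOn_nat_one_add isOpen_ball
    (u := fun k => C * R ^ (⌊ρ⌋₊ + 1) * (aa ρ k) ^ (-((⌊ρ⌋₊ + 1 : ℕ) : ℝ)))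
    ((pf25_summable hρ (pf25_lt ρ)).mul_left _) ?_ ?_
  · filter_upwards [(pf25_aa_tendsto hρ).eventually_ge_atTop (2 * R)] with k hk z hz
    have hz' : ‖z‖ < R := by simpa using hz
    have hR : 0 < R := (norm_nonneg z).trans_lt hz'
    have ha := pf25_aa_pos ρ k
    have h1 : ‖-z / (aa ρ k : ℂ)‖ ≤ 1 / 2 := by
      rw [pf25_norm, ← div_eq_mul_inv, div_le_iff₀ ha]
      linarith
    refine (hb _ h1).trans ?_
    rw [pf25_norm, Real.rpow_neg ha.le, Real.rpow_natCast, ← inv_pow, mul_assoc, ← mul_pow]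
    gcongr
  · intro k
    have := (EE_differentiable ⌊ρ⌋₊).continuous
    exact Continuous.continuousOn (by fun_prop)

theorem pf25_hasProd_at {ρ : ℝ} (hρ : 0 < ρ) (z : ℂ) :
    HasProd (fun k : ℕ => EE ⌊ρ⌋₊ (-z / (aa ρ k : ℂ))) (PP ρ z) := by
  have h := (pf25_hasProd hρ (‖z‖ + 1)).hasProd (x := z) (by simp)
  simpa only [add_sub_cancel] using h

theorem PP_differentiable {ρ : ℝ} (hρ : 1 < ρ) (hn : NonInt ρ) : Differentiable ℂ (PP ρ) := by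
  intro z
  have h := (pf25_hasProd (by linarith : 0 < ρ) (‖z‖ + 1)).differentiableOn
    (.of_forall fun F => by
      have := EE_differentiable ⌊ρ⌋₊
      simpa [Finset.prod_fn] using DifferentiableOn.finsetProd (fun _ _ => by fun_prop)) isOpen_ball
  exact (h z (by simp)).differentiableAt (isOpen_ball.mem_nhds (by simp))

theorem PP_zero (ρ : ℝ) : PP ρ 0 = 1 := by
  simp [PP, EE_zero]

theorem PP_log {ρ : ℝ} (hρ : 1 < ρ) (hn : NonInt ρ) {z : ℂ} (hz : ∀ k : ℕ, z ≠ -(aa ρ k : ℂ)) :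
    HasSum (fun k : ℕ => Real.log ‖EE ⌊ρ⌋₊ (-z / (aa ρ k : ℂ))‖) (Real.log ‖PP ρ z‖) := by
  have hρ0 : 0 < ρ := by linarith
  obtain ⟨C, hC, hb⟩ := abs_log_EE ⌊ρ⌋₊
  have hpos : ∀ k : ℕ, 0 < ‖EE ⌊ρ⌋₊ (-z / (aa ρ k : ℂ))‖ := by
    intro k
    rw [norm_pos_iff]
    unfold EE
    refine mul_ne_zero ?_ (Complex.exp_ne_zero _)
    intro h0
    apply hz k
    have ha : (aa ρ k : ℂ) ≠ 0 := by exact_mod_cast (pf25_aa_pos ρ k).ne'
    have h1 : -z / (aa ρ k : ℂ) = 1 := by linear_combination -h0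
    rw [div_eq_iff ha] at h1
    linear_combination -h1
  have hsum : Summable (fun k : ℕ => Real.log ‖EE ⌊ρ⌋₊ (-z / (aa ρ k : ℂ))‖) := by
    refine Summable.of_norm_bounded_eventually_nat
      (g := fun k => C * ‖z‖ ^ (⌊ρ⌋₊ + 1) * (aa ρ k) ^ (-((⌊ρ⌋₊ + 1 : ℕ) : ℝ)))
      ((pf25_summable hρ0 (pf25_lt ρ)).mul_left _) ?_
    filter_upwards [(pf25_aa_tendsto hρ0).eventually_ge_atTop (2 * ‖z‖)] with k hk
    have ha := pf25_aa_pos ρ k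
    have h1 : ‖-z / (aa ρ k : ℂ)‖ ≤ 1 / 2 := by
      rw [pf25_norm, ← div_eq_mul_inv, div_le_iff₀ ha]
      linarith
    rw [Real.norm_eq_abs]
    refine (hb _ h1).trans ?_
    rw [pf25_norm, Real.rpow_neg ha.le, Real.rpow_natCast, ← inv_pow, mul_assoc, ← mul_pow]
  have h1 := Real.hasProd_of_hasSum_log hpos hsum.hasSum
  have h2 : HasProd (fun k : ℕ => ‖EE ⌊ρ⌋₊ (-z / (aa ρ k : ℂ))‖) ‖PP ρ z‖ :=
    (pf25_hasProd_at hρ0 z).norm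
  have h3 := h1.unique h2
  rw [← h3, Real.log_exp]
  exact hsum.hasSum

theorem PP_growth {ρ : ℝ} (hρ : 1 < ρ) (hn : NonInt ρ) {σ : ℝ} (h1 : ρ < σ) (h2 : σ ≤ ⌊ρ⌋₊ + 1) :
    ∃ C : ℝ, ∀ z : ℂ, Real.posLog ‖PP ρ z‖ ≤ C * ‖z‖ ^ σ := by
  have hρ0 : 0 < ρ := by linarith
  have hq : 1 ≤ ⌊ρ⌋₊ := Nat.le_floor (by simpa using hρ.le)
  obtain ⟨C, hC, hb⟩ := posLog_EE ⌊ρ⌋₊ hq
  have hs := pf25_summable hρ0 h1
  refine ⟨C * ∑' k : ℕ, (aa ρ k) ^ (-σ), fun z => ?_⟩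
  have ht : Tendsto (fun F : Finset ℕ => ∏ k ∈ F, EE ⌊ρ⌋₊ (-z / (aa ρ k : ℂ))) atTop (𝓝 (PP ρ z)) := by
    have h := pf25_hasProd_at hρ0 z
    simpa only [HasProd, SummationFilter.unconditional_filter] using h
  have ht2 := (Real.continuous_posLog.tendsto _).comp ht.norm
  refine le_of_tendsto ht2 (Eventually.of_forall fun F => ?_)
  simp only [Function.comp_apply, norm_prod]
  have hqσ : (⌊ρ⌋₊ : ℝ) ≤ σ := (Nat.floor_le hρ0.le).trans h1.le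
  calc Real.posLog (∏ k ∈ F, ‖EE ⌊ρ⌋₊ (-z / (aa ρ k : ℂ))‖)
      ≤ ∑ k ∈ F, Real.posLog ‖EE ⌊ρ⌋₊ (-z / (aa ρ k : ℂ))‖ := Real.posLog_prod _ _
    _ ≤ ∑ k ∈ F, C * ‖z‖ ^ σ * (aa ρ k) ^ (-σ) := by
        refine Finset.sum_le_sum fun k _ => ?_
        have ha := pf25_aa_pos ρ k
        refine (hb _ σ hqσ h2).trans_eq ?_
        rw [pf25_norm, Real.mul_rpow (norm_nonneg _) (by positivity), Real.inv_rpow ha.le,
          Real.rpow_neg ha.le]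
        ring
    _ = C * ‖z‖ ^ σ * ∑ k ∈ F, (aa ρ k) ^ (-σ) := by rw [← Finset.mul_sum]
    _ ≤ C * ‖z‖ ^ σ * ∑' k : ℕ, (aa ρ k) ^ (-σ) := by
        have hle : ∑ k ∈ F, (aa ρ k) ^ (-σ) ≤ ∑' k : ℕ, (aa ρ k) ^ (-σ) :=
          hs.sum_le_tsum F (fun k _ => by have := pf25_aa_pos ρ k; positivity)
        gcongr
    _ = C * (∑' k : ℕ, (aa ρ k) ^ (-σ)) * ‖z‖ ^ σ := by ring

end Pool.Agent.PfA
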