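import Pool.Agent.PfA.Prod
import Pool.Agent.PfA.ElemFc

/-! MP_f2c8f8_an, project PfA, row PF-26 -/

set_option autoImplicit false

open Filter MeasureTheory ValueDistribution Metric
open scoped ComplexConjugate Topology

noncomputable section

namespace Pool.Agent.PfA

/-- the integrand of the Fourier coefficient of one factor -/
private def pf26_F (ρ r : ℝ) (n k : ℕ) (θ : ℝ) : ℂ :=
  (Real.log ‖EE ⌊ρ⌋₊ (-(circleMap 0 r θ) / (aa ρ k : ℂ))‖ : ℂ) *
    (conj (circleMap 0 r θ) / (r : ℂ)) ^ n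

private theorem pf26_cont (r : ℝ) (n : ℕ) :
    Continuous fun θ : ℝ => (conj (circleMap 0 r θ) / (r : ℂ)) ^ n :=
  ((Complex.continuous_conj.comp (continuous_circleMap 0 r)).div_const _).pow n

private theorem pf26_norm {r : ℝ} (hr : 0 < r) (n : ℕ) (θ : ℝ) :
    ‖(conj (circleMap 0 r θ) / (r : ℂ)) ^ n‖ = 1 := by
  rw [norm_pow, norm_div, RCLike.norm_conj, norm_circleMap_zero, Complex.norm_real,
    Real.norm_eq_abs, div_self (abs_pos.2 hr.ne').ne', one_pow]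

private theorem pf26_int {ρ r : ℝ} (n k : ℕ) :
    IntervalIntegrable (pf26_F ρ r n k) volume 0 (2 * Real.pi) := by
  have h1 := circleIntegrable_log_EE ⌊ρ⌋₊ (pf25_aa_pos ρ k) r
  have h2 : IntervalIntegrable
      (fun θ => ((Real.log ‖EE ⌊ρ⌋₊ (-(circleMap 0 r θ) / (aa ρ k : ℂ))‖ : ℝ) : ℂ))
      volume 0 (2 * Real.pi) :=
    intervalIntegrable_iff.2 (Integrable.ofReal (intervalIntegrable_iff.1 h1))
  exact h2.mul_continuousOn (pf26_cont r n).continuousOn

private theorem pf26_fc (u : ℂ → ℝ) (r : ℝ) (n : ℕ) : fc u r n = (2 * Real.pi)⁻¹ •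
    ∫ θ in (0 : ℝ)..2 * Real.pi, (u (circleMap 0 r θ) : ℂ) *
      (conj (circleMap 0 r θ) / (r : ℂ)) ^ n := by
  unfold fc Real.circleAverage
  rfl

theorem fc_PP {ρ : ℝ} (hρ : 1 < ρ) (hn : NonInt ρ) {r : ℝ} (hr : 0 < r) (hreg : ∀ k, aa ρ k ≠ r)
    (n : ℕ) : HasSum (fun k : ℕ => (-1) ^ n * ((kap ⌊ρ⌋₊ n (r / aa ρ k) : ℝ) : ℂ))
      (fc (fun z => Real.log ‖PP ρ z‖) r n) := by
  have hρ0 : 0 < ρ := by linarith
  obtain ⟨C, hC, hb⟩ := abs_log_EE ⌊ρ⌋₊
  obtain ⟨K, hK⟩ := eventually_atTop.1 ((pf25_aa_tendsto hρ0).eventually_ge_atTop (2 * r))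
  -- the bound
  let D : ℕ → ℝ := fun k => C * r ^ (⌊ρ⌋₊ + 1) * (aa ρ k) ^ (-((⌊ρ⌋₊ + 1 : ℕ) : ℝ))
  have hD0 : ∀ k, 0 ≤ D k := fun k => by
    have := pf25_aa_pos ρ k
    positivity
  have hDs : Summable D := (pf25_summable hρ0 (pf25_lt ρ)).mul_left _
  let b1 : ℕ → ℝ → ℝ := fun k θ => if k ∈ Finset.range K then ‖pf26_F ρ r n k θ‖ else 0
  have hb1 : ∀ θ, HasSum (fun k => b1 k θ) (∑ k ∈ Finset.range K, b1 k θ) := fun θ =>
    hasSum_sum_of_ne_finset_zero fun k hk => if_neg hk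
  have hb2 : ∀ θ, (∑ k ∈ Finset.range K, b1 k θ) =
      ∑ k ∈ Finset.range K, ‖pf26_F ρ r n k θ‖ := fun θ =>
    Finset.sum_congr rfl fun k hk => if_pos hk
  have hlog : ∀ k, K ≤ k → ∀ θ, ‖pf26_F ρ r n k θ‖ ≤ D k := by
    intro k hk θ
    have ha := pf25_aa_pos ρ k
    have h1 : ‖-(circleMap 0 r θ) / (aa ρ k : ℂ)‖ ≤ 1 / 2 := by
      rw [pf25_norm, norm_circleMap_zero, abs_of_pos hr, ← div_eq_mul_inv, div_le_iff₀ ha]
      have := hK k hk
      linarith
    unfold pf26_F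
    rw [norm_mul, pf26_norm hr, mul_one, Complex.norm_real, Real.norm_eq_abs]
    refine (hb _ h1).trans (le_of_eq ?_)
    simp only [D]
    rw [pf25_norm, norm_circleMap_zero, abs_of_pos hr, Real.rpow_neg ha.le, Real.rpow_natCast,
      ← inv_pow, mul_assoc, ← mul_pow]
  have hmain : HasSum (fun k => ∫ θ in (0 : ℝ)..2 * Real.pi, pf26_F ρ r n k θ)
      (∫ θ in (0 : ℝ)..2 * Real.pi, (Real.log ‖PP ρ (circleMap 0 r θ)‖ : ℂ) *
        (conj (circleMap 0 r θ) / (r : ℂ)) ^ n) := by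
    refine intervalIntegral.hasSum_integral_of_dominated_convergence (fun k θ => b1 k θ + D k)
      ?_ ?_ ?_ ?_ ?_
    · intro k
      exact (intervalIntegrable_iff.1 (pf26_int n k)).aestronglyMeasurable
    · intro k
      refine Eventually.of_forall fun θ _ => ?_
      by_cases h : k < K
      · have h2 : b1 k θ = ‖pf26_F ρ r n k θ‖ := if_pos (Finset.mem_range.2 h)
        rw [h2]
        linarith [hD0 k]
      · have h2 : b1 k θ = 0 := if_neg fun h3 => h (Finset.mem_range.1 h3)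
        rw [h2, zero_add]
        exact hlog k (not_lt.1 h) θ
    · exact Eventually.of_forall fun θ _ => (hb1 θ).summable.add hDs
    · have h3 : (fun θ => ∑' k, (b1 k θ + D k)) = fun θ =>
          (∑ k ∈ Finset.range K, ‖pf26_F ρ r n k θ‖) + ∑' k, D k := by
        funext θ
        rw [((hb1 θ).summable.tsum_add hDs), (hb1 θ).tsum_eq, hb2]
      rw [h3]
      refine IntervalIntegrable.add ?_ intervalIntegrable_const
      have h4 := IntervalIntegrable.sum (μ := volume) (a := 0) (b := 2 * Real.pi)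
        (Finset.range K) (f := fun k θ => ‖pf26_F ρ r n k θ‖) fun k _ => (pf26_int n k).norm
      refine h4.congr fun θ _ => ?_
      simp only [Finset.sum_apply]
    · refine Eventually.of_forall fun θ _ => ?_
      have hz : ∀ k : ℕ, circleMap 0 r θ ≠ -(aa ρ k : ℂ) := by
        intro k h
        apply hreg k
        have h2 := congrArg norm h
        rw [norm_circleMap_zero, norm_neg, Complex.norm_real, Real.norm_eq_abs,
          abs_of_pos (pf25_aa_pos ρ k), abs_of_pos hr] at h2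
        exact h2.symm
      exact (Complex.hasSum_ofReal.2 (PP_log hρ hn hz)).mul_right _
  rw [pf26_fc]
  have h5 := hmain.const_smul ((2 * Real.pi)⁻¹ : ℝ)
  have h6 : (fun k : ℕ => (-1) ^ n * ((kap ⌊ρ⌋₊ n (r / aa ρ k) : ℝ) : ℂ)) = fun k : ℕ =>
      (2 * Real.pi)⁻¹ • ∫ θ in (0 : ℝ)..2 * Real.pi, pf26_F ρ r n k θ := by
    funext k
    rw [← fc_EE ⌊ρ⌋₊ (pf25_aa_pos ρ k) hr (hreg k) n, pf26_fc]
    rfl
  rw [h6]
  exact h5

end Pool.Agent.PfA
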