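import Pool.Agent.PfA.Defs

/-! MP_f2c8f8_an, project PfA, row PF-27: Riemann sums on the half line -/

set_option autoImplicit false

open Filter MeasureTheory ValueDistribution Metric
open scoped ComplexConjugate Topology

noncomputable section

namespace Pool.Agent.PfA

/-- the step function with the values of `g` at the right end points -/
private def pf27_F (g : ℝ → ℝ) (X x : ℝ) : ℝ := g ((⌈x * X⌉₊ : ℝ) / X)

private theorem pf27_meas (g : ℝ → ℝ) (X : ℝ) : Measurable (pf27_F g X) := by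
  have h1 : Measurable (fun n : ℕ => g ((n : ℝ) / X)) := measurable_from_top
  exact h1.comp (Nat.measurable_ceil.comp (measurable_id.mul_const X))

private theorem pf27_ceil_pos {X x : ℝ} (hX : 0 < X) (hx : 0 < x) :
    0 < (⌈x * X⌉₊ : ℝ) / X := by
  have : 0 < ⌈x * X⌉₊ := Nat.ceil_pos.2 (mul_pos hx hX)
  positivity

private theorem pf27_le_ceil {X x : ℝ} (hX : 0 < X) : x ≤ (⌈x * X⌉₊ : ℝ) / X := by
  rw [le_div_iff₀ hX]
  exact Nat.le_ceil _

private theorem pf27_bound {g G : ℝ → ℝ} (hG : AntitoneOn G (Set.Ioi 0))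
    (hb : ∀ x, 0 < x → |g x| ≤ G x) {X x : ℝ} (hX : 0 < X) (hx : 0 < x) :
    ‖pf27_F g X x‖ ≤ G x := by
  have h1 := pf27_ceil_pos hX hx
  exact (hb _ h1).trans (hG hx h1 (pf27_le_ceil hX))

private theorem pf27_int {g G : ℝ → ℝ} (hG : AntitoneOn G (Set.Ioi 0))
    (hGi : IntegrableOn G (Set.Ioi 0)) (hb : ∀ x, 0 < x → |g x| ≤ G x) {X : ℝ} (hX : 0 < X) :
    IntegrableOn (pf27_F g X) (Set.Ioi 0) := by
  refine Integrable.mono' hGi (pf27_meas g X).aestronglyMeasurable ?_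
  exact (ae_restrict_iff' measurableSet_Ioi).2 (Eventually.of_forall fun x hx =>
    pf27_bound hG hb hX hx)

private theorem pf27_union {X : ℝ} (hX : 0 < X) :
    (⋃ k : ℕ, Set.Ioc ((k : ℝ) / X) (((k : ℝ) + 1) / X)) = Set.Ioi 0 := by
  ext x
  simp only [Set.mem_iUnion, Set.mem_Ioc, Set.mem_Ioi]
  constructor
  · rintro ⟨k, h1, -⟩
    exact lt_of_le_of_lt (by positivity) h1
  · intro hx
    have hp : 0 < ⌈x * X⌉₊ := Nat.ceil_pos.2 (mul_pos hx hX)
    refine ⟨⌈x * X⌉₊ - 1, ?_, ?_⟩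
    · rw [div_lt_iff₀ hX]
      exact Nat.lt_ceil.1 (Nat.sub_lt hp one_pos)
    · have : ((⌈x * X⌉₊ - 1 : ℕ) : ℝ) + 1 = (⌈x * X⌉₊ : ℝ) := by
        have h := Nat.sub_add_cancel hp
        exact_mod_cast h
      rw [this]
      exact pf27_le_ceil hX

private theorem pf27_disj {X : ℝ} (hX : 0 < X) :
    Pairwise (Function.onFun Disjoint
      (fun k : ℕ => Set.Ioc ((k : ℝ) / X) (((k : ℝ) + 1) / X))) := by
  have key : ∀ i j : ℕ, i < j → Disjoint (Set.Ioc ((i : ℝ) / X) (((i : ℝ) + 1) / X))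
      (Set.Ioc ((j : ℝ) / X) (((j : ℝ) + 1) / X)) := by
    intro i j hij
    rw [Set.disjoint_left]
    rintro x ⟨-, h2⟩ ⟨h3, -⟩
    have h4 : ((i : ℝ) + 1) / X ≤ (j : ℝ) / X := by
      have : ((i : ℝ) + 1) ≤ j := by exact_mod_cast hij
      gcongr
    exact absurd (lt_of_lt_of_le h3 (h2.trans h4)) (lt_irrefl _)
  intro i j hij
  rcases lt_or_gt_of_ne hij with h | h
  · exact key i j h
  · exact (key j i h).symm

private theorem pf27_val {X x : ℝ} (hX : 0 < X) {k : ℕ}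
    (hx : x ∈ Set.Ioc ((k : ℝ) / X) (((k : ℝ) + 1) / X)) (g : ℝ → ℝ) :
    pf27_F g X x = g (((k : ℝ) + 1) / X) := by
  have h1 : (k : ℝ) < x * X := (div_lt_iff₀ hX).1 hx.1
  have h2 : x * X ≤ (k : ℝ) + 1 := (le_div_iff₀ hX).1 hx.2
  have h3 : ⌈x * X⌉₊ = k + 1 := by
    rw [Nat.ceil_eq_iff (by omega)]
    push_cast
    exact ⟨by simpa using h1, h2⟩
  unfold pf27_F
  rw [h3]
  push_cast
  rfl

private theorem pf27_sum {g G : ℝ → ℝ} (hG : AntitoneOn G (Set.Ioi 0))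
    (hGi : IntegrableOn G (Set.Ioi 0)) (hb : ∀ x, 0 < x → |g x| ≤ G x) {X : ℝ} (hX : 0 < X) :
    X⁻¹ * ∑' k : ℕ, g (((k : ℝ) + 1) / X) = ∫ x in Set.Ioi 0, pf27_F g X x := by
  have hi : IntegrableOn (pf27_F g X)
      (⋃ k : ℕ, Set.Ioc ((k : ℝ) / X) (((k : ℝ) + 1) / X)) := by
    rw [pf27_union hX]
    exact pf27_int hG hGi hb hX
  have h1 := hasSum_integral_iUnion (f := pf27_F g X)
    (fun k : ℕ => (measurableSet_Ioc : MeasurableSet
      (Set.Ioc ((k : ℝ) / X) (((k : ℝ) + 1) / X)))) (pf27_disj hX) hi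
  rw [pf27_union hX] at h1
  rw [← h1.tsum_eq, ← tsum_mul_left]
  refine tsum_congr fun k => ?_
  rw [setIntegral_congr_fun measurableSet_Ioc (fun x hx => pf27_val hX hx g)]
  rw [setIntegral_const, Real.volume_real_Ioc_of_le (by gcongr; linarith), smul_eq_mul]
  congr 1
  field_simp
  ring

theorem riemann {g G : ℝ → ℝ} (hg : ContinuousOn g (Set.Ioi 0)) (hG : AntitoneOn G (Set.Ioi 0))
    (hGi : IntegrableOn G (Set.Ioi 0)) (hb : ∀ x, 0 < x → |g x| ≤ G x) :
    Tendsto (fun X : ℝ => X⁻¹ * ∑' k : ℕ, g (((k : ℝ) + 1) / X)) atTop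
      (𝓝 (∫ x in Set.Ioi 0, g x)) := by
  have h1 : Tendsto (fun X : ℝ => ∫ x in Set.Ioi 0, pf27_F g X x) atTop
      (𝓝 (∫ x in Set.Ioi 0, g x)) := by
    refine tendsto_integral_filter_of_dominated_convergence G ?_ ?_ hGi ?_
    · exact Eventually.of_forall fun X => (pf27_meas g X).aestronglyMeasurable
    · filter_upwards [eventually_gt_atTop (0 : ℝ)] with X hX
      exact (ae_restrict_iff' measurableSet_Ioi).2 (Eventually.of_forall fun x hx =>
        pf27_bound hG hb hX hx)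
    · refine (ae_restrict_iff' measurableSet_Ioi).2 (Eventually.of_forall fun x hx => ?_)
      have hc : ContinuousAt g x := hg.continuousAt (Ioi_mem_nhds hx)
      exact hc.tendsto.comp (tendsto_nat_ceil_mul_div_atTop (le_of_lt hx))
  refine h1.congr' ?_
  filter_upwards [eventually_gt_atTop (0 : ℝ)] with X hX
  exact (pf27_sum hG hGi hb hX).symm

end Pool.Agent.PfA
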