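import Pool.Agent.PfA.Defs

/-! MP_f2c8f8_an, project PfA, row PF-18 -/

set_option autoImplicit false

open Filter MeasureTheory ValueDistribution Metric
open scoped ComplexConjugate Topology

noncomputable section

namespace Pool.Agent.PfA

private theorem pf18_sin_ne {t : ℝ} (ht : NonInt t) : Real.sin (Real.pi * t) ≠ 0 := by
  intro h
  obtain ⟨n, hn⟩ := Real.sin_eq_zero_iff.mp h
  refine ht n ?_
  have h1 : Real.pi * ((n : ℝ) - t) = 0 := by linarith
  rcases mul_eq_zero.mp h1 with h2 | h2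
  · exact absurd h2 Real.pi_pos.ne'
  · linarith

private theorem pf18_half {t : ℝ} (ht : NonInt t) : NonInt (t / 2) := by
  intro n hn
  refine ht (2 * n) ?_
  push_cast
  linarith

private theorem pf18_half' {t : ℝ} (ht : NonInt t) : NonInt ((t - 1) / 2) := by
  intro n hn
  refine ht (2 * n + 1) ?_
  push_cast
  linarith

private theorem pf18_split {t : ℝ} (ht : NonInt t) :
    Real.pi ^ 2 / Real.sin (Real.pi * t) ^ 2 =
      1 / 4 * (Real.pi ^ 2 / Real.sin (Real.pi * (t / 2)) ^ 2) +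
      1 / 4 * (Real.pi ^ 2 / Real.sin (Real.pi * ((t - 1) / 2)) ^ 2) := by
  have h1 : Real.sin (Real.pi * ((t - 1) / 2)) = - Real.cos (Real.pi * (t / 2)) := by
    have e : Real.pi * ((t - 1) / 2) = Real.pi * (t / 2) - Real.pi / 2 := by ring
    rw [e, Real.sin_sub_pi_div_two]
  have h2 : Real.sin (Real.pi * t) =
      2 * Real.sin (Real.pi * (t / 2)) * Real.cos (Real.pi * (t / 2)) := by
    rw [← Real.sin_two_mul]
    congr 1
    ring
  have h3 := pf18_sin_ne (pf18_half ht)
  have h4 := pf18_sin_ne (pf18_half' ht)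
  rw [h1, neg_ne_zero] at h4
  rw [h1, h2]
  have h5 := Real.sin_sq_add_cos_sq (Real.pi * (t / 2))
  generalize Real.sin (Real.pi * (t / 2)) = x at *
  generalize Real.cos (Real.pi * (t / 2)) = y at *
  generalize Real.pi = p at *
  field_simp
  linear_combination (-4 * p ^ 2) * h5

private theorem pf18_pow (k : ℕ) : ∀ t : ℝ, NonInt t →
    ∑ n ∈ Finset.range (2 ^ k), 1 / (t - (n : ℝ)) ^ 2 ≤
      Real.pi ^ 2 / Real.sin (Real.pi * t) ^ 2 := by
  induction k with
  | zero =>
    intro t ht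
    have h0 : t ≠ 0 := fun h => ht 0 (by simp [h])
    have h1 := pf18_sin_ne ht
    have h2 : Real.sin (Real.pi * t) ^ 2 ≤ (Real.pi * t) ^ 2 := Real.sin_sq_le_sq
    simp only [pow_zero, Finset.range_one, Finset.sum_singleton, Nat.cast_zero, sub_zero]
    rw [div_le_div_iff₀ (by positivity) (by positivity)]
    nlinarith
  | succ k ih =>
    intro t ht
    have h1 := ih _ (pf18_half ht)
    have h2 := ih _ (pf18_half' ht)
    rw [pf18_split ht]
    have h3 : ∑ n ∈ Finset.range (2 ^ (k + 1)), 1 / (t - (n : ℝ)) ^ 2 =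
        ∑ n ∈ Finset.range (2 ^ k), (1 / (t - ((2 * n : ℕ) : ℝ)) ^ 2 +
          1 / (t - ((2 * n + 1 : ℕ) : ℝ)) ^ 2) := by
      have e : ∀ (g : ℕ → ℝ) (m : ℕ), ∑ n ∈ Finset.range (2 * m), g n =
          ∑ n ∈ Finset.range m, (g (2 * n) + g (2 * n + 1)) := by
        intro g m
        induction m with
        | zero => simp
        | succ m ihm =>
          rw [Finset.sum_range_succ _ m, ← ihm, Nat.mul_succ, Finset.sum_range_succ,
            Finset.sum_range_succ]
          ring
      have e2 := e (fun n : ℕ => 1 / (t - (n : ℝ)) ^ 2) (2 ^ k)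
      rw [pow_succ, mul_comm (2 ^ k) 2]
      exact e2
    rw [h3, Finset.sum_add_distrib]
    refine add_le_add ?_ ?_
    · refine le_trans (le_of_eq ?_) (mul_le_mul_of_nonneg_left h1 (by norm_num))
      rw [Finset.mul_sum]
      refine Finset.sum_congr rfl fun n _ => ?_
      have e : t / 2 - (n : ℝ) = (t - ((2 * n : ℕ) : ℝ)) / 2 := by
        push_cast
        ring
      rw [e, div_pow, one_div_div]
      ring
    · refine le_trans (le_of_eq ?_) (mul_le_mul_of_nonneg_left h2 (by norm_num))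
      rw [Finset.mul_sum]
      refine Finset.sum_congr rfl fun n _ => ?_
      have e : (t - 1) / 2 - (n : ℝ) = (t - ((2 * n + 1 : ℕ) : ℝ)) / 2 := by
        push_cast
        ring
      rw [e, div_pow, one_div_div]
      ring

theorem sum_inv_sq {t : ℝ} (ht : NonInt t) (M : ℕ) :
    ∑ n ∈ Finset.Icc 1 M, 1 / ((n : ℝ) - t) ^ 2 ≤ Real.pi ^ 2 / sn t ^ 2 := by
  have h1 := pf18_pow (M + 1) t ht
  unfold sn
  rw [sq_abs]
  refine le_trans ?_ h1
  have h2 : ∀ n : ℕ, 1 / ((n : ℝ) - t) ^ 2 = 1 / (t - (n : ℝ)) ^ 2 := by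
    intro n
    congr 1
    ring
  simp only [h2]
  refine Finset.sum_le_sum_of_subset_of_nonneg ?_ fun n _ _ => by positivity
  intro n hn
  rw [Finset.mem_Icc] at hn
  rw [Finset.mem_range]
  calc n ≤ M := hn.2
    _ < M + 1 := Nat.lt_succ_self M
    _ < 2 ^ (M + 1) := Nat.lt_two_pow_self

theorem sn_pos {t : ℝ} (ht : NonInt t) : 0 < sn t :=
  abs_pos.mpr (pf18_sin_ne ht)

theorem sn_le_one (t : ℝ) : sn t ≤ 1 := Real.abs_sin_le_one _

end Pool.Agent.PfA
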