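import Pool.Agent.PfA.Fact
import Pool.Agent.PfA.Harm

/-! MP_f2c8f8_an, project PfA, row PF-3 -/

set_option autoImplicit false

open Filter MeasureTheory ValueDistribution Metric
open scoped ComplexConjugate Topology

noncomputable section

namespace Pool.Agent.PfA

/-- the divisor of `g` as a real function -/
def dv (g : ℂ → ℂ) (a : ℂ) : ℝ := ((MeromorphicOn.divisor g Set.univ a : ℤ) : ℝ)

theorem pf3_finite (g : ℂ → ℂ) (R : ℝ) : {a : ℂ | ‖a‖ ≤ R ∧ dv g a ≠ 0}.Finite := by
  have h1 := (Function.locallyFinsupp.locallyFiniteSupport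
    (MeromorphicOn.divisor g Set.univ)).finite_inter_support_of_isCompact
    (isCompact_closedBall (0 : ℂ) R)
  refine h1.subset ?_
  rintro a ⟨ha, hw⟩
  refine ⟨by simpa using ha, ?_⟩
  rw [Function.mem_support]
  intro h
  apply hw
  have h2 : MeromorphicOn.divisor g Set.univ a = 0 := h
  simp [dv, h2]

theorem pf3_mem_zs {g : ℂ → ℂ} {R : ℝ} {a : ℂ} : a ∈ zs (dv g) R ↔ ‖a‖ ≤ R ∧ dv g a ≠ 0 := by
  have h := pf3_finite g R
  unfold zs
  rw [dif_pos h, Set.Finite.mem_toFinset]
  rfl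

theorem pf3_int {u : ℂ → ℝ} {r : ℝ} (hu : CircleIntegrable u 0 r) (n : ℕ) :
    CircleIntegrable (fun z => (u z : ℂ) * (conj z / (r : ℂ)) ^ n) 0 r := by
  unfold CircleIntegrable at *
  have h1 : IntervalIntegrable (fun θ : ℝ => ((u (circleMap 0 r θ) : ℝ) : ℂ)) volume 0
      (2 * Real.pi) :=
    ⟨MeasureTheory.Integrable.ofReal hu.1, MeasureTheory.Integrable.ofReal hu.2⟩
  have h2 : Continuous (fun θ : ℝ => (conj (circleMap 0 r θ) / (r : ℂ)) ^ n) := by
    have h3 : Continuous (fun θ : ℝ => conj (circleMap 0 r θ)) :=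
      Complex.continuous_conj.comp (continuous_circleMap 0 r)
    exact (h3.div_const _).pow n
  exact h1.mul_continuousOn h2.continuousOn

theorem pf3_add {u v : ℂ → ℝ} {r : ℝ} (hu : CircleIntegrable u 0 r) (hv : CircleIntegrable v 0 r)
    (n : ℕ) : fc (fun z => u z + v z) r n = fc u r n + fc v r n := by
  unfold fc
  rw [← Real.circleAverage_fun_add (pf3_int hu n) (pf3_int hv n)]
  congr 1
  funext z
  push_cast
  ring

theorem pf3_smul (c : ℝ) (u : ℂ → ℝ) (r : ℝ) (n : ℕ) :
    fc (fun z => c * u z) r n = (c : ℂ) * fc u r n := by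
  unfold fc
  rw [← smul_eq_mul, ← Real.circleAverage_fun_smul]
  congr 1
  funext z
  rw [smul_eq_mul]
  push_cast
  ring

theorem pf3_log_int (a : ℂ) (r : ℝ) : CircleIntegrable (fun z => Real.log ‖z - a‖) 0 r := by
  have h : MeromorphicOn (fun z : ℂ => z - a) (sphere (0 : ℂ) |r|) := by
    intro z _
    fun_prop
  exact h.circleIntegrable_log_norm

theorem pf3_sum_int (S : Finset ℂ) (w : ℂ → ℝ) (r : ℝ) :
    CircleIntegrable (fun z => ∑ a ∈ S, w a * Real.log ‖z - a‖) 0 r := by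
  unfold CircleIntegrable
  have h : ∀ a ∈ S, IntervalIntegrable
      (fun θ : ℝ => w a * Real.log ‖circleMap 0 r θ - a‖) volume 0 (2 * Real.pi) := by
    intro a _
    exact (pf3_log_int a r).const_mul (w a)
  have h2 := IntervalIntegrable.sum S h
  have h3 : (fun θ : ℝ => ∑ a ∈ S, w a * Real.log ‖circleMap 0 r θ - a‖) =
      ∑ a ∈ S, fun θ : ℝ => w a * Real.log ‖circleMap 0 r θ - a‖ := by
    funext θ
    simp
  show IntervalIntegrable (fun θ : ℝ => ∑ a ∈ S, w a * Real.log ‖circleMap 0 r θ - a‖) volume 0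
    (2 * Real.pi)
  rw [h3]
  exact h2

theorem pf3_sum (S : Finset ℂ) (w : ℂ → ℝ) (r : ℝ) (n : ℕ) :
    fc (fun z => ∑ a ∈ S, w a * Real.log ‖z - a‖) r n =
      ∑ a ∈ S, (w a : ℂ) * fc (fun z => Real.log ‖z - a‖) r n := by
  classical
  induction S using Finset.induction_on with
  | empty =>
    simp only [fc, Finset.sum_empty, Complex.ofReal_zero, zero_mul]
    exact Real.circleAverage_const (0 : ℂ) 0 r
  | insert b S hb ih =>
    rw [Finset.sum_insert hb, ← ih]
    have h1 : (fun z => ∑ a ∈ insert b S, w a * Real.log ‖z - a‖) =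
        fun z => w b * Real.log ‖z - b‖ + ∑ a ∈ S, w a * Real.log ‖z - a‖ := by
      funext z
      rw [Finset.sum_insert hb]
    rw [h1]
    have h2 : CircleIntegrable (fun z => w b * Real.log ‖z - b‖) 0 r := by
      have := pf3_sum_int {b} w r
      simpa using this
    rw [pf3_add h2 (pf3_sum_int S w r) n, pf3_smul (w b) (fun z => Real.log ‖z - b‖) r n]

/-- the logarithm of `g` is a finite sum of logarithms and a harmonic function -/
theorem pf3_decomp {g : ℂ → ℂ} (hg : Meromorphic g) (hne : ∀ z, meromorphicOrderAt g z ≠ ⊤)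
    (R : ℝ) : ∃ v : ℂ → ℝ, InnerProductSpace.HarmonicOnNhd v (closedBall (0 : ℂ) R) ∧
      (∀ r, 0 ≤ r → r ≤ R → CircleIntegrable v 0 r) ∧
      (fun z => Real.log ‖g z‖) =ᶠ[codiscreteWithin (closedBall (0 : ℂ) R)]
        (fun z => ∑ a ∈ zs (dv g) R, dv g a * Real.log ‖z - a‖ + v z) := by
  have h1 : MeromorphicOn g (closedBall (0 : ℂ) R) := fun z _ => hg z
  have h3 := (MeromorphicOn.divisor g (closedBall (0 : ℂ) R)).finiteSupport
    (isCompact_closedBall (0 : ℂ) R)
  obtain ⟨h, hh1, hh2, hh3⟩ := h1.extract_zeros_poles (fun u => hne u) h3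
  have h4 := MeromorphicOn.extract_zeros_poles_log hh2 hh3
  refine ⟨fun z => Real.log ‖h z‖, ?_, ?_, ?_⟩
  · intro z hz
    exact (hh1 z hz).harmonicAt_log_norm (hh2 ⟨z, hz⟩)
  · intro r hr0 hr
    have h5 : MeromorphicOn h (sphere (0 : ℂ) |r|) := by
      intro z hz
      apply (hh1 z _).meromorphicAt
      rw [abs_of_nonneg hr0] at hz
      simp only [mem_sphere_iff_norm, sub_zero] at hz
      simp only [mem_closedBall, dist_zero_right]
      rw [hz]
      exact hr
    exact h5.circleIntegrable_log_norm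
  · refine h4.trans (Filter.Eventually.of_forall ?_)
    intro z
    have h6 : (∑ᶠ u, ((MeromorphicOn.divisor g (closedBall (0 : ℂ) R) u : ℝ) *
        (fun z : ℂ => Real.log ‖z - u‖) z)) =
        ∑ a ∈ zs (dv g) R, dv g a * Real.log ‖z - a‖ := by
      rw [finsum_eq_sum_of_support_subset (s := zs (dv g) R)]
      · apply Finset.sum_congr rfl
        intro a ha
        have ha2 := pf3_mem_zs.1 ha
        have h7 : MeromorphicOn.divisor g (closedBall (0 : ℂ) R) a =
            MeromorphicOn.divisor g Set.univ a := by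
          rw [MeromorphicOn.divisor_apply h1 (by simpa using ha2.1),
            MeromorphicOn.divisor_apply (fun z _ => hg z) (Set.mem_univ a)]
        rw [h7]
        rfl
      · intro a ha
        rw [Function.mem_support] at ha
        have h8 : MeromorphicOn.divisor g (closedBall (0 : ℂ) R) a ≠ 0 := by
          intro h0
          apply ha
          rw [h0]
          simp
        have h9 : a ∈ closedBall (0 : ℂ) R := by
          by_contra hc
          exact h8 (Function.locallyFinsuppWithin.apply_eq_zero_of_notMem _ hc)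
        have h7 : MeromorphicOn.divisor g (closedBall (0 : ℂ) R) a =
            MeromorphicOn.divisor g Set.univ a := by
          rw [MeromorphicOn.divisor_apply h1 h9,
            MeromorphicOn.divisor_apply (fun z _ => hg z) (Set.mem_univ a)]
        rw [Finset.mem_coe, pf3_mem_zs]
        refine ⟨by simpa using h9, ?_⟩
        unfold dv
        rw [← h7]
        exact_mod_cast h8
    have h10 : (Function.support fun u : ℂ =>
        (((MeromorphicOn.divisor g (closedBall (0 : ℂ) R) u : ℤ)) : ℂ → ℝ) *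
          (Real.log ‖· - u‖)).Finite := by
      refine h3.subset ?_
      intro a ha
      rw [Function.mem_support] at ha ⊢
      intro h0
      apply ha
      rw [h0]
      funext z
      simp
    show ((∑ᶠ u, ((((MeromorphicOn.divisor g (closedBall (0 : ℂ) R) u : ℤ)) : ℂ → ℝ) *
      (Real.log ‖· - u‖))) + (Real.log ‖h ·‖)) z = _
    rw [Pi.add_apply, finsum_apply h10]
    show _ = (∑ a ∈ zs (dv g) R, dv g a * Real.log ‖z - a‖) + Real.log ‖h z‖
    rw [← h6]
    rfl

theorem pf3_fc {g : ℂ → ℂ} {v : ℂ → ℝ} {R r : ℝ} (hr : 0 < r) (hrR : r ≤ R)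
    (hv : ∀ r, 0 ≤ r → r ≤ R → CircleIntegrable v 0 r)
    (h : (fun z => Real.log ‖g z‖) =ᶠ[codiscreteWithin (closedBall (0 : ℂ) R)]
        (fun z => ∑ a ∈ zs (dv g) R, dv g a * Real.log ‖z - a‖ + v z)) (n : ℕ) :
    fc (fun z => Real.log ‖g z‖) r n =
      ∑ a ∈ zs (dv g) R, (dv g a : ℂ) * fc (fun z => Real.log ‖z - a‖) r n + fc v r n := by
  rw [← pf3_sum, ← pf3_add (pf3_sum_int _ _ _) (hv r hr.le hrR) n]
  unfold fc
  apply Real.circleAverage_congr_codiscreteWithin _ hr.ne'
  have hs : sphere (0 : ℂ) |r| ⊆ closedBall (0 : ℂ) R := by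
    rw [abs_of_pos hr]
    exact sphere_subset_closedBall.trans (closedBall_subset_closedBall hrR)
  have h2 := Filter.codiscreteWithin_mono hs h
  filter_upwards [h2] with z hz
  rw [hz]

theorem pf3_two {g : ℂ → ℂ} (hg : Meromorphic g) (hne : ∀ z, meromorphicOrderAt g z ≠ ⊤) :
    TwoR (fun z => Real.log ‖g z‖) (dv g) ((fun a : ℂ => ‖a‖) '' {a | dv g a ≠ 0}) := by
  intro r R hr hrR hrE hRE n hn
  have hR : 0 < R := hr.trans hrR
  obtain ⟨v, hv1, hv2, hv3⟩ := pf3_decomp hg hne R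
  rw [pf3_fc hr hrR.le hv2 hv3 n, pf3_fc hR le_rfl hv2 hv3 n, fc_harmonic hr hrR hv1 n, mul_add,
    add_sub_add_right_eq_sub, Finset.mul_sum, Finset.mul_sum, ← Finset.sum_sub_distrib]
  apply Finset.sum_congr rfl
  intro a ha
  have ha2 := pf3_mem_zs.1 ha
  have har : ‖a‖ ≠ r := fun h => hrE ⟨a, ha2.2, h⟩
  have haR : ‖a‖ ≠ R := fun h => hRE ⟨a, ha2.2, h⟩
  have haR2 : ‖a‖ < R := lt_of_le_of_ne ha2.1 haR
  rw [fc_log_sub hr har hn, fc_log_sub hR haR hn, if_pos haR2]
  have hRc : (R : ℂ) ≠ 0 := by exact_mod_cast hR.ne'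
  have e1 : ((r : ℂ) * conj a / (R : ℂ) ^ 2) ^ n =
      ((r / R : ℝ) : ℂ) ^ n * (conj a / (R : ℂ)) ^ n := by
    rw [← mul_pow]
    congr 1
    push_cast
    field_simp
  rw [e1]
  ring

theorem dat_log {g : ℂ → ℂ} (hg : Meromorphic g) (hne : ∀ z, meromorphicOrderAt g z ≠ ⊤) :
    Dat (fun z => Real.log ‖g z‖) (dv g) ((fun a : ℂ => ‖a‖) '' {a | dv g a ≠ 0}) where
  lf := pf3_finite g
  int := by
    intro r
    have h : MeromorphicOn g (sphere (0 : ℂ) |r|) := fun z _ => hg z
    exact h.circleIntegrable_log_norm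
  two := pf3_two hg hne
  cE := by
    apply Set.Countable.image
    have h1 : {a : ℂ | dv g a ≠ 0} ⊆ ⋃ k : ℕ, {a : ℂ | ‖a‖ ≤ (k : ℝ) ∧ dv g a ≠ 0} := by
      intro a ha
      obtain ⟨k, hk⟩ := exists_nat_ge ‖a‖
      exact Set.mem_iUnion.2 ⟨k, hk, ha⟩
    exact (Set.countable_iUnion fun k : ℕ => (pf3_finite g (k : ℝ)).countable).mono h1
  wE := fun a ha => ⟨a, ha, rfl⟩

end Pool.Agent.PfA
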