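import Pool.Agent.PfA.Upper1

/-! MP_f2c8f8_an, project PfA, row PF-31 -/

set_option autoImplicit false

open Filter MeasureTheory ValueDistribution Metric
open scoped ComplexConjugate Topology

noncomputable section

namespace Pool.Agent.PfA

open Pool.Agent.H9.Pf

theorem pf31_sn_pos {ρ : ℝ} (hn : NonInt ρ) : 0 < sn ρ := by
  unfold sn
  rw [abs_pos, Real.sin_ne_zero_iff]
  intro n h
  apply hn n
  have hpi := Real.pi_ne_zero
  have h1 : Real.pi * n = Real.pi * ρ := by rw [← h]; ring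
  exact mul_left_cancel₀ hpi h1

theorem pf31_sn_le (ρ : ℝ) : sn ρ ≤ 1 := Real.abs_sin_le_one _

theorem pf31_T_low {ρ : ℝ} (hρ : 1 < ρ) (hn : NonInt ρ) :
    ∀ᶠ r : ℝ in atTop, (1 / (2 * sn ρ)) * r ^ ρ ≤ characteristic (PP ρ) ⊤ r := by
  have hs := pf31_sn_pos hn
  have h := T_PP hρ hn (ε := 1 / (2 * sn ρ)) (by positivity)
  have e : 1 / sn ρ - 1 / (2 * sn ρ) = 1 / (2 * sn ρ) := by field_simp; norm_num
  rwa [e] at h

theorem pf31_T_up {ρ : ℝ} (hρ : 1 < ρ) (hn : NonInt ρ) {σ : ℝ} (h1 : ρ < σ)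
    (h2 : σ ≤ ⌊ρ⌋₊ + 1) : ∃ C : ℝ, ∀ r : ℝ, 0 < r → characteristic (PP ρ) ⊤ r ≤ C * r ^ σ := by
  obtain ⟨C, hC⟩ := PP_growth hρ hn h1 h2
  have hf := PP_differentiable hρ hn
  refine ⟨C, fun r hr => ?_⟩
  rw [T_eq hf, T]
  apply Real.circleAverage_mono_on_of_le_circle
  · exact (continuous_posLog_norm hf.continuous).continuousOn.circleIntegrable'
  · intro z hz
    have hz' : ‖z‖ = r := by
      rw [mem_sphere_zero_iff_norm, abs_of_pos hr] at hz; exact hz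
    rw [← hz']
    exact hC z

theorem pf31_up {ρ : ℝ} (hρ : 1 < ρ) (hn : NonInt ρ) {ε : ℝ} (hε : 0 < ε) :
    ∀ᶠ r : ℝ in atTop, Real.log (characteristic (PP ρ) ⊤ r) / Real.log r ≤ ρ + ε := by
  have hs := pf31_sn_pos hn
  have hfl : ρ < (⌊ρ⌋₊ : ℝ) + 1 := Nat.lt_floor_add_one ρ
  set σ : ℝ := min (ρ + ε / 2) (⌊ρ⌋₊ + 1) with hσ
  have h1 : ρ < σ := lt_min (by linarith) hfl
  have h2 : σ ≤ ⌊ρ⌋₊ + 1 := min_le_right _ _
  have h3 : σ ≤ ρ + ε / 2 := min_le_left _ _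
  obtain ⟨C, hC⟩ := pf31_T_up hρ hn h1 h2
  have hlim : Tendsto (fun r : ℝ => Real.log (|C| + 1) / Real.log r) atTop (𝓝 0) :=
    Tendsto.div_atTop tendsto_const_nhds Real.tendsto_log_atTop
  filter_upwards [hlim.eventually_le_const (half_pos hε), eventually_gt_atTop 1,
    pf31_T_low hρ hn] with r h4 h5 h6
  have hr : 0 < r := by linarith
  have hlr := Real.log_pos h5
  have hT : 0 < characteristic (PP ρ) ⊤ r := lt_of_lt_of_le (by positivity) h6
  have h7 : characteristic (PP ρ) ⊤ r ≤ (|C| + 1) * r ^ σ := by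
    refine (hC r hr).trans ?_
    have : C ≤ |C| + 1 := (le_abs_self C).trans (by linarith)
    gcongr
  have h8 : Real.log (characteristic (PP ρ) ⊤ r) ≤ Real.log (|C| + 1) + σ * Real.log r := by
    rw [← Real.log_rpow hr, ← Real.log_mul (by positivity) (by positivity)]
    exact Real.log_le_log hT h7
  rw [div_le_iff₀ hlr] at h4 ⊢
  nlinarith

theorem pf31_low {ρ : ℝ} (hρ : 1 < ρ) (hn : NonInt ρ) {ε : ℝ} (hε : 0 < ε) :
    ∀ᶠ r : ℝ in atTop, ρ - ε ≤ Real.log (characteristic (PP ρ) ⊤ r) / Real.log r := by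
  have hs := pf31_sn_pos hn
  have hlim : Tendsto (fun r : ℝ => -Real.log (1 / (2 * sn ρ)) / Real.log r) atTop (𝓝 0) :=
    Tendsto.div_atTop tendsto_const_nhds Real.tendsto_log_atTop
  filter_upwards [hlim.eventually_le_const hε, eventually_gt_atTop 1,
    pf31_T_low hρ hn] with r h4 h5 h6
  have hr : 0 < r := by linarith
  have hlr := Real.log_pos h5
  have h8 : Real.log (1 / (2 * sn ρ)) + ρ * Real.log r ≤
      Real.log (characteristic (PP ρ) ⊤ r) := by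
    rw [← Real.log_rpow hr, ← Real.log_mul (by positivity) (by positivity)]
    exact Real.log_le_log (by positivity) h6
  rw [div_le_iff₀ hlr] at h4
  rw [le_div_iff₀ hlr]
  nlinarith

theorem order_PP {ρ : ℝ} (hρ : 1 < ρ) (hn : NonInt ρ) : order (PP ρ) = (ρ : EReal) := by
  apply le_antisymm
  · exact limsup_le_real fun ε hε => pf31_up hρ hn hε
  · exact le_limsup_real fun ε hε => (pf31_low hρ hn hε).frequently

theorem pf31_def_top {ρ : ℝ} (hρ : 1 < ρ) (hn : NonInt ρ) : deficiency (PP ρ) ⊤ = 1 := by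
  unfold deficiency
  rw [logCounting_top_eq (PP_differentiable hρ hn)]
  simp

theorem pf31_def_zero {ρ : ℝ} (hρ : 1 < ρ) (hn : NonInt ρ) :
    ((1 - sn ρ / ρ : ℝ) : EReal) ≤ deficiency (PP ρ) (0 : ℂ) := by
  have hs := pf31_sn_pos hn
  have hρ0 : 0 < ρ := by linarith
  have h : limsup (fun r : ℝ => ((logCounting (PP ρ) ((0 : ℂ) : WithTop ℂ) r /
      characteristic (PP ρ) ⊤ r : ℝ) : EReal)) atTop ≤ ((sn ρ / ρ : ℝ) : EReal) := by
    apply limsup_le_real
    intro ε hε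
    have hlim : Tendsto (fun d : ℝ => (1 / ρ + d) - (sn ρ / ρ + ε) * (1 / sn ρ - d))
        (𝓝[>] 0) (𝓝 ((1 / ρ + 0) - (sn ρ / ρ + ε) * (1 / sn ρ - 0))) := by
      apply Tendsto.mono_left _ nhdsWithin_le_nhds
      exact (by fun_prop : Continuous fun d : ℝ =>
        (1 / ρ + d) - (sn ρ / ρ + ε) * (1 / sn ρ - d)).tendsto 0
    have hneg : (1 / ρ + 0) - (sn ρ / ρ + ε) * (1 / sn ρ - 0) < 0 := by
      have e : (1 / ρ + 0) - (sn ρ / ρ + ε) * (1 / sn ρ - 0) = - (ε / sn ρ) := by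
        field_simp; ring
      rw [e]
      have : 0 < ε / sn ρ := by positivity
      linarith
    have hd : ∀ᶠ d : ℝ in 𝓝[>] 0, d < 1 / sn ρ := by
      apply nhdsWithin_le_nhds
      exact eventually_lt_nhds (by positivity)
    obtain ⟨d, hd1, hd2, hd3⟩ := ((hlim.eventually_lt_const hneg).and
      (hd.and self_mem_nhdsWithin)).exists
    have hd3 : 0 < d := hd3
    filter_upwards [T_PP hρ hn hd3, N_PP hρ hn hd3, eventually_gt_atTop 0] with r h1 h2 h3
    have hr : 0 < r ^ ρ := Real.rpow_pos_of_pos h3 _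
    have hT : 0 < characteristic (PP ρ) ⊤ r :=
      lt_of_lt_of_le (mul_pos (by linarith) hr) h1
    rw [div_le_iff₀ hT]
    have h2' : logCounting (PP ρ) ((0 : ℂ) : WithTop ℂ) r ≤ (1 / ρ + d) * r ^ ρ := h2
    refine h2'.trans (le_trans ?_ (mul_le_mul_of_nonneg_left h1 (by positivity)))
    nlinarith
  unfold deficiency
  have h1 : ((1 - sn ρ / ρ : ℝ) : EReal) = 1 - ((sn ρ / ρ : ℝ) : EReal) := by
    push_cast; rfl
  rw [h1]
  exact EReal.sub_le_sub le_rfl h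

theorem K_le {ρ : ℝ} (hρ : 1 < ρ) (hn : NonInt ρ) : K ρ ≤ ((sn ρ / ρ : ℝ) : EReal) := by
  have hs := pf31_sn_pos hn
  have hρ0 : 0 < ρ := by linarith
  have h1 : sn ρ / ρ ≤ 1 := by
    rw [div_le_one hρ0]
    have := pf31_sn_le ρ
    linarith
  have hK : K ρ ≤ 2 - deficiencySum (PP ρ) :=
    iInf_le (fun f : {f : ℂ → ℂ // Differentiable ℂ f ∧ order f = (ρ : EReal)} =>
      (2 - deficiencySum f.1)) ⟨PP ρ, PP_differentiable hρ hn, order_PP hρ hn⟩
  have h0 := pf31_def_zero hρ hn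
  have ht := pf31_def_top hρ hn
  have hnn : (0 : EReal) ≤ ((1 - sn ρ / ρ : ℝ) : EReal) := by
    exact_mod_cast (by linarith : (0 : ℝ) ≤ 1 - sn ρ / ρ)
  have hsum : (deficiency (PP ρ) ⊤).toENNReal + (deficiency (PP ρ) (0 : ℂ)).toENNReal ≤
      ∑' a : WithTop ℂ, (deficiency (PP ρ) a).toENNReal := by
    have h := ENNReal.sum_le_tsum (f := fun a : WithTop ℂ => (deficiency (PP ρ) a).toENNReal)
      {⊤, ((0 : ℂ) : WithTop ℂ)}
    rwa [Finset.sum_pair (by simp)] at h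
  have hdS : ((2 - sn ρ / ρ : ℝ) : EReal) ≤ deficiencySum (PP ρ) := by
    unfold deficiencySum
    refine le_trans ?_ (EReal.coe_ennreal_le_coe_ennreal_iff.2 hsum)
    rw [EReal.coe_ennreal_add, EReal.coe_toENNReal (hnn.trans h0), ht]
    rw [EReal.coe_toENNReal (by norm_num)]
    refine le_trans ?_ (add_le_add_right h0 1)
    have : ((2 - sn ρ / ρ : ℝ) : EReal) = ((1 + (1 - sn ρ / ρ) : ℝ) : EReal) := by
      congr 1; ring
    rw [this]
    push_cast
    exact le_rfl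
  refine hK.trans ((EReal.sub_le_sub le_rfl hdS).trans ?_)
  have : (2 : EReal) - ((2 - sn ρ / ρ : ℝ) : EReal) = ((2 - (2 - sn ρ / ρ) : ℝ) : EReal) := by
    push_cast; rfl
  rw [this]
  apply le_of_eq
  congr 1
  ring

end Pool.Agent.PfA
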