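import Pool.Agent.PfA.ProdFc
import Pool.Agent.PfA.Kap
import Pool.Agent.PfA.Indic
import Pool.Agent.PfA.Dual
import Pool.Agent.PfA.Pair

/-! MP_f2c8f8_an, project PfA, row PF-30 -/

set_option autoImplicit false

open Filter MeasureTheory ValueDistribution Metric
open scoped ComplexConjugate Topology

noncomputable section

namespace Pool.Agent.PfA

/-- the logarithm of the modulus of the product -/
private def pf30_u (ρ : ℝ) (z : ℂ) : ℝ := Real.log ‖PP ρ z‖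

/-- the coefficients up to signs -/
private def pf30_S (ρ : ℝ) (n : ℕ) (r : ℝ) : ℝ := ∑' k : ℕ, kap ⌊ρ⌋₊ n (r / aa ρ k)

private theorem pf30_fc0 (u : ℂ → ℝ) (r : ℝ) :
    fc u r 0 = ((Real.circleAverage u 0 r : ℝ) : ℂ) := by
  unfold fc Real.circleAverage
  simp only [pow_zero, mul_one]
  rw [intervalIntegral.integral_ofReal]
  simp

private theorem pf30_int {ρ : ℝ} (hρ : 1 < ρ) (hn : NonInt ρ) (r : ℝ) :
    CircleIntegrable (pf30_u ρ) 0 r :=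
  MeromorphicOn.circleIntegrable_log_norm fun z _ =>
    ((PP_differentiable hρ hn).analyticAt z).meromorphicAt

private theorem pf30_fc {ρ : ℝ} (hρ : 1 < ρ) (hn : NonInt ρ) {r : ℝ} (hr : 0 < r)
    (hreg : r ∉ Set.range (aa ρ)) (n : ℕ) :
    fc (pf30_u ρ) r n = (((-1) ^ n * pf30_S ρ n r : ℝ) : ℂ) := by
  have h1 := fc_PP hρ hn hr (fun k hk => hreg ⟨k, hk⟩) n
  have h2 := h1.tsum_eq
  rw [tsum_mul_left, ← Complex.ofReal_tsum] at h2
  show fc (fun z => Real.log ‖PP ρ z‖) r n = _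
  rw [← h2]
  unfold pf30_S
  push_cast
  rfl

private theorem pf30_avg {ρ : ℝ} (hρ : 1 < ρ) (hn : NonInt ρ) {r : ℝ} (hr : 0 < r)
    (hreg : r ∉ Set.range (aa ρ)) : Real.circleAverage (pf30_u ρ) 0 r = pf30_S ρ 0 r := by
  have h1 := pf30_fc hρ hn hr hreg 0
  rw [pf30_fc0, pow_zero, one_mul] at h1
  exact_mod_cast h1

private theorem pf30_T {ρ : ℝ} (hρ : 1 < ρ) (hn : NonInt ρ) (r : ℝ) :
    characteristic (PP ρ) ⊤ r =
      (Real.circleAverage (pf30_u ρ) 0 r + UU (pf30_u ρ) r) / 2 := by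
  have hd := PP_differentiable hρ hn
  rw [Pool.Agent.H9.Pf.T_eq hd]
  unfold Pool.Agent.H9.Pf.T UU
  have h1 : (fun w => Real.posLog ‖PP ρ w‖) =
      fun w => (2 : ℝ)⁻¹ • (pf30_u ρ w + |pf30_u ρ w|) := by
    funext w
    unfold pf30_u
    rw [smul_eq_mul, Real.half_mul_log_add_log_abs]
  have hi := pf30_int hρ hn r
  have hi2 : CircleIntegrable (fun w => |pf30_u ρ w|) 0 r := hi.abs
  rw [h1, Real.circleAverage_fun_smul, Real.circleAverage_fun_add hi hi2, smul_eq_mul]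
  ring

private theorem pf30_N {ρ : ℝ} (hρ : 1 < ρ) (hn : NonInt ρ) {r : ℝ} (hr : 0 < r) :
    logCounting (PP ρ) 0 r = Real.circleAverage (pf30_u ρ) 0 r := by
  have hd := PP_differentiable hρ hn
  have hm : Meromorphic (PP ρ) := fun z => (hd.analyticAt z).meromorphicAt
  have h1 := logCounting_zero_sub_logCounting_top_eq_circleAverage_sub_const hm hr.ne'
  rw [Pi.sub_apply, Pool.Agent.H9.Pf.logCounting_top_eq hd, Pi.zero_apply, sub_zero,
    (hd.analyticAt 0).meromorphicTrailingCoeffAt_of_ne_zero (by rw [PP_zero]; exact one_ne_zero),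
    PP_zero, norm_one, Real.log_one, sub_zero] at h1
  exact h1

/-- the pairing with real coefficients -/
private def pf30_Q (M : ℕ) (b : ℕ → ℂ) (c : ℕ → ℝ) : ℝ :=
  c 0 * (b 0).re + 2 * ∑ n ∈ Finset.Icc 1 M, c n * (b n).re

private theorem pf30_pr {u : ℂ → ℝ} {r : ℝ} {M : ℕ} {b : ℕ → ℂ} {c : ℕ → ℝ}
    (h : ∀ n, fc u r n = ((c n : ℝ) : ℂ)) : pr u r M b = pf30_Q M b c := by
  unfold pr pf30_Q
  simp only [h, Complex.re_ofReal_mul, Complex.conj_re]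

private theorem pf30_lim {ρ : ℝ} (hρ : 1 < ρ) (hn : NonInt ρ) (M : ℕ) (b : ℕ → ℂ) :
    Tendsto (fun r : ℝ => (r ^ ρ)⁻¹ * pf30_Q M b (fun n => (-1) ^ n * pf30_S ρ n r)) atTop
      (𝓝 (pf30_Q M b (fun n => (-1) ^ n * (ρ / (ρ ^ 2 - (n : ℝ) ^ 2))))) := by
  have h1 : ∀ n : ℕ, Tendsto (fun r : ℝ => (-1) ^ n * ((r ^ ρ)⁻¹ * pf30_S ρ n r)) atTop
      (𝓝 ((-1) ^ n * (ρ / (ρ ^ 2 - (n : ℝ) ^ 2)))) := fun n =>
    (kap_tendsto hρ hn n).const_mul _
  have h2 : Tendsto (fun r : ℝ => pf30_Q M b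
      (fun n => (-1) ^ n * ((r ^ ρ)⁻¹ * pf30_S ρ n r))) atTop
      (𝓝 (pf30_Q M b (fun n => (-1) ^ n * (ρ / (ρ ^ 2 - (n : ℝ) ^ 2))))) := by
    unfold pf30_Q
    refine ((h1 0).mul_const _).add (Tendsto.const_mul _ ?_)
    exact tendsto_finsetSum _ fun n _ => (h1 n).mul_const _
  refine h2.congr fun r => ?_
  unfold pf30_Q
  rw [mul_add, Finset.mul_sum, Finset.mul_sum, Finset.mul_sum]
  congr 1
  · ring
  · refine Finset.sum_congr rfl fun n _ => ?_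
    ring

private theorem pf30_dense (ρ : ℝ) : Dense (Set.range (aa ρ))ᶜ :=
  (Set.countable_range _).dense_compl ℝ

private theorem pf30_up {F g : ℝ → ℝ} {E : Set ℝ} (hE : Dense Eᶜ)
    (hF : MonotoneOn F (Set.Ioi 0)) (hg : Continuous g)
    (h : ∀ᶠ r : ℝ in atTop, r ∉ E → g r ≤ F r) : ∀ᶠ r : ℝ in atTop, g r ≤ F r := by
  obtain ⟨R, hR⟩ := eventually_atTop.mp h
  filter_upwards [eventually_gt_atTop (max R 1)] with r hr
  have hcl : IsClosed {x : ℝ | g x ≤ F r} := isClosed_le hg continuous_const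
  have hsub : Set.Ioo (max R 1) r ∩ Eᶜ ⊆ {x : ℝ | g x ≤ F r} := by
    rintro x ⟨hx, hx'⟩
    have h6 : 0 < x := by
      have := le_max_right R 1
      linarith [hx.1]
    have h7 : g x ≤ F x := hR x ((le_max_left R 1).trans hx.1.le) hx'
    have h8 : F x ≤ F r := hF h6 (h6.trans hx.2) hx.2.le
    exact h7.trans h8
  have h7 : closure (Set.Ioo (max R 1) r) ⊆ {x : ℝ | g x ≤ F r} := by
    refine closure_minimal ?_ hcl
    exact (hE.open_subset_closure_inter isOpen_Ioo).trans (closure_minimal hsub hcl)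
  rw [closure_Ioo hr.ne] at h7
  exact h7 ⟨hr.le, le_refl r⟩

private theorem pf30_down {F g : ℝ → ℝ} {E : Set ℝ} (hE : Dense Eᶜ)
    (hF : MonotoneOn F (Set.Ioi 0)) (hg : Continuous g)
    (h : ∀ᶠ r : ℝ in atTop, r ∉ E → F r ≤ g r) : ∀ᶠ r : ℝ in atTop, F r ≤ g r := by
  obtain ⟨R, hR⟩ := eventually_atTop.mp h
  filter_upwards [eventually_gt_atTop (max R 1)] with r hr
  have hr0 : 0 < r := by
    have := le_max_right R 1
    linarith
  have hcl : IsClosed {x : ℝ | F r ≤ g x} := isClosed_le continuous_const hg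
  have hsub : Set.Ioi r ∩ Eᶜ ⊆ {x : ℝ | F r ≤ g x} := by
    rintro x ⟨hx, hx'⟩
    have hx1 : r < x := hx
    have h7 : F x ≤ g x := hR x ((le_max_left R 1).trans (hr.trans hx1).le) hx'
    have h8 : F r ≤ F x := hF hr0 (hr0.trans hx1) hx1.le
    exact h8.trans h7
  have h7 : closure (Set.Ioi r) ⊆ {x : ℝ | F r ≤ g x} := by
    refine closure_minimal ?_ hcl
    exact (hE.open_subset_closure_inter isOpen_Ioi).trans (closure_minimal hsub hcl)
  rw [closure_Ioi] at h7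
  exact h7 (le_refl r)

private theorem pf30_e1 {ρ : ℝ} (hρ : ρ ≠ 0) : ρ / (ρ ^ 2 - ((0 : ℕ) : ℝ) ^ 2) = 1 / ρ := by
  rw [Nat.cast_zero, zero_pow two_ne_zero, sub_zero]
  field_simp

private theorem pf30_e2 {ρ s : ℝ} (hρ : ρ ≠ 0) (hs : s ≠ 0) :
    (2 * ρ - s) / (ρ * s) = 2 / s - 1 / ρ := by
  field_simp

private theorem pf30_sn {ρ : ℝ} (hn : NonInt ρ) : 0 < sn ρ := abs_pos.mpr (by
  intro h
  obtain ⟨n, hn'⟩ := Real.sin_eq_zero_iff.mp h
  refine hn n ?_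
  have h1 : Real.pi * ((n : ℝ) - ρ) = 0 := by linarith
  rcases mul_eq_zero.mp h1 with h2 | h2
  · exact absurd h2 Real.pi_pos.ne'
  · linarith)

private theorem pf30_arith {s ρ ε A L U q : ℝ} (hq : 0 < q) (h2 : 2 / s - 1 / ρ - ε ≤ L)
    (h3 : q * (L - ε / 2) < U) (h4 : q * (1 / ρ - ε / 2) < A) :
    (1 / s - ε) * q ≤ (A + U) / 2 := by
  have h8 : q * (2 / s - 1 / ρ - ε - ε / 2) ≤ q * (L - ε / 2) :=
    mul_le_mul_of_nonneg_left (by linarith) hq.le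
  have e3 : (1 / s - ε) * q = (q * (1 / ρ - ε / 2) +
      q * (2 / s - 1 / ρ - ε - ε / 2)) / 2 := by ring
  rw [e3]
  linarith

private theorem pf30_reg {ρ : ℝ} (hρ : 1 < ρ) (hn : NonInt ρ) {ε : ℝ} (hε : 0 < ε) :
    ∀ᶠ r : ℝ in atTop, r ∉ Set.range (aa ρ) →
      (1 / sn ρ - ε) * r ^ ρ ≤ characteristic (PP ρ) ⊤ r := by
  have hρ0 : ρ ≠ 0 := by linarith
  have hs : sn ρ ≠ 0 := (pf30_sn hn).ne'
  obtain ⟨M, b, hb, h1⟩ := duality one_pos (hh_circleIntegrable (ρ := ρ) 1) hε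
  have h2 := UU_hh hρ hn
  rw [pf30_pr (fc_hh hρ hn)] at h1
  rw [pf30_e2 hρ0 hs] at h2
  have hL := pf30_lim hρ hn M b
  set L : ℝ := pf30_Q M b (fun n => (-1) ^ n * (ρ / (ρ ^ 2 - (n : ℝ) ^ 2))) with hLdef
  have h3 := hL.eventually_const_lt (show L - ε / 2 < L from sub_lt_self _ (by linarith))
  have hK := kap_tendsto hρ hn 0
  rw [pf30_e1 hρ0] at hK
  have h4 := hK.eventually_const_lt
    (show 1 / ρ - ε / 2 < 1 / ρ from sub_lt_self _ (by linarith))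
  filter_upwards [h3, h4, eventually_gt_atTop 0] with r h3 h4 hr hreg
  have hr' : 0 < r ^ ρ := Real.rpow_pos_of_pos hr ρ
  rw [pf30_T hρ hn, pf30_avg hρ hn hr hreg]
  have h6 := pr_le hr (pf30_int hρ hn r) hb
  rw [pf30_pr (pf30_fc hρ hn hr hreg)] at h6
  rw [lt_inv_mul_iff₀ hr'] at h3 h4
  exact pf30_arith hr' (by linarith) (h3.trans_le h6) h4

private theorem pf30_regN {ρ : ℝ} (hρ : 1 < ρ) (hn : NonInt ρ) {ε : ℝ} (hε : 0 < ε) :
    ∀ᶠ r : ℝ in atTop, r ∉ Set.range (aa ρ) →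
      logCounting (PP ρ) 0 r ≤ (1 / ρ + ε) * r ^ ρ := by
  have hρ0 : ρ ≠ 0 := by linarith
  have hK := kap_tendsto hρ hn 0
  rw [pf30_e1 hρ0] at hK
  have h4 := hK.eventually_lt_const (show 1 / ρ < 1 / ρ + ε from lt_add_of_pos_right _ hε)
  filter_upwards [h4, eventually_gt_atTop 0] with r h4 hr hreg
  have hr' : 0 < r ^ ρ := Real.rpow_pos_of_pos hr ρ
  rw [pf30_N hρ hn hr, pf30_avg hρ hn hr hreg]
  rw [inv_mul_lt_iff₀ hr'] at h4
  rw [mul_comm]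
  exact h4.le

theorem T_PP {ρ : ℝ} (hρ : 1 < ρ) (hn : NonInt ρ) {ε : ℝ} (hε : 0 < ε) :
    ∀ᶠ r : ℝ in atTop, (1 / sn ρ - ε) * r ^ ρ ≤ characteristic (PP ρ) ⊤ r := by
  have hρ0 : 0 ≤ ρ := by linarith
  have hm : Meromorphic (PP ρ) := fun z =>
    ((PP_differentiable hρ hn).analyticAt z).meromorphicAt
  have hcont : Continuous fun x : ℝ => (1 / sn ρ - ε) * x ^ ρ :=
    continuous_const.mul (Real.continuous_rpow_const hρ0)
  exact pf30_up (pf30_dense ρ) (characteristic_monotoneOn hm) hcont (pf30_reg hρ hn hε)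

theorem N_PP {ρ : ℝ} (hρ : 1 < ρ) (hn : NonInt ρ) {ε : ℝ} (hε : 0 < ε) :
    ∀ᶠ r : ℝ in atTop, logCounting (PP ρ) 0 r ≤ (1 / ρ + ε) * r ^ ρ := by
  have hρ0 : 0 ≤ ρ := by linarith
  have hcont : Continuous fun x : ℝ => (1 / ρ + ε) * x ^ ρ :=
    continuous_const.mul (Real.continuous_rpow_const hρ0)
  exact pf30_down (pf30_dense ρ) logCounting_monotoneOn hcont (pf30_regN hρ hn hε)

end Pool.Agent.PfA
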